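import Pool.Agent.Lib.MP_305fdd_al.PSL.Defs

/-!
# MP_305fdd_al: the trace ring `B` is a finite product of Dedekind domains (piece P5)
-/

set_option autoImplicit false

namespace Pool.Agent.PSL2Z

open Polynomial Pool.Agent.Lib.MP_305fdd_al IsLocalRing

/-- A noetherian local ring whose maximal ideal is principal and not nilpotent is a domain. -/
theorem isDomain_of_principal (R : Type) [CommRing R] [IsLocalRing R] [IsNoetherianRing R]
    (hp : (maximalIdeal R).IsPrincipal) (hn : ∀ k : ℕ, maximalIdeal R ^ k ≠ ⊥) : IsDomain R := by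
  obtain ⟨q, hq⟩ := hp.principal
  have hq' : maximalIdeal R = Ideal.span {q} := hq
  have hqk : ∀ k : ℕ, q ^ k ≠ 0 := by
    intro k h
    apply hn k
    rw [hq', Ideal.span_singleton_pow, h]
    simp
  have key : ∀ x : R, x ≠ 0 → ∃ (n : ℕ) (u : R), IsUnit u ∧ x = u * q ^ n := by
    intro x hx
    have h1 : ∃ n : ℕ, x ∉ maximalIdeal R ^ n := by
      by_contra! hcon
      apply hx
      have h2 : x ∈ ⨅ i : ℕ, maximalIdeal R ^ i := by
        rw [Ideal.mem_iInf]; exact hcon
      rw [Ideal.iInf_pow_eq_bot_of_isLocalRing _ (Ideal.IsPrime.ne_top inferInstance)] at h2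
      exact h2
    classical
    have h3 := Nat.find_spec h1
    obtain ⟨n, hn'⟩ : ∃ n, Nat.find h1 = n + 1 := by
      refine Nat.exists_eq_succ_of_ne_zero ?_
      intro h0
      rw [h0] at h3
      simp at h3
    have h4 : x ∈ maximalIdeal R ^ n := by
      by_contra h5
      have := Nat.find_min' h1 h5
      omega
    rw [hn'] at h3
    rw [hq', Ideal.span_singleton_pow, Ideal.mem_span_singleton'] at h4
    obtain ⟨u, hu⟩ := h4
    refine ⟨n, u, ?_, hu.symm⟩
    by_contra hnu
    apply h3
    rw [pow_succ, ← hu, mul_comm u]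
    have hum : u ∈ maximalIdeal R := (mem_maximalIdeal u).mpr hnu
    have hqm : q ^ n ∈ maximalIdeal R ^ n := by
      apply Ideal.pow_mem_pow
      rw [hq']; exact Ideal.mem_span_singleton_self q
    exact Ideal.mul_mem_mul hqm hum
  have : NoZeroDivisors R := by
    constructor
    intro a b hab
    by_contra! hcon
    obtain ⟨n, u, hu, ha⟩ := key a hcon.1
    obtain ⟨m, w, hw, hb⟩ := key b hcon.2
    apply hqk (n + m)
    have h1 : (u * w) * q ^ (n + m) = 0 := by
      rw [← hab, ha, hb, pow_add]; ring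
    exact ((hu.mul hw).mul_right_eq_zero).mp h1
  exact NoZeroDivisors.to_isDomain R

/-- Nakayama: if `m ≤ (b) + m²` then the maximal ideal of the localisation at `m` is principal. -/
theorem principal_localization {D : Type} [CommRing D] [IsNoetherianRing D] (m : Ideal D)
    [m.IsPrime] (b : D) (hb : b ∈ m) (h : m ≤ Ideal.span {b} ⊔ m ^ 2) :
    (maximalIdeal (Localization.AtPrime m)).IsPrincipal := by
  have hM : maximalIdeal (Localization.AtPrime m) = m.map (algebraMap D (Localization.AtPrime m)) :=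
    (Localization.AtPrime.map_eq_maximalIdeal).symm
  set M := maximalIdeal (Localization.AtPrime m) with hMdef
  have h1 : M ≤ Ideal.span {algebraMap D (Localization.AtPrime m) b} ⊔ M ^ 2 := by
    have h2 := Ideal.map_mono (f := algebraMap D (Localization.AtPrime m)) h
    rw [Ideal.map_sup, Ideal.map_pow, ← hM, Ideal.map_span, Set.image_singleton] at h2
    exact h2
  have hbM : Ideal.span {algebraMap D (Localization.AtPrime m) b} ≤ M := by
    rw [Ideal.span_singleton_le_iff_mem, hM]
    exact Ideal.mem_map_of_mem _ hb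
  have hfg : M.FG := IsNoetherian.noetherian _
  have h3 : M ≤ Ideal.span {algebraMap D (Localization.AtPrime m) b} := by
    refine Submodule.le_of_le_smul_of_le_jacobson_bot hfg (I := M) ?_ ?_
    · rw [IsLocalRing.jacobson_eq_maximalIdeal ⊥ bot_ne_top]
    · rw [smul_eq_mul, ← pow_two]; exact h1
  exact ⟨⟨_, le_antisymm h3 hbM⟩⟩


section TR

variable {B : Type} [CommRing B] [Algebra F B]
  {ev : ∀ J : {J : Ideal F[X] // J ≠ ⊥}, B →ₐ[F] F[X] ⧸ J.1}

theorem finite_quotient_maximal {B : Type} [CommRing B] [Algebra F B] [Algebra.FiniteType F B]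
    (m : Ideal B) [m.IsMaximal] : Finite (B ⧸ m) := by
  let : Field (B ⧸ m) := Ideal.Quotient.field m
  have : Module.Finite F (B ⧸ m) := finite_of_finite_type_of_isJacobsonRing F (B ⧸ m)
  exact Module.finite_of_finite F

theorem exists_gen (hB : IsTR B ev) (m : Ideal B) [m.IsMaximal] :
    ∃ b ∈ m, m ≤ Ideal.span {b} ⊔ m ^ 2 := by
  have := hB.fg
  have : IsNoetherianRing B := Algebra.FiniteType.isNoetherianRing F B
  have := finite_quotient_maximal m
  have : Finite (B ⧸ m ^ 2) := Ideal.finite_quotient_pow (IsNoetherian.noetherian m) 2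
  obtain ⟨J, hJ⟩ := hB.fin (m ^ 2) this
  have : IsPrincipalIdealRing (F[X] ⧸ J.1) :=
    IsPrincipalIdealRing.of_surjective _ Ideal.Quotient.mk_surjective
  obtain ⟨c, hc⟩ := (IsPrincipalIdealRing.principal (m.map (ev J))).principal
  have hc' : m.map (ev J) = Ideal.span {c} := hc
  have hcm : c ∈ m.map (ev J) := by rw [hc']; exact Ideal.mem_span_singleton_self c
  rw [Ideal.mem_map_iff_of_surjective _ (hB.surj J)] at hcm
  obtain ⟨b, hb, hbc⟩ := hcm
  refine ⟨b, hb, fun a ha => ?_⟩
  have h1 : ev J a ∈ Ideal.span {c} := by rw [← hc']; exact Ideal.mem_map_of_mem _ ha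
  rw [Ideal.mem_span_singleton'] at h1
  obtain ⟨d, hd⟩ := h1
  obtain ⟨d', rfl⟩ := hB.surj J d
  have h2 : a - d' * b ∈ m ^ 2 := by
    rw [hJ, RingHom.mem_ker]
    change ev J (a - d' * b) = 0
    rw [map_sub, map_mul, hbc, hd, sub_self]
  have h3 : a = d' * b + (a - d' * b) := by ring
  rw [h3]
  exact Ideal.add_mem _ (Ideal.mem_sup_left (Ideal.mem_span_singleton'.mpr ⟨d', rfl⟩))
    (Ideal.mem_sup_right h2)

theorem not_nilpotent (hB : IsTR B ev) (m : Ideal B) [hm : m.IsMaximal] (k : ℕ) :
    maximalIdeal (Localization.AtPrime m) ^ k ≠ ⊥ := by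
  have := hB.fg
  have := finite_quotient_maximal m
  obtain ⟨J, hJ⟩ := hB.fin m this
  -- `J` is maximal
  have hJmax : J.1.IsMaximal := by
    apply Ideal.Quotient.maximal_of_isField
    let e : (B ⧸ m) ≃+* (F[X] ⧸ J.1) :=
      (Ideal.quotEquivOfEq hJ).trans (RingHom.quotientKerEquivOfSurjective (f := (ev J : B →+* F[X] ⧸ J.1)) (hB.surj J))
    exact e.symm.toMulEquiv.isField ((Ideal.Quotient.maximal_ideal_iff_isField_quotient m).mp hm)
  have hJk : J.1 ^ (k + 1) ≠ ⊥ := pow_ne_zero _ J.2
  set J' : {J : Ideal F[X] // J ≠ ⊥} := ⟨J.1 ^ (k + 1), hJk⟩ with hJ'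
  have hle : J'.1 ≤ J.1 := Ideal.pow_le_self (Nat.succ_ne_zero k)
  set N : Ideal (F[X] ⧸ J'.1) := J.1.map (Ideal.Quotient.mk J'.1) with hN
  have hNk : N ^ (k + 1) = ⊥ := by
    rw [hN, ← Ideal.map_pow, Ideal.map_eq_bot_iff_le_ker, Ideal.mk_ker]
  have hcomap : ∀ b : B, ev J' b ∈ N ↔ b ∈ m := by
    intro b
    rw [hN, ← Ideal.Quotient.factor_ker hle, RingHom.mem_ker, hB.compat J' J hle b, hJ]
    rfl
  have hmap : m.map (ev J' : B →+* F[X] ⧸ J'.1) = N := by
    apply le_antisymm
    · rw [Ideal.map_le_iff_le_comap]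
      intro b hb
      exact (hcomap b).mpr hb
    · intro c hc
      obtain ⟨b, rfl⟩ := hB.surj J' c
      exact Ideal.mem_map_of_mem _ ((hcomap b).mp hc)
  have hunit : ∀ s : m.primeCompl, IsUnit ((ev J' : B →+* F[X] ⧸ J'.1) s) := by
    rintro ⟨s, hs⟩
    obtain ⟨r, i, hi, hri⟩ := hm.exists_inv hs
    have h1 : IsNilpotent ((ev J' : B →+* F[X] ⧸ J'.1) i) := by
      refine ⟨k + 1, ?_⟩
      have h2 : ((ev J' : B →+* F[X] ⧸ J'.1) i) ^ (k + 1) ∈ N ^ (k + 1) :=
        Ideal.pow_mem_pow ((hcomap i).mpr hi) _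
      rw [hNk] at h2
      exact h2
    have h3 : (ev J' : B →+* F[X] ⧸ J'.1) r * (ev J' : B →+* F[X] ⧸ J'.1) s
        = 1 - (ev J' : B →+* F[X] ⧸ J'.1) i := by
      rw [← map_mul, ← map_one (ev J' : B →+* F[X] ⧸ J'.1), ← hri, map_add]
      ring
    have h4 := h1.isUnit_one_sub
    rw [← h3] at h4
    exact isUnit_of_mul_isUnit_right h4
  intro hbot
  have h5 := congrArg (Ideal.map (IsLocalization.lift (S := Localization.AtPrime m) hunit)) hbot
  rw [Ideal.map_pow, ← Localization.AtPrime.map_eq_maximalIdeal, Ideal.map_map,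
    IsLocalization.lift_comp, hmap, Ideal.map_bot, hN, ← Ideal.map_pow,
    Ideal.map_eq_bot_iff_le_ker, Ideal.mk_ker] at h5
  have h6 := Ideal.pow_right_strictAnti J.1 J.2 hJmax.ne_top (Nat.lt_succ_self k)
  exact absurd h5 (not_le_of_gt h6)

/-- the localisation of `B` at a maximal ideal is a domain -/
theorem isDomain_loc (hB : IsTR B ev) (m : Ideal B) [hm : m.IsMaximal] :
    IsDomain (Localization.AtPrime m) := by
  have := hB.fg
  have : IsNoetherianRing B := Algebra.FiniteType.isNoetherianRing F B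
  obtain ⟨b, hb, h⟩ := exists_gen hB m
  exact isDomain_of_principal _ (principal_localization m b hb h) (not_nilpotent hB m)

/-- the kernel of `B → B_m` is the only minimal prime in `m` -/
theorem minimal_eq (hB : IsTR B ev) (m : Ideal B) [hm : m.IsMaximal] (P : Ideal B)
    (hP : P ∈ minimalPrimes B) (hPm : P ≤ m) :
    P = RingHom.ker (algebraMap B (Localization.AtPrime m)) := by
  have := isDomain_loc hB m
  have h1 : RingHom.ker (algebraMap B (Localization.AtPrime m)) ≤ P := by
    intro b hb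
    rw [RingHom.mem_ker, IsLocalization.map_eq_zero_iff m.primeCompl] at hb
    obtain ⟨s, hs⟩ := hb
    have hPp : P.IsPrime := hP.1.1
    have h2 : (s : B) * b ∈ P := by rw [hs]; exact P.zero_mem
    rcases hPp.mem_or_mem h2 with h3 | h3
    · exact absurd (hPm h3) s.2
    · exact h3
  have h2 : (RingHom.ker (algebraMap B (Localization.AtPrime m))).IsPrime := RingHom.ker_isPrime _
  exact le_antisymm (hP.2 ⟨h2, bot_le⟩ h1) h1

theorem dedekind_quotient (hB : IsTR B ev) (P : Ideal B) (hP : P ∈ minimalPrimes B) :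
    IsDedekindDomain (B ⧸ P) ∧ ¬ IsField (B ⧸ P) := by
  have := hB.fg
  have : IsNoetherianRing B := Algebra.FiniteType.isNoetherianRing F B
  have hPp : P.IsPrime := hP.1.1
  have hnf : ¬ IsField (B ⧸ P) := by
    intro hf
    have hmax : P.IsMaximal := Ideal.Quotient.maximal_of_isField _ hf
    have h1 := minimal_eq hB P P hP le_rfl
    apply not_nilpotent hB P 1
    rw [pow_one, ← Localization.AtPrime.map_eq_maximalIdeal, Ideal.map_eq_bot_iff_le_ker]
    exact h1.le
  have hprin : ∀ n : Ideal (B ⧸ P), [n.IsMaximal] →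
      IsDomain (Localization.AtPrime n) → IsPrincipalIdealRing (Localization.AtPrime n) := by
    intro n hn hdom
    set m : Ideal B := n.comap (Ideal.Quotient.mk P) with hm
    have hmmax : m.IsMaximal := Ideal.comap_isMaximal_of_surjective _ Ideal.Quotient.mk_surjective
    obtain ⟨b, hb, h⟩ := exists_gen hB m
    have hmn : m.map (Ideal.Quotient.mk P) = n :=
      Ideal.map_comap_of_surjective _ Ideal.Quotient.mk_surjective n
    have h2 := Ideal.map_mono (f := Ideal.Quotient.mk P) h
    rw [Ideal.map_sup, Ideal.map_pow, hmn, Ideal.map_span, Set.image_singleton] at h2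
    have h3 := principal_localization n (Ideal.Quotient.mk P b) hb h2
    exact ((tfae_of_isNoetherianRing_of_isLocalRing_of_isDomain (Localization.AtPrime n)).out 0 4).mpr h3
  have hdom : ∀ n : Ideal (B ⧸ P), [n.IsMaximal] → IsDomain (Localization.AtPrime n) :=
    fun n _ => IsLocalization.isDomain_of_atPrime (Localization.AtPrime n) n
  have hic : IsIntegrallyClosed (B ⧸ P) := by
    refine IsIntegrallyClosed.of_localization_maximal fun n _ hn => ?_
    have := hdom n
    have := hprin n this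
    infer_instance
  have hdim : Ring.KrullDimLE 1 (B ⧸ P) := by
    refine Ring.krullDimLE_of_isLocalization_maximal (fun n _ => Localization.AtPrime n) fun n _ => ?_
    have := hdom n
    have := hprin n this
    infer_instance
  rw [Ring.krullDimLE_one_iff_of_noZeroDivisors] at hdim
  exact ⟨{ maximalOfPrime := hdim _ }, hnf⟩

end TR

theorem decomp {B : Type} [CommRing B] [Algebra F B]
    {ev : ∀ J : {J : Ideal F[X] // J ≠ ⊥}, B →ₐ[F] F[X] ⧸ J.1} (hB : IsTR B ev) :
    (minimalPrimes B).Finite ∧ (⨅ P ∈ minimalPrimes B, P) = ⊥ ∧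
    (∀ P ∈ minimalPrimes B, ∀ P' ∈ minimalPrimes B, P ≠ P' → IsCoprime P P') ∧
    ∀ P ∈ minimalPrimes B, IsDedekindDomain (B ⧸ P) ∧ ¬ IsField (B ⧸ P) := by
  have := hB.fg
  have : IsNoetherianRing B := Algebra.FiniteType.isNoetherianRing F B
  refine ⟨minimalPrimes.finite_of_isNoetherianRing B, ?_, ?_, fun P hP => dedekind_quotient hB P hP⟩
  · rw [eq_bot_iff]
    intro b hb
    rw [Ideal.mem_bot]
    refine eq_zero_of_localization b fun m hm => ?_
    obtain ⟨P, hP, hPm⟩ := Ideal.exists_minimalPrimes_le (I := ⊥) (J := m) bot_le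
    rw [← RingHom.mem_ker, ← minimal_eq hB m P hP hPm]
    simp only [Ideal.mem_iInf] at hb
    exact hb P hP
  · intro P hP P' hP' hne
    rw [Ideal.isCoprime_iff_sup_eq]
    by_contra hcon
    obtain ⟨m, hm, hle⟩ := Ideal.exists_le_maximal _ hcon
    apply hne
    rw [minimal_eq hB m P hP (le_sup_left.trans hle), minimal_eq hB m P' hP' (le_sup_right.trans hle)]

end Pool.Agent.PSL2Z
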