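import Pool.Agent.Lib.MP_305fdd_al.PSL.Cocycle

/-!
# MP_305fdd_al, piece P17: a finite connected transversal
-/

set_option autoImplicit false

namespace Pool.Agent.PSL2Z

open Polynomial Pool.Agent.Lib.MP_305fdd_al
open scoped WithZero nonZeroDivisors

namespace Transv

variable {V : Type} {X : SimpleGraph V}

/-- adjacency inside `W` -/
def RW (X : SimpleGraph V) (W : Set V) (a b : V) : Prop := X.Adj a b ∧ a ∈ W ∧ b ∈ W

theorem rtg_symm {W : Set V} {a b : V} (h : Relation.ReflTransGen (RW X W) a b) :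
    Relation.ReflTransGen (RW X W) b a := by
  induction h with
  | refl => exact .refl
  | tail _ h2 ih => exact Relation.ReflTransGen.head ⟨h2.1.symm, h2.2.2, h2.2.1⟩ ih

theorem reach_of_rtg {W : Set V} {a b : V} (ha : a ∈ W)
    (h : Relation.ReflTransGen (RW X W) a b) :
    ∃ hb : b ∈ W, (X.induce W).Reachable ⟨a, ha⟩ ⟨b, hb⟩ := by
  induction h with
  | refl => exact ⟨ha, SimpleGraph.Reachable.refl _⟩
  | tail _ h2 ih =>
    obtain ⟨hb, hr⟩ := ih
    refine ⟨h2.2.2, hr.trans (SimpleGraph.Adj.reachable ?_)⟩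
    exact h2.1

theorem rtg_of_reach {W : Set V} {a b : W} (h : (X.induce W).Reachable a b) :
    Relation.ReflTransGen (RW X W) a.1 b.1 := by
  rw [SimpleGraph.reachable_iff_reflTransGen] at h
  induction h with
  | refl => exact .refl
  | @tail p q _ h2 ih => exact ih.tail ⟨h2, p.2, q.2⟩

theorem connected_iff {W : Set V} :
    (X.induce W).Connected ↔ W.Nonempty ∧
      ∀ a ∈ W, ∀ b ∈ W, Relation.ReflTransGen (RW X W) a b := by
  constructor
  · intro h
    obtain ⟨a⟩ := h.nonempty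
    exact ⟨⟨a.1, a.2⟩, fun a ha b hb => rtg_of_reach (h.preconnected ⟨a, ha⟩ ⟨b, hb⟩)⟩
  · rintro ⟨⟨a, ha⟩, h⟩
    have : Nonempty W := ⟨⟨a, ha⟩⟩
    refine { preconnected := fun p q => ?_, nonempty := this }
    obtain ⟨_, hr⟩ := reach_of_rtg p.2 (h p.1 p.2 q.1 q.2)
    exact hr

theorem connected_of_base {W : Set V} {a : V} (ha : a ∈ W)
    (h : ∀ b ∈ W, Relation.ReflTransGen (RW X W) a b) : (X.induce W).Connected :=
  connected_iff.2 ⟨⟨a, ha⟩, fun b hb c hc => (rtg_symm (h b hb)).trans (h c hc)⟩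

theorem rtg_mono {W W' : Set V} (hW : W ⊆ W') {a b : V}
    (h : Relation.ReflTransGen (RW X W) a b) : Relation.ReflTransGen (RW X W') a b := by
  induction h with
  | refl => exact .refl
  | tail _ h2 ih => exact ih.tail ⟨h2.1, hW h2.2.1, hW h2.2.2⟩

/-- leaving a subset `U` of `W` -/
theorem exists_leave {W U : Set V} {a b : V} (h : Relation.ReflTransGen (RW X W) a b)
    (ha : a ∈ U) (hb : b ∉ U) : ∃ c d, X.Adj c d ∧ c ∈ U ∧ d ∉ U ∧ d ∈ W := by
  induction h with
  | refl => exact absurd ha hb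
  | @tail c d _ h2 ih =>
    by_cases hc : c ∈ U
    · exact ⟨c, d, h2.1, hc, hb, h2.2.2⟩
    · exact ih hc

/-- a finite connected set containing a given finite set -/
theorem exists_finite_conn (hX : X.Connected) (v₀ : V) (S : Finset V) :
    ∃ Y : Finset V, v₀ ∈ Y ∧ S ⊆ Y ∧
      ∀ y ∈ Y, Relation.ReflTransGen (RW X (Y : Set V)) v₀ y := by
  classical
  have hw : ∀ s : V, Nonempty (X.Walk v₀ s) := fun s => hX.preconnected v₀ s
  let p : ∀ s : V, X.Walk v₀ s := fun s => (hw s).some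
  refine ⟨insert v₀ (S.biUnion fun s => (p s).support.toFinset), ?_, ?_, ?_⟩
  · exact Finset.mem_insert_self _ _
  · intro s hs
    refine Finset.mem_insert_of_mem (Finset.mem_biUnion.2 ⟨s, hs, ?_⟩)
    exact List.mem_toFinset.2 (SimpleGraph.Walk.end_mem_support _)
  · intro y hy
    rcases Finset.mem_insert.1 hy with rfl | hy
    · exact .refl
    · obtain ⟨s, hs, hys⟩ := Finset.mem_biUnion.1 hy
      rw [List.mem_toFinset] at hys
      have h1 := (connected_iff.1 (p s).connected_induce_support).2 v₀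
        (SimpleGraph.Walk.start_mem_support _) y hys
      refine rtg_mono ?_ h1
      intro z hz
      rw [Finset.mem_coe]
      exact Finset.mem_insert_of_mem (Finset.mem_biUnion.2 ⟨s, hs, List.mem_toFinset.2 hz⟩)

variable {Λ : Type} [Group Λ] [MulAction Λ V] {ty : V → Bool}

theorem rtg_smul {W : Set V} (hadj : ∀ (g : Λ) (v z : V), X.Adj v z → X.Adj (g • v) (g • z))
    (hW : ∀ (g : Λ), ∀ v ∈ W, g • v ∈ W) (g : Λ) {a b : V}
    (h : Relation.ReflTransGen (RW X W) a b) :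
    Relation.ReflTransGen (RW X W) (g • a) (g • b) := by
  induction h with
  | refl => exact .refl
  | tail _ h2 ih => exact ih.tail ⟨hadj g _ _ h2.1, hW g _ h2.2.1, hW g _ h2.2.2⟩

/-- a connected invariant set with finitely many orbits -/
theorem exists_cocompact [Group.FG Λ] (hX : X.Connected)
    (hadj : ∀ (g : Λ) (v z : V), X.Adj v z → X.Adj (g • v) (g • z)) (v₀ : V) :
    ∃ (Y₀ : Finset V) (V₁ : Set V), v₀ ∈ V₁ ∧ (∀ (g : Λ), ∀ v ∈ V₁, g • v ∈ V₁) ∧
      (X.induce V₁).Connected ∧ ∀ v ∈ V₁, ∃ y ∈ Y₀, ∃ g : Λ, g • y = v := by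
  classical
  obtain ⟨S, hS, hSf⟩ := (Group.fg_iff (G := Λ)).1 inferInstance
  obtain ⟨Y₀, hv₀, hSY, hconn⟩ := exists_finite_conn hX v₀ (hSf.toFinset.image fun s => s • v₀)
  set V₁ : Set V := {v | ∃ y ∈ Y₀, ∃ g : Λ, g • y = v} with hV₁
  have hsub : (Y₀ : Set V) ⊆ V₁ := fun y hy => ⟨y, hy, 1, one_smul _ _⟩
  have hinv : ∀ (g : Λ), ∀ v ∈ V₁, g • v ∈ V₁ := by
    rintro g v ⟨y, hy, h, rfl⟩
    exact ⟨y, hy, g * h, mul_smul _ _ _⟩
  have hbase : ∀ g : Λ, Relation.ReflTransGen (RW X V₁) v₀ (g • v₀) := by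
    intro g
    have hg : g ∈ Subgroup.closure S := by rw [hS]; trivial
    induction hg using Subgroup.closure_induction with
    | mem s hs =>
      refine rtg_mono hsub (hconn _ (hSY ?_))
      exact Finset.mem_image.2 ⟨s, hSf.mem_toFinset.2 hs, rfl⟩
    | one => rw [one_smul]
    | mul a b _ _ ha hb =>
      rw [mul_smul]
      exact ha.trans (rtg_smul hadj hinv a hb)
    | inv a _ ha =>
      have := rtg_smul hadj hinv a⁻¹ ha
      rw [inv_smul_smul] at this
      exact rtg_symm this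
  refine ⟨Y₀, V₁, hsub hv₀, hinv, connected_of_base (hsub hv₀) ?_, fun v hv => hv⟩
  rintro v ⟨y, hy, g, rfl⟩
  exact (hbase g).trans (rtg_smul hadj hinv g (rtg_mono hsub (hconn y hy)))

/-- a maximal finite connected set of inequivalent vertices meets every orbit -/
theorem exists_maximal {V₁ : Set V} {Y₀ : Finset V} {v₀ : V}
    (hadj : ∀ (g : Λ) (v z : V), X.Adj v z → X.Adj (g • v) (g • z)) (hv₀ : v₀ ∈ V₁)
    (hinv : ∀ (g : Λ), ∀ v ∈ V₁, g • v ∈ V₁) (hconn : (X.induce V₁).Connected)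
    (hY₀ : ∀ v ∈ V₁, ∃ y ∈ Y₀, ∃ g : Λ, g • y = v) :
    ∃ Y : Finset V, Y.Nonempty ∧ (Y : Set V) ⊆ V₁ ∧ (X.induce (Y : Set V)).Connected ∧
      (∀ u ∈ Y, ∀ v ∈ Y, ∀ g : Λ, g • u = v → u = v) ∧
      (∀ v ∈ V₁, ∃ y ∈ Y, ∃ g : Λ, g • y = v) := by
  classical
  set P : Finset V → Prop := fun Y => (Y : Set V) ⊆ V₁ ∧ (X.induce (Y : Set V)).Connected ∧
      (∀ u ∈ Y, ∀ v ∈ Y, ∀ g : Λ, g • u = v → u = v) with hP
  have hb : ∀ Y, P Y → Y.card ≤ Y₀.card := by
    rintro Y ⟨h1, _, h3⟩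
    have h4 : ∀ y : V, ∃ z : V, y ∈ Y → z ∈ Y₀ ∧ ∃ g : Λ, g • z = y := by
      intro y
      by_cases hy : y ∈ Y
      · obtain ⟨z, hz, g, hg⟩ := hY₀ y (h1 hy)
        exact ⟨z, fun _ => ⟨hz, g, hg⟩⟩
      · exact ⟨y, fun h => absurd h hy⟩
    choose f hf using h4
    refine Finset.card_le_card_of_injOn f (fun y hy => (hf y hy).1) ?_
    intro a ha b hb hab
    obtain ⟨g, hg⟩ := (hf a ha).2
    obtain ⟨k, hk⟩ := (hf b hb).2
    refine h3 a ha b hb (k * g⁻¹) ?_
    rw [← hk, ← hab, mul_smul]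
    congr 1
    rw [inv_smul_eq_iff, hg]
  have h0 : P {v₀} := by
    refine ⟨by simpa using hv₀, ?_, ?_⟩
    · refine connected_of_base (a := v₀) (by simp) ?_
      intro b hb
      simp only [Finset.coe_singleton, Set.mem_singleton_iff] at hb
      rw [hb]
    · intro u hu v hv g _
      rw [Finset.mem_singleton] at hu hv
      rw [hu, hv]
  have h1 : ∃ n, ∃ Y, P Y ∧ Y.card = n := ⟨_, {v₀}, h0, rfl⟩
  obtain ⟨n, ⟨Y, hY, hn⟩, hmax⟩ : ∃ n, (∃ Y, P Y ∧ Y.card = n) ∧ ∀ Y, P Y → Y.card ≤ n := by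
    refine ⟨Nat.findGreatest (fun n => ∃ Y, P Y ∧ Y.card = n) Y₀.card, ?_, ?_⟩
    · exact Nat.findGreatest_spec (P := fun n => ∃ Y, P Y ∧ Y.card = n) (hb _ h0)
        ⟨{v₀}, h0, rfl⟩
    · intro Y hY
      exact Nat.le_findGreatest (hb _ hY) ⟨Y, hY, rfl⟩
  have hYne : Y.Nonempty := by
    obtain ⟨a⟩ := hY.2.1.nonempty
    exact ⟨a.1, a.2⟩
  refine ⟨Y, hYne, hY.1, hY.2.1, hY.2.2, ?_⟩
  by_contra hcon
  push Not at hcon
  obtain ⟨w, hw, hw'⟩ := hcon
  obtain ⟨y₀, hy₀⟩ := hYne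
  have hw'' : w ∉ {v : V | ∃ y ∈ Y, ∃ g : Λ, g • y = v} := by
    rintro ⟨y, hy, g, hg⟩
    exact hw' y hy g hg
  obtain ⟨c, d, hcd, ⟨y, hy, g, rfl⟩, hd, hdV⟩ := exists_leave
    ((connected_iff.1 hconn).2 y₀ (hY.1 hy₀) w hw) (U := {v : V | ∃ y ∈ Y, ∃ g : Λ, g • y = v})
    ⟨y₀, hy₀, 1, one_smul _ _⟩ hw''
  have hadj' : X.Adj y (g⁻¹ • d) := by
    have := hadj g⁻¹ _ _ hcd
    rwa [inv_smul_smul] at this
  have hnd : ∀ z ∈ Y, ∀ k : Λ, k • z ≠ g⁻¹ • d := by
    intro z hz k hk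
    apply hd
    refine ⟨z, hz, g * k, ?_⟩
    rw [mul_smul, hk, smul_inv_smul]
  have hnY : g⁻¹ • d ∉ Y := fun h => hnd _ h 1 (one_smul _ _)
  have hP' : P (insert (g⁻¹ • d) Y) := by
    refine ⟨?_, ?_, ?_⟩
    · rw [Finset.coe_insert]
      exact Set.insert_subset (hinv _ _ hdV) hY.1
    · refine connected_of_base (a := y) ?_ ?_
      · rw [Finset.mem_coe]
        exact Finset.mem_insert_of_mem hy
      · intro b hb
        rw [Finset.mem_coe, Finset.mem_insert] at hb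
        rcases hb with rfl | hb
        · refine Relation.ReflTransGen.single ⟨hadj', ?_, ?_⟩
          · rw [Finset.mem_coe]
            exact Finset.mem_insert_of_mem hy
          · rw [Finset.mem_coe]
            exact Finset.mem_insert_self _ _
        · refine rtg_mono ?_ ((connected_iff.1 hY.2.1).2 y hy b hb)
          rw [Finset.coe_insert]
          exact Set.subset_insert _ _
    · intro u hu v hv k hk
      rw [Finset.mem_insert] at hu hv
      rcases hu with rfl | hu <;> rcases hv with rfl | hv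
      · rfl
      · exfalso
        refine hnd v hv k⁻¹ ?_
        rw [← hk, inv_smul_smul]
      · exact absurd hk (hnd u hu k)
      · exact hY.2.2 u hu v hv k hk
  have := hmax _ hP'
  rw [Finset.card_insert_of_notMem hnY, hn] at this
  omega

/-- the number of edges of a finite connected set -/
theorem card_le_edges (hty : ∀ v z, X.Adj v z → ty v ≠ ty z) (Y : Finset V)
    (hY : (X.induce (Y : Set V)).Connected) : Y.card ≤ (edges X ty Y).card + 1 := by
  classical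
  have h1 := hY.card_vert_le_card_edgeSet_add_one
  have h2 : Nat.card (Y : Set V) = Y.card := by
    rw [Nat.card_coe_set_eq, Set.ncard_coe_finset]
  have h3 : Nat.card (X.induce (Y : Set V)).edgeSet ≤ Nat.card (edges X ty Y) := by
    have hmem : ∀ e : edges X ty Y, (e.1.1 ∈ Y ∧ e.1.2 ∈ Y) ∧ X.Adj e.1.1 e.1.2 := by
      intro e
      have := e.2
      unfold edges at this
      rw [Finset.mem_filter, Finset.mem_product] at this
      exact ⟨this.1, this.2.1⟩
    refine Nat.card_le_card_of_surjective (fun e : edges X ty Y =>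
      (⟨s(⟨e.1.1, (hmem e).1.1⟩, ⟨e.1.2, (hmem e).1.2⟩), (hmem e).2⟩ :
        (X.induce (Y : Set V)).edgeSet)) ?_
    rintro ⟨e, he⟩
    induction e using Sym2.ind with
    | _ a b =>
      rw [SimpleGraph.mem_edgeSet] at he
      have he' : X.Adj a.1 b.1 := he
      cases hta : ty a.1 with
      | true =>
        refine ⟨⟨(a.1, b.1), ?_⟩, rfl⟩
        unfold edges
        rw [Finset.mem_filter, Finset.mem_product]
        exact ⟨⟨a.2, b.2⟩, he', hta⟩
      | false =>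
        refine ⟨⟨(b.1, a.1), ?_⟩, ?_⟩
        · unfold edges
          rw [Finset.mem_filter, Finset.mem_product]
          refine ⟨⟨b.2, a.2⟩, he'.symm, ?_⟩
          have := hty _ _ he'
          rw [hta] at this
          simpa using this.symm
        · exact Subtype.ext Sym2.eq_swap
  rw [h2] at h1
  have h4 : Nat.card (edges X ty Y) = (edges X ty Y).card := Nat.card_eq_finsetCard _
  omega

/-- every edge of the invariant subtree is a translate of an edge of the transversal -/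
theorem edge_translate [Group.FG Λ] (hX : TreeAct Λ V X ty)
    (h5 : ∀ f : Λ →* Multiplicative (ZMod 5), f = 1) {V₁ : Set V} {Y : Finset V}
    (hinv : ∀ (g : Λ), ∀ v ∈ V₁, g • v ∈ V₁) (hconn : (X.induce V₁).Connected)
    (hYV : (Y : Set V) ⊆ V₁) (hYc : (X.induce (Y : Set V)).Connected)
    (hY₁ : ∀ u ∈ Y, ∀ v ∈ Y, ∀ g : Λ, g • u = v → u = v)
    (hY₂ : ∀ v ∈ V₁, ∃ y ∈ Y, ∃ g : Λ, g • y = v) (a b : V) (ha : a ∈ V₁) (hb : b ∈ V₁)
    (hab : X.Adj a b) (hta : ty a = true) :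
    ∃ e ∈ edges X ty Y, ∃ g : Λ, g • e.1 = a ∧ g • e.2 = b := by
  classical
  by_contra hcon
  push Not at hcon
  let _ : MulAction Λ V₁ :=
    { smul := fun g v => ⟨g • v.1, hinv g v.1 v.2⟩
      one_smul := fun v => Subtype.ext (one_smul Λ v.1)
      mul_smul := fun g h v => Subtype.ext (mul_smul g h v.1) }
  have hsmul : ∀ (g : Λ) (v : V₁), (g • v).1 = g • v.1 := fun _ _ => rfl
  let _ : DistribMulAction Λ (ZMod 5) :=
    { smul := fun _ m => m
      one_smul := fun _ => rfl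
      mul_smul := fun _ _ _ => rfl
      smul_zero := fun _ => rfl
      smul_add := fun _ _ _ => rfl }
  have hact : ∀ (g : Λ) (m : ZMod 5), g • m = m := fun _ _ => rfl
  have hX' : TreeAct Λ V₁ (X.induce V₁) (fun v => ty v.1) :=
    { tree := ⟨hconn, hX.tree.2.induce V₁⟩
      adj := fun g v z hvz => hX.adj g _ _ hvz
      ty_smul := fun g v => hX.ty_smul g v.1
      ty_adj := fun v z hvz => hX.ty_adj _ _ hvz }
  set E : Finset (V × V) := insert (a, b) (edges X ty Y) with hEdef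
  have hedge : ∀ e ∈ edges X ty Y, (e.1 ∈ Y ∧ e.2 ∈ Y) ∧ X.Adj e.1 e.2 ∧ ty e.1 = true := by
    intro e he
    unfold edges at he
    rw [Finset.mem_filter, Finset.mem_product] at he
    exact he
  have hE : ∀ e ∈ E, (e.1 ∈ V₁ ∧ e.2 ∈ V₁) ∧ X.Adj e.1 e.2 ∧ ty e.1 = true := by
    intro e he
    rcases Finset.mem_insert.1 he with rfl | he
    · exact ⟨⟨ha, hb⟩, hab, hta⟩
    · have := hedge e he
      exact ⟨⟨hYV this.1.1, hYV this.1.2⟩, this.2⟩
  have hE' : ∀ e ∈ E, ∀ e' ∈ E, ∀ g : Λ, g • e.1 = e'.1 → g • e.2 = e'.2 → e = e' := by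
    intro e he e' he' g h1 h2
    rcases Finset.mem_insert.1 he with rfl | he <;> rcases Finset.mem_insert.1 he' with rfl | he'
    · rfl
    · exfalso
      refine hcon e' he' g⁻¹ ?_ ?_
      · rw [← h1, inv_smul_smul]
      · rw [← h2, inv_smul_smul]
    · exact absurd h2 (hcon e he g h1)
    · exact Prod.ext (hY₁ _ (hedge e he).1.1 _ (hedge e' he').1.1 g h1)
        (hY₁ _ (hedge e he).1.2 _ (hedge e' he').1.2 g h2)
  have hnot : (a, b) ∉ edges X ty Y := by
    intro h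
    exact hcon _ h 1 (one_smul _ _) (one_smul _ _)
  set Y' : Finset V₁ := Y.attach.image fun y => ⟨y.1, hYV y.2⟩ with hY'
  have hY'c : Y'.card = Y.card := by
    rw [hY', Finset.card_image_of_injective, Finset.card_attach]
    intro p q hpq
    exact Subtype.ext (Subtype.mk.inj hpq)
  set E' : Finset (V₁ × V₁) := E.attach.image
    fun e => (⟨e.1.1, (hE e.1 e.2).1.1⟩, ⟨e.1.2, (hE e.1 e.2).1.2⟩) with hE'def
  have hE'c : E'.card = E.card := by
    rw [hE'def, Finset.card_image_of_injective, Finset.card_attach]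
    intro p q hpq
    rw [Prod.mk.injEq] at hpq
    exact Subtype.ext (Prod.ext (congrArg Subtype.val hpq.1) (congrArg Subtype.val hpq.2))
  have hE'mem : ∀ e ∈ E', (e.1.1, e.2.1) ∈ E := by
    intro e he
    rw [hE'def, Finset.mem_image] at he
    obtain ⟨f, _, rfl⟩ := he
    exact f.2
  have key := cocycle_ineq (M := ZMod 5) hX' Y' ?_ E' ?_ ?_
  · have hFix : ∀ H : Subgroup Λ, Nat.card (Fix H (ZMod 5)) = 5 := by
      intro H
      have h1 : Nat.card (Fix H (ZMod 5)) = Nat.card (ZMod 5) := by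
        refine Nat.card_congr ⟨Subtype.val, fun m => ⟨m, fun g _ => hact g m⟩, ?_, ?_⟩
        · intro m; rfl
        · intro m; rfl
      rw [h1, Nat.card_zmod]
    have hZ : Nat.card (Z1 Λ (ZMod 5)) ≤ 1 := by
      have : Subsingleton (Z1 Λ (ZMod 5)) := by
        refine ⟨?_⟩
        have h0 : ∀ z : Z1 Λ (ZMod 5), ∀ g, z.1 g = 0 := by
          intro z g
          have hz : ∀ g h, z.1 (g * h) = z.1 g + z.1 h := fun g h => z.2 g h
          let f : Λ →* Multiplicative (ZMod 5) := MonoidHom.mk' (fun g => Multiplicative.ofAdd (z.1 g))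
            (fun g h => by rw [hz, ofAdd_add])
          have hf := h5 f
          have h1 : f g = 1 := by rw [hf]; rfl
          exact Multiplicative.ofAdd.injective h1
        intro z z'
        apply Subtype.ext
        funext g
        rw [h0, h0]
      exact Finite.card_le_one_iff_subsingleton.2 this
    have hcard : Y.card + 1 ≤ E.card + 1 := by
      have h1 := card_le_edges hX.ty_adj Y hYc
      rw [hEdef, Finset.card_insert_of_notMem hnot]
      omega
    simp only [hFix, Finset.prod_const, Nat.card_zmod] at key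
    rw [hY'c, hE'c] at key
    have h2 : Nat.card (Z1 Λ (ZMod 5)) * 5 ^ Y.card ≤ 5 ^ Y.card := by
      calc Nat.card (Z1 Λ (ZMod 5)) * 5 ^ Y.card ≤ 1 * 5 ^ Y.card := Nat.mul_le_mul_right _ hZ
        _ = 5 ^ Y.card := one_mul _
    have h3 : 5 ^ Y.card ≤ 5 ^ E.card := Nat.pow_le_pow_right (by norm_num) (by omega)
    have h4 : 0 < 5 ^ E.card := by positivity
    omega
  · intro v
    obtain ⟨y, hy, g, hg⟩ := hY₂ v.1 v.2
    refine ⟨⟨y, hYV hy⟩, ?_, g, Subtype.ext hg⟩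
    rw [hY', Finset.mem_image]
    exact ⟨⟨y, hy⟩, Finset.mem_attach _ _, rfl⟩
  · intro e he
    exact (hE _ (hE'mem e he)).2
  · intro e he e' he' g h1 h2
    have := hE' _ (hE'mem e he) _ (hE'mem e' he') g (congrArg Subtype.val h1)
      (congrArg Subtype.val h2)
    rw [Prod.mk.injEq] at this
    exact Prod.ext (Subtype.ext this.1) (Subtype.ext this.2)

end Transv

open Transv in
/-- P17 -/
theorem exists_transversal {Λ V : Type} [Group Λ] [Group.FG Λ] [MulAction Λ V] {X : SimpleGraph V}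
    {ty : V → Bool} (hX : TreeAct Λ V X ty) [Nonempty V]
    (h5 : ∀ f : Λ →* Multiplicative (ZMod 5), f = 1) :
    ∃ (Y : Finset V) (V₁ : Set V), Y.Nonempty ∧ (X.induce (Y : Set V)).Connected ∧
      (∀ u ∈ Y, ∀ v ∈ Y, ∀ g : Λ, g • u = v → u = v) ∧
      (⨆ v ∈ Y, MulAction.stabilizer Λ v) = ⊤ ∧
      (∀ (g : Λ), ∀ v ∈ V₁, g • v ∈ V₁) ∧ (X.induce V₁).Connected ∧ (Y : Set V) ⊆ V₁ ∧
      (∀ v ∈ V₁, ∃ y ∈ Y, ∃ g : Λ, g • y = v) := by
  classical
  obtain ⟨v₀⟩ := ‹Nonempty V›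
  obtain ⟨Y₀, V₁, hv₀, hinv, hconn, hY₀⟩ := exists_cocompact (Λ := Λ) hX.tree.1 hX.adj v₀
  obtain ⟨Y, hYne, hYV, hYc, hY₁, hY₂⟩ := exists_maximal hX.adj hv₀ hinv hconn hY₀
  refine ⟨Y, V₁, hYne, hYc, hY₁, ?_, hinv, hconn, hYV, hY₂⟩
  set H : Subgroup Λ := ⨆ v ∈ Y, MulAction.stabilizer Λ v with hH
  have hstab : ∀ v ∈ Y, MulAction.stabilizer Λ v ≤ H := fun v hv => le_iSup₂_of_le v hv le_rfl
  obtain ⟨y₀, hy₀⟩ := hYne
  -- `H Y = V₁`
  have hHY : ∀ w ∈ V₁, w ∈ {v : V | ∃ y ∈ Y, ∃ g ∈ H, g • y = v} := by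
    intro w hw
    by_contra hw'
    obtain ⟨c, d, hcd, ⟨y, hy, g, hg, rfl⟩, hd, hdV⟩ := exists_leave
      ((connected_iff.1 hconn).2 y₀ (hYV hy₀) w hw)
      (U := {v : V | ∃ y ∈ Y, ∃ g ∈ H, g • y = v})
      ⟨y₀, hy₀, 1, H.one_mem, one_smul _ _⟩ hw'
    have hadj' : X.Adj y (g⁻¹ • d) := by
      have := hX.adj g⁻¹ _ _ hcd
      rwa [inv_smul_smul] at this
    have key : ∃ z ∈ Y, ∃ l : Λ, l • y = y ∧ l • z = g⁻¹ • d := by
      cases hty : ty y with
      | true =>
        obtain ⟨e, he, l, hl1, hl2⟩ := edge_translate hX h5 hinv hconn hYV hYc hY₁ hY₂ y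
          (g⁻¹ • d) (hYV hy) (hinv _ _ hdV) hadj' hty
        unfold edges at he
        rw [Finset.mem_filter, Finset.mem_product] at he
        have h1 : e.1 = y := hY₁ _ he.1.1 _ hy l hl1
        rw [h1] at hl1
        exact ⟨e.2, he.1.2, l, hl1, hl2⟩
      | false =>
        have hty' : ty (g⁻¹ • d) = true := by
          have := hX.ty_adj _ _ hadj'
          rw [hty] at this
          simpa using this.symm
        obtain ⟨e, he, l, hl1, hl2⟩ := edge_translate hX h5 hinv hconn hYV hYc hY₁ hY₂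
          (g⁻¹ • d) y (hinv _ _ hdV) (hYV hy) hadj'.symm hty'
        unfold edges at he
        rw [Finset.mem_filter, Finset.mem_product] at he
        have h1 : e.2 = y := hY₁ _ he.1.2 _ hy l hl2
        rw [h1] at hl2
        exact ⟨e.1, he.1.1, l, hl2, hl1⟩
    obtain ⟨z, hz, l, hl1, hl2⟩ := key
    apply hd
    refine ⟨z, hz, g * l, H.mul_mem hg (hstab y hy hl1), ?_⟩
    rw [mul_smul, hl2, smul_inv_smul]
  rw [eq_top_iff]
  intro g _
  obtain ⟨y, hy, k, hk, hky⟩ := hHY (g • y₀) (hinv g _ (hYV hy₀))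
  have h1 : y₀ = y := by
    refine hY₁ y₀ hy₀ y hy (k⁻¹ * g) ?_
    rw [mul_smul, ← hky, inv_smul_smul]
  subst h1
  have h2 : k⁻¹ * g ∈ H := by
    apply hstab y₀ hy₀
    rw [MulAction.mem_stabilizer_iff, mul_smul, ← hky, inv_smul_smul]
  have := H.mul_mem hk h2
  rwa [mul_inv_cancel_left] at this

end Pool.Agent.PSL2Z
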