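import Pool.Agent.Lib.MP_305fdd_al.PSL.GammaRep
import Pool.Agent.Lib.MP_305fdd_al.PSL.PCharFin

/-!
# MP_305fdd_al, PSL(2,ℤ), piece P4: the trace ring of `Λ`

`B` is the algebra generated by the traces of the transported representations modulo all nonzero
ideals `J` of `F[X]`; its ideals of finite index are the kernels of the evaluations at the `J`.
-/

set_option autoImplicit false

namespace Pool.Agent.PSL2Z

open Polynomial Pool.Agent.Lib.MP_305fdd_al Pool.Agent.MP_305fdd_al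

section joint

variable {Γ Λ : Type} [Group Γ] [Group Λ] (Φ : NatBij Γ Λ)

theorem toFun_prod {P Q : Type} [Group P] [Finite P] [Group Q] [Finite Q]
    (α : Γ →* P) (β : Γ →* Q) :
    Φ.toFun (P × Q) (α.prod β) = (Φ.toFun P α).prod (Φ.toFun Q β) := by
  have h1 : Φ.toFun P α = (MonoidHom.fst P Q).comp (Φ.toFun (P × Q) (α.prod β)) := by
    rw [← Φ.nat, MonoidHom.fst_comp_prod]
  have h2 : Φ.toFun Q β = (MonoidHom.snd P Q).comp (Φ.toFun (P × Q) (α.prod β)) := by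
    rw [← Φ.nat, MonoidHom.snd_comp_prod]
  ext l
  · rw [h1]; rfl
  · rw [h2]; rfl

/-- joint values of transported homomorphisms are joint values of the homomorphisms -/
theorem joint {P Q : Type} [Group P] [Finite P] [Group Q] [Finite Q]
    (α : Γ →* P) (β : Γ →* Q) (l : Λ) :
    ∃ g : Γ, α g = Φ.toFun P α l ∧ β g = Φ.toFun Q β l := by
  have h2 := Φ.range_eq (α.prod β)
  have h3 : Φ.toFun (P × Q) (α.prod β) l ∈ (α.prod β).range := by
    rw [← h2]; exact ⟨l, rfl⟩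
  obtain ⟨g, hg⟩ := h3
  rw [toFun_prod] at hg
  exact ⟨g, congrArg Prod.fst hg, congrArg Prod.snd hg⟩

/-- joint values of homomorphisms are joint values of the transported homomorphisms -/
theorem joint' {P Q : Type} [Group P] [Finite P] [Group Q] [Finite Q]
    (α : Γ →* P) (β : Γ →* Q) (g : Γ) :
    ∃ l : Λ, Φ.toFun P α l = α g ∧ Φ.toFun Q β l = β g := by
  have h2 := Φ.range_eq (α.prod β)
  have h3 : (α.prod β) g ∈ (Φ.toFun (P × Q) (α.prod β)).range := by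
    rw [h2]; exact ⟨g, rfl⟩
  obtain ⟨l, hl⟩ := h3
  rw [toFun_prod] at hl
  exact ⟨l, congrArg Prod.fst hl, congrArg Prod.snd hl⟩

end joint

section ideals

variable {Γ Λ : Type} [Group Γ] [Group Λ] {x y : Γ} (h : IsC2C3 Γ x y) (Φ : NatBij Γ Λ)

theorem trace_map {R S : Type} [CommRing R] [CommRing S] (f : R →+* S) (t : R) (g : Γ) :
    f (rep h t g).val.trace = (rep h (f t) g).val.trace := by
  rw [← map_rep h f t]
  rw [Matrix.trace_fin_two, Matrix.trace_fin_two, map_add]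
  rfl

theorem det_rep' (J : {J : Ideal F[X] // J ≠ ⊥}) (l : Λ) :
    (rep' h Φ J l).val.det = (((Φ.toFun ℤˣ (eps h) l : ℤˣ) : ℤ) : F[X] ⧸ J.1) := by
  obtain ⟨g, h1, h2⟩ := joint Φ (rep h (Ideal.Quotient.mk J.1 X)) (eps h) l
  have h3 : rep' h Φ J l = rep h (Ideal.Quotient.mk J.1 X) g := h1.symm
  rw [h3, ← h2]
  exact det_rep h _ g

/-- transfer of a pseudo-character of `Λ` with values in a finite ring to `Γ` -/
theorem transfer [Group.FG Λ] {R : Type} [CommRing R] [Finite R] {T : Λ → R}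
    (hT : PChar (Φ.toFun ℤˣ (eps h)) T) :
    ∃ (Q : Type) (_ : Group Q) (_ : Finite Q) (θ : Γ →* Q) (τ : Q → R),
      (∀ l, T l = τ (Φ.toFun Q θ l)) ∧ PChar (eps h) (fun g => τ (θ g)) := by
  obtain ⟨Q, i1, i2, π, τ, hτ⟩ := hT.factor
  refine ⟨Q, i1, i2, Φ.invFun Q π, τ, ?_, ?_⟩
  · intro l
    rw [Φ.right_inv]
    exact hτ l
  · set θ := Φ.invFun Q π with hθ
    have hπ : Φ.toFun Q θ = π := Φ.right_inv Q π
    have key : ∀ g, ∃ l, π l = θ g ∧ Φ.toFun ℤˣ (eps h) l = eps h g := by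
      intro g
      obtain ⟨l, h1, h2⟩ := joint' Φ θ (eps h) g
      rw [hπ] at h1
      exact ⟨l, h1, h2⟩
    refine ⟨?_, ?_, ?_⟩
    · show τ (θ 1) = 2
      rw [map_one, ← map_one π, ← hτ]
      exact hT.one
    · intro g k
      obtain ⟨l, h1, -⟩ := key g
      obtain ⟨m, h3, -⟩ := key k
      show τ (θ (g * k)) = τ (θ (k * g))
      rw [map_mul, map_mul, ← h1, ← h3, ← map_mul, ← map_mul, ← hτ, ← hτ]
      exact hT.comm l m
    · intro g k
      obtain ⟨l, h1, -⟩ := key g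
      obtain ⟨m, h3, h4⟩ := key k
      show τ (θ (g * k)) + (((eps h k : ℤˣ) : ℤ) : R) * τ (θ (g * k⁻¹)) = τ (θ g) * τ (θ k)
      rw [map_mul, map_mul, map_inv, ← h1, ← h3, ← map_inv, ← map_mul, ← map_mul, ← hτ, ← hτ,
        ← hτ, ← hτ, ← h4]
      exact hT.rel l m

variable {B : Type} [CommRing B] [Algebra F B]
  {ev : ∀ J : {J : Ideal F[X] // J ≠ ⊥}, B →ₐ[F] F[X] ⧸ J.1} {T : Λ → B}

/-- case `T(y) = -1` -/
theorem key_a (hev : ∀ J g, ev J (T g) = (rep' h Φ J g).val.trace)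
    (hadj : Algebra.adjoin F (Set.range T) = ⊤) {R : Type} [CommRing R] [Algebra F R] [Finite R]
    (f : B →ₐ[F] R) {Q : Type} [Group Q] [Finite Q] (θ : Γ →* Q) (τ : Q → R)
    (h1 : ∀ l, f (T l) = τ (Φ.toFun Q θ l)) (h2 : PChar (eps h) (fun g => τ (θ g)))
    (h3 : τ (θ y) = -1) : ∃ J, RingHom.ker f = RingHom.ker (ev J) := by
  have h4 := PChar.eq_rep h h2 h3
  set s : R := τ (θ (x * y)) with hs
  let ψ₀ : F[X] →ₐ[F] R := aeval s
  have hJ : RingHom.ker ψ₀ ≠ ⊥ := by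
    intro hbot
    have hinj : Function.Injective ψ₀ := by
      rw [injective_iff_map_eq_zero]
      intro a ha
      have : a ∈ RingHom.ker ψ₀ := ha
      rw [hbot] at this
      exact this
    exact (Infinite.of_injective ψ₀ hinj).not_finite inferInstance
  let J : {J : Ideal F[X] // J ≠ ⊥} := ⟨RingHom.ker ψ₀, hJ⟩
  have hfinJ : Finite (F[X] ⧸ J.1) := finite_quot_poly 13 J
  let ψ : F[X] ⧸ RingHom.ker ψ₀ →ₐ[F] R := Ideal.kerLiftAlg ψ₀
  have hψ : Function.Injective ψ := Ideal.kerLiftAlg_injective ψ₀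
  have hψX : ψ (Ideal.Quotient.mk (RingHom.ker ψ₀) X) = s := by
    show ψ₀ X = s
    exact aeval_X s
  refine ⟨J, ?_⟩
  have hcomp : f = ψ.comp (ev J) := by
    apply AlgHom.ext_of_adjoin_eq_top hadj
    rintro _ ⟨l, rfl⟩
    obtain ⟨g, h5, h6⟩ := joint Φ (rep h (Ideal.Quotient.mk J.1 X)) θ l
    have h7 : rep' h Φ J l = rep h (Ideal.Quotient.mk J.1 X) g := h5.symm
    rw [AlgHom.comp_apply, hev, h7, h1, ← h6]
    have h8 := trace_map h (ψ : F[X] ⧸ RingHom.ker ψ₀ →+* R)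
      (Ideal.Quotient.mk (RingHom.ker ψ₀) X) g
    have h9 : (ψ : F[X] ⧸ RingHom.ker ψ₀ →+* R) (Ideal.Quotient.mk (RingHom.ker ψ₀) X) = s := hψX
    rw [h9] at h8
    exact (congrFun h4 g).trans h8.symm
  ext b
  rw [RingHom.mem_ker, RingHom.mem_ker, hcomp, AlgHom.comp_apply]
  constructor
  · intro hb
    exact hψ (by rw [hb, map_zero])
  · intro hb
    rw [hb, map_zero]

/-- case `T(y) = 2` -/
theorem key_b {R : Type} [CommRing R] [Algebra F R]
    {T' : Λ → R} {Q : Type} [Group Q] [Finite Q] (θ : Γ →* Q) (τ : Q → R)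
    (h1 : ∀ l, T' l = τ (Φ.toFun Q θ l)) (h2 : PChar (eps h) (fun g => τ (θ g)))
    (h3 : τ (θ y) = 2) (l : Λ) : T' l = 1 + (((Φ.toFun ℤˣ (eps h) l : ℤˣ) : ℤ) : R) := by
  have h4 := PChar.eq_triv h h2 h3
  obtain ⟨g, h5, h6⟩ := joint Φ θ (eps h) l
  rw [h1, ← h5, ← h6]
  exact congrFun h4 g

theorem three_ne {R : Type} [CommRing R] [Algebra F R] [Nontrivial R] : (3 : R) ≠ 0 := by
  intro h3
  have h1 : (algebraMap F R) 3 = 0 := by rw [map_ofNat]; exact h3
  have h2 : (3 : F) = 0 := (algebraMap F R).injective (by rw [h1, map_zero])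
  exact absurd h2 (by decide)

/-- the trivial pseudo-character does not occur modulo a proper ideal of `F[X]` -/
theorem not_triv (hev : ∀ J g, ev J (T g) = (rep' h Φ J g).val.trace)
    (J : {J : Ideal F[X] // J ≠ ⊥}) (hJ : J.1 ≠ ⊤)
    (h1 : ∀ l, ev J (T l) = 1 + (((Φ.toFun ℤˣ (eps h) l : ℤˣ) : ℤ) : F[X] ⧸ J.1)) : False := by
  have : Nontrivial (F[X] ⧸ J.1) := Ideal.Quotient.nontrivial_iff.mpr hJ
  obtain ⟨l, h2, h3⟩ := joint' Φ (rep h (Ideal.Quotient.mk J.1 X)) (eps h) y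
  have h4 : rep' h Φ J l = rep h (Ideal.Quotient.mk J.1 X) y := h2
  have h5 := h1 l
  rw [hev, h4, trace_y, h3, eps_y] at h5
  apply three_ne (R := F[X] ⧸ J.1)
  have h6 : (1 : F[X] ⧸ J.1) + (((1 : ℤˣ) : ℤ) : F[X] ⧸ J.1) = 2 := by
    rw [Units.val_one, Int.cast_one]; norm_num
  rw [h6] at h5
  linear_combination -h5

theorem scalars (hadj : Algebra.adjoin F (Set.range T) = ⊤) {R : Type} [CommRing R] [Algebra F R]
    (f : B →ₐ[F] R)
    (h1 : ∀ l, f (T l) = 1 + (((Φ.toFun ℤˣ (eps h) l : ℤˣ) : ℤ) : R)) (b : B) :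
    ∃ c : F, f b = algebraMap F R c := by
  have h2 : (⊤ : Subalgebra F B) ≤ (⊥ : Subalgebra F R).comap f := by
    rw [← hadj, Algebra.adjoin_le_iff]
    rintro _ ⟨l, rfl⟩
    show f (T l) ∈ (⊥ : Subalgebra F R)
    rw [h1]
    exact add_mem (one_mem _) (intCast_mem _ _)
  have h3 : f b ∈ (⊥ : Subalgebra F R) := h2 (Algebra.mem_top)
  rw [Algebra.mem_bot] at h3
  obtain ⟨c, hc⟩ := h3
  exact ⟨c, hc.symm⟩

theorem fin_of [Group.FG Λ] (hfg : Algebra.FiniteType F B)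
    (hev : ∀ J g, ev J (T g) = (rep' h Φ J g).val.trace)
    (hadj : Algebra.adjoin F (Set.range T) = ⊤) (hT : PChar (Φ.toFun ℤˣ (eps h)) T)
    (hcompat : ∀ (J J' : {J : Ideal F[X] // J ≠ ⊥}) (hJ : J.1 ≤ J'.1) (b : B),
      Ideal.Quotient.factor hJ (ev J b) = ev J' b)
    (hsep : ∀ b, (∀ J, ev J b = 0) → b = 0)
    (I : Ideal B) (hI : Finite (B ⧸ I)) : ∃ J, I = RingHom.ker (ev J) := by
  have hnoeth : IsNoetherianRing B := Algebra.FiniteType.isNoetherianRing F B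
  -- transfer of the pseudo-character modulo `I`
  have hTI : PChar (Φ.toFun ℤˣ (eps h)) (fun l => Ideal.Quotient.mkₐ F I (T l)) :=
    hT.map (Ideal.Quotient.mk I)
  obtain ⟨Q, i1, i2, θ, τ, h1, h2⟩ := transfer h Φ hTI
  by_cases hu : τ (θ y) = -1
  · obtain ⟨J, hJ⟩ := key_a h Φ hev hadj (Ideal.Quotient.mkₐ F I) θ τ h1 h2 hu
    refine ⟨J, ?_⟩
    rw [← hJ]
    exact (Ideal.Quotient.mkₐ_ker F I).symm
  exfalso
  set u := τ (θ y) with hudef
  have hquad : (u + 1) * (u - 2) = 0 := PChar.y_quad h h2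
  -- the quotient where `u = 2`
  let K : Ideal (B ⧸ I) := Ideal.span {u - 2}
  have hK : K ≠ ⊤ := by
    intro htop
    have h3 : (1 : B ⧸ I) ∈ K := by rw [htop]; trivial
    obtain ⟨r, hr⟩ := Ideal.mem_span_singleton'.mp h3
    apply hu
    have h4 : u + 1 = 0 := by
      calc u + 1 = (u + 1) * (r * (u - 2)) := by rw [hr, mul_one]
        _ = r * ((u + 1) * (u - 2)) := by ring
        _ = 0 := by rw [hquad, mul_zero]
    exact eq_neg_of_add_eq_zero_left h4
  have hnt : Nontrivial ((B ⧸ I) ⧸ K) := Ideal.Quotient.nontrivial_iff.mpr hK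
  let g' : (B ⧸ I) →ₐ[F] ((B ⧸ I) ⧸ K) := Ideal.Quotient.mkₐ F K
  let f' : B →ₐ[F] ((B ⧸ I) ⧸ K) := g'.comp (Ideal.Quotient.mkₐ F I)
  have hf's : Function.Surjective f' :=
    (Ideal.Quotient.mkₐ_surjective F K).comp (Ideal.Quotient.mkₐ_surjective F I)
  have hf' : ∀ l, f' (T l) = 1 + (((Φ.toFun ℤˣ (eps h) l : ℤˣ) : ℤ) : (B ⧸ I) ⧸ K) := by
    apply key_b h Φ θ (fun q => g' (τ q))
    · intro l
      show g' (Ideal.Quotient.mkₐ F I (T l)) = _
      rw [h1]
    · exact h2.map (g' : (B ⧸ I) →+* ((B ⧸ I) ⧸ K))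
    · show g' u = 2
      have h3 : g' (u - 2) = 0 := by
        show Ideal.Quotient.mk K (u - 2) = 0
        rw [Ideal.Quotient.eq_zero_iff_mem]
        exact Ideal.mem_span_singleton_self _
      rw [map_sub, sub_eq_zero, map_ofNat] at h3
      exact h3
  let m : Ideal B := RingHom.ker f'
  have hm1 : ∀ b, b ∈ m ↔ f' b = 0 := fun b => Iff.rfl
  have hfinm : Finite (B ⧸ m) := by
    have : Finite ((B ⧸ I) ⧸ K) :=
      Finite.of_surjective (Ideal.Quotient.mk K) Ideal.Quotient.mk_surjective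
    exact Finite.of_injective _ (RingHom.kerLift_injective (f' : B →+* ((B ⧸ I) ⧸ K)))
  have hfinm2 : Finite (B ⧸ m ^ 2) := Ideal.finite_quotient_pow (IsNoetherian.noetherian m) 2
  -- transfer modulo `m ^ 2`
  let q : B →ₐ[F] B ⧸ m ^ 2 := Ideal.Quotient.mkₐ F (m ^ 2)
  have hq : ∀ b, q b = 0 ↔ b ∈ m ^ 2 := fun b => Ideal.Quotient.eq_zero_iff_mem
  have hTq : PChar (Φ.toFun ℤˣ (eps h)) (fun l => q (T l)) := hT.map (Ideal.Quotient.mk (m ^ 2))
  obtain ⟨Q₂, j1, j2, θ₂, τ₂, h4, h5⟩ := transfer h Φ hTq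
  have hquad₂ : (τ₂ (θ₂ y) + 1) * (τ₂ (θ₂ y) - 2) = 0 := PChar.y_quad h h5
  obtain ⟨l, h6, h7⟩ := joint' Φ θ₂ (eps h) y
  have h8 : q (T l) = τ₂ (θ₂ y) := by
    have := h4 l
    rw [h6] at this
    exact this
  have h9 : f' (T l) = 2 := by
    rw [hf', h7, eps_y, Units.val_one, Int.cast_one]; norm_num
  have h10 : T l - 2 ∈ m := by
    rw [hm1, map_sub, h9, map_ofNat, sub_self]
  have h11 : (T l + 1) * (T l - 2) ∈ m ^ 2 := by
    rw [← hq, map_mul, map_add, map_sub, map_one, map_ofNat, h8]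
    exact hquad₂
  have h12 : (T l - 2) ^ 2 ∈ m ^ 2 := Ideal.pow_mem_pow h10 2
  have h13 : 3 * (T l - 2) ∈ m ^ 2 := by
    have : 3 * (T l - 2) = (T l + 1) * (T l - 2) - (T l - 2) ^ 2 := by ring
    rw [this]
    exact sub_mem h11 h12
  have h14 : T l - 2 ∈ m ^ 2 := by
    have h15 : (algebraMap F B 9) * (3 * (T l - 2)) ∈ m ^ 2 := Ideal.mul_mem_left _ _ h13
    have h16 : (algebraMap F B 9) * 3 = 1 := by
      have : (9 : F) * 3 = 1 := by decide
      rw [← map_ofNat (algebraMap F B) 3, ← map_mul]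
      have h17 : (9 : F) * (OfNat.ofNat 3) = 1 := by decide
      rw [h17, map_one]
    have h18 : (algebraMap F B 9) * (3 * (T l - 2)) = T l - 2 := by
      rw [← mul_assoc, h16, one_mul]
    rwa [h18] at h15
  have hu₂ : τ₂ (θ₂ y) = 2 := by
    rw [← h8]
    have := (hq (T l - 2)).mpr h14
    rw [map_sub, sub_eq_zero, map_ofNat] at this
    exact this
  have hq' : ∀ l, q (T l) = 1 + (((Φ.toFun ℤˣ (eps h) l : ℤˣ) : ℤ) : B ⧸ m ^ 2) :=
    key_b h Φ θ₂ τ₂ h4 h5 hu₂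
  have hidem : m ≤ m ^ 2 := by
    intro b hb
    obtain ⟨c, hc⟩ := scalars h Φ hadj q hq' b
    have h19 : b - algebraMap F B c ∈ m ^ 2 := by
      rw [← hq, map_sub, hc, AlgHom.commutes, sub_self]
    have h20 : b - algebraMap F B c ∈ m := Ideal.pow_le_self (two_ne_zero) h19
    have h21 : algebraMap F B c ∈ m := by
      have := sub_mem hb h20
      rwa [sub_sub_cancel] at this
    have h22 : c = 0 := by
      rw [hm1, AlgHom.commutes] at h21
      exact (algebraMap F ((B ⧸ I) ⧸ K)).injective (by rw [h21, map_zero])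
    rw [h22, map_zero, sub_zero] at h19
    exact h19
  have hidem' : IsIdempotentElem m := by
    show m * m = m
    rw [← pow_two]
    exact le_antisymm (Ideal.pow_le_self two_ne_zero) hidem
  obtain ⟨w, hw1, hw2⟩ := (Ideal.isIdempotentElem_iff_of_fg m (IsNoetherian.noetherian m)).mp hidem'
  have hw3 : 1 - w ≠ 0 := by
    intro h23
    have h24 : w = 1 := (sub_eq_zero.mp h23).symm
    have h25 : (1 : B) ∈ m := by
      rw [hw2, h24]
      exact Ideal.mem_span_singleton_self _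
    rw [hm1, map_one] at h25
    exact one_ne_zero h25
  have hex : ∃ J, ev J (1 - w) ≠ 0 := by
    by_contra hcon
    push Not at hcon
    exact hw3 (hsep _ hcon)
  obtain ⟨J, hJ⟩ := hex
  set z := ev J w with hz
  have hzid : z * z = z := by
    rw [hz, ← map_mul]
    exact congrArg _ hw1
  let J' : Ideal F[X] := Ideal.comap (Ideal.Quotient.mk J.1) (Ideal.span {z})
  have hJJ' : J.1 ≤ J' := by
    intro a ha
    show Ideal.Quotient.mk J.1 a ∈ Ideal.span {z}
    rw [Ideal.Quotient.eq_zero_iff_mem.mpr ha]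
    exact zero_mem _
  have hJ'bot : J' ≠ ⊥ := by
    intro h26
    apply J.2
    rw [h26] at hJJ'
    exact le_bot_iff.mp hJJ'
  have hJ'top : J' ≠ ⊤ := by
    intro h26
    have h27 : (1 : F[X]) ∈ J' := by rw [h26]; trivial
    have h28 : (1 : F[X] ⧸ J.1) ∈ Ideal.span {z} := by
      have : Ideal.Quotient.mk J.1 1 ∈ Ideal.span {z} := h27
      rwa [map_one] at this
    obtain ⟨r, hr⟩ := Ideal.mem_span_singleton'.mp h28
    apply hJ
    rw [map_sub, map_one, ← hz]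
    have h29 : z * (1 - z) = 0 := by rw [mul_sub, mul_one, hzid, sub_self]
    calc 1 - z = (r * z) * (1 - z) := by rw [hr, one_mul]
      _ = r * (z * (1 - z)) := by ring
      _ = 0 := by rw [h29, mul_zero]
  have hwJ' : ev ⟨J', hJ'bot⟩ w = 0 := by
    rw [← hcompat J ⟨J', hJ'bot⟩ hJJ' w]
    obtain ⟨a, ha⟩ := Ideal.Quotient.mk_surjective z
    rw [← hz, ← ha]
    show Ideal.Quotient.mk J' a = 0
    rw [Ideal.Quotient.eq_zero_iff_mem]
    show Ideal.Quotient.mk J.1 a ∈ Ideal.span {z}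
    rw [ha]
    exact Ideal.mem_span_singleton_self _
  apply not_triv h Φ hev ⟨J', hJ'bot⟩ hJ'top
  intro l'
  have h30 : T l' - (1 + (((Φ.toFun ℤˣ (eps h) l' : ℤˣ) : ℤ) : B)) ∈ m := by
    rw [hm1, map_sub, hf', map_add, map_one, map_intCast, sub_self]
  rw [hw2] at h30
  obtain ⟨r, hr⟩ := Ideal.mem_span_singleton'.mp h30
  have h31 : ev ⟨J', hJ'bot⟩ (T l' - (1 + (((Φ.toFun ℤˣ (eps h) l' : ℤˣ) : ℤ) : B))) = 0 := by
    rw [← hr, map_mul, hwJ', mul_zero]
  rw [map_sub, sub_eq_zero, map_add, map_one, map_intCast] at h31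
  exact h31

/-- the family of the traces of the transported representations -/
noncomputable def Tb (l : Λ) : ∀ J : {J : Ideal F[X] // J ≠ ⊥}, F[X] ⧸ J.1 :=
  fun J => (rep' h Φ J l).val.trace

theorem pchar_Tb : PChar (Φ.toFun ℤˣ (eps h)) (Tb h Φ) := by
  have h1 := fun J => PChar.of_rep (rep' h Φ J) (Φ.toFun ℤˣ (eps h)) (det_rep' h Φ J)
  refine ⟨?_, ?_, ?_⟩
  · funext J
    exact (h1 J).one
  · intro g k
    funext J
    exact (h1 J).comm g k
  · intro g k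
    funext J
    have h2 := (h1 J).rel g k
    exact h2

theorem exists_TR {Γ Λ : Type} [Group Γ] [Group Λ] [Group.FG Λ] {x y : Γ} (h : IsC2C3 Γ x y)
    (Φ : NatBij Γ Λ) :
    ∃ (B : Type) (_ : CommRing B) (_ : Algebra F B)
      (ev : ∀ J : {J : Ideal F[X] // J ≠ ⊥}, B →ₐ[F] F[X] ⧸ J.1) (T : Λ → B),
      IsTR B ev ∧ (∀ J g, ev J (T g) = (rep' h Φ J g).val.trace) ∧
      Algebra.adjoin F (Set.range T) = ⊤ ∧ PChar (Φ.toFun ℤˣ (eps h)) T := by
  let S : Subalgebra F (∀ J : {J : Ideal F[X] // J ≠ ⊥}, F[X] ⧸ J.1) :=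
    Algebra.adjoin F (Set.range (Tb h Φ))
  let ev : ∀ J : {J : Ideal F[X] // J ≠ ⊥}, S →ₐ[F] F[X] ⧸ J.1 :=
    fun J => (Pi.evalAlgHom F _ J).comp S.val
  let T : Λ → S := fun l => ⟨Tb h Φ l, Algebra.subset_adjoin ⟨l, rfl⟩⟩
  have hev : ∀ J g, ev J (T g) = (rep' h Φ J g).val.trace := fun J g => rfl
  have hadj : Algebra.adjoin F (Set.range T) = ⊤ := by
    have h1 := Algebra.adjoin_adjoin_coe_preimage (R := F) (s := Set.range (Tb h Φ))
    rw [← h1]
    congr 1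
    ext b
    constructor
    · rintro ⟨l, rfl⟩
      exact ⟨l, rfl⟩
    · rintro ⟨l, hl⟩
      exact ⟨l, Subtype.ext hl⟩
  have hT : PChar (Φ.toFun ℤˣ (eps h)) T := by
    have h1 := pchar_Tb h Φ
    refine ⟨?_, ?_, ?_⟩
    · exact Subtype.ext h1.one
    · intro g k
      exact Subtype.ext (h1.comm g k)
    · intro g k
      apply Subtype.ext
      have h2 := h1.rel g k
      rw [← h1.rel g k] at h2
      show Tb h Φ (g * k) + _ * Tb h Φ (g * k⁻¹) = Tb h Φ g * Tb h Φ k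
      rw [← h1.rel g k]
      rfl
  have hfg : Algebra.FiniteType F S := (Subalgebra.fg_iff_finiteType S).mp (pchar_Tb h Φ).fg
  have hcompat : ∀ (J J' : {J : Ideal F[X] // J ≠ ⊥}) (hJ : J.1 ≤ J'.1) (b : S),
      Ideal.Quotient.factor hJ (ev J b) = ev J' b := by
    intro J J' hJ b
    have h1 : (Ideal.Quotient.factorₐ F hJ).comp (ev J) = ev J' := by
      apply AlgHom.ext_of_adjoin_eq_top hadj
      rintro _ ⟨l, rfl⟩
      obtain ⟨g, h2, h3⟩ := joint Φ (rep h (Ideal.Quotient.mk J.1 X))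
        (rep h (Ideal.Quotient.mk J'.1 X)) l
      have h4 : rep' h Φ J l = rep h (Ideal.Quotient.mk J.1 X) g := h2.symm
      have h5 : rep' h Φ J' l = rep h (Ideal.Quotient.mk J'.1 X) g := h3.symm
      rw [AlgHom.comp_apply, hev, hev, h4, h5]
      exact trace_map h (Ideal.Quotient.factor hJ) (Ideal.Quotient.mk J.1 X) g
    exact DFunLike.congr_fun h1 b
  have hsep : ∀ b, (∀ J, ev J b = 0) → b = 0 := by
    intro b hb
    apply Subtype.ext
    funext J
    exact hb J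
  have haev : ∀ (J : {J : Ideal F[X] // J ≠ ⊥}) (l : Λ) (p : F[X]),
      (rep' h Φ J l).val.trace = Ideal.Quotient.mk J.1 X →
      ev J (aeval (T l) p) = Ideal.Quotient.mk J.1 p := by
    intro J l p hl
    rw [← aeval_algHom_apply, hev, hl]
    have h1 := aeval_algHom_apply (Ideal.Quotient.mkₐ F J.1) (X : F[X]) p
    rw [aeval_X_left_apply] at h1
    exact h1
  refine ⟨S, inferInstance, inferInstance, ev, T, ⟨hfg, ?_, hcompat, ?_, ?_, hsep⟩, hev, hadj, hT⟩
  · intro J a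
    obtain ⟨p, rfl⟩ := Ideal.Quotient.mk_surjective a
    obtain ⟨l, h1, -⟩ := joint' Φ (rep h (Ideal.Quotient.mk J.1 X)) (eps h) (x * y)
    refine ⟨aeval (T l) p, haev J l p ?_⟩
    have h2 : rep' h Φ J l = rep h (Ideal.Quotient.mk J.1 X) (x * y) := h1
    rw [h2, trace_xy]
  · have key : ∀ J J' : {J : Ideal F[X] // J ≠ ⊥},
        RingHom.ker (ev J) = RingHom.ker (ev J') → J.1 ≤ J'.1 := by
      intro J J' hJJ' p hp
      obtain ⟨l, h1, h2⟩ := joint' Φ (rep h (Ideal.Quotient.mk J.1 X))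
        (rep h (Ideal.Quotient.mk J'.1 X)) (x * y)
      have h3 : rep' h Φ J l = rep h (Ideal.Quotient.mk J.1 X) (x * y) := h1
      have h4 : rep' h Φ J' l = rep h (Ideal.Quotient.mk J'.1 X) (x * y) := h2
      have h5 : aeval (T l) p ∈ RingHom.ker (ev J) := by
        rw [RingHom.mem_ker, haev J l p (by rw [h3, trace_xy])]
        exact Ideal.Quotient.eq_zero_iff_mem.mpr hp
      rw [hJJ', RingHom.mem_ker, haev J' l p (by rw [h4, trace_xy])] at h5
      exact Ideal.Quotient.eq_zero_iff_mem.mp h5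
    intro J J' hJJ'
    exact Subtype.ext (le_antisymm (key J J' hJJ') (key J' J hJJ'.symm))
  · intro I hI
    exact fin_of h Φ hfg hev hadj hT hcompat hsep I hI

end ideals

end Pool.Agent.PSL2Z
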