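import Pool.Agent.Lib.MP_305fdd_al.PSL.Defs

/-!
# P8: the places at infinity
-/

set_option autoImplicit false

namespace Pool.Agent.PSL2Z

open Polynomial Pool.Agent.Lib.MP_305fdd_al
open scoped WithZero nonZeroDivisors
open IsDedekindDomain

namespace Inf

/-- the automorphism `X ↦ 1/X` -/
theorem exists_inv (k : Type) [Field k] : ∃ σ : RatFunc k →+* RatFunc k,
    σ RatFunc.X = RatFunc.X⁻¹ ∧ (∀ a, σ (RatFunc.C a) = RatFunc.C a) ∧ ∀ z, σ (σ z) = z := by
  have htr : Transcendental k (RatFunc.X⁻¹ : RatFunc k) := by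
    intro h
    exact RatFunc.transcendental_X (IsAlgebraic.inv_iff.mp h)
  have hinj : Function.Injective (aeval (R := k) (RatFunc.X⁻¹ : RatFunc k)).toRingHom :=
    transcendental_iff_injective.mp htr
  obtain ⟨σ, hσ⟩ : ∃ σ : RatFunc k →+* RatFunc k, ∀ f : k[X],
      σ (algebraMap k[X] (RatFunc k) f) = aeval (RatFunc.X⁻¹ : RatFunc k) f :=
    ⟨IsFractionRing.lift hinj, fun f => IsFractionRing.lift_algebraMap hinj f⟩
  have h1 : σ RatFunc.X = RatFunc.X⁻¹ := by
    have := hσ X
    rwa [RatFunc.algebraMap_X, aeval_X] at this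
  have h2 : ∀ a, σ (RatFunc.C a) = RatFunc.C a := by
    intro a
    have := hσ (C a)
    rwa [RatFunc.algebraMap_C, aeval_C] at this
  refine ⟨σ, h1, h2, ?_⟩
  have h : σ.comp σ = RingHom.id (RatFunc k) := by
    apply IsLocalization.ringHom_ext (nonZeroDivisors k[X])
    apply Polynomial.ringHom_ext
    · intro a
      simp only [RingHom.comp_apply, RatFunc.algebraMap_C, h2, RingHom.id_apply]
    · simp only [RingHom.comp_apply, RatFunc.algebraMap_X, h1, map_inv₀, RingHom.id_apply,
        inv_inv]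
  intro z
  exact congrArg (fun f => f z) h

theorem exists_ring (p : ℕ) [Fact p.Prime] (K : Type) [Field K] (ψ : RatFunc (ZMod p) →+* K)
    (h4 : letI := ψ.toAlgebra; FiniteDimensional (RatFunc (ZMod p)) K ∧
        Algebra.IsSeparable (RatFunc (ZMod p)) K) :
    ∃ (C : Type) (_ : CommRing C) (_ : IsDedekindDomain C) (_ : Algebra C K)
      (_ : IsFractionRing C K) (φ : (ZMod p)[X] →+* C), Function.Injective φ ∧ φ.Finite ∧
      ∀ f, ψ (algebraMap _ _ f) = algebraMap C K (φ f) := by
  let := ψ.toAlgebra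
  let := (ψ.comp (algebraMap (ZMod p)[X] (RatFunc (ZMod p)))).toAlgebra
  have : IsScalarTower (ZMod p)[X] (RatFunc (ZMod p)) K := .of_algebraMap_eq (fun _ => rfl)
  have : FiniteDimensional (RatFunc (ZMod p)) K := h4.1
  have : Algebra.IsSeparable (RatFunc (ZMod p)) K := h4.2
  have h5 : IsDedekindDomain (integralClosure (ZMod p)[X] K) :=
    integralClosure.isDedekindDomain (ZMod p)[X] (RatFunc (ZMod p)) K
  have h6 : IsFractionRing (integralClosure (ZMod p)[X] K) K :=
    integralClosure.isFractionRing_of_finite_extension (RatFunc (ZMod p)) K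
  have h7 : Module.Finite (ZMod p)[X] (integralClosure (ZMod p)[X] K) :=
    IsIntegralClosure.finite (ZMod p)[X] (RatFunc (ZMod p)) K (integralClosure (ZMod p)[X] K)
  refine ⟨integralClosure (ZMod p)[X] K, inferInstance, h5, inferInstance, h6,
    algebraMap _ _, ?_, ?_, ?_⟩
  · have : Function.Injective ((algebraMap (integralClosure (ZMod p)[X] K) K).comp
        (algebraMap (ZMod p)[X] (integralClosure (ZMod p)[X] K))) := by
      rw [← IsScalarTower.algebraMap_eq]
      exact ψ.injective.comp (IsFractionRing.injective _ _)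
    rw [RingHom.coe_comp] at this
    exact Function.Injective.of_comp this
  · exact RingHom.finite_algebraMap.mpr h7
  · intro f
    rfl

/-- finite-dimensionality and separability along an involution of the base -/
theorem comp_inv (k K : Type) [Field k] [Field K] (ψ : RatFunc k →+* K)
    (h4 : letI := ψ.toAlgebra; FiniteDimensional (RatFunc k) K ∧
        Algebra.IsSeparable (RatFunc k) K) (σ : RatFunc k →+* RatFunc k)
    (hσ : ∀ z, σ (σ z) = z) :
    letI := (ψ.comp σ).toAlgebra; FiniteDimensional (RatFunc k) K ∧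
        Algebra.IsSeparable (RatFunc k) K := by
  let e : RatFunc k ≃+* RatFunc k := RingEquiv.ofRingHom σ σ (RingHom.ext hσ) (RingHom.ext hσ)
  have key : ∀ z, (ψ.comp σ) (e z) = ψ z := by
    intro z
    show ψ (σ (σ z)) = ψ z
    rw [hσ]
  constructor
  · exact @Module.Finite.of_equiv_equiv (RatFunc k) K (RatFunc k) K _ _ _ _ ψ.toAlgebra
      (ψ.comp σ).toAlgebra e (RingEquiv.refl K) (RingHom.ext key) h4.1
  · exact @Algebra.IsSeparable.of_equiv_equiv (RatFunc k) K (RatFunc k) K _ _ _ _ ψ.toAlgebra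
      (ψ.comp σ).toAlgebra e (RingEquiv.refl K) (RingHom.ext key) h4.2

/-- elements integral over a ring in the valuation ring are in the valuation ring -/
theorem le_one_of_integral {R K : Type} [CommRing R] [Field K] (w : Valuation K ℤᵐ⁰)
    (f : R →+* K) (hf : ∀ r, w (f r) ≤ 1) (a : K) (ha : f.IsIntegralElem a) : w a ≤ 1 := by
  obtain ⟨P, hP, he⟩ := ha
  let g : R →+* w.integer := f.codRestrict w.integer hf
  have h : IsIntegral w.integer a := by
    refine ⟨P.map g, hP.map g, ?_⟩
    rw [eval₂_map]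
    exact he
  exact (Valuation.integer.integers w).mem_of_integral h

/-- valuations are trivial on the prime field -/
theorem le_one_of_zmod {p : ℕ} [Fact p.Prime] {K : Type} [Field K] (w : Valuation K ℤᵐ⁰)
    (κ : ZMod p →+* K) (r : ZMod p) : w (κ r) ≤ 1 := by
  let := κ.toAlgebra
  exact FiniteField.valuation_algebraMap_le_one w r

theorem exists_min {k K : Type} [Field k] [Field K] (θ : RatFunc k →+* K) (a : K)
    (h : (θ.comp (algebraMap k[X] (RatFunc k))).IsIntegralElem a) :
    ∃ P : k[X][X], P.Monic ∧ Irreducible (P.map (algebraMap k[X] (RatFunc k))) ∧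
      (P.map (algebraMap k[X] (RatFunc k))).eval₂ θ a = 0 := by
  let := θ.toAlgebra
  let := (θ.comp (algebraMap k[X] (RatFunc k))).toAlgebra
  have : IsScalarTower k[X] (RatFunc k) K := .of_algebraMap_eq (fun _ => rfl)
  have ha : IsIntegral k[X] a := h
  have h1 := minpoly.isIntegrallyClosed_eq_field_fractions' (RatFunc k) ha
  refine ⟨minpoly k[X] a, minpoly.monic ha, ?_, ?_⟩
  · rw [← h1]
    exact minpoly.irreducible (ha.tower_top)
  · rw [← h1]
    exact minpoly.aeval (RatFunc k) a

/-- an element integral over both polynomial rings is integral over the constants -/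
theorem const_integral (p : ℕ) [Fact p.Prime] (K : Type) [Field K]
    (ψ : RatFunc (ZMod p) →+* K) (σ : RatFunc (ZMod p) →+* RatFunc (ZMod p))
    (hσX : σ RatFunc.X = RatFunc.X⁻¹) (hσC : ∀ a, σ (RatFunc.C a) = RatFunc.C a)
    (hσ : ∀ z, σ (σ z) = z) (a : K)
    (h1 : (ψ.comp (algebraMap (ZMod p)[X] (RatFunc (ZMod p)))).IsIntegralElem a)
    (h2 : ((ψ.comp σ).comp (algebraMap (ZMod p)[X] (RatFunc (ZMod p)))).IsIntegralElem a) :
    ((ψ.comp (algebraMap (ZMod p)[X] (RatFunc (ZMod p)))).comp C).IsIntegralElem a := by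
  classical
  obtain ⟨P₁, hm₁, hi₁, he₁⟩ := exists_min ψ a h1
  obtain ⟨P₂, hm₂, hi₂, he₂⟩ := exists_min (ψ.comp σ) a h2
  let e : RatFunc (ZMod p) ≃+* RatFunc (ZMod p) :=
    RingEquiv.ofRingHom σ σ (RingHom.ext hσ) (RingHom.ext hσ)
  have heq : P₁.map (algebraMap (ZMod p)[X] (RatFunc (ZMod p))) =
      (P₂.map (algebraMap (ZMod p)[X] (RatFunc (ZMod p)))).map σ := by
    let := ψ.toAlgebra
    have e1 := minpoly.eq_of_irreducible_of_monic (A := RatFunc (ZMod p)) (x := a) hi₁ he₁
      (hm₁.map _)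
    have hi₃ : Irreducible ((P₂.map (algebraMap (ZMod p)[X] (RatFunc (ZMod p)))).map σ) := by
      have := (MulEquiv.irreducible_iff (Polynomial.mapEquiv e)).mpr hi₂
      exact this
    have e2 := minpoly.eq_of_irreducible_of_monic (A := RatFunc (ZMod p)) (x := a) hi₃
      (by
        show ((P₂.map (algebraMap (ZMod p)[X] (RatFunc (ZMod p)))).map σ).eval₂ ψ a = 0
        rw [eval₂_map]; exact he₂) ((hm₂.map _).map _)
    rw [e1, e2]
  have hco : ∀ i, P₁.coeff i = C ((P₁.coeff i).coeff 0) := by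
    intro i
    apply eq_C_of_natDegree_eq_zero
    by_cases h0 : P₁.coeff i = 0
    · rw [h0, natDegree_zero]
    have e1 := congrArg (fun P => P.coeff i) heq
    simp only [coeff_map] at e1
    have e2 : RatFunc.inftyValuation (ZMod p) (algebraMap _ _ (P₁.coeff i)) =
        WithZero.exp ((P₁.coeff i).natDegree : ℤ) := RatFunc.inftyValuation.polynomial _ h0
    have e3 : RatFunc.inftyValuation (ZMod p) (algebraMap _ _ (P₁.coeff i)) ≤ 1 := by
      rw [e1]
      have e4 : ((RatFunc.inftyValuation (ZMod p)).comap σ) RatFunc.X ≤ 1 := by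
        rw [Valuation.comap_apply, hσX, map_inv₀, RatFunc.inftyValuation.X, ← WithZero.exp_neg,
          ← WithZero.exp_zero, WithZero.exp_le_exp]
        omega
      exact Polynomial.valuation_le_one_of_valuation_X_le_one (ZMod p) e4 (P₂.coeff i)
    rw [e2, ← WithZero.exp_zero, WithZero.exp_le_exp] at e3
    omega
  refine ⟨P₁.map constantCoeff, hm₁.map _, ?_⟩
  rw [← eval₂_map]
  have : (P₁.map constantCoeff).map C = P₁ := by
    ext1 i
    rw [coeff_map, coeff_map, constantCoeff_apply]
    exact (hco i).symm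
  rw [this, ← eval₂_map]
  exact he₁

/-- the situation: two Dedekind domains with the same quotient field, finite over the two
polynomial rings -/
structure Setup (p : ℕ) [Fact p.Prime] (D C K : Type) [CommRing D] [CommRing C] [Field K]
    [Algebra D K] [Algebra C K] (φ : (ZMod p)[X] →+* D) (φ' : (ZMod p)[X] →+* C)
    (ψ : RatFunc (ZMod p) →+* K) (σ : RatFunc (ZMod p) →+* RatFunc (ZMod p)) : Prop where
  inj : Function.Injective φ
  fin : φ.Finite
  inj' : Function.Injective φ'
  fin' : φ'.Finite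
  comm : ∀ f, ψ (algebraMap _ _ f) = algebraMap D K (φ f)
  comm' : ∀ f, ψ (σ (algebraMap _ _ f)) = algebraMap C K (φ' f)
  sX : σ RatFunc.X = RatFunc.X⁻¹
  sC : ∀ a, σ (RatFunc.C a) = RatFunc.C a
  ss : ∀ z, σ (σ z) = z

section setup

variable {p : ℕ} [Fact p.Prime] {D C K : Type} [CommRing D] [CommRing C]
    [Field K] [Algebra D K] [Algebra C K] {φ : (ZMod p)[X] →+* D} {φ' : (ZMod p)[X] →+* C}
    {ψ : RatFunc (ZMod p) →+* K} {σ : RatFunc (ZMod p) →+* RatFunc (ZMod p)}

theorem Setup.b_eq (h : Setup p D C K φ φ' ψ σ) :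
    algebraMap D K (φ X) = (algebraMap C K (φ' X))⁻¹ := by
  rw [← h.comm, ← h.comm', RatFunc.algebraMap_X, h.sX, map_inv₀, inv_inv]

theorem Setup.c_ne (h : Setup p D C K φ φ' ψ σ) : algebraMap C K (φ' X) ≠ 0 := by
  rw [← h.comm', RatFunc.algebraMap_X, h.sX, map_inv₀]
  exact inv_ne_zero ((map_ne_zero ψ).mpr RatFunc.X_ne_zero)

theorem Setup.b_ne (h : Setup p D C K φ φ' ψ σ) : algebraMap D K (φ X) ≠ 0 := by
  rw [h.b_eq]
  exact inv_ne_zero h.c_ne

theorem isIntegralElem_map {R S T : Type} [CommRing R] [CommRing S] [CommRing T] {f : R →+* S}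
    (g : S →+* T) (a : S) (ha : f.IsIntegralElem a) : (g.comp f).IsIntegralElem (g a) := by
  obtain ⟨P, hP, he⟩ := ha
  exact ⟨P, hP, by rw [← hom_eval₂, he, map_zero]⟩

theorem Setup.int_D (h : Setup p D C K φ φ' ψ σ) (a : D) :
    (ψ.comp (algebraMap (ZMod p)[X] (RatFunc (ZMod p)))).IsIntegralElem (algebraMap D K a) := by
  have e : ψ.comp (algebraMap (ZMod p)[X] (RatFunc (ZMod p))) = (algebraMap D K).comp φ :=
    RingHom.ext h.comm
  rw [e]
  exact isIntegralElem_map _ _ (h.fin.to_isIntegral a)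

theorem Setup.int_C (h : Setup p D C K φ φ' ψ σ) (a : C) :
    ((ψ.comp σ).comp (algebraMap (ZMod p)[X] (RatFunc (ZMod p)))).IsIntegralElem
      (algebraMap C K a) := by
  have e : (ψ.comp σ).comp (algebraMap (ZMod p)[X] (RatFunc (ZMod p))) =
      (algebraMap C K).comp φ' := RingHom.ext h.comm'
  rw [e]
  exact isIntegralElem_map _ _ (h.fin'.to_isIntegral a)

theorem Setup.le_one (h : Setup p D C K φ φ' ψ σ) (w : Valuation K ℤᵐ⁰)
    (hw : w (algebraMap D K (φ X)) ≤ 1) (a : D) : w (algebraMap D K a) ≤ 1 := by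
  refine le_one_of_integral w _ ?_ _ (h.int_D a)
  intro f
  have h1 : (w.comap ψ) RatFunc.X ≤ 1 := by
    rw [Valuation.comap_apply, ← RatFunc.algebraMap_X, h.comm]
    exact hw
  exact Polynomial.valuation_le_one_of_valuation_X_le_one (ZMod p) h1 f

theorem Setup.mem_C [IsDedekindDomain C] [IsFractionRing C K] (h : Setup p D C K φ φ' ψ σ)
    (a : D) (ha : ∀ Q : HeightOneSpectrum C, φ' X ∈ Q.asIdeal →
      Q.valuation K (algebraMap D K a) ≤ 1) :
    algebraMap D K a ∈ (algebraMap C K).range := by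
  apply HeightOneSpectrum.mem_integers_of_valuation_le_one
  intro Q
  by_cases hQ : φ' X ∈ Q.asIdeal
  · exact ha Q hQ
  · apply h.le_one
    rw [h.b_eq, map_inv₀, (Q.valuation_eq_one_iff_notMem (K := K)).mpr hQ, inv_one]

theorem Setup.eq_zero [IsDedekindDomain C] [IsFractionRing C K] (h : Setup p D C K φ φ' ψ σ)
    (a : D) (ha : ∀ Q : HeightOneSpectrum C, φ' X ∈ Q.asIdeal →
      Q.valuation K (algebraMap D K a) < 1)
    (hne : ∃ Q : HeightOneSpectrum C, φ' X ∈ Q.asIdeal) :
    algebraMap D K a = 0 := by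
  obtain ⟨c, hc⟩ := h.mem_C a (fun Q hQ => (ha Q hQ).le)
  obtain ⟨Q, hQ⟩ := hne
  by_contra hne
  have h1 := const_integral p K ψ σ h.sX h.sC h.ss (algebraMap D K a) (h.int_D a)
    (hc ▸ h.int_C c)
  set κ : ZMod p →+* K := ((ψ.comp (algebraMap (ZMod p)[X] (RatFunc (ZMod p)))).comp
    Polynomial.C) with hκ
  have h2 : κ.IsIntegralElem (algebraMap D K a)⁻¹ := by
    let := κ.toAlgebra
    have h3 : IsIntegral (ZMod p) (algebraMap D K a) := h1
    exact h3.inv
  have h3 := le_one_of_integral (Q.valuation K) κ (le_one_of_zmod _ κ) _ h2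
  rw [map_inv₀] at h3
  have h4 := ha Q hQ
  have h5 : 0 < Q.valuation K (algebraMap D K a) := by
    rw [Valuation.pos_iff]; exact hne
  have h6 := (inv_le_one₀ h5).mp h3
  exact absurd h4 (not_lt.mpr h6)

end setup

/-- finite quotients -/
theorem finite_quot {p : ℕ} [Fact p.Prime] {D : Type} [CommRing D] (φ : (ZMod p)[X] →+* D)
    (hφ : φ.Finite) (g : (ZMod p)[X]) (hg : g ≠ 0) : Finite (D ⧸ Ideal.span {φ g}) := by
  have hI : Ideal.span {g} ≠ (⊥ : Ideal (ZMod p)[X]) := by
    rw [Ne, Ideal.span_singleton_eq_bot]; exact hg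
  have h1 : Finite ((ZMod p)[X] ⧸ Ideal.span {g}) := finite_quot_poly p ⟨_, hI⟩
  have h2 : Ideal.span {g} ≤ (Ideal.span {φ g}).comap φ := by
    rw [Ideal.span_singleton_le_iff_mem, Ideal.mem_comap]
    exact Ideal.mem_span_singleton_self _
  have h3 : (Ideal.quotientMap (Ideal.span {φ g}) φ h2).Finite := by
    apply RingHom.Finite.of_comp_finite (f := Ideal.Quotient.mk (Ideal.span {g}))
    rw [Ideal.quotientMap_comp_mk]
    exact RingHom.Finite.comp (RingHom.Finite.of_surjective _ Ideal.Quotient.mk_surjective) hφ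
  let := (Ideal.quotientMap (Ideal.span {φ g}) φ h2).toAlgebra
  have h4 : Module.Finite ((ZMod p)[X] ⧸ Ideal.span {g}) (D ⧸ Ideal.span {φ g}) := h3
  exact Module.finite_of_finite ((ZMod p)[X] ⧸ Ideal.span {g})

section places

variable {p : ℕ} [Fact p.Prime] {D C K : Type} [CommRing D] [CommRing C] [IsDedekindDomain C]
    [Field K] [Algebra D K] [Algebra C K] [IsFractionRing C K]
    {φ : (ZMod p)[X] →+* D} {φ' : (ZMod p)[X] →+* C}
    {ψ : RatFunc (ZMod p) →+* K} {σ : RatFunc (ZMod p) →+* RatFunc (ZMod p)}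
    {ι : Type} [Fintype ι] [DecidableEq ι] (P : ι → HeightOneSpectrum C)

theorem Setup.one_lt_b (h : Setup p D C K φ φ' ψ σ) (Q : HeightOneSpectrum C)
    (hQ : φ' X ∈ Q.asIdeal) : 1 < Q.valuation K (algebraMap D K (φ X)) := by
  have h1 : Q.valuation K (algebraMap C K (φ' X)) < 1 := (Q.valuation_lt_one_iff_mem _).mpr hQ
  have h2 : 0 < Q.valuation K (algebraMap C K (φ' X)) := by
    rw [Valuation.pos_iff]; exact h.c_ne
  rw [h.b_eq, map_inv₀]
  exact (one_lt_inv₀ h2).mpr h1

theorem exp_le_pow {x : ℤᵐ⁰} (hx : 1 < x) (M : ℕ) : WithZero.exp (M : ℤ) ≤ x ^ M := by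
  have h1 : WithZero.exp (1 : ℤ) ≤ x := by
    have h0 : x ≠ 0 := (lt_trans zero_lt_one hx).ne'
    rw [← WithZero.exp_log h0] at hx ⊢
    rw [← WithZero.exp_zero, WithZero.exp_lt_exp] at hx
    rw [WithZero.exp_le_exp]
    omega
  calc WithZero.exp (M : ℤ) = WithZero.exp (1 : ℤ) ^ M := by
        rw [← WithZero.exp_nsmul]; simp
    _ ≤ x ^ M := pow_le_pow_left₀ zero_le h1 M

omit [DecidableEq ι] in
theorem Setup.finite_Bsp (h : Setup p D C K φ φ' ψ σ) (hinj : Function.Injective (algebraMap D K))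
    (hP : ∀ Q : HeightOneSpectrum C, φ' X ∈ Q.asIdeal ↔ ∃ j, P j = Q) (j₀ : ι) (n : ι → ℤ) :
    {a : D | algebraMap D K a ∈ Bsp (fun j => (P j).valuation K) n}.Finite := by
  obtain ⟨M, hM⟩ : ∃ M : ℕ, ∀ j, n j < M := by
    refine ⟨∑ j, (n j).toNat + 1, fun j => ?_⟩
    have h1 : (n j).toNat ≤ ∑ j, (n j).toNat :=
      Finset.single_le_sum (f := fun j => (n j).toNat) (fun _ _ => Nat.zero_le _)
        (Finset.mem_univ j)
    have := Int.self_le_toNat (n j)
    push_cast
    have h2 : ((n j).toNat : ℤ) ≤ ((∑ j, (n j).toNat : ℕ) : ℤ) := by exact_mod_cast h1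
    push_cast at h2
    omega
  have hfin : Finite (D ⧸ Ideal.span {φ (X ^ M)}) :=
    finite_quot φ h.fin _ (pow_ne_zero M X_ne_zero)
  refine Set.Finite.of_injOn (f := Ideal.Quotient.mk (Ideal.span {φ (X ^ M)}))
    (t := Set.univ) (fun _ _ => Set.mem_univ _) ?_ Set.finite_univ
  intro a ha a' ha' haa
  rw [Ideal.Quotient.eq, Ideal.mem_span_singleton'] at haa
  obtain ⟨a'', ha''⟩ := haa
  have h0 : algebraMap D K a'' = 0 := by
    apply h.eq_zero (C := C)
    · intro Q hQ
      obtain ⟨j, rfl⟩ := (hP Q).mp hQ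
      have h1 : algebraMap D K a - algebraMap D K a' ∈ Bsp (fun j => (P j).valuation K) n :=
        AddSubgroup.sub_mem _ ha ha'
      have h2 := h1 j
      rw [← map_sub, ← ha'', map_mul, map_pow, map_pow, map_mul, map_pow] at h2
      have h3 := exp_le_pow (h.one_lt_b (P j) hQ) M
      have h4 : WithZero.exp (n j) < (P j).valuation K (algebraMap D K (φ X)) ^ M :=
        lt_of_lt_of_le (WithZero.exp_lt_exp.mpr (hM j)) h3
      by_contra h5
      push Not at h5
      have h6 : (P j).valuation K (algebraMap D K (φ X)) ^ M ≤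
          (P j).valuation K (algebraMap D K a'') *
            (P j).valuation K (algebraMap D K (φ X)) ^ M := le_mul_of_one_le_left' h5
      exact absurd (h6.trans h2) (not_le.mpr h4)
    · exact ⟨P j₀, (hP _).mpr ⟨j₀, rfl⟩⟩
  rw [map_eq_zero_iff _ hinj] at h0
  rw [h0, zero_mul] at ha''
  exact (sub_eq_zero.mp ha''.symm)

theorem lt_one_iff {x : ℤᵐ⁰} : x < 1 ↔ x ≤ WithZero.exp (-1 : ℤ) := by
  by_cases h0 : x = 0
  · rw [h0]; simp
  · rw [← WithZero.exp_log h0, ← WithZero.exp_zero, WithZero.exp_lt_exp, WithZero.exp_le_exp]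
    omega

/-- an element with prescribed order at one place and bounded at the others -/
theorem Setup.exists_elt (h : Setup p D C K φ φ' ψ σ) (hPinj : Function.Injective P)
    (hP : ∀ Q : HeightOneSpectrum C, φ' X ∈ Q.asIdeal ↔ ∃ j, P j = Q) (n : ι → ℤ) (j : ι) :
    ∃ t : K, (P j).valuation K t = WithZero.exp (n j) ∧
      ∀ i, i ≠ j → (P i).valuation K t ≤ WithZero.exp (n i) := by
  have hc : ∀ i, ∃ m : ℕ, 0 < m ∧
      (P i).valuation K (algebraMap C K (φ' X)) = WithZero.exp (-(m : ℤ)) := by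
    intro i
    have h1 : (P i).valuation K (algebraMap C K (φ' X)) < 1 :=
      ((P i).valuation_lt_one_iff_mem _).mpr ((hP _).mpr ⟨i, rfl⟩)
    have h2 : (P i).valuation K (algebraMap C K (φ' X)) ≠ 0 := by
      rw [Valuation.ne_zero_iff]; exact h.c_ne
    refine ⟨(-WithZero.log ((P i).valuation K (algebraMap C K (φ' X)))).toNat, ?_, ?_⟩
    · rw [← WithZero.exp_log h2, ← WithZero.exp_zero, WithZero.exp_lt_exp] at h1
      omega
    · rw [← WithZero.exp_log h2, ← WithZero.exp_zero, WithZero.exp_lt_exp] at h1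
      nth_rw 1 [← WithZero.exp_log h2]
      congr 1
      omega
  choose m hm0 hm using hc
  obtain ⟨N, hN⟩ : ∃ N : ℕ, ∀ i, n i ≤ N := by
    refine ⟨∑ j, (n j).toNat, fun j => ?_⟩
    have h1 : (n j).toNat ≤ ∑ j, (n j).toNat :=
      Finset.single_le_sum (f := fun j => (n j).toNat) (fun _ _ => Nat.zero_le _)
        (Finset.mem_univ j)
    have h2 : ((n j).toNat : ℤ) ≤ ((∑ j, (n j).toNat : ℕ) : ℤ) := by exact_mod_cast h1
    have := Int.self_le_toNat (n j)
    omega
  set e : ι → ℕ := fun i => ((N : ℤ) * m i - n i).toNat with he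
  have he' : ∀ i, (e i : ℤ) = (N : ℤ) * m i - n i := by
    intro i
    have h1 : (N : ℤ) ≤ N * m i := by
      have := hm0 i
      nlinarith
    rw [he]
    simp only
    rw [Int.toNat_of_nonneg]
    have := hN i
    linarith
  obtain ⟨π, hπ⟩ := (P j).intValuation_exists_uniformizer
  obtain ⟨y, hy⟩ := IsDedekindDomain.exists_forall_sub_mem_ideal (s := Finset.univ)
    (fun i => (P i).asIdeal) (fun i => e i + 1) (fun i _ => (P i).prime)
    (fun i _ k _ hik hPk => hik (hPinj (HeightOneSpectrum.ext hPk)))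
    (fun i => if i.1 = j then π ^ e j else 0)
  have hyj : (P j).intValuation y = WithZero.exp (-(e j : ℤ)) := by
    have h1 := hy j (Finset.mem_univ j)
    rw [if_pos rfl, ← HeightOneSpectrum.intValuation_le_pow_iff_mem] at h1
    have h2 : (P j).intValuation (π ^ e j) = WithZero.exp (-(e j : ℤ)) := by
      rw [map_pow, hπ, ← WithZero.exp_nsmul]
      simp
    have h3 : (P j).intValuation (y - π ^ e j) < (P j).intValuation (π ^ e j) := by
      rw [h2]
      refine lt_of_le_of_lt h1 ?_
      rw [WithZero.exp_lt_exp]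
      push_cast
      omega
    rw [Valuation.map_eq_of_sub_lt _ h3, h2]
  have hyi : ∀ i, i ≠ j → (P i).intValuation y ≤ WithZero.exp (-(e i : ℤ)) := by
    intro i hi
    have h1 := hy i (Finset.mem_univ i)
    rw [if_neg hi, sub_zero, ← HeightOneSpectrum.intValuation_le_pow_iff_mem] at h1
    refine h1.trans ?_
    rw [WithZero.exp_le_exp]
    push_cast
    omega
  have hcN : ∀ i, (P i).valuation K ((algebraMap C K (φ' X)) ^ N)⁻¹ =
      WithZero.exp ((N : ℤ) * m i) := by
    intro i
    rw [map_inv₀, map_pow, hm, ← WithZero.exp_nsmul, ← WithZero.exp_neg]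
    congr 1
    simp
  refine ⟨algebraMap C K y * ((algebraMap C K (φ' X)) ^ N)⁻¹, ?_, ?_⟩
  · rw [map_mul, hcN, HeightOneSpectrum.valuation_of_algebraMap, hyj, ← WithZero.exp_add]
    congr 1
    rw [he']
    ring
  · intro i hi
    rw [map_mul, hcN, HeightOneSpectrum.valuation_of_algebraMap]
    calc (P i).intValuation y * WithZero.exp ((N : ℤ) * m i) ≤
        WithZero.exp (-(e i : ℤ)) * WithZero.exp ((N : ℤ) * m i) :=
          mul_le_mul_left (hyi i hi) _
      _ = WithZero.exp (n i) := by
        rw [← WithZero.exp_add]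
        congr 1
        rw [he']
        ring

theorem Setup.index_eq (h : Setup p D C K φ φ' ψ σ) (hPinj : Function.Injective P)
    (hP : ∀ Q : HeightOneSpectrum C, φ' X ∈ Q.asIdeal ↔ ∃ j, P j = Q) (n : ι → ℤ) (j : ι) :
    (Bsp (fun j => (P j).valuation K) n).relIndex
      (Bsp (fun j => (P j).valuation K) (n + Pi.single j 1)) =
      Nat.card (C ⧸ (P j).asIdeal) := by
  obtain ⟨t, ht, ht'⟩ := h.exists_elt P hPinj hP (n + Pi.single j 1) j
  have hnj : (n + Pi.single j 1 : ι → ℤ) j = n j + 1 := by simp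
  have hni : ∀ i, i ≠ j → (n + Pi.single j 1 : ι → ℤ) i = n i := by
    intro i hi
    simp [Pi.single_eq_of_ne hi]
  rw [hnj] at ht
  set B := Bsp (fun j => (P j).valuation K) n with hB
  set B' := Bsp (fun j => (P j).valuation K) (n + Pi.single j 1) with hB'
  have ht0 : t ≠ 0 := by
    intro h0
    rw [h0, map_zero] at ht
    exact absurd ht WithZero.exp_ne_zero.symm
  let f : C →+ K := (AddMonoidHom.mulRight t).comp (algebraMap C K).toAddMonoidHom
  have hf : ∀ a, f a = algebraMap C K a * t := fun a => rfl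
  have h1 : B.comap f = (P j).asIdeal.toAddSubgroup := by
    ext a
    rw [AddSubgroup.mem_comap, hf]
    constructor
    · intro ha
      have h2 := ha j
      simp only [map_mul, ht] at h2
      by_contra hn
      have h3 : a ∉ (P j).asIdeal := hn
      rw [(P j).valuation_eq_one_iff_notMem.mpr h3, one_mul, WithZero.exp_le_exp] at h2
      omega
    · intro ha i
      have ha' : a ∈ (P j).asIdeal := ha
      by_cases hi : i = j
      · subst hi
        simp only [map_mul, ht]
        have h2 := (lt_one_iff.mp (((P i).valuation_lt_one_iff_mem (K := K) a).mpr ha'))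
        calc (P i).valuation K (algebraMap C K a) * WithZero.exp (n i + 1) ≤
            WithZero.exp (-1 : ℤ) * WithZero.exp (n i + 1) := mul_le_mul_left h2 _
          _ = WithZero.exp (n i) := by
            rw [← WithZero.exp_add]; congr 1; ring
      · simp only [map_mul]
        have h2 := ht' i hi
        rw [hni i hi] at h2
        calc (P i).valuation K (algebraMap C K a) * (P i).valuation K t ≤
            1 * WithZero.exp (n i) := mul_le_mul' ((P i).valuation_le_one a) h2
          _ = WithZero.exp (n i) := one_mul _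
  have h2 : f.range ⊔ B = B' := by
    apply le_antisymm
    · rw [sup_le_iff]
      constructor
      · rintro _ ⟨a, rfl⟩ i
        rw [hf]
        simp only [map_mul]
        have h3 : (P i).valuation K t ≤ WithZero.exp ((n + Pi.single j 1 : ι → ℤ) i) := by
          by_cases hi : i = j
          · subst hi
            rw [hnj, ht]
          · exact ht' i hi
        calc (P i).valuation K (algebraMap C K a) * (P i).valuation K t ≤
            1 * WithZero.exp ((n + Pi.single j 1 : ι → ℤ) i) :=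
              mul_le_mul' ((P i).valuation_le_one a) h3
          _ = WithZero.exp ((n + Pi.single j 1 : ι → ℤ) i) := one_mul _
      · intro z hz i
        refine (hz i).trans ?_
        rw [WithZero.exp_le_exp]
        by_cases hi : i = j
        · subst hi; rw [hnj]; omega
        · rw [hni i hi]
    · intro z hz
      have h3 : (P j).valuation K (z / t) ≤ 1 := by
        rw [map_div₀, ht, div_le_one₀ WithZero.exp_pos]
        have := hz j
        rwa [hnj] at this
      obtain ⟨a, ha⟩ := (P j).exists_valuation_sub_lt_of_integer h3 1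
      rw [Units.val_one, lt_one_iff] at ha
      have h4 : z = f a + (z - f a) := by ring
      rw [h4]
      apply AddSubgroup.add_mem
      · exact AddSubgroup.mem_sup_left ⟨a, rfl⟩
      · apply AddSubgroup.mem_sup_right
        intro i
        rw [hf]
        by_cases hi : i = j
        · subst hi
          have h5 : z - algebraMap C K a * t = -(algebraMap C K a - z / t) * t := by
            field_simp
            ring
          simp only
          rw [h5, map_mul, Valuation.map_neg, ht]
          calc (P i).valuation K (algebraMap C K a - z / t) * WithZero.exp (n i + 1) ≤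
              WithZero.exp (-1 : ℤ) * WithZero.exp (n i + 1) := mul_le_mul_left ha _
            _ = WithZero.exp (n i) := by
              rw [← WithZero.exp_add]; congr 1; ring
        · have h5 := hz i
          have h6 := ht' i hi
          rw [hni i hi] at h5 h6
          refine (Valuation.map_sub _ _ _).trans (max_le h5 ?_)
          rw [map_mul]
          calc (P i).valuation K (algebraMap C K a) * (P i).valuation K t ≤
              1 * WithZero.exp (n i) := mul_le_mul' ((P i).valuation_le_one a) h6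
            _ = WithZero.exp (n i) := one_mul _
  rw [← h2, AddSubgroup.relIndex_sup_right, ← AddSubgroup.index_comap, h1]
  rfl

theorem exists_exp_bound {K : Type} [Field K] (w : Valuation K ℤᵐ⁰) (G : Finset K) :
    ∃ n : ℤ, ∀ g ∈ G, w g ≤ WithZero.exp n := by
  classical
  induction G using Finset.induction_on with
  | empty => exact ⟨0, by simp⟩
  | insert a G _ ih =>
    obtain ⟨n, hn⟩ := ih
    by_cases ha : w a = 0
    · refine ⟨n, fun g hg => ?_⟩
      rcases Finset.mem_insert.mp hg with rfl | hg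
      · rw [ha]; exact zero_le
      · exact hn g hg
    · refine ⟨max n (WithZero.log (w a)), fun g hg => ?_⟩
      rcases Finset.mem_insert.mp hg with rfl | hg
      · rw [← WithZero.exp_log ha, WithZero.exp_le_exp, WithZero.log_exp]
        exact le_max_right _ _
      · refine (hn g hg).trans ?_
        rw [WithZero.exp_le_exp]
        exact le_max_left _ _

theorem Setup.cover [IsDomain D] [IsFractionRing D K] (h : Setup p D C K φ φ' ψ σ)
    (hP : ∀ Q : HeightOneSpectrum C, φ' X ∈ Q.asIdeal ↔ ∃ j, P j = Q) :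
    ∃ n : ι → ℤ, ∀ z : K, ∃ a : D, ∃ b ∈ Bsp (fun j => (P j).valuation K) n,
      z = algebraMap D K a + b := by
  classical
  let := φ.toAlgebra
  have hfin : Module.Finite (ZMod p)[X] D := h.fin
  obtain ⟨G, hG⟩ := hfin.fg_top
  have hn : ∀ j, ∃ n : ℤ, ∀ g ∈ G, (P j).valuation K (algebraMap D K g) ≤ WithZero.exp n := by
    intro j
    obtain ⟨n, hn⟩ := exists_exp_bound ((P j).valuation K) (G.image (algebraMap D K))
    exact ⟨n, fun g hg => hn _ (Finset.mem_image_of_mem _ hg)⟩
  choose n hn using hn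
  refine ⟨n, ?_⟩
  set W : AddSubgroup K := (algebraMap D K).toAddMonoidHom.range ⊔
    Bsp (fun j => (P j).valuation K) n with hW
  have key : ∀ (f : (ZMod p)[X]), f ≠ 0 → ∀ (a : D) (u : (ZMod p)[X]),
      ψ (algebraMap _ _ u / algebraMap _ _ f) * algebraMap D K a ∈ W := by
    intro f hf a
    have ha : a ∈ Submodule.span (ZMod p)[X] (G : Set D) := by rw [hG]; trivial
    have hf' : algebraMap (ZMod p)[X] (RatFunc (ZMod p)) f ≠ 0 := by
      rw [Ne, map_eq_zero_iff _ (IsFractionRing.injective _ _)]; exact hf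
    induction ha using Submodule.span_induction with
    | mem g hg =>
      intro u
      have e1 : algebraMap (ZMod p)[X] (RatFunc (ZMod p)) u / algebraMap _ _ f =
          algebraMap _ _ (u / f) + algebraMap _ _ (u % f) / algebraMap _ _ f := by
        have : algebraMap (ZMod p)[X] (RatFunc (ZMod p)) u =
            algebraMap _ _ f * algebraMap _ _ (u / f) + algebraMap _ _ (u % f) := by
          rw [← map_mul, ← map_add, EuclideanDomain.div_add_mod]
        rw [this, add_div, mul_div_cancel_left₀ _ hf']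
      rw [e1, map_add, add_mul, h.comm, ← map_mul]
      refine AddSubgroup.add_mem _ (AddSubgroup.mem_sup_left ⟨_, rfl⟩)
        (AddSubgroup.mem_sup_right ?_)
      intro j
      simp only [map_mul]
      have e2 : (P j).valuation K (ψ (algebraMap _ _ (u % f) / algebraMap _ _ f)) ≤ 1 := by
        by_cases h0 : u % f = 0
        · rw [h0]; simp
        have h1 : 1 < ((P j).valuation K).comap ψ RatFunc.X := by
          rw [Valuation.comap_apply, ← RatFunc.algebraMap_X, h.comm]
          exact h.one_lt_b (P j) ((hP _).mpr ⟨j, rfl⟩)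
        have h0' : algebraMap (ZMod p)[X] (RatFunc (ZMod p)) (u % f) ≠ 0 := by
          rw [Ne, map_eq_zero_iff _ (IsFractionRing.injective _ _)]; exact h0
        have h2 := RatFunc.valuation_eq_valuation_X_zpow_intDegree_of_one_lt_valuation_X h1
          (div_ne_zero h0' hf')
        rw [Valuation.comap_apply] at h2
        rw [h2, RatFunc.intDegree_div h0' hf', RatFunc.intDegree_polynomial,
          RatFunc.intDegree_polynomial]
        have h3 : (u % f).natDegree ≤ f.natDegree :=
          natDegree_le_natDegree (EuclideanDomain.mod_lt u hf).le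
        exact zpow_le_one_of_nonpos₀ h1.le (by omega)
      calc _ ≤ 1 * WithZero.exp (n j) := mul_le_mul' e2 (hn j g hg)
        _ = WithZero.exp (n j) := one_mul _
    | zero => intro u; rw [map_zero, mul_zero]; exact AddSubgroup.zero_mem _
    | add x y _ _ hx hy =>
      intro u
      rw [map_add, mul_add]
      exact AddSubgroup.add_mem _ (hx u) (hy u)
    | smul r x _ hx =>
      intro u
      have e1 : r • x = φ r * x := rfl
      have e2 : ψ (algebraMap _ _ u / algebraMap _ _ f) * algebraMap D K (r • x) =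
          ψ (algebraMap _ _ (u * r) / algebraMap _ _ f) * algebraMap D K x := by
        rw [e1, map_mul (algebraMap D K), ← h.comm, map_mul (algebraMap (ZMod p)[X] _),
          map_div₀, map_div₀, map_mul]
        ring
      rw [e2]
      exact hx _
  intro z
  obtain ⟨x, d, hd, rfl⟩ := IsFractionRing.div_surjective (A := D) z
  have hd0 : d ≠ 0 := nonZeroDivisors.ne_zero hd
  have hdalg : IsAlgebraic (ZMod p)[X] d := by
    have h1 : IsIntegral (ZMod p)[X] d := h.fin.to_isIntegral d
    exact h1.isAlgebraic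
  obtain ⟨f, hf, d', hd'⟩ := hdalg.exists_nonzero_dvd hd
  have h1 := key f hf (x * d') 1
  have h2 : algebraMap D K x / algebraMap D K d =
      ψ (algebraMap (ZMod p)[X] _ 1 / algebraMap _ _ f) * algebraMap D K (x * d') := by
    have h3 : ψ (algebraMap _ _ f) = algebraMap D K d * algebraMap D K d' := by
      rw [h.comm, ← map_mul]
      congr 1
    have h4 : algebraMap D K d ≠ 0 := by
      rw [Ne, map_eq_zero_iff _ (IsFractionRing.injective D K)]; exact hd0
    have h5 : ψ (algebraMap (ZMod p)[X] _ f) ≠ 0 := by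
      rw [Ne, map_eq_zero_iff _ ψ.injective, map_eq_zero_iff _ (IsFractionRing.injective _ _)]
      exact hf
    have h6 : algebraMap D K d' ≠ 0 := by
      intro h7
      rw [h7, mul_zero] at h3
      exact h5 h3
    rw [map_div₀, h3, map_one, map_one, map_mul]
    field_simp
  rw [h2]
  obtain ⟨y, hy, b, hb, hyb⟩ := AddSubgroup.mem_sup.mp h1
  obtain ⟨a, rfl⟩ := hy
  exact ⟨a, b, hb, hyb.symm⟩

end places

/-- residue fields -/
theorem exists_deg {p : ℕ} [Fact p.Prime] {C : Type} [CommRing C] [IsDedekindDomain C]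
    (φ : (ZMod p)[X] →+* C) (hφ : φ.Finite) (Q : HeightOneSpectrum C) (hQ : φ X ∈ Q.asIdeal) :
    ∃ d : ℕ, 0 < d ∧ Nat.card (C ⧸ Q.asIdeal) = p ^ d := by
  have h1 : Finite (C ⧸ Ideal.span {φ X}) := finite_quot φ hφ X X_ne_zero
  have h2 : Ideal.span {φ X} ≤ Q.asIdeal := by
    rw [Ideal.span_singleton_le_iff_mem]; exact hQ
  have h3 : Finite (C ⧸ Q.asIdeal) :=
    Finite.of_surjective _ (Ideal.Quotient.factor_surjective h2)
  have : Nontrivial (C ⧸ Q.asIdeal) := Ideal.Quotient.nontrivial_iff.mpr Q.isPrime.ne_top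
  let := (((Ideal.Quotient.mk Q.asIdeal).comp φ).comp Polynomial.C).toAlgebra
  have h4 : Module.Finite (ZMod p) (C ⧸ Q.asIdeal) := inferInstance
  refine ⟨Module.finrank (ZMod p) (C ⧸ Q.asIdeal), Module.finrank_pos, ?_⟩
  rw [Module.natCard_eq_pow_finrank (K := ZMod p), Nat.card_zmod]


end Inf

theorem exists_places (p : ℕ) [Fact p.Prime] (D K : Type) [CommRing D] [IsDedekindDomain D]
    [Field K] [Algebra D K] [IsFractionRing D K]
    (φ : (ZMod p)[X] →+* D) (ψ : RatFunc (ZMod p) →+* K) (h1 : Function.Injective φ)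
    (h2 : φ.Finite) (h3 : ∀ f, ψ (algebraMap _ _ f) = algebraMap D K (φ f))
    (h4 : letI := ψ.toAlgebra; FiniteDimensional (RatFunc (ZMod p)) K ∧
        Algebra.IsSeparable (RatFunc (ZMod p)) K) :
    ∃ (r : ℕ) (v : Fin (r + 1) → Valuation K ℤᵐ⁰) (d : Fin (r + 1) → ℕ), Places p D K v d := by
  obtain ⟨σ, hσX, hσC, hσ⟩ := Inf.exists_inv (ZMod p)
  obtain ⟨C, iC1, iC2, iC3, iC4, φ', h1', h2', h3'⟩ := Inf.exists_ring p K (ψ.comp σ)
    (Inf.comp_inv (ZMod p) K ψ h4 σ hσ)
  have hS : Inf.Setup p D C K φ φ' ψ σ := ⟨h1, h2, h1', h2', h3, h3', hσX, hσC, hσ⟩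
  have hX0 : φ' X ≠ 0 := by
    rw [Ne, map_eq_zero_iff _ h1']; exact X_ne_zero
  have hSfin : {Q : HeightOneSpectrum C | φ' X ∈ Q.asIdeal}.Finite := by
    have h5 : Ideal.span {φ' X} ≠ (0 : Ideal C) := by
      rw [Ne, Ideal.zero_eq_bot, Ideal.span_singleton_eq_bot]; exact hX0
    refine (Ideal.finite_factors h5).subset ?_
    intro Q hQ
    exact Ideal.dvd_span_singleton.mpr hQ
  have hSne : ∃ Q : HeightOneSpectrum C, φ' X ∈ Q.asIdeal := by
    have h6 : ¬ IsUnit (φ' X) := by
      intro hu
      have := (RingHom.IsIntegral.isLocalHom h2'.to_isIntegral h1').map_nonunit X hu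
      exact Polynomial.not_isUnit_X this
    obtain ⟨M, hM, hXM⟩ := exists_max_ideal_of_mem_nonunits h6
    exact ⟨⟨M, hM.isPrime, fun h => hX0 (by rw [h] at hXM; exact hXM)⟩, hXM⟩
  have : Finite {Q : HeightOneSpectrum C // φ' X ∈ Q.asIdeal} := hSfin
  have : Nonempty {Q : HeightOneSpectrum C // φ' X ∈ Q.asIdeal} :=
    ⟨⟨hSne.choose, hSne.choose_spec⟩⟩
  obtain ⟨r, hr⟩ : ∃ r, Nat.card {Q : HeightOneSpectrum C // φ' X ∈ Q.asIdeal} = r + 1 :=
    ⟨_, (Nat.succ_pred_eq_of_pos Nat.card_pos).symm⟩
  let e : Fin (r + 1) ≃ {Q : HeightOneSpectrum C // φ' X ∈ Q.asIdeal} :=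
    (Finite.equivFinOfCardEq hr).symm
  let P : Fin (r + 1) → HeightOneSpectrum C := fun i => (e i).1
  have hPinj : Function.Injective P := Subtype.val_injective.comp e.injective
  have hP : ∀ Q : HeightOneSpectrum C, φ' X ∈ Q.asIdeal ↔ ∃ j, P j = Q := by
    intro Q
    constructor
    · intro hQ
      exact ⟨e.symm ⟨Q, hQ⟩, by simp [P]⟩
    · rintro ⟨j, rfl⟩
      exact (e j).2
  choose d hd0 hd using fun j => Inf.exists_deg φ' h2' (P j) ((hP _).mpr ⟨j, rfl⟩)
  refine ⟨r, fun j => (P j).valuation K, d, ⟨hd0, fun j => (P j).valuation_surjective K, ?_,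
    hS.cover P hP, fun n => hS.finite_Bsp P (IsFractionRing.injective D K) hP 0 n⟩⟩
  intro n j
  rw [hS.index_eq P hPinj hP, hd]

end Pool.Agent.PSL2Z
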