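import Mathlib

/-!
# MP_305fdd_al, PSL(2,Z), piece P7: separable Noether normalisation in dimension one
-/

set_option autoImplicit false

namespace Pool.Agent.PSL2Z

open Polynomial
open scoped nonZeroDivisors

/-- Step 1: one variable is enough -/
private theorem exists_finite_inj_one (k D : Type) [Field k] [CommRing D] [IsDedekindDomain D]
    [Algebra k D] [Algebra.FiniteType k D] (hD : ¬ IsField D) :
    ∃ b : D, Function.Injective (aeval b : k[X] →ₐ[k] D) ∧
      (aeval b : k[X] →ₐ[k] D).toRingHom.Finite := by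
  obtain ⟨s, g, hinj, hfin⟩ := exists_finite_inj_algHom_of_fg k D
  have hint : g.toRingHom.IsIntegral := hfin.to_isIntegral
  have hs : s = 1 := by
    rcases Nat.lt_trichotomy s 1 with h | h | h
    · exfalso
      have h0 : s = 0 := by omega
      subst h0
      apply hD
      let _ := g.toRingHom.toAlgebra
      have : Algebra.IsIntegral (MvPolynomial (Fin 0) k) D := ⟨hint⟩
      have hf : IsField (MvPolynomial (Fin 0) k) :=
        (MvPolynomial.isEmptyRingEquiv k (Fin 0)).toMulEquiv.isField (Field.toIsField k)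
      exact isField_of_isIntegral_of_isField' hf
    · exact h
    · exfalso
      let _ := g.toRingHom.toAlgebra
      have : Algebra.IsIntegral (MvPolynomial (Fin s) k) D := ⟨hint⟩
      let i0 : Fin s := ⟨0, by omega⟩
      let i1 : Fin s := ⟨1, by omega⟩
      have h01 : i0 ≠ i1 := by simp [i0, i1]
      let P : Ideal (MvPolynomial (Fin s) k) := Ideal.span {MvPolynomial.X i0}
      have hP : P.IsPrime := by
        rw [Ideal.span_singleton_prime (MvPolynomial.X_ne_zero _)]
        exact MvPolynomial.X_prime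
      obtain ⟨Q, -, hQp, hQ⟩ := Ideal.exists_ideal_over_prime_of_isIntegral P (⊥ : Ideal D) (by
        rw [← RingHom.ker_eq_comap_bot]
        have : RingHom.ker (algebraMap (MvPolynomial (Fin s) k) D) = ⊥ :=
          (RingHom.injective_iff_ker_eq_bot _).1 hinj
        rw [this]; exact bot_le)
      have hQ0 : Q ≠ ⊥ := by
        rintro rfl
        rw [← RingHom.ker_eq_comap_bot] at hQ
        have : RingHom.ker (algebraMap (MvPolynomial (Fin s) k) D) = ⊥ :=
          (RingHom.injective_iff_ker_eq_bot _).1 hinj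
        rw [this] at hQ
        have h2 : (MvPolynomial.X i0 : MvPolynomial (Fin s) k) ∈ P := Ideal.subset_span rfl
        rw [← hQ] at h2
        exact MvPolynomial.X_ne_zero _ h2
      have hQm : Q.IsMaximal := hQp.isMaximal hQ0
      have hPm : P.IsMaximal := by
        rw [← hQ]
        exact Ideal.isMaximal_comap_of_isIntegral_of_isMaximal Q
      let e : MvPolynomial (Fin s) k →ₐ[k] k := MvPolynomial.aeval (fun _ => (0 : k))
      have hker : P ≤ RingHom.ker e := by
        rw [Ideal.span_le]
        rintro _ rfl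
        simp [e]
      have heq := hPm.eq_of_le (RingHom.ker_ne_top _) hker
      have h3 : (MvPolynomial.X i1 : MvPolynomial (Fin s) k) ∈ RingHom.ker e := by
        simp [e]
      rw [← heq, Ideal.mem_span_singleton] at h3
      rw [MvPolynomial.X_dvd_X] at h3
      simp [h01] at h3
  subst hs
  let e := MvPolynomial.uniqueAlgEquiv k (Fin 1)
  refine ⟨g (e.symm X), ?_, ?_⟩
  · have : (aeval (g (e.symm X)) : k[X] →ₐ[k] D) = g.comp e.symm.toAlgHom := by
      ext
      simp
    rw [this]
    exact hinj.comp e.symm.injective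
  · have : (aeval (g (e.symm X)) : k[X] →ₐ[k] D) = g.comp e.symm.toAlgHom := by
      ext
      simp
    rw [this]
    exact hfin.comp (RingHom.Finite.of_surjective _ e.symm.surjective)

section FieldPart

variable {K : Type} [Field K] (p : ℕ) [Fact p.Prime] [CharP K p]

/-- adjoining a `p`-th root: degree at most `p`; exactly `p` if the element is new -/
private theorem relfinrank_closure (A : Subfield K) (c : K) (hc : c ^ p ∈ A) :
    A.relfinrank (A ⊔ Subfield.closure {c}) ≤ p ∧
    (c ∉ A → (∀ a ∈ A, a ^ p ≠ c ^ p) → A.relfinrank (A ⊔ Subfield.closure {c}) = p) := by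
  have hp := (Fact.out : p.Prime)
  have h1 : A ≤ A ⊔ Subfield.closure {c} := le_sup_left
  have h2 : Subfield.extendScalars h1 = IntermediateField.adjoin A {c} := by
    apply le_antisymm
    · rw [Subfield.extendScalars_le_iff]
      apply sup_le
      · intro a ha
        exact (IntermediateField.adjoin A {c}).algebraMap_mem ⟨a, ha⟩
      · rw [Subfield.closure_le]
        intro y hy
        rw [Set.mem_singleton_iff] at hy
        rw [hy]
        exact IntermediateField.mem_adjoin_simple_self A c
    · rw [IntermediateField.adjoin_le_iff]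
      intro y hy
      rw [Set.mem_singleton_iff] at hy
      rw [hy]
      have h3 : c ∈ Subfield.closure ({c} : Set K) := Subfield.subset_closure rfl
      exact (le_sup_right : Subfield.closure {c} ≤ A ⊔ Subfield.closure {c}) h3
  rw [Subfield.relfinrank_eq_finrank_of_le h1, h2]
  have hroot : aeval c (X ^ p - C (⟨c ^ p, hc⟩ : A)) = 0 := by
    have : algebraMap A K (⟨c ^ p, hc⟩ : A) = c ^ p := rfl
    rw [map_sub, map_pow, aeval_X, aeval_C, this, sub_self]
  have hmonic : (X ^ p - C (⟨c ^ p, hc⟩ : A)).Monic := monic_X_pow_sub_C _ hp.ne_zero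
  have hint : IsIntegral A c := ⟨_, hmonic, hroot⟩
  rw [IntermediateField.adjoin.finrank hint]
  constructor
  · have h4 := natDegree_le_of_dvd (minpoly.dvd A c hroot) hmonic.ne_zero
    rwa [natDegree_X_pow_sub_C] at h4
  · intro hcA ha
    have hirr : Irreducible (X ^ p - C (⟨c ^ p, hc⟩ : A)) := by
      apply X_pow_sub_C_irreducible_of_prime hp
      intro b hb
      apply ha b.1 b.2
      have := congrArg Subtype.val hb
      simpa using this
    rw [← minpoly.eq_of_irreducible_of_monic hirr hroot hmonic, natDegree_X_pow_sub_C]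

/-- if `K` is finite over the field generated by `c` and `c` is not a `p`-th power then
`K = K^p(c)` -/
private theorem sup_eq_top (c : K) (hfin : 0 < Module.finrank (Subfield.closure {c}) K)
    (hc : ∀ y : K, y ^ p ≠ c) :
    (frobenius K p).fieldRange ⊔ Subfield.closure {c} = ⊤ := by
  have hp := (Fact.out : p.Prime)
  set F0 := Subfield.closure ({c} : Set K) with hF0
  set f := frobenius K p with hf
  set Kp := f.fieldRange with hKp
  have hKp' : (⊤ : Subfield K).map f = Kp := by
    rw [hKp, RingHom.fieldRange_eq_map]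
  have hAF : F0.map f ≤ F0 := by
    rintro _ ⟨x, hx, rfl⟩
    exact pow_mem hx p
  have hAK : F0.map f ≤ Kp := by
    rw [← hKp']; exact (Subfield.gc_map_comap f).monotone_l le_top
  have e1 : (F0.map f).relfinrank F0 ≤ p := by
    have h1 : c ^ p ∈ F0.map f := ⟨c, Subfield.subset_closure rfl, rfl⟩
    have h2 := (relfinrank_closure p (F0.map f) c h1).1
    have h3 : F0.map f ⊔ Subfield.closure {c} = F0 := by
      rw [← hF0, sup_eq_right]; exact hAF
    rwa [h3] at h2
  have e2 : (F0.map f).relfinrank F0 * Module.finrank F0 K = Module.finrank (F0.map f) K :=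
    Subfield.relfinrank_mul_finrank_top hAF
  have e3 : (F0.map f).relfinrank Kp * Module.finrank Kp K = Module.finrank (F0.map f) K :=
    Subfield.relfinrank_mul_finrank_top hAK
  have e4 : (F0.map f).relfinrank Kp = Module.finrank F0 K := by
    rw [← hKp', Subfield.relfinrank_map_map, Subfield.relfinrank_top_right]
  have e5 : Module.finrank Kp K ≤ p := by
    rw [e4, ← e2, mul_comm] at e3
    have := Nat.eq_of_mul_eq_mul_right hfin e3
    omega
  have e6 : Kp.relfinrank (Kp ⊔ F0) * Module.finrank (Kp ⊔ F0 : Subfield K) K =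
      Module.finrank Kp K := Subfield.relfinrank_mul_finrank_top le_sup_left
  have e7 : Kp.relfinrank (Kp ⊔ F0) = p := by
    refine (relfinrank_closure p Kp c ⟨c, rfl⟩).2 ?_ ?_
    · rintro ⟨y, hy⟩
      exact hc y hy
    · rintro _ ⟨y, rfl⟩ h
      have h' := frobenius_inj K p h
      exact hc y h'
  have e8 : F0.relfinrank (Kp ⊔ F0) * Module.finrank (Kp ⊔ F0 : Subfield K) K =
      Module.finrank F0 K := Subfield.relfinrank_mul_finrank_top le_sup_right
  have e9 : 0 < Module.finrank (Kp ⊔ F0 : Subfield K) K := by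
    rcases Nat.eq_zero_or_pos (Module.finrank (Kp ⊔ F0 : Subfield K) K) with h | h
    · rw [h, mul_zero] at e8; omega
    · exact h
  have e10 : Module.finrank (Kp ⊔ F0 : Subfield K) K = 1 := by
    rw [e7] at e6
    have h5 : p * Module.finrank (Kp ⊔ F0 : Subfield K) K ≤ p * 1 := by rw [e6]; omega
    have := Nat.le_of_mul_le_mul_left h5 hp.pos
    omega
  rw [← Subfield.relfinrank_top_right, Subfield.relfinrank_eq_one_iff] at e10
  exact top_le_iff.1 e10

private theorem sup_pow_eq_top (c : K)
    (h : (frobenius K p).fieldRange ⊔ Subfield.closure {c} = ⊤) (n : ℕ) :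
    (iterateFrobenius K p n).fieldRange ⊔ Subfield.closure {c} = ⊤ := by
  induction n with
  | zero =>
    rw [eq_top_iff]
    intro x _
    apply (le_sup_left : (iterateFrobenius K p 0).fieldRange ≤ _)
    exact ⟨x, by simp [iterateFrobenius_def]⟩
  | succ n ih =>
    have h1 := congrArg (Subfield.map (frobenius K p)) ih
    rw [Subfield.map_sup, ← RingHom.fieldRange_eq_map] at h1
    rw [eq_top_iff, ← h, ← h1]
    apply sup_le
    · apply sup_le
      · rintro _ ⟨_, ⟨x, rfl⟩, rfl⟩
        apply (le_sup_left : (iterateFrobenius K p (n + 1)).fieldRange ≤ _)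
        refine ⟨x, ?_⟩
        simp [iterateFrobenius_def, frobenius_def, pow_succ, pow_mul]
      · rintro _ ⟨x, hx, rfl⟩
        apply (le_sup_right : Subfield.closure {c} ≤ _)
        exact pow_mem hx p
    · exact le_sup_right

private theorem isSeparable_of_sup {E : Type} [Field E] [Algebra E K] [FiniteDimensional E K] (c : E)
    (h : (frobenius K p).fieldRange ⊔ Subfield.closure {algebraMap E K c} = ⊤) :
    Algebra.IsSeparable E K := by
  have hE : CharP E p := (algebraMap E K).charP (algebraMap E K).injective p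
  have hEx : ExpChar E p := ExpChar.prime Fact.out
  let S := separableClosure E K
  have hpi : IsPurelyInseparable S K := separableClosure.isPurelyInseparable E K
  have hS : ExpChar S p := by
    have : CharP S p := (algebraMap S K).charP (algebraMap S K).injective p
    exact ExpChar.prime Fact.out
  have hexp : IsPurelyInseparable.HasExponent S K := inferInstance
  set n := IsPurelyInseparable.exponent S K with hn
  have h1 := sup_pow_eq_top p _ h n
  have h2 : (iterateFrobenius K p n).fieldRange ⊔ Subfield.closure {algebraMap E K c} ≤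
      S.toSubfield := by
    apply sup_le
    · rintro _ ⟨x, rfl⟩
      obtain ⟨y, hy⟩ := IsPurelyInseparable.exponent_def' S p x
      rw [iterateFrobenius_def, ← hy]
      exact y.2
    · rw [Subfield.closure_le]
      rintro _ rfl
      exact S.algebraMap_mem c
  rw [h1] at h2
  rw [← separableClosure.eq_top_iff, eq_top_iff]
  intro x _
  exact h2 (Subfield.mem_top x)

end FieldPart

private theorem exists_root (p : ℕ) [Fact p.Prime] (D : Type) [CommRing D] [IsDomain D]
    [IsNoetherianRing D] (b : D) (hb : b ≠ 0) (Q : Ideal D) (hQ : Q.IsPrime) (hbQ : b ∈ Q) :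
    ∃ (n : ℕ) (c : D), c ^ p ^ n = b ∧ ∀ d : D, d ^ p ≠ c := by
  by_contra hcon
  push Not at hcon
  have hp := (Fact.out : p.Prime)
  have h1 : ∀ n : ℕ, ∃ c : D, c ^ p ^ n = b := by
    intro n
    induction n with
    | zero => exact ⟨b, by simp⟩
    | succ n ih =>
      obtain ⟨c, hc⟩ := ih
      obtain ⟨d, hd⟩ := hcon n c hc
      refine ⟨d, ?_⟩
      rw [pow_succ', pow_mul, hd, hc]
  have h2 : ∀ n : ℕ, b ∈ Q ^ n := by
    intro n
    obtain ⟨c, hc⟩ := h1 n
    have hcQ : c ∈ Q := hQ.mem_of_pow_mem (p ^ n) (by rw [hc]; exact hbQ)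
    have h3 : c ^ p ^ n ∈ Q ^ (p ^ n) := Ideal.pow_mem_pow hcQ _
    rw [hc] at h3
    exact Ideal.pow_le_pow_right (Nat.lt_pow_self hp.one_lt).le h3
  have h3 : b ∈ ⨅ n : ℕ, Q ^ n := by
    rw [Ideal.mem_iInf]; exact h2
  rw [Ideal.iInf_pow_eq_bot_of_isDomain Q hQ.ne_top] at h3
  exact hb h3

private theorem ratFunc_range (p : ℕ) [Fact p.Prime] {K : Type} [Field K] (ψ : RatFunc (ZMod p) →+* K)
    (x : RatFunc (ZMod p)) : ψ x ∈ Subfield.closure {ψ (algebraMap (ZMod p)[X] _ X)} := by
  have h1 : ∀ f : (ZMod p)[X], ψ (algebraMap (ZMod p)[X] _ f) ∈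
      Subfield.closure {ψ (algebraMap (ZMod p)[X] _ X)} := by
    intro f
    induction f using Polynomial.induction_on' with
    | add f g hf hg => rw [map_add, map_add]; exact add_mem hf hg
    | monomial n a =>
      rw [← C_mul_X_pow_eq_monomial, map_mul, map_mul, map_pow, map_pow]
      apply mul_mem
      · obtain ⟨m, rfl⟩ := ZMod.natCast_zmod_surjective a
        rw [C_eq_natCast, map_natCast, map_natCast]
        exact natCast_mem _ m
      · exact pow_mem (Subfield.subset_closure (Set.mem_singleton _)) n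
  obtain ⟨a, b, hb, rfl⟩ := IsFractionRing.div_surjective (A := (ZMod p)[X]) x
  rw [map_div₀]
  exact div_mem (h1 a) (h1 b)

theorem exists_separable (p : ℕ) [Fact p.Prime] (D K : Type) [CommRing D] [IsDedekindDomain D]
    [Algebra (ZMod p) D] [Algebra.FiniteType (ZMod p) D] (hD : ¬ IsField D)
    [Field K] [Algebra D K] [IsFractionRing D K] :
    ∃ (φ : (ZMod p)[X] →+* D) (ψ : RatFunc (ZMod p) →+* K), Function.Injective φ ∧ φ.Finite ∧
      (∀ f, ψ (algebraMap _ _ f) = algebraMap D K (φ f)) ∧
      (letI := ψ.toAlgebra; FiniteDimensional (RatFunc (ZMod p)) K ∧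
        Algebra.IsSeparable (RatFunc (ZMod p)) K) := by
  have hp := (Fact.out : p.Prime)
  obtain ⟨b, hbi, hbf⟩ := exists_finite_inj_one (ZMod p) D hD
  have hb0 : b ≠ 0 := by
    rintro rfl
    have h1 : (aeval (0 : D) : (ZMod p)[X] →ₐ[ZMod p] D) X = (aeval (0 : D) : (ZMod p)[X] →ₐ[ZMod p] D) 0 := by simp
    exact X_ne_zero (hbi h1)
  obtain ⟨Q, hQp, hbQ⟩ : ∃ Q : Ideal D, Q.IsPrime ∧ b ∈ Q := by
    let _ := (aeval b : (ZMod p)[X] →ₐ[ZMod p] D).toRingHom.toAlgebra
    have hint : Algebra.IsIntegral (ZMod p)[X] D := ⟨hbf.to_isIntegral⟩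
    have hP : (Ideal.span {(X : (ZMod p)[X])}).IsPrime := by
      rw [Ideal.span_singleton_prime X_ne_zero]
      exact prime_X
    obtain ⟨Q, -, hQp, hQ⟩ := Ideal.exists_ideal_over_prime_of_isIntegral
      (Ideal.span {(X : (ZMod p)[X])}) (⊥ : Ideal D) (by
        rw [← RingHom.ker_eq_comap_bot]
        have : RingHom.ker (algebraMap (ZMod p)[X] D) = ⊥ :=
          (RingHom.injective_iff_ker_eq_bot _).1 hbi
        rw [this]; exact bot_le)
    refine ⟨Q, hQp, ?_⟩
    have h1 : (X : (ZMod p)[X]) ∈ Q.comap (algebraMap (ZMod p)[X] D) := by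
      rw [hQ]; exact Ideal.subset_span rfl
    have h2 : algebraMap (ZMod p)[X] D X ∈ Q := h1
    have h3 : algebraMap (ZMod p)[X] D X = b := aeval_X b
    rwa [h3] at h2
  obtain ⟨n, c, hcb, hc⟩ := exists_root p D b hb0 Q hQp hbQ
  have hci : Function.Injective (aeval c : (ZMod p)[X] →ₐ[ZMod p] D) := by
    rw [← transcendental_iff_injective] at hbi ⊢
    intro h
    apply hbi
    rw [← hcb]
    exact h.pow _
  have hcf : (aeval c : (ZMod p)[X] →ₐ[ZMod p] D).toRingHom.Finite := by
    have h1 : (aeval b : (ZMod p)[X] →ₐ[ZMod p] D) = (aeval c : (ZMod p)[X] →ₐ[ZMod p] D).comp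
        (aeval (X ^ p ^ n)) := by
      ext
      simp [hcb]
    rw [h1] at hbf
    exact RingHom.Finite.of_comp_finite hbf
  -- `c` is not a `p`-th power in `K`
  have hcK : ∀ y : K, y ^ p ≠ algebraMap D K c := by
    intro y hy
    have hint : IsIntegral D y := by
      refine IsIntegral.of_pow hp.pos ?_
      rw [hy]; exact isIntegral_algebraMap
    obtain ⟨d, rfl⟩ := IsIntegrallyClosed.isIntegral_iff.1 hint
    rw [← map_pow] at hy
    exact hc d (IsFractionRing.injective D K hy)
  set φ : (ZMod p)[X] →+* D := (aeval c : (ZMod p)[X] →ₐ[ZMod p] D).toRingHom with hφ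
  have hφi : Function.Injective φ := hci
  have hgi : Function.Injective ((algebraMap D K).comp φ) :=
    (IsFractionRing.injective D K).comp hφi
  let ψ : RatFunc (ZMod p) →+* K := IsFractionRing.lift hgi
  have hψ : ∀ f, ψ (algebraMap _ _ f) = algebraMap D K (φ f) := fun f =>
    IsFractionRing.lift_algebraMap hgi f
  refine ⟨φ, ψ, hφi, hcf, hψ, ?_⟩
  let _ := ψ.toAlgebra
  let _ := φ.toAlgebra
  let _ : Algebra (ZMod p)[X] K := ((algebraMap D K).comp φ).toAlgebra
  have t1 : IsScalarTower (ZMod p)[X] D K := IsScalarTower.of_algebraMap_eq fun _ => rfl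
  have t2 : IsScalarTower (ZMod p)[X] (RatFunc (ZMod p)) K :=
    IsScalarTower.of_algebraMap_eq fun f => (hψ f).symm
  have hfin : Module.Finite (ZMod p)[X] D := hcf
  have hint : Algebra.IsIntegral (ZMod p)[X] D := inferInstance
  have halg : Algebra.IsAlgebraic (RatFunc (ZMod p)) K :=
    isAlgebraic_of_isFractionRing (ZMod p)[X] D (RatFunc (ZMod p)) K
  have hic : IsIntegralClosure D (ZMod p)[X] K := IsIntegralClosure.of_isIntegrallyClosed D (ZMod p)[X] K
  have hloc : IsLocalization (Algebra.algebraMapSubmonoid D (ZMod p)[X]⁰) K :=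
    IsIntegralClosure.isLocalization (ZMod p)[X] (RatFunc (ZMod p)) K D
  have hfd : FiniteDimensional (RatFunc (ZMod p)) K :=
    Module.Finite.of_isLocalization (ZMod p)[X] D (ZMod p)[X]⁰
  refine ⟨hfd, ?_⟩
  have hcharD : CharP D p := charP_of_injective_algebraMap (algebraMap (ZMod p) D).injective p
  have hchar : CharP K p := charP_of_injective_algebraMap (IsFractionRing.injective D K) p
  refine isSeparable_of_sup p (algebraMap (ZMod p)[X] (RatFunc (ZMod p)) X) ?_
  have h4 : algebraMap (RatFunc (ZMod p)) K (algebraMap (ZMod p)[X] (RatFunc (ZMod p)) X) =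
      algebraMap D K c := by
    show ψ _ = _
    rw [hψ]
    show algebraMap D K (aeval c X) = _
    rw [aeval_X]
  apply sup_eq_top
  · set F2 := Subfield.closure ({algebraMap (RatFunc (ZMod p)) K
      (algebraMap (ZMod p)[X] (RatFunc (ZMod p)) X)} : Set K) with hF2
    let f2 : RatFunc (ZMod p) →+* F2 := ψ.codRestrict F2 (ratFunc_range p ψ)
    let _ := f2.toAlgebra
    have t3 : IsScalarTower (RatFunc (ZMod p)) F2 K := IsScalarTower.of_algebraMap_eq fun _ => rfl
    have : Module.Finite F2 K := Module.Finite.of_restrictScalars_finite (RatFunc (ZMod p)) F2 K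
    exact Module.finrank_pos
  · rw [h4]; exact hcK

end Pool.Agent.PSL2Z
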