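import Pool.Agent.Lib.MP_305fdd_al.PSL.Defs

/-!
# MP_305fdd_al: counting divisors modulo `p`, abstractly (piece P9)
-/

set_option autoImplicit false

namespace Pool.Agent.PSL2Z

section

variable {p : ℕ} [hp : Fact p.Prime] {K 𝓓 : Type} [Field K] [CharP K p] [AddCommGroup 𝓓]
  {L : 𝓓 → AddSubgroup K} {div : Kˣ →* Multiplicative 𝓓} {eff : Set 𝓓}

omit [AddCommGroup 𝓓] in
/-- the number of nonzero elements of a nonzero space is `-1` modulo `p` -/
theorem card_units_mem (a : 𝓓) (hfin : Finite (L a)) (x₀ : Kˣ) (hx₀ : (x₀ : K) ∈ L a) :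
    ((Nat.card {x : Kˣ // (x : K) ∈ L a} : ℕ) : ZMod p) = -1 := by
  have e : Option {x : Kˣ // (x : K) ∈ L a} ≃ L a := by
    refine Equiv.ofBijective (fun o => o.elim 0 fun x => ⟨x.1, x.2⟩) ⟨?_, ?_⟩
    · rintro (_ | x) (_ | y) h
      · rfl
      · exfalso
        have : (0 : K) = (y.1 : K) := congrArg Subtype.val h
        exact y.1.ne_zero this.symm
      · exfalso
        have : (x.1 : K) = 0 := congrArg Subtype.val h
        exact x.1.ne_zero this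
      · have : (x.1 : K) = (y.1 : K) := congrArg Subtype.val h
        exact congrArg some (Subtype.ext (Units.ext this))
    · rintro ⟨z, hz⟩
      by_cases h0 : z = 0
      · refine ⟨none, ?_⟩
        apply Subtype.ext
        exact h0.symm
      · exact ⟨some ⟨Units.mk0 z h0, hz⟩, rfl⟩
  have hfin' : Finite {x : Kˣ // (x : K) ∈ L a} := by
    have : Finite (Option {x : Kˣ // (x : K) ∈ L a}) := Finite.of_equiv _ e.symm
    exact Finite.of_injective (fun x => (some x : Option _)) (Option.some_injective _)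
  have h1 : Nat.card {x : Kˣ // (x : K) ∈ L a} + 1 = Nat.card (L a) := by
    rw [← Nat.card_congr e, Finite.card_option]
  have h2 : p ∣ Nat.card (L a) := by
    have h3 : addOrderOf (⟨(x₀ : K), hx₀⟩ : L a) = p := by
      apply addOrderOf_eq_prime
      · apply Subtype.ext
        show p • (x₀ : K) = 0
        rw [nsmul_eq_mul, CharP.cast_eq_zero, zero_mul]
      · intro h
        exact x₀.ne_zero (congrArg Subtype.val h)
    have h4 := addOrderOf_dvd_natCard (⟨(x₀ : K), hx₀⟩ : L a)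
    rwa [h3] at h4
  have h3 : ((Nat.card (L a) : ℕ) : ZMod p) = 0 := (ZMod.natCast_eq_zero_iff _ _).2 h2
  rw [← h1] at h3
  push_cast at h3
  exact eq_neg_of_add_eq_zero_left h3

/-- every divisor class with effective members has `1` modulo `p` of them -/
theorem card_class (hmem : ∀ (a : 𝓓) (x : Kˣ), (x : K) ∈ L a ↔ a + (div x).toAdd ∈ eff)
    (hker : ∀ x : Kˣ, div x = 1 ↔ (x : K) ∈ L 0) (hfin : ∀ a, Finite (L a)) (a : 𝓓)
    (ha : a ∈ eff) :
    ((Nat.card {b : 𝓓 // b ∈ eff ∧ ∃ x : Kˣ, b = a + (div x).toAdd} : ℕ) : ZMod p) = 1 := by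
  have h1 : ((1 : Kˣ) : K) ∈ L a := by
    rw [hmem, map_one]
    simpa using ha
  have h10 : ((1 : Kˣ) : K) ∈ L 0 := by
    rw [← hker, map_one]
  have c1 := card_units_mem (p := p) a (hfin a) 1 h1
  have c0 := card_units_mem (p := p) 0 (hfin 0) 1 h10
  -- section
  have hs : ∀ b : {b : 𝓓 // b ∈ eff ∧ ∃ x : Kˣ, b = a + (div x).toAdd}, ∃ x : Kˣ,
      b.1 = a + (div x).toAdd := fun b => b.2.2
  choose s hs using hs
  have e : ({b : 𝓓 // b ∈ eff ∧ ∃ x : Kˣ, b = a + (div x).toAdd} × {x : Kˣ // (x : K) ∈ L 0}) ≃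
      {x : Kˣ // (x : K) ∈ L a} := by
    have hdiv : ∀ (b : {b : 𝓓 // b ∈ eff ∧ ∃ x : Kˣ, b = a + (div x).toAdd})
        (u : {x : Kˣ // (x : K) ∈ L 0}), a + (div (s b * u.1)).toAdd = b.1 := by
      intro b u
      rw [map_mul, (hker u.1).2 u.2, mul_one, ← hs]
    refine Equiv.ofBijective (fun q => ⟨s q.1 * q.2.1, ?_⟩) ⟨?_, ?_⟩
    · rw [hmem, hdiv]
      exact q.1.2.1
    · rintro ⟨b, u⟩ ⟨b', u'⟩ h
      have h' : s b * u.1 = s b' * u'.1 := congrArg Subtype.val h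
      have hb : b = b' := by
        apply Subtype.ext
        rw [← hdiv b u, ← hdiv b' u', h']
      subst hb
      have hu : u = u' := Subtype.ext (mul_left_cancel h')
      rw [hu]
    · rintro ⟨x, hx⟩
      let b : {b : 𝓓 // b ∈ eff ∧ ∃ x : Kˣ, b = a + (div x).toAdd} :=
        ⟨a + (div x).toAdd, (hmem a x).1 hx, x, rfl⟩
      have hb : a + (div x).toAdd = a + (div (s b)).toAdd := hs b
      have hb' : div x = div (s b) := by
        apply Multiplicative.toAdd.injective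
        exact add_left_cancel hb
      refine ⟨⟨b, ⟨(s b)⁻¹ * x, ?_⟩⟩, ?_⟩
      · rw [← hker, map_mul, map_inv, hb', inv_mul_cancel]
      · apply Subtype.ext
        show s b * ((s b)⁻¹ * x) = x
        rw [mul_inv_cancel_left]
  have h2 := Nat.card_congr e
  rw [Nat.card_prod] at h2
  have h3 := congrArg (fun n : ℕ => (n : ZMod p)) h2
  simp only [Nat.cast_mul] at h3
  rw [c1, c0] at h3
  linear_combination -h3

end

theorem count_periodic (p : ℕ) [Fact p.Prime] (K 𝓓 : Type) [Field K] [CharP K p] [AddCommGroup 𝓓]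
    (L : 𝓓 → AddSubgroup K) (div : Kˣ →* Multiplicative 𝓓) (deg : 𝓓 →+ ℤ) (eff : Set 𝓓)
    (hmem : ∀ (a : 𝓓) (x : Kˣ), (x : K) ∈ L a ↔ a + (div x).toAdd ∈ eff)
    (hker : ∀ x : Kˣ, div x = 1 ↔ (x : K) ∈ L 0)
    (hfin : ∀ a, Finite (L a)) (hdeg : ∀ x : Kˣ, deg (div x).toAdd = 0)
    (hcount : ∀ n : ℤ, Finite {a : 𝓓 // a ∈ eff ∧ deg a = n})
    (n₀ : ℤ) (hR : ∀ a, n₀ ≤ deg a → ∃ x : Kˣ, (x : K) ∈ L a)
    (P : 𝓓) (hP : ∀ a ∈ eff, a + P ∈ eff) :
    ∀ n : ℤ, n₀ ≤ n → ((Nat.card {a : 𝓓 // a ∈ eff ∧ deg a = n + deg P} : ℕ) : ZMod p) =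
      ((Nat.card {a : 𝓓 // a ∈ eff ∧ deg a = n} : ℕ) : ZMod p) := by
  -- the classes
  let H : AddSubgroup 𝓓 :=
    { carrier := {d | ∃ x : Kˣ, d = (div x).toAdd}
      zero_mem' := ⟨1, by rw [map_one]; rfl⟩
      add_mem' := by
        rintro _ _ ⟨x, rfl⟩ ⟨y, rfl⟩
        exact ⟨x * y, by rw [map_mul]; rfl⟩
      neg_mem' := by
        rintro _ ⟨x, rfl⟩
        exact ⟨x⁻¹, by rw [map_inv]; rfl⟩ }
  have hH : ∀ a b : 𝓓, (QuotientAddGroup.mk a : 𝓓 ⧸ H) = QuotientAddGroup.mk b ↔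
      ∃ x : Kˣ, b = a + (div x).toAdd := by
    intro a b
    rw [QuotientAddGroup.eq]
    constructor
    · rintro ⟨x, hx⟩
      exact ⟨x, by rw [← hx]; abel⟩
    · rintro ⟨x, hx⟩
      exact ⟨x, by rw [hx]; abel⟩
  -- the number of effective divisors is the number of their classes
  have key : ∀ n : ℤ, ((Nat.card {a : 𝓓 // a ∈ eff ∧ deg a = n} : ℕ) : ZMod p) =
      ((Nat.card {c : 𝓓 ⧸ H // ∃ a : 𝓓, (a ∈ eff ∧ deg a = n) ∧
        (QuotientAddGroup.mk a : 𝓓 ⧸ H) = c} : ℕ) : ZMod p) := by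
    intro n
    have := hcount n
    let f : {a : 𝓓 // a ∈ eff ∧ deg a = n} → {c : 𝓓 ⧸ H // ∃ a : 𝓓, (a ∈ eff ∧ deg a = n) ∧
        (QuotientAddGroup.mk a : 𝓓 ⧸ H) = c} := fun a => ⟨QuotientAddGroup.mk a.1, a.1, a.2, rfl⟩
    have hf : Function.Surjective f := by
      rintro ⟨c, a, ha, rfl⟩
      exact ⟨⟨a, ha⟩, rfl⟩
    have hfin2 : Finite {c : 𝓓 ⧸ H // ∃ a : 𝓓, (a ∈ eff ∧ deg a = n) ∧
        (QuotientAddGroup.mk a : 𝓓 ⧸ H) = c} := Finite.of_surjective f hf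
    have := Fintype.ofFinite {c : 𝓓 ⧸ H // ∃ a : 𝓓, (a ∈ eff ∧ deg a = n) ∧
        (QuotientAddGroup.mk a : 𝓓 ⧸ H) = c}
    rw [← Nat.card_congr (Equiv.sigmaFiberEquiv f), Nat.card_sigma, Nat.cast_sum,
      Finset.sum_congr rfl (g := fun _ => (1 : ZMod p)), Finset.sum_const, Finset.card_univ,
      Nat.card_eq_fintype_card, nsmul_eq_mul, mul_one]
    intro c _
    obtain ⟨⟨a, ha⟩, rfl⟩ := hf c
    rw [← card_class (p := p) hmem hker hfin a ha.1]
    congr 1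
    apply Nat.card_congr
    refine ⟨fun b => ⟨b.1.1, b.1.2.1, ?_⟩, fun b => ⟨⟨b.1, b.2.1, ?_⟩, ?_⟩, ?_, ?_⟩
    · have hb : (QuotientAddGroup.mk b.1.1 : 𝓓 ⧸ H) = QuotientAddGroup.mk a :=
        congrArg Subtype.val b.2
      exact (hH a b.1.1).1 hb.symm
    · obtain ⟨x, hx⟩ := b.2.2
      rw [hx, map_add, hdeg, add_zero, ha.2]
    · apply Subtype.ext
      exact ((hH a b.1).2 b.2.2).symm
    · intro b
      rfl
    · intro b
      rfl
  intro n hn
  rw [key, key]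
  congr 1
  symm
  apply Nat.card_congr
  refine ⟨fun c => ⟨c.1 + QuotientAddGroup.mk P, ?_⟩, fun c => ⟨c.1 - QuotientAddGroup.mk P, ?_⟩,
    ?_, ?_⟩
  · obtain ⟨c, a, ha, rfl⟩ := c
    exact ⟨a + P, ⟨hP a ha.1, by rw [map_add, ha.2]⟩, by rw [QuotientAddGroup.mk_add]⟩
  · obtain ⟨c, a, ha, rfl⟩ := c
    have h1 : deg (a - P) = n := by rw [map_sub, ha.2]; abel
    obtain ⟨x, hx⟩ := hR (a - P) (by rw [h1]; exact hn)
    refine ⟨a - P + (div x).toAdd, ⟨(hmem _ _).1 hx, by rw [map_add, hdeg, h1, add_zero]⟩, ?_⟩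
    rw [← QuotientAddGroup.mk_sub]
    exact ((hH _ _).2 ⟨x, rfl⟩).symm
  · intro c
    apply Subtype.ext
    simp
  · intro c
    apply Subtype.ext
    simp

end Pool.Agent.PSL2Z
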