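import Pool.Agent.Lib.MP_305fdd_al.PSL.Defs
import Pool.Agent.Lib.MP_305fdd_al.PSL.Divisor

/-!
# MP_305fdd_al, PSL(2,Z), piece P10: Riemann's inequality and periodicity of the number of
effective divisors modulo `p` (helper99).
-/

set_option autoImplicit false
set_option linter.unusedSectionVars false

namespace Pool.Agent.PSL2Z

open Polynomial
open scoped WithZero nonZeroDivisors

namespace Riem


section gi

variable {G : Type} [AddCommGroup G]

/-- generalised index `[B : A]` of commensurable subgroups -/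
noncomputable def gi (A B : AddSubgroup G) : ℚ := (A.relIndex B : ℚ) / (B.relIndex A : ℚ)

theorem gi_low {A B I : AddSubgroup G} (hA : I ≤ A) (hB : I ≤ B)
    (h2 : I.relIndex B ≠ 0) : gi A B = (I.relIndex B : ℚ) / (I.relIndex A : ℚ) := by
  have hI : I ≤ A ⊓ B := le_inf hA hB
  have e1 := AddSubgroup.relIndex_mul_relIndex I (A ⊓ B) B hI inf_le_right
  have e2 := AddSubgroup.relIndex_mul_relIndex I (A ⊓ B) A hI inf_le_left
  rw [AddSubgroup.inf_relIndex_right] at e1
  rw [AddSubgroup.inf_relIndex_left] at e2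
  have h3 : I.relIndex (A ⊓ B) ≠ 0 := by
    intro h
    rw [h, zero_mul] at e1
    exact h2 e1.symm
  unfold gi
  rw [← e1, ← e2]
  push_cast
  rw [mul_div_mul_left]
  exact_mod_cast h3

theorem gi_high {A B C : AddSubgroup G} (hA : A ≤ C) (hB : B ≤ C) (h1 : A.relIndex C ≠ 0)
    (h2 : B.relIndex C ≠ 0) : gi A B = (A.relIndex C : ℚ) / (B.relIndex C : ℚ) := by
  have e1 := AddSubgroup.relIndex_mul_relIndex (A ⊓ B) A C inf_le_left hA
  have e2 := AddSubgroup.relIndex_mul_relIndex (A ⊓ B) B C inf_le_right hB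
  rw [AddSubgroup.inf_relIndex_left] at e1
  rw [AddSubgroup.inf_relIndex_right] at e2
  have h3 : B.relIndex A ≠ 0 := fun h => h2 (AddSubgroup.relIndex_eq_zero_of_le_right hA h)
  have h4 : A.relIndex B ≠ 0 := fun h => h1 (AddSubgroup.relIndex_eq_zero_of_le_right hB h)
  unfold gi
  rw [div_eq_div_iff (by exact_mod_cast h3) (by exact_mod_cast h2)]
  have e3 : B.relIndex A * A.relIndex C = A.relIndex B * B.relIndex C := by rw [e1, e2]
  have e4 : ((B.relIndex A : ℚ)) * A.relIndex C = A.relIndex B * B.relIndex C := by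
    exact_mod_cast e3
  linarith

/-- commensurable -/
def Cm (A B : AddSubgroup G) : Prop := A.relIndex B ≠ 0 ∧ B.relIndex A ≠ 0

theorem Cm.symm {A B : AddSubgroup G} (h : Cm A B) : Cm B A := ⟨h.2, h.1⟩

theorem Cm.of_high {A B C : AddSubgroup G} (hA : A ≤ C) (hB : B ≤ C) (h1 : A.relIndex C ≠ 0)
    (h2 : B.relIndex C ≠ 0) : Cm A B :=
  ⟨fun h => h1 (AddSubgroup.relIndex_eq_zero_of_le_right hB h),
    fun h => h2 (AddSubgroup.relIndex_eq_zero_of_le_right hA h)⟩

theorem gi_ne_zero {A B : AddSubgroup G} (h : Cm A B) : gi A B ≠ 0 := by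
  unfold gi
  exact div_ne_zero (by exact_mod_cast h.1) (by exact_mod_cast h.2)

theorem gi_pos {A B : AddSubgroup G} (h : Cm A B) : 0 < gi A B := by
  unfold gi
  have h1 := Nat.pos_of_ne_zero h.1
  have h2 := Nat.pos_of_ne_zero h.2
  positivity

theorem gi_self (A : AddSubgroup G) : gi A A = 1 := by
  unfold gi
  rw [AddSubgroup.relIndex_self]
  norm_num

theorem gi_trans {A B C : AddSubgroup G} (h1 : Cm A B) (h2 : Cm B C) :
    gi A B * gi B C = gi A C := by
  set I : AddSubgroup G := A ⊓ B ⊓ C with hI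
  have hIA : I ≤ A := inf_le_left.trans inf_le_left
  have hIB : I ≤ B := inf_le_left.trans inf_le_right
  have hIC : I ≤ C := inf_le_right
  -- all indices finite
  have kB : I.relIndex B ≠ 0 := by
    rw [hI]
    apply AddSubgroup.relIndex_inf_ne_zero
    · rw [AddSubgroup.inf_relIndex_right]
      exact h1.1
    · exact h2.2
  have kAB : B.relIndex A ≠ 0 := h1.2
  have kCB : B.relIndex C ≠ 0 := h2.1
  have kA : I.relIndex A ≠ 0 := by
    have : C.relIndex A ≠ 0 := AddSubgroup.relIndex_ne_zero_trans h2.2 h1.2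
    rw [hI]
    apply AddSubgroup.relIndex_inf_ne_zero
    · rw [AddSubgroup.inf_relIndex_left]
      exact h1.2
    · exact this
  have kC : I.relIndex C ≠ 0 := by
    have hAC : A.relIndex C ≠ 0 := AddSubgroup.relIndex_ne_zero_trans h1.1 h2.1
    rw [hI, AddSubgroup.inf_relIndex_right]
    exact AddSubgroup.relIndex_inf_ne_zero hAC h2.1
  rw [gi_low hIA hIB kB, gi_low hIB hIC kC, gi_low hIA hIC kC]
  have qA : ((I.relIndex A : ℕ) : ℚ) ≠ 0 := by exact_mod_cast kA
  have qB : ((I.relIndex B : ℕ) : ℚ) ≠ 0 := by exact_mod_cast kB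
  field_simp

theorem gi_of_le {A B : AddSubgroup G} (h : A ≤ B) : gi A B = (A.relIndex B : ℚ) := by
  unfold gi
  rw [AddSubgroup.relIndex_eq_one.2 h]
  norm_num

theorem card_pow (p : ℕ) [Fact p.Prime] {Q : Type} [AddCommGroup Q] [Finite Q]
    (hp : ∀ x : Q, p • x = 0) : ∃ k : ℕ, Nat.card Q = p ^ k := by
  let _ : Module (ZMod p) Q := AddCommGroup.zmodModule hp
  have _ : Module.Finite (ZMod p) Q := Module.Finite.of_finite
  exact ⟨Module.finrank (ZMod p) Q, by
    rw [Module.natCard_eq_pow_finrank (K := ZMod p), Nat.card_zmod]⟩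

/-- relative indices in elementary abelian `p`-groups are powers of `p` -/
theorem relIndex_pow (p : ℕ) [Fact p.Prime] (hp : ∀ x : G, p • x = 0) {A B : AddSubgroup G}
    (h : A.relIndex B ≠ 0) : ∃ k : ℕ, A.relIndex B = p ^ k := by
  have h1 : A.relIndex B = Nat.card (B ⧸ A.addSubgroupOf B) := rfl
  have h2 : ∀ x : (B ⧸ A.addSubgroupOf B), p • x = 0 := by
    intro x
    induction x using QuotientAddGroup.induction_on with
    | H z =>
      rw [← QuotientAddGroup.mk_nsmul]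
      have : p • z = 0 := by
        ext
        exact hp z
      rw [this]
      rfl
  have : Finite (B ⧸ A.addSubgroupOf B) := Nat.finite_of_card_ne_zero (h1 ▸ h)
  obtain ⟨k, hk⟩ := card_pow p h2
  exact ⟨k, h1.trans hk⟩

theorem padic_zpow (p : ℕ) [Fact p.Prime] (k : ℤ) : padicValRat p ((p : ℚ) ^ k) = k := by
  rw [padicValRat.zpow, padicValRat.self (Fact.out : p.Prime).one_lt, mul_one]

theorem gi_eq_zpow' (p : ℕ) [Fact p.Prime] (hp : ∀ x : G, p • x = 0) {A B : AddSubgroup G}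
    (h : Cm A B) : ∃ k : ℤ, gi A B = (p : ℚ) ^ k := by
  obtain ⟨k, hk⟩ := relIndex_pow p hp h.1
  obtain ⟨l, hl⟩ := relIndex_pow p hp h.2
  have hp0 : (p : ℚ) ≠ 0 := by exact_mod_cast (Fact.out : p.Prime).ne_zero
  refine ⟨(k : ℤ) - l, ?_⟩
  unfold gi
  rw [hk, hl, zpow_sub₀ hp0]
  push_cast
  simp

theorem gi_eq_zpow (p : ℕ) [Fact p.Prime] (hp : ∀ x : G, p • x = 0) {A B : AddSubgroup G}
    (h : Cm A B) : gi A B = (p : ℚ) ^ (padicValRat p (gi A B)) := by
  obtain ⟨k, hk⟩ := gi_eq_zpow' p hp h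
  rw [hk, padic_zpow]

end gi


/-- a Dedekind domain of finite type over `F_p` has finite quotients -/
theorem hasFiniteQuotients (p : ℕ) [Fact p.Prime] (D : Type) [CommRing D] [IsDedekindDomain D]
    [Algebra (ZMod p) D] [Algebra.FiniteType (ZMod p) D] : Ring.HasFiniteQuotients D := by
  constructor
  intro I hI
  have h0 : Ring.KrullDimLE 0 (D ⧸ I) := by
    rw [Ideal.krullDimLE_zero_quotient_iff_forall_minimalPrimes_isMaximal]
    intro J hJ
    have hJp : J.IsPrime := hJ.1.1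
    have hIJ : I ≤ J := hJ.1.2
    exact hJp.isMaximal (fun h => hI (le_bot_iff.1 (h ▸ hIJ)))
  have h1 : Module.Finite (ZMod p) (D ⧸ I) := (Module.finite_iff_krullDimLE_zero _ _).2 h0
  exact Module.finite_of_finite (ZMod p)

section frac

variable {D K : Type} [CommRing D] [IsDedekindDomain D] [Field K] [Algebra D K]
  [IsFractionRing D K]

/-- the additive group of a fractional ideal -/
def S (M : FractionalIdeal D⁰ K) : AddSubgroup K := (M : Submodule D K).toAddSubgroup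

theorem mem_S {M : FractionalIdeal D⁰ K} {x : K} : x ∈ S M ↔ x ∈ M := Iff.rfl

theorem S_le {M N : FractionalIdeal D⁰ K} (h : M ≤ N) : S M ≤ S N := h

theorem relIndex_mul {M N J : FractionalIdeal D⁰ K} (h : N ≤ M) (hM : M ≠ 0) (hN : N ≠ 0)
    (hJ : J ≠ 0) : (S (N * J)).relIndex (S (M * J)) = (S N).relIndex (S M) := by
  have e := FractionalIdeal.quotientEquiv (M * J) (N * J) M N (by ring)
    (mul_le_mul_left h J) h hN (mul_ne_zero hM hJ)
  exact Nat.card_congr e.toEquiv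

theorem relIndex_one (I : Ideal D) :
    (S ((I : Ideal D) : FractionalIdeal D⁰ K)).relIndex (S (1 : FractionalIdeal D⁰ K)) =
      Nat.card (D ⧸ I) := by
  have hinj : Function.Injective (algebraMap D K) := IsFractionRing.injective D K
  have e1 : S ((I : Ideal D) : FractionalIdeal D⁰ K) =
      (I.toAddSubgroup).map (algebraMap D K).toAddMonoidHom := by
    ext x
    rw [mem_S, FractionalIdeal.mem_coeIdeal]
    simp [AddSubgroup.mem_map]
  have e2 : S (1 : FractionalIdeal D⁰ K) =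
      (⊤ : AddSubgroup D).map (algebraMap D K).toAddMonoidHom := by
    ext x
    rw [mem_S, FractionalIdeal.mem_one_iff]
    simp [AddSubgroup.mem_map]
  rw [e1, e2, AddSubgroup.relIndex_map_map_of_injective _ _ hinj, AddSubgroup.relIndex_top_right]
  rfl

theorem relIndex_ne_zero [Ring.HasFiniteQuotients D] {M N : FractionalIdeal D⁰ K} (h : N ≤ M)
    (hM : M ≠ 0) (hN : N ≠ 0) : (S N).relIndex (S M) ≠ 0 := by
  have hMi : M⁻¹ ≠ 0 := inv_ne_zero hM
  rw [← relIndex_mul h hM hN hMi, mul_inv_cancel₀ hM]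
  have h1 : N * M⁻¹ ≤ 1 := by
    rw [← mul_inv_cancel₀ hM]
    exact mul_le_mul_left h _
  obtain ⟨I, hI⟩ := FractionalIdeal.le_one_iff_exists_coeIdeal.1 h1
  rw [← hI, relIndex_one]
  have hI0 : I ≠ ⊥ := by
    rintro rfl
    have : N * M⁻¹ = 0 := by rw [← hI]; simp
    exact (mul_ne_zero hN hMi) this
  have : Finite (D ⧸ I) := Ring.HasFiniteQuotients.finiteQuotient hI0
  exact Nat.card_pos.ne'

theorem cm_of [Ring.HasFiniteQuotients D] {M N : FractionalIdeal D⁰ K}
    (hM : M ≠ 0) (hN : N ≠ 0) : Cm (S M) (S N) := by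
  have h1 : M ≤ M ⊔ N := le_sup_left
  have h2 : N ≤ M ⊔ N := le_sup_right
  have h3 : M ⊔ N ≠ 0 := by
    intro h
    rw [h] at h1
    exact hM (le_bot_iff.1 h1)
  exact Cm.of_high (S_le h1) (S_le h2) (relIndex_ne_zero h1 h3 hM) (relIndex_ne_zero h2 h3 hN)

theorem gi_mul [Ring.HasFiniteQuotients D] {M N J : FractionalIdeal D⁰ K}
    (hM : M ≠ 0) (hN : N ≠ 0) (hJ : J ≠ 0) : gi (S (M * J)) (S (N * J)) = gi (S M) (S N) := by
  have h1 : M ≤ M ⊔ N := le_sup_left
  have h2 : N ≤ M ⊔ N := le_sup_right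
  have h3 : M ⊔ N ≠ 0 := by
    intro h
    rw [h] at h1
    exact hM (le_bot_iff.1 h1)
  have h1' : M * J ≤ (M ⊔ N) * J := mul_le_mul_left h1 J
  have h2' : N * J ≤ (M ⊔ N) * J := mul_le_mul_left h2 J
  have e1 : gi (S (M * J)) (S (N * J)) = _ := gi_high (C := S ((M ⊔ N) * J)) (S_le h1') (S_le h2')
      (relIndex_ne_zero h1' (mul_ne_zero h3 hJ) (mul_ne_zero hM hJ))
      (relIndex_ne_zero h2' (mul_ne_zero h3 hJ) (mul_ne_zero hN hJ))
  have e2 : gi (S M) (S N) = _ := gi_high (C := S (M ⊔ N)) (S_le h1) (S_le h2)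
    (relIndex_ne_zero h1 h3 hM) (relIndex_ne_zero h2 h3 hN)
  rw [e1, e2, relIndex_mul h1 h3 hM hJ, relIndex_mul h2 h3 hN hJ]

theorem gi_one_mul [Ring.HasFiniteQuotients D] {M N : FractionalIdeal D⁰ K}
    (hM : M ≠ 0) (hN : N ≠ 0) :
    gi (S (1 : FractionalIdeal D⁰ K)) (S (M * N)) =
      gi (S (1 : FractionalIdeal D⁰ K)) (S M) * gi (S (1 : FractionalIdeal D⁰ K)) (S N) := by
  have h1 : (1 : FractionalIdeal D⁰ K) ≠ 0 := one_ne_zero
  have e1 : gi (S N) (S (M * N)) = gi (S (1 : FractionalIdeal D⁰ K)) (S M) := by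
    have := gi_mul h1 hM hN
    rwa [one_mul] at this
  rw [← gi_trans (cm_of h1 hN) (cm_of hN (mul_ne_zero hM hN)), e1, mul_comm]

/-- the degree of a fractional ideal -/
noncomputable def degF (p : ℕ) (M : (FractionalIdeal D⁰ K)ˣ) : ℤ :=
  padicValRat p (gi (S (1 : FractionalIdeal D⁰ K)) (S (M : FractionalIdeal D⁰ K)))

theorem degF_mul (p : ℕ) [Fact p.Prime] [Ring.HasFiniteQuotients D]
    (M N : (FractionalIdeal D⁰ K)ˣ) : degF p (M * N) = degF p M + degF p N := by
  unfold degF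
  rw [Units.val_mul, gi_one_mul M.ne_zero N.ne_zero]
  have h1 : (1 : FractionalIdeal D⁰ K) ≠ 0 := one_ne_zero
  exact padicValRat.mul (gi_ne_zero (cm_of h1 M.ne_zero)) (gi_ne_zero (cm_of h1 N.ne_zero))

theorem pow_degF (p : ℕ) [Fact p.Prime] [CharP K p] [Ring.HasFiniteQuotients D]
    (M : (FractionalIdeal D⁰ K)ˣ) :
    gi (S (1 : FractionalIdeal D⁰ K)) (S (M : FractionalIdeal D⁰ K)) = (p : ℚ) ^ (degF p M) := by
  have h1 : (1 : FractionalIdeal D⁰ K) ≠ 0 := one_ne_zero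
  apply gi_eq_zpow p _ (cm_of h1 M.ne_zero)
  intro x
  simp

end frac


section places

variable {p : ℕ} [Fact p.Prime] {D K : Type} [CommRing D] [IsDedekindDomain D] [Field K]
  [Algebra D K] [IsFractionRing D K] {ι : Type} [Fintype ι] [DecidableEq ι]
  {v : ι → Valuation K ℤᵐ⁰} {d : ι → ℕ}

theorem Bsp_mono {n n' : ι → ℤ} (h : n ≤ n') : Bsp v n ≤ Bsp v n' := by
  intro x hx j
  exact (hx j).trans (WithZero.exp_le_exp.2 (h j))

theorem Bsp_single (hP : Places p D K v d) (n : ι → ℤ) (j : ι) (k : ℕ) :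
    (Bsp v n).relIndex (Bsp v (n + Pi.single j (k : ℤ))) = p ^ (k * d j) := by
  induction k with
  | zero => simp
  | succ k ih =>
    have e : n + Pi.single j ((k + 1 : ℕ) : ℤ) = (n + Pi.single j (k : ℤ)) + Pi.single j 1 := by
      rw [add_assoc, ← Pi.single_add]
      push_cast
      rfl
    have h1 : Bsp v n ≤ Bsp v (n + Pi.single j (k : ℤ)) := Bsp_mono (by
      have : (0 : ι → ℤ) ≤ Pi.single j (k : ℤ) := by
        rw [Pi.single_nonneg]
        positivity
      exact le_add_of_nonneg_right this)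
    have h2 : Bsp v (n + Pi.single j (k : ℤ)) ≤ Bsp v (n + Pi.single j (k : ℤ) + Pi.single j 1) :=
      Bsp_mono (by
        have : (0 : ι → ℤ) ≤ Pi.single j (1 : ℤ) := by
          rw [Pi.single_nonneg]
          positivity
        exact le_add_of_nonneg_right this)
    rw [e, ← AddSubgroup.relIndex_mul_relIndex _ _ _ h1 h2, ih, hP.index]
    ring

theorem Bsp_sum (hP : Places p D K v d) (n : ι → ℤ) (m : ι → ℕ) (s : Finset ι) :
    (Bsp v n).relIndex (Bsp v (n + ∑ j ∈ s, Pi.single j ((m j : ℕ) : ℤ))) =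
      p ^ (∑ j ∈ s, m j * d j) := by
  induction s using Finset.induction_on with
  | empty => simp
  | insert a s ha ih =>
    have h0 : ∀ s : Finset ι, (0 : ι → ℤ) ≤ ∑ j ∈ s, Pi.single j ((m j : ℕ) : ℤ) := by
      intro s
      apply Finset.sum_nonneg
      intro j _
      rw [Pi.single_nonneg]
      positivity
    have e : n + ∑ j ∈ insert a s, Pi.single j ((m j : ℕ) : ℤ) =
        (n + ∑ j ∈ s, Pi.single j ((m j : ℕ) : ℤ)) + Pi.single a ((m a : ℕ) : ℤ) := by
      rw [Finset.sum_insert ha]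
      abel
    have h1 : Bsp v n ≤ Bsp v (n + ∑ j ∈ s, Pi.single j ((m j : ℕ) : ℤ)) :=
      Bsp_mono (le_add_of_nonneg_right (h0 s))
    have h2 : Bsp v (n + ∑ j ∈ s, Pi.single j ((m j : ℕ) : ℤ)) ≤
        Bsp v ((n + ∑ j ∈ s, Pi.single j ((m j : ℕ) : ℤ)) + Pi.single a ((m a : ℕ) : ℤ)) :=
      Bsp_mono (by
        have : (0 : ι → ℤ) ≤ Pi.single a ((m a : ℕ) : ℤ) := by
          rw [Pi.single_nonneg]
          positivity
        exact le_add_of_nonneg_right this)
    rw [e, ← AddSubgroup.relIndex_mul_relIndex _ _ _ h1 h2, ih, Bsp_single hP,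
      Finset.sum_insert ha]
    ring

/-- the degree at infinity -/
def degI (d : ι → ℕ) (n : ι → ℤ) : ℤ := ∑ j, n j * d j

theorem degI_add (n m : ι → ℤ) : degI d (n + m) = degI d n + degI d m := by
  unfold degI
  rw [← Finset.sum_add_distrib]
  apply Finset.sum_congr rfl
  intro j _
  rw [Pi.add_apply]
  ring

theorem degI_sub (n m : ι → ℤ) : degI d (n - m) = degI d n - degI d m := by
  unfold degI
  rw [← Finset.sum_sub_distrib]
  apply Finset.sum_congr rfl
  intro j _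
  rw [Pi.sub_apply]
  ring

theorem Bsp_le (hP : Places p D K v d) {n n' : ι → ℤ} (h : n ≤ n') :
    (((Bsp v n).relIndex (Bsp v n') : ℕ) : ℚ) = (p : ℚ) ^ (degI d n' - degI d n) := by
  have e1 := Bsp_sum hP n (fun j => (n' j - n j).toNat) Finset.univ
  have e2 : n + ∑ j, Pi.single j ((((n' j - n j).toNat : ℕ)) : ℤ) = n' := by
    have : (fun j => (((n' j - n j).toNat : ℕ) : ℤ)) = n' - n := by
      ext j
      rw [Pi.sub_apply]
      exact Int.toNat_of_nonneg (sub_nonneg.2 (h j))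
    have e3 : ∑ j, Pi.single j ((((n' j - n j).toNat : ℕ)) : ℤ) = n' - n := by
      rw [← this]
      exact Finset.univ_sum_single _
    rw [e3]
    abel
  rw [e2] at e1
  rw [e1]
  push_cast
  rw [← zpow_natCast, ← degI_sub]
  congr 1
  unfold degI
  push_cast
  apply Finset.sum_congr rfl
  intro j _
  rw [Pi.sub_apply, Int.toNat_of_nonneg (sub_nonneg.2 (h j))]

theorem Bsp_ne_zero (hP : Places p D K v d) {n n' : ι → ℤ} (h : n ≤ n') :
    (Bsp v n).relIndex (Bsp v n') ≠ 0 := by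
  have hp0 : (p : ℚ) ≠ 0 := by exact_mod_cast (Fact.out : p.Prime).ne_zero
  intro h0
  have := Bsp_le hP h
  rw [h0] at this
  exact (zpow_ne_zero _ hp0) (by simpa using this.symm)

theorem card_mul_relIndex {G : Type} [AddCommGroup G] {A B : AddSubgroup G} (h : A ≤ B) :
    Nat.card A * A.relIndex B = Nat.card B := by
  have := AddSubgroup.relIndex_mul_relIndex ⊥ A B bot_le h
  rwa [AddSubgroup.relIndex_bot_left, AddSubgroup.relIndex_bot_left] at this

theorem card_inf_le {G : Type} [AddCommGroup G] {A A' B B' : AddSubgroup G} (h1 : A ≤ A')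
    (h2 : B ≤ B') (h3 : A.relIndex A' ≠ 0) (h4 : B.relIndex B' ≠ 0) :
    Nat.card (A' ⊓ B' : AddSubgroup G) ≤
      Nat.card (A ⊓ B : AddSubgroup G) * (A.relIndex A' * B.relIndex B') := by
  rw [← card_mul_relIndex (inf_le_inf h1 h2)]
  apply Nat.mul_le_mul_left
  refine (AddSubgroup.relIndex_inf_le).trans ?_
  exact Nat.mul_le_mul (AddSubgroup.relIndex_le_of_le_right inf_le_left h3)
    (AddSubgroup.relIndex_le_of_le_right inf_le_right h4)

theorem card_sum {G : Type} [AddCommGroup G] {A B H : AddSubgroup G} (h : A ≤ B)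
    (h' : ∀ z ∈ B, ∃ a ∈ A, z - a ∈ H) :
    Nat.card (B ⊓ H : AddSubgroup G) = Nat.card (A ⊓ H : AddSubgroup G) * A.relIndex B := by
  have e1 : A ⊔ (B ⊓ H) = B := by
    apply le_antisymm (sup_le h inf_le_left)
    intro z hz
    obtain ⟨a, ha, hb⟩ := h' z hz
    have : z = a + (z - a) := by abel
    rw [this]
    exact AddSubgroup.add_mem_sup ha ⟨B.sub_mem hz (h ha), hb⟩
  have e2 : A.relIndex B = A.relIndex (B ⊓ H) := by
    conv_lhs => rw [← e1]
    exact AddSubgroup.relIndex_sup_left _ _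
  have e3 : A ⊓ H = A ⊓ (B ⊓ H) := by
    rw [← inf_assoc, inf_eq_left.2 h]
  have e4 : A ⊓ H ≤ B ⊓ H := inf_le_inf_right _ h
  rw [← card_mul_relIndex e4, e2]
  congr 1
  rw [e3, AddSubgroup.inf_relIndex_right]

theorem fin_one (hP : Places p D K v d) (n : ι → ℤ) :
    Finite (S (1 : FractionalIdeal D⁰ K) ⊓ Bsp v n : AddSubgroup K) := by
  have h := hP.finite n
  have : (((S (1 : FractionalIdeal D⁰ K) ⊓ Bsp v n : AddSubgroup K) : Set K)).Finite := by
    refine (h.image (algebraMap D K)).subset ?_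
    rintro x ⟨hx1, hx2⟩
    obtain ⟨a, rfl⟩ := (FractionalIdeal.mem_one_iff D⁰).1 hx1
    exact ⟨a, hx2, rfl⟩
  exact this

theorem fin_all (hP : Places p D K v d) [Ring.HasFiniteQuotients D]
    (M : (FractionalIdeal D⁰ K)ˣ) (n : ι → ℤ) :
    Finite (S (M : FractionalIdeal D⁰ K) ⊓ Bsp v n : AddSubgroup K) := by
  have h1 : (1 : FractionalIdeal D⁰ K) ≠ 0 := one_ne_zero
  have hc := cm_of h1 M.ne_zero
  have h2 : (S (1 : FractionalIdeal D⁰ K)).relIndex (S (M : FractionalIdeal D⁰ K) ⊓ Bsp v n) ≠ 0 :=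
    fun h => hc.1 (AddSubgroup.relIndex_eq_zero_of_le_right inf_le_left h)
  have := fin_one hP n
  have h3 : Finite (S (1 : FractionalIdeal D⁰ K) ⊓
      (S (M : FractionalIdeal D⁰ K) ⊓ Bsp v n) : AddSubgroup K) := by
    have h4 : (((S (1 : FractionalIdeal D⁰ K) ⊓
      (S (M : FractionalIdeal D⁰ K) ⊓ Bsp v n) : AddSubgroup K)) : Set K).Finite := by
      refine Set.Finite.subset (s := ((S (1 : FractionalIdeal D⁰ K) ⊓ Bsp v n :
        AddSubgroup K) : Set K)) this ?_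
      rintro x ⟨hx1, hx2, hx3⟩
      exact ⟨hx1, hx3⟩
    exact h4
  have h5 := card_mul_relIndex (A := S (1 : FractionalIdeal D⁰ K) ⊓
      (S (M : FractionalIdeal D⁰ K) ⊓ Bsp v n)) (B := S (M : FractionalIdeal D⁰ K) ⊓ Bsp v n)
      inf_le_right
  rw [AddSubgroup.inf_relIndex_right] at h5
  apply Nat.finite_of_card_ne_zero
  rw [← h5]
  exact mul_ne_zero Nat.card_pos.ne' h2

theorem riemann (hP : Places p D K v d) [CharP K p] [Ring.HasFiniteQuotients D] (n0 : ι → ℤ)
    (hn0 : ∀ z : K, ∃ a : D, ∃ b ∈ Bsp v n0, z = algebraMap D K a + b)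
    (M : (FractionalIdeal D⁰ K)ˣ) (n : ι → ℤ) :
    (p : ℚ) ^ (degF p M + degI d n - degI d n0) ≤
      (Nat.card (S (M : FractionalIdeal D⁰ K) ⊓ Bsp v n : AddSubgroup K) : ℚ) := by
  have hp0 : (p : ℚ) ≠ 0 := by exact_mod_cast (Fact.out : p.Prime).ne_zero
  have hppos : (0 : ℚ) < p := by exact_mod_cast (Fact.out : p.Prime).pos
  have h1 : (1 : FractionalIdeal D⁰ K) ≠ 0 := one_ne_zero
  set M' : FractionalIdeal D⁰ K := 1 ⊔ M with hM'
  set n' : ι → ℤ := n ⊔ n0 with hn'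
  have hM1 : 1 ≤ M' := le_sup_left
  have hMM : (M : FractionalIdeal D⁰ K) ≤ M' := le_sup_right
  have hM0 : M' ≠ 0 := by
    intro h
    rw [h] at hM1
    exact h1 (le_bot_iff.1 hM1)
  have hnn : n ≤ n' := le_sup_left
  have hn0n : n0 ≤ n' := le_sup_right
  -- the exact count for `M' , n'`
  have e1 : Nat.card (S M' ⊓ Bsp v n' : AddSubgroup K) =
      Nat.card (S (1 : FractionalIdeal D⁰ K) ⊓ Bsp v n' : AddSubgroup K) *
        (S (1 : FractionalIdeal D⁰ K)).relIndex (S M') := by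
    apply card_sum (S_le hM1)
    intro z _
    obtain ⟨a, b, hb, hz⟩ := hn0 z
    refine ⟨algebraMap D K a, (FractionalIdeal.mem_one_iff D⁰).2 ⟨a, rfl⟩, ?_⟩
    rw [hz, add_sub_cancel_left]
    exact Bsp_mono hn0n hb
  have e2 : Nat.card (Bsp v n' ⊓ S (1 : FractionalIdeal D⁰ K) : AddSubgroup K) =
      Nat.card (Bsp v n0 ⊓ S (1 : FractionalIdeal D⁰ K) : AddSubgroup K) *
        (Bsp v n0).relIndex (Bsp v n') := by
    apply card_sum (Bsp_mono hn0n)
    intro z _
    obtain ⟨a, b, hb, hz⟩ := hn0 z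
    refine ⟨b, hb, ?_⟩
    rw [hz, add_sub_cancel_right]
    exact (FractionalIdeal.mem_one_iff D⁰).2 ⟨a, rfl⟩
  have hc0 : 1 ≤ Nat.card (Bsp v n0 ⊓ S (1 : FractionalIdeal D⁰ K) : AddSubgroup K) := by
    have := fin_one hP n0
    rw [inf_comm]
    exact Nat.card_pos
  rw [inf_comm] at e2
  have e3 := card_inf_le (S_le hMM) (Bsp_mono (v := v) hnn) (relIndex_ne_zero hMM hM0 M.ne_zero)
    (Bsp_ne_zero hP hnn)
  rw [e1, e2] at e3
  -- pass to rationals
  have e4 : ((Nat.card (Bsp v n0 ⊓ S (1 : FractionalIdeal D⁰ K) : AddSubgroup K) : ℚ) *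
      ((Bsp v n0).relIndex (Bsp v n') : ℚ)) * ((S (1 : FractionalIdeal D⁰ K)).relIndex (S M') : ℚ)
      ≤ (Nat.card (S (M : FractionalIdeal D⁰ K) ⊓ Bsp v n : AddSubgroup K) : ℚ) *
        (((S (M : FractionalIdeal D⁰ K)).relIndex (S M') : ℚ) *
          ((Bsp v n).relIndex (Bsp v n') : ℚ)) := by
    exact_mod_cast e3
  have g1 : gi (S (1 : FractionalIdeal D⁰ K)) (S M') =
      ((S (1 : FractionalIdeal D⁰ K)).relIndex (S M') : ℚ) := gi_of_le (S_le hM1)
  have g2 : gi (S (M : FractionalIdeal D⁰ K)) (S M') =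
      ((S (M : FractionalIdeal D⁰ K)).relIndex (S M') : ℚ) := gi_of_le (S_le hMM)
  rw [Bsp_le hP hn0n, Bsp_le hP hnn, ← g1, ← g2,
    ← gi_trans (cm_of h1 M.ne_zero) (cm_of M.ne_zero hM0), pow_degF p M] at e4
  have hg : 0 < gi (S (M : FractionalIdeal D⁰ K)) (S M') := gi_pos (cm_of M.ne_zero hM0)
  have hc1 : (1 : ℚ) ≤ (Nat.card (Bsp v n0 ⊓ S (1 : FractionalIdeal D⁰ K) : AddSubgroup K) : ℚ) := by
    exact_mod_cast hc0
  have e5 : (p : ℚ) ^ (degF p M + degI d n - degI d n0) *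
      (gi (S (M : FractionalIdeal D⁰ K)) (S M') * (p : ℚ) ^ (degI d n' - degI d n)) ≤
      (Nat.card (S (M : FractionalIdeal D⁰ K) ⊓ Bsp v n : AddSubgroup K) : ℚ) *
      (gi (S (M : FractionalIdeal D⁰ K)) (S M') * (p : ℚ) ^ (degI d n' - degI d n)) := by
    refine le_trans ?_ e4
    have e6 : (p : ℚ) ^ (degF p M + degI d n - degI d n0) * (p : ℚ) ^ (degI d n' - degI d n) =
        (p : ℚ) ^ (degI d n' - degI d n0) * (p : ℚ) ^ (degF p M) := by
      rw [← zpow_add₀ hp0, ← zpow_add₀ hp0]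
      congr 1
      ring
    calc (p : ℚ) ^ (degF p M + degI d n - degI d n0) *
        (gi (S (M : FractionalIdeal D⁰ K)) (S M') * (p : ℚ) ^ (degI d n' - degI d n))
        = 1 * ((p : ℚ) ^ (degI d n' - degI d n0) * (p : ℚ) ^ (degF p M) *
          gi (S (M : FractionalIdeal D⁰ K)) (S M')) := by
          rw [← e6]; ring
      _ ≤ (Nat.card (Bsp v n0 ⊓ S (1 : FractionalIdeal D⁰ K) : AddSubgroup K) : ℚ) *
          ((p : ℚ) ^ (degI d n' - degI d n0) * (p : ℚ) ^ (degF p M) *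
          gi (S (M : FractionalIdeal D⁰ K)) (S M')) := by
          apply mul_le_mul_of_nonneg_right hc1
          have := zpow_pos hppos (degI d n' - degI d n0)
          have := zpow_pos hppos (degF p M)
          positivity
      _ = _ := by ring
  exact le_of_mul_le_mul_right e5 (mul_pos hg (zpow_pos hppos _))

end places


section divisors

variable (p : ℕ) [Fact p.Prime] (D K : Type) [CommRing D] [IsDedekindDomain D] [Field K]
  [Algebra D K] [IsFractionRing D K] {ι : Type} [Fintype ι] [DecidableEq ι]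
  (v : ι → Valuation K ℤᵐ⁰) (d : ι → ℕ)

/-- divisors -/
abbrev Dv (D K ι : Type) [CommRing D] [IsDedekindDomain D] [Field K]
    [Algebra D K] [IsFractionRing D K] : Type := Additive (FractionalIdeal D⁰ K)ˣ × (ι → ℤ)

/-- the fractional ideal of a divisor -/
def fi {D K ι : Type} [CommRing D] [IsDedekindDomain D] [Field K]
    [Algebra D K] [IsFractionRing D K] (a : Dv D K ι) : (FractionalIdeal D⁰ K)ˣ := a.1.toMul

variable {D K}

/-- the Riemann-Roch space -/
def Ls (a : Dv D K ι) : AddSubgroup K := S ((fi a : (FractionalIdeal D⁰ K)ˣ) : FractionalIdeal D⁰ K)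
  ⊓ Bsp v a.2

/-- principal divisors -/
noncomputable def dv : Kˣ →* Multiplicative (Dv D K ι) where
  toFun x := Multiplicative.ofAdd (Additive.ofMul (toPrincipalIdeal D K x)⁻¹,
    fun j => - WithZero.log (v j (x : K)))
  map_one' := by
    rw [map_one, inv_one]
    have : (fun j => - WithZero.log (v j ((1 : Kˣ) : K))) = 0 := by
      ext j
      simp
    rw [this]
    rfl
  map_mul' x y := by
    rw [← ofAdd_add, Prod.mk_add_mk, ← ofMul_mul, ← mul_inv, ← map_mul]
    congr 2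
    ext j
    rw [Pi.add_apply, Units.val_mul, map_mul, WithZero.log_mul]
    · ring
    · rw [Valuation.ne_zero_iff]; exact x.ne_zero
    · rw [Valuation.ne_zero_iff]; exact y.ne_zero

theorem degF_one [Ring.HasFiniteQuotients D] : degF p (1 : (FractionalIdeal D⁰ K)ˣ) = 0 := by
  unfold degF
  rw [Units.val_one, gi_self]
  simp

/-- the degree -/
noncomputable def dg [Ring.HasFiniteQuotients D] : Dv D K ι →+ ℤ where
  toFun a := degF p (fi a) + degI d a.2
  map_zero' := by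
    have h1 : fi (0 : Dv D K ι) = 1 := rfl
    rw [h1, degF_one]
    unfold degI
    simp
  map_add' a b := by
    have h1 : fi (a + b) = fi a * fi b := rfl
    rw [h1, degF_mul, Prod.snd_add, degI_add]
    ring

/-- effective divisors -/
def eff (D K ι : Type) [CommRing D] [IsDedekindDomain D] [Field K]
    [Algebra D K] [IsFractionRing D K] : Set (Dv D K ι) :=
  {a | 1 ≤ ((fi a : (FractionalIdeal D⁰ K)ˣ) : FractionalIdeal D⁰ K) ∧ 0 ≤ a.2}

theorem hmem (a : Dv D K ι) (x : Kˣ) :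
    (x : K) ∈ Ls v a ↔ a + (dv v x).toAdd ∈ eff D K ι := by
  have hx : (x : K) ≠ 0 := x.ne_zero
  have h1 : (x : K) ∈ Ls v a ↔ (x : K) ∈ ((fi a : (FractionalIdeal D⁰ K)ˣ) : FractionalIdeal D⁰ K) ∧
      (x : K) ∈ Bsp v a.2 := Iff.rfl
  have h2 : fi (a + (dv v x).toAdd) = fi a * (toPrincipalIdeal D K x)⁻¹ := rfl
  have h3 : (a + (dv v x).toAdd).2 = fun j => a.2 j + - WithZero.log (v j (x : K)) := rfl
  have h4 : a + (dv v x).toAdd ∈ eff D K ι ↔
    1 ≤ ((fi (a + (dv v x).toAdd) : (FractionalIdeal D⁰ K)ˣ) : FractionalIdeal D⁰ K) ∧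
      0 ≤ (a + (dv v x).toAdd).2 := Iff.rfl
  rw [h1, h4, h2, h3]
  apply and_congr
  · rw [← FractionalIdeal.spanSingleton_le_iff_mem, Units.val_mul]
    have h5 : (((toPrincipalIdeal D K x)⁻¹ : (FractionalIdeal D⁰ K)ˣ) : FractionalIdeal D⁰ K) =
        (FractionalIdeal.spanSingleton D⁰ (x : K))⁻¹ := by
      rw [Units.val_inv_eq_inv_val, coe_toPrincipalIdeal]
    rw [h5]
    have h6 : FractionalIdeal.spanSingleton D⁰ (x : K) ≠ 0 :=
      FractionalIdeal.spanSingleton_ne_zero_iff.2 hx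
    constructor
    · intro h
      calc (1 : FractionalIdeal D⁰ K) = FractionalIdeal.spanSingleton D⁰ (x : K) *
          (FractionalIdeal.spanSingleton D⁰ (x : K))⁻¹ := (mul_inv_cancel₀ h6).symm
        _ ≤ _ := mul_le_mul_left h _
    · intro h
      calc FractionalIdeal.spanSingleton D⁰ (x : K) = 1 * FractionalIdeal.spanSingleton D⁰ (x : K) :=
          (one_mul _).symm
        _ ≤ (((fi a : (FractionalIdeal D⁰ K)ˣ) : FractionalIdeal D⁰ K) *
          (FractionalIdeal.spanSingleton D⁰ (x : K))⁻¹) *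
            FractionalIdeal.spanSingleton D⁰ (x : K) := mul_le_mul_left h _
        _ = _ := by rw [mul_assoc, inv_mul_cancel₀ h6, mul_one]
  · constructor
    · intro h j
      have := h j
      have hv : v j (x : K) ≠ 0 := (Valuation.ne_zero_iff _).2 hx
      rw [← WithZero.log_le_iff_le_exp hv] at this
      show (0 : ℤ) ≤ a.2 j + - WithZero.log (v j (x : K))
      linarith
    · intro h j
      have hv : v j (x : K) ≠ 0 := (Valuation.ne_zero_iff _).2 hx
      have h5 : (0 : ℤ) ≤ a.2 j + - WithZero.log (v j (x : K)) := h j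
      rw [← WithZero.log_le_iff_le_exp hv]
      linarith

theorem fi_zero : fi (0 : Dv D K ι) = 1 := rfl

theorem fi_dv (x : Kˣ) : fi ((dv v x).toAdd : Dv D K ι) = (toPrincipalIdeal D K x)⁻¹ := rfl

theorem mem_zero_iff (x : Kˣ) : (x : K) ∈ Ls v (0 : Dv D K ι) ↔ (dv v x).toAdd ∈ eff D K ι := by
  have := hmem v (0 : Dv D K ι) x
  rwa [zero_add] at this

/-- `Ls 0` is closed under multiplication -/
theorem Ls_zero_mul {x y : K} (hx : x ∈ Ls v (0 : Dv D K ι)) (hy : y ∈ Ls v (0 : Dv D K ι)) :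
    x * y ∈ Ls v (0 : Dv D K ι) := by
  obtain ⟨hx1, hx2⟩ := hx
  obtain ⟨hy1, hy2⟩ := hy
  constructor
  · obtain ⟨a, rfl⟩ := (FractionalIdeal.mem_one_iff D⁰).1 hx1
    obtain ⟨b, rfl⟩ := (FractionalIdeal.mem_one_iff D⁰).1 hy1
    exact (FractionalIdeal.mem_one_iff D⁰).2 ⟨a * b, map_mul _ _ _⟩
  · intro j
    have h1 : v j x ≤ 1 := hx2 j
    have h2 : v j y ≤ 1 := hy2 j
    show v j (x * y) ≤ 1
    rw [map_mul]
    exact mul_le_one' h1 h2

theorem Ls_zero_one : (1 : K) ∈ Ls v (0 : Dv D K ι) := by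
  constructor
  · exact (FractionalIdeal.mem_one_iff D⁰).2 ⟨1, map_one _⟩
  · intro j
    show v j 1 ≤ 1
    rw [map_one]

theorem Ls_zero_pow {x : K} (hx : x ∈ Ls v (0 : Dv D K ι)) (k : ℕ) :
    x ^ k ∈ Ls v (0 : Dv D K ι) := by
  induction k with
  | zero => rw [pow_zero]; exact Ls_zero_one v
  | succ k ih => rw [pow_succ]; exact Ls_zero_mul v ih hx

theorem Ls_zero_inv [Finite (Ls v (0 : Dv D K ι))] {x : K} (hx0 : x ≠ 0)
    (hx : x ∈ Ls v (0 : Dv D K ι)) : x⁻¹ ∈ Ls v (0 : Dv D K ι) := by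
  have h1 : ¬ Function.Injective (fun k : ℕ => (⟨x ^ k, Ls_zero_pow v hx k⟩ : Ls v (0 : Dv D K ι))) :=
    not_injective_infinite_finite _
  rw [Function.Injective] at h1
  push Not at h1
  obtain ⟨k, l, hkl, hne⟩ := h1
  have hkl' : x ^ k = x ^ l := congrArg Subtype.val hkl
  wlog hlt : k < l generalizing k l
  · exact this l k hkl.symm (Ne.symm hne) hkl'.symm (lt_of_le_of_ne (not_lt.1 hlt) (Ne.symm hne))
  have h2 : x ^ (l - k) = 1 := by
    have : x ^ l = x ^ k * x ^ (l - k) := by rw [← pow_add]; congr 1; omega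
    rw [this] at hkl'
    exact mul_left_cancel₀ (pow_ne_zero k hx0) (by rw [← hkl', mul_one])
  have h3 : x⁻¹ = x ^ (l - k - 1) := by
    symm
    apply eq_inv_of_mul_eq_one_left
    rw [← pow_succ, ← h2]
    congr 1
    omega
  rw [h3]
  exact Ls_zero_pow v hx _

theorem hker [Finite (Ls v (0 : Dv D K ι))] (x : Kˣ) :
    dv v x = (1 : Multiplicative (Dv D K ι)) ↔ (x : K) ∈ Ls v (0 : Dv D K ι) := by
  constructor
  · intro h
    rw [mem_zero_iff, h]
    exact ⟨le_refl _, le_refl _⟩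
  · intro h
    have h' : ((x⁻¹ : Kˣ) : K) ∈ Ls v (0 : Dv D K ι) := by
      rw [Units.val_inv_eq_inv_val]
      exact Ls_zero_inv v x.ne_zero h
    rw [mem_zero_iff] at h h'
    obtain ⟨h1, h2⟩ := h
    obtain ⟨h3, h4⟩ := h'
    have e : ((dv v x⁻¹).toAdd : Dv D K ι) = - (dv v x).toAdd := by
      rw [map_inv]; rfl
    rw [e] at h3 h4
    have h5 : fi (- ((dv v x).toAdd : Dv D K ι)) = (fi ((dv v x).toAdd : Dv D K ι))⁻¹ := rfl
    rw [h5] at h3
    have h6 : fi ((dv v x).toAdd : Dv D K ι) = 1 := by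
      ext1
      apply le_antisymm _ h1
      have := mul_le_mul_left h3 ((fi ((dv v x).toAdd : Dv D K ι) : (FractionalIdeal D⁰ K)ˣ) :
        FractionalIdeal D⁰ K)
      rw [one_mul, ← Units.val_mul, inv_mul_cancel] at this
      exact this
    have h7 : ((dv v x).toAdd : Dv D K ι).2 = 0 := by
      apply le_antisymm _ h2
      have : (- ((dv v x).toAdd : Dv D K ι)).2 = - ((dv v x).toAdd : Dv D K ι).2 := rfl
      rw [this] at h4
      intro j
      have := h4 j
      simpa using this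
    have h8 : ((dv v x).toAdd : Dv D K ι) = 0 := by
      apply Prod.ext
      · exact h6
      · exact h7
    exact h8

theorem Ls_dv_card_le [Finite (Ls v (0 : Dv D K ι))] (x : Kˣ) :
    Nat.card (Ls v ((dv v x).toAdd : Dv D K ι)) ≤ Nat.card (Ls v (0 : Dv D K ι)) := by
  have key : ∀ z : K, z ∈ Ls v ((dv v x).toAdd : Dv D K ι) → z * x ∈ Ls v (0 : Dv D K ι) := by
    intro z hz
    by_cases h0 : z = 0
    · rw [h0, zero_mul]
      exact zero_mem _
    · have h1 := (hmem v ((dv v x).toAdd : Dv D K ι) (Units.mk0 z h0)).1 hz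
      have h2 : ((dv v x).toAdd : Dv D K ι) + (dv v (Units.mk0 z h0)).toAdd =
          (dv v (Units.mk0 z h0 * x)).toAdd := by
        rw [map_mul, mul_comm]; rfl
      rw [h2, ← mem_zero_iff] at h1
      exact h1
  apply Nat.card_le_card_of_injective (fun z => (⟨z.1 * x, key z.1 z.2⟩ : Ls v (0 : Dv D K ι)))
  intro z w h
  have : z.1 * (x : K) = w.1 * x := congrArg Subtype.val h
  exact Subtype.ext (mul_right_cancel₀ x.ne_zero this)

variable {v d} in
theorem hdeg_le (hP : Places p D K v d) [CharP K p] [Ring.HasFiniteQuotients D] (x : Kˣ) :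
    dg (D := D) p d (dv v x).toAdd ≤ 0 := by
  obtain ⟨n0, hn0⟩ := hP.cover
  have hfin : Finite (Ls v (0 : Dv D K ι)) := fin_all hP (1 : (FractionalIdeal D⁰ K)ˣ) 0
  set δ := dg (D := D) p d (dv v x).toAdd with hδ
  by_contra hpos
  push Not at hpos
  set c : ℕ := Nat.card (Ls v (0 : Dv D K ι)) with hc
  set k : ℕ := (degI d n0 + c).toNat with hk
  have h1 : Nat.card (Ls v ((dv v (x ^ k)).toAdd : Dv D K ι)) ≤ c := Ls_dv_card_le v (x ^ k)
  have h2 := riemann hP n0 hn0 (fi ((dv v (x ^ k)).toAdd : Dv D K ι)) ((dv v (x ^ k)).toAdd : Dv D K ι).2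
  have h3 : degF p (fi ((dv v (x ^ k)).toAdd : Dv D K ι)) +
      degI d ((dv v (x ^ k)).toAdd : Dv D K ι).2 = k * δ := by
    have : dg (D := D) p d ((dv v (x ^ k)).toAdd) = k * δ := by
      rw [map_pow]
      have : ((dv v x ^ k : Multiplicative (Dv D K ι)).toAdd : Dv D K ι) = k • (dv v x).toAdd := rfl
      rw [this, map_nsmul, nsmul_eq_mul]
    exact this
  rw [h3] at h2
  have h4 : (c : ℤ) ≤ k * δ - degI d n0 := by
    have h5 : degI d n0 + c ≤ k := by rw [hk]; exact Int.self_le_toNat _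
    have h6 : (k : ℤ) ≤ k * δ := by nlinarith
    linarith
  have hp1 : (1 : ℚ) ≤ p := by exact_mod_cast (Fact.out : p.Prime).one_lt.le
  have h7 : ((p : ℚ) ^ (c : ℤ)) ≤ (p : ℚ) ^ (k * δ - degI d n0) := zpow_le_zpow_right₀ hp1 h4
  have h8 : ((p ^ c : ℕ) : ℚ) ≤ (c : ℚ) := by
    push_cast
    rw [← zpow_natCast]
    refine h7.trans (h2.trans ?_)
    exact_mod_cast h1
  have h9 : p ^ c ≤ c := by exact_mod_cast h8
  exact absurd h9 (not_le.2 (Nat.lt_pow_self (Fact.out : p.Prime).one_lt))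

variable {v d} in
theorem hdeg (hP : Places p D K v d) [CharP K p] [Ring.HasFiniteQuotients D] (x : Kˣ) :
    dg (D := D) p d (dv v x).toAdd = 0 := by
  apply le_antisymm (hdeg_le p hP x)
  have h1 := hdeg_le p hP x⁻¹
  have e : ((dv v x⁻¹).toAdd : Dv D K ι) = - (dv v x).toAdd := by
    rw [map_inv]; rfl
  rw [e, map_neg] at h1
  linarith

variable {v d} in
theorem exists_mem (hP : Places p D K v d) [CharP K p] [Ring.HasFiniteQuotients D] :
    ∃ n₀ : ℤ, ∀ a : Dv D K ι, n₀ ≤ dg p d a → ∃ x : Kˣ, (x : K) ∈ Ls v a := by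
  obtain ⟨n0, hn0⟩ := hP.cover
  refine ⟨degI d n0 + 1, fun a ha => ?_⟩
  have h2 := riemann hP n0 hn0 (fi a) a.2
  have h3 : degF p (fi a) + degI d a.2 = dg p d a := rfl
  rw [h3] at h2
  have hp1 : (1 : ℚ) ≤ p := by exact_mod_cast (Fact.out : p.Prime).one_lt.le
  have h4 : (p : ℚ) ^ (1 : ℤ) ≤ (p : ℚ) ^ (dg p d a - degI d n0) :=
    zpow_le_zpow_right₀ hp1 (by linarith)
  rw [zpow_one] at h4
  have h5 : (p : ℚ) ≤ (Nat.card (Ls v a) : ℚ) := h4.trans h2
  have h6 : p ≤ Nat.card (Ls v a) := by exact_mod_cast h5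
  have h7 : 1 < Nat.card (Ls v a) := lt_of_lt_of_le (Fact.out : p.Prime).one_lt h6
  have hfin : Finite (Ls v a) := fin_all hP (fi a) a.2
  have h8 : Nontrivial (Ls v a) := Finite.one_lt_card_iff_nontrivial.1 h7
  obtain ⟨z, hz⟩ := exists_ne (0 : Ls v a)
  refine ⟨Units.mk0 z.1 (fun h => hz (Subtype.ext h)), z.2⟩

end divisors


section final

variable (p : ℕ) [Fact p.Prime] {D K : Type} [CommRing D] [IsDedekindDomain D] [Field K]
  [Algebra D K] [IsFractionRing D K] {ι : Type} [Fintype ι] [DecidableEq ι]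
  {v : ι → Valuation K ℤᵐ⁰} {d : ι → ℕ}

theorem exists_ideal [CharP K p] [Ring.HasFiniteQuotients D] (M : (FractionalIdeal D⁰ K)ˣ)
    (hM : 1 ≤ (M : FractionalIdeal D⁰ K)) :
    ∃ I : Ideal D, (I : FractionalIdeal D⁰ K) = ((M⁻¹ : (FractionalIdeal D⁰ K)ˣ) :
      FractionalIdeal D⁰ K) := by
  have h1 : ((M⁻¹ : (FractionalIdeal D⁰ K)ˣ) : FractionalIdeal D⁰ K) ≤ 1 := by
    have := mul_le_mul_left hM ((M⁻¹ : (FractionalIdeal D⁰ K)ˣ) : FractionalIdeal D⁰ K)
    rwa [one_mul, ← Units.val_mul, mul_inv_cancel, Units.val_one] at this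
  exact FractionalIdeal.le_one_iff_exists_coeIdeal.1 h1

theorem pow_degF_ideal [CharP K p] [Ring.HasFiniteQuotients D] (M : (FractionalIdeal D⁰ K)ˣ)
    (I : Ideal D) (hI : (I : FractionalIdeal D⁰ K) = ((M⁻¹ : (FractionalIdeal D⁰ K)ˣ) :
      FractionalIdeal D⁰ K)) : (Nat.card (D ⧸ I) : ℚ) = (p : ℚ) ^ (degF p M) := by
  have h1 : ((M⁻¹ : (FractionalIdeal D⁰ K)ˣ) : FractionalIdeal D⁰ K) ≤ 1 := by
    rw [← hI]; exact FractionalIdeal.coeIdeal_le_one
  have hM : 1 ≤ (M : FractionalIdeal D⁰ K) := by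
    have := mul_le_mul_left h1 (M : FractionalIdeal D⁰ K)
    rwa [one_mul, ← Units.val_mul, inv_mul_cancel, Units.val_one] at this
  have h2 : (1 : FractionalIdeal D⁰ K) ≠ 0 := one_ne_zero
  have e1 := relIndex_mul (J := ((M⁻¹ : (FractionalIdeal D⁰ K)ˣ) : FractionalIdeal D⁰ K)) hM
    M.ne_zero h2 (M⁻¹).ne_zero
  rw [one_mul, ← Units.val_mul, mul_inv_cancel, Units.val_one, ← hI, relIndex_one] at e1
  have g1 : gi (S (1 : FractionalIdeal D⁰ K)) (S (M : FractionalIdeal D⁰ K)) =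
      ((S (1 : FractionalIdeal D⁰ K)).relIndex (S (M : FractionalIdeal D⁰ K)) : ℚ) :=
    gi_of_le (S_le hM)
  rw [e1, ← g1, pow_degF]

theorem pow_int_inj {a b : ℤ} (h : (p : ℚ) ^ a = (p : ℚ) ^ b) : a = b := by
  rw [← padic_zpow p a, ← padic_zpow p b, h]

/-- the target of the bijection -/
abbrev Tg (p : ℕ) (D : Type) [CommRing D] {ι : Type} [Fintype ι] (d : ι → ℕ) (n : ℕ) : Type :=
  {a : Ideal D × (ι → ℕ) // Nat.card (D ⧸ a.1) * p ^ (∑ j, a.2 j * d j) = p ^ n}

theorem Tg_ne_bot [Infinite D] {n : ℕ} (a : Tg p D d n) : a.1.1 ≠ ⊥ := by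
  intro h
  have h1 := a.2
  have h2 : Nat.card (D ⧸ (⊥ : Ideal D)) = 0 := by
    rw [Nat.card_congr (RingEquiv.quotientBot D).toEquiv]
    exact Nat.card_eq_zero_of_infinite
  rw [h, h2, zero_mul] at h1
  exact (pow_ne_zero n (Fact.out : p.Prime).ne_zero) h1.symm

theorem equiv_eff [Infinite D] [CharP K p] [Ring.HasFiniteQuotients D] (n : ℕ) :
    Nonempty (Tg p D d n ≃ {a : Dv D K ι // a ∈ eff D K ι ∧ dg p d a = (n : ℤ)}) := by
  have hp0 : (p : ℚ) ≠ 0 := by exact_mod_cast (Fact.out : p.Prime).ne_zero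
  have hu : ∀ a : Tg p D d n, ((a.1.1 : Ideal D) : FractionalIdeal D⁰ K) ≠ 0 := fun a =>
    FractionalIdeal.coeIdeal_ne_zero.2 (Tg_ne_bot p a)
  -- the key equation
  have key : ∀ (I : Ideal D) (M : (FractionalIdeal D⁰ K)ˣ) (m : ι → ℕ)
      (_ : (I : FractionalIdeal D⁰ K) = ((M⁻¹ : (FractionalIdeal D⁰ K)ˣ) : FractionalIdeal D⁰ K)),
      (Nat.card (D ⧸ I) * p ^ (∑ j, m j * d j) = p ^ n ↔
        degF p M + degI d (fun j => (m j : ℤ)) = (n : ℤ)) := by
    intro I M m hI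
    have e1 := pow_degF_ideal p M I hI
    have e2 : ((p ^ (∑ j, m j * d j) : ℕ) : ℚ) = (p : ℚ) ^ (degI d (fun j => (m j : ℤ))) := by
      push_cast
      rw [← zpow_natCast]
      congr 1
      unfold degI
      push_cast
      rfl
    constructor
    · intro h
      apply pow_int_inj p
      rw [zpow_add₀ hp0, ← e1, ← e2]
      rw [zpow_natCast]
      exact_mod_cast h
    · intro h
      have : ((Nat.card (D ⧸ I) : ℚ)) * ((p ^ (∑ j, m j * d j) : ℕ) : ℚ) = ((p ^ n : ℕ) : ℚ) := by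
        rw [e1, e2, ← zpow_add₀ hp0, h]
        push_cast
        rw [zpow_natCast]
      exact_mod_cast this
  let g : Tg p D d n → {a : Dv D K ι // a ∈ eff D K ι ∧ dg p d a = (n : ℤ)} := fun a =>
    ⟨(Additive.ofMul (Units.mk0 _ (hu a))⁻¹, fun j => (a.1.2 j : ℤ)), by
      constructor
      · constructor
        · show (1 : FractionalIdeal D⁰ K) ≤ (((Units.mk0 _ (hu a))⁻¹ : (FractionalIdeal D⁰ K)ˣ) :
            FractionalIdeal D⁰ K)
          have h1 : ((a.1.1 : Ideal D) : FractionalIdeal D⁰ K) ≤ 1 := FractionalIdeal.coeIdeal_le_one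
          have h2 := mul_le_mul_left h1 (((Units.mk0 _ (hu a))⁻¹ : (FractionalIdeal D⁰ K)ˣ) :
            FractionalIdeal D⁰ K)
          have h3 : ((a.1.1 : Ideal D) : FractionalIdeal D⁰ K) *
              (((Units.mk0 _ (hu a))⁻¹ : (FractionalIdeal D⁰ K)ˣ) : FractionalIdeal D⁰ K) = 1 :=
            (Units.mk0 _ (hu a)).mul_inv
          rwa [h3, one_mul] at h2
        · intro j
          exact Int.natCast_nonneg _
      · have h1 := (key a.1.1 (Units.mk0 _ (hu a))⁻¹ a.1.2 (by rw [inv_inv]; rfl)).1 a.2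
        exact h1⟩
  refine ⟨Equiv.ofBijective g ?_⟩
  constructor
  · intro a b h
    have h1 : (Units.mk0 _ (hu a))⁻¹ = (Units.mk0 _ (hu b))⁻¹ :=
      congrArg (fun c : {a : Dv D K ι // a ∈ eff D K ι ∧ dg p d a = (n : ℤ)} => c.1.1.toMul) h
    have h2 : (fun j => (a.1.2 j : ℤ)) = (fun j => (b.1.2 j : ℤ)) :=
      congrArg (fun c : {a : Dv D K ι // a ∈ eff D K ι ∧ dg p d a = (n : ℤ)} => c.1.2) h
    have h3 := congrArg Units.val (inv_injective h1)
    have h4 : a.1.1 = b.1.1 := FractionalIdeal.coeIdeal_injective h3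
    apply Subtype.ext
    apply Prod.ext h4
    ext j
    exact_mod_cast congrFun h2 j
  · rintro ⟨a, ⟨ha1, ha2⟩, ha3⟩
    obtain ⟨I, hI⟩ := exists_ideal p (fi a) ha1
    have hm : ∀ j, ((a.2 j).toNat : ℤ) = a.2 j := fun j => Int.toNat_of_nonneg (ha2 j)
    have hm' : (fun j => (((a.2 j).toNat : ℕ) : ℤ)) = a.2 := funext hm
    have hp : Nat.card (D ⧸ I) * p ^ (∑ j, (a.2 j).toNat * d j) = p ^ n := by
      rw [key I (fi a) (fun j => (a.2 j).toNat) hI, hm']
      exact ha3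
    refine ⟨⟨(I, fun j => (a.2 j).toNat), hp⟩, ?_⟩
    apply Subtype.ext
    apply Prod.ext
    · show Additive.ofMul (Units.mk0 _ (hu ⟨(I, fun j => (a.2 j).toNat), hp⟩))⁻¹ = a.1
      have : (Units.mk0 _ (hu ⟨(I, fun j => (a.2 j).toNat), hp⟩))⁻¹ = fi a := by
        rw [inv_eq_iff_eq_inv]
        ext1
        exact hI
      rw [this]
      rfl
    · exact hm'

theorem card_eff [Infinite D] [CharP K p] [Ring.HasFiniteQuotients D] (n : ℕ) :
    Nat.card {a : Dv D K ι // a ∈ eff D K ι ∧ dg p d a = (n : ℤ)} = Nat.card (Tg p D d n) := by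
  obtain ⟨e⟩ := equiv_eff (D := D) (K := K) (ι := ι) (d := d) p n
  exact (Nat.card_congr e).symm

theorem finite_Tg [Ring.HasFiniteQuotients D] (hd : ∀ j, 0 < d j) (n : ℕ) :
    Finite (Tg p D d n) := by
  have hp1 : 1 < p := (Fact.out : p.Prime).one_lt
  have h1 : {I : Ideal D | I.cardQuot ≤ p ^ n}.Finite :=
    Ring.HasFiniteQuotients.finite_cardQuot_le (p ^ n)
  have h2 : {m : ι → ℕ | ∀ j, m j ≤ n}.Finite := by
    have : {m : ι → ℕ | ∀ j, m j ≤ n} = Set.Iic (fun _ => n) := rfl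
    rw [this]
    exact Set.finite_Iic _
  refine Set.Finite.subset (h1.prod h2) ?_
  rintro ⟨I, m⟩ h
  have h : Nat.card (D ⧸ I) * p ^ (∑ j, m j * d j) = p ^ n := h
  have hpp : 0 < p ^ (∑ j, m j * d j) := by positivity
  have hc : 0 < Nat.card (D ⧸ I) := by
    rcases Nat.eq_zero_or_pos (Nat.card (D ⧸ I)) with h0 | h0
    · rw [h0, zero_mul] at h
      exact absurd h.symm (pow_ne_zero n (by omega))
    · exact h0
  constructor
  · show Submodule.cardQuot I ≤ p ^ n
    rw [Submodule.cardQuot_apply, ← h]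
    exact Nat.le_mul_of_pos_right _ hpp
  · intro j
    have h3 : p ^ (∑ j, m j * d j) ≤ p ^ n := by
      rw [← h]
      exact Nat.le_mul_of_pos_left _ hc
    have h4 : ∑ j, m j * d j ≤ n := (Nat.pow_le_pow_iff_right hp1).1 h3
    have h5 : m j * d j ≤ ∑ j, m j * d j :=
      Finset.single_le_sum (f := fun j => m j * d j) (fun _ _ => Nat.zero_le _) (Finset.mem_univ j)
    have h6 : m j ≤ m j * d j := Nat.le_mul_of_pos_right _ (hd j)
    exact h6.trans (h5.trans h4)

theorem degF_nonneg [CharP K p] [Ring.HasFiniteQuotients D] (M : (FractionalIdeal D⁰ K)ˣ)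
    (hM : 1 ≤ (M : FractionalIdeal D⁰ K)) : 0 ≤ degF p M := by
  obtain ⟨I, hI⟩ := exists_ideal p M hM
  have h1 := pow_degF_ideal p M I hI
  by_contra h
  push Not at h
  have hp1 : (1 : ℚ) < p := by exact_mod_cast (Fact.out : p.Prime).one_lt
  have h2 : (p : ℚ) ^ degF p M < 1 := zpow_lt_one_of_neg₀ hp1 h
  have h3 : (0 : ℚ) < (p : ℚ) ^ degF p M := zpow_pos (by linarith) _
  rw [← h1] at h2 h3
  have h4 : Nat.card (D ⧸ I) < 1 := by exact_mod_cast h2
  have h5 : 0 < Nat.card (D ⧸ I) := by exact_mod_cast h3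
  omega

end final

end Riem

theorem pairs_periodic (p : ℕ) [Fact p.Prime] (D K : Type) [CommRing D] [IsDedekindDomain D]
    [Algebra (ZMod p) D] [Algebra.FiniteType (ZMod p) D] (hD : ¬ IsField D)
    [Field K] [Algebra D K] [IsFractionRing D K] {ι : Type} [Fintype ι] [DecidableEq ι]
    (v : ι → Valuation K ℤᵐ⁰) (d : ι → ℕ) (hP : Places p D K v d) (j₀ : ι) :
    ∃ N : ℕ, ∀ n ≥ N,
      ((Nat.card {a : Ideal D × (ι → ℕ) // Nat.card (D ⧸ a.1) * p ^ (∑ j, a.2 j * d j) =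
        p ^ (n + d j₀)} : ℕ) : ZMod p) =
      ((Nat.card {a : Ideal D × (ι → ℕ) // Nat.card (D ⧸ a.1) * p ^ (∑ j, a.2 j * d j) =
        p ^ n} : ℕ) : ZMod p) := by
  have hQ : Ring.HasFiniteQuotients D := Riem.hasFiniteQuotients p D
  have hinf : Infinite D := by
    rcases finite_or_infinite D with h | h
    · exact absurd (Finite.isField_of_domain D) hD
    · exact h
  have hchar : CharP K p :=
    charP_of_injective_ringHom (f := (algebraMap D K).comp (algebraMap (ZMod p) D))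
      (RingHom.injective _) p
  obtain ⟨n₀, hR⟩ := Riem.exists_mem p hP
  have hfin : ∀ a : Riem.Dv D K ι, Finite (Riem.Ls v a) := fun a =>
    Riem.fin_all hP (Riem.fi a) a.2
  have hf0 : Finite (Riem.Ls v (0 : Riem.Dv D K ι)) := hfin 0
  have hcount : ∀ n : ℤ, Finite {a : Riem.Dv D K ι // a ∈ Riem.eff D K ι ∧ Riem.dg p d a = n} := by
    intro n
    rcases lt_or_ge n 0 with hn | hn
    · have : IsEmpty {a : Riem.Dv D K ι // a ∈ Riem.eff D K ι ∧ Riem.dg p d a = n} := by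
        constructor
        rintro ⟨a, ⟨h1, h2⟩, h3⟩
        have h4 : 0 ≤ Riem.degF p (Riem.fi a) := Riem.degF_nonneg p _ h1
        have h5 : 0 ≤ Riem.degI d a.2 := Finset.sum_nonneg fun j _ =>
          mul_nonneg (h2 j) (Int.natCast_nonneg _)
        have h6 : Riem.degF p (Riem.fi a) + Riem.degI d a.2 = n := h3
        omega
      infer_instance
    · obtain ⟨m, rfl⟩ := Int.eq_ofNat_of_zero_le hn
      obtain ⟨e⟩ := Riem.equiv_eff (D := D) (K := K) (ι := ι) (d := d) p m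
      have hT : Finite (Riem.Tg p D d m) := Riem.finite_Tg p hP.pos m
      exact Finite.of_equiv _ e
  set P : Riem.Dv D K ι := (0, Pi.single j₀ 1) with hPdef
  have hdP : Riem.dg p d P = (d j₀ : ℤ) := by
    have h1 : Riem.dg p d P = Riem.degF p (1 : (FractionalIdeal D⁰ K)ˣ) +
      Riem.degI d (Pi.single j₀ 1) := rfl
    rw [h1, Riem.degF_one, zero_add]
    unfold Riem.degI
    rw [Finset.sum_eq_single j₀]
    · simp
    · intro b _ hb
      rw [Pi.single_eq_of_ne hb, zero_mul]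
    · intro h
      exact absurd (Finset.mem_univ _) h
  have hPe : ∀ a ∈ Riem.eff D K ι, a + P ∈ Riem.eff D K ι := by
    rintro a ⟨h1, h2⟩
    constructor
    · have : Riem.fi (a + P) = Riem.fi a := by
        show Riem.fi a * 1 = Riem.fi a
        rw [mul_one]
      rw [this]
      exact h1
    · have h3 : (0 : ι → ℤ) ≤ Pi.single j₀ (1 : ℤ) := by
        rw [Pi.single_nonneg]
        positivity
      exact add_nonneg h2 h3
  have main := count_periodic p K (Riem.Dv D K ι) (Riem.Ls v) (Riem.dv v) (Riem.dg p d)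
    (Riem.eff D K ι) (Riem.hmem v) (Riem.hker v) hfin (Riem.hdeg p hP) hcount n₀ hR P hPe
  refine ⟨n₀.toNat, fun n hn => ?_⟩
  have h1 := main n (by omega)
  rw [hdP] at h1
  have e1 := Riem.card_eff (D := D) (K := K) (ι := ι) (d := d) p (n + d j₀)
  have e2 := Riem.card_eff (D := D) (K := K) (ι := ι) (d := d) p n
  push_cast at e1
  rw [e1, e2] at h1
  exact h1

end Pool.Agent.PSL2Z
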