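import Pool.Agent.Lib.MP_305fdd_al.PSL.Defs

/-!
# MP_305fdd_al: elementary facts on the zeta function modulo `p` (piece P6)
-/

set_option autoImplicit false

namespace Pool.Agent.PSL2Z

open Polynomial

/-! ### finiteness of the number of ideals of given index -/

/-- in a finite ring with `q` elements `x ^ (q + q!) = x ^ q` -/
theorem pow_card_add_factorial {R : Type} [CommRing R] [Finite R] (x : R) :
    x ^ (Nat.card R + (Nat.card R).factorial) = x ^ (Nat.card R) := by
  classical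
  have := Fintype.ofFinite R
  set q := Nat.card R with hq
  obtain ⟨i, j, hij, hx⟩ := Fintype.exists_ne_map_eq_of_card_lt
    (fun i : Fin (q + 1) => x ^ (i : ℕ)) (by
      rw [Fintype.card_fin, ← Nat.card_eq_fintype_card]; omega)
  wlog hlt : (i : ℕ) < (j : ℕ) generalizing i j
  · exact this j i hij.symm hx.symm (lt_of_le_of_ne (not_lt.1 hlt) fun h => hij (Fin.ext h.symm))
  obtain ⟨k, hk⟩ := Nat.exists_eq_add_of_lt hlt
  have hiq : (i : ℕ) ≤ q := by have := i.2; omega
  have hkq : k + 1 ≤ q := by have := j.2; omega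
  have hx' : x ^ (i : ℕ) = x ^ ((i : ℕ) + (k + 1)) := by
    rw [← add_assoc, ← hk]; exact hx
  have h1 : x ^ q = x ^ (q + (k + 1)) := by
    have h2 : q = (i : ℕ) + (q - i) := by omega
    calc x ^ q = x ^ (i : ℕ) * x ^ (q - i) := by rw [← pow_add]; congr 1
      _ = x ^ ((i : ℕ) + (k + 1)) * x ^ (q - i) := by rw [← hx']
      _ = x ^ (q + (k + 1)) := by rw [← pow_add]; congr 1; omega
  have h3 : ∀ m : ℕ, x ^ (q + (k + 1) * m) = x ^ q := by
    intro m
    induction m with
    | zero => rw [mul_zero, add_zero]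
    | succ m ih =>
      have : q + (k + 1) * (m + 1) = (k + 1) * m + (q + (k + 1)) := by ring
      rw [this, pow_add, ← h1, ← pow_add, add_comm, ih]
  obtain ⟨m, hm⟩ := Nat.dvd_factorial (Nat.succ_pos k) hkq
  rw [hm]
  exact h3 m

theorem finite_ideals (p : ℕ) [Fact p.Prime] (D : Type) [CommRing D] [Algebra (ZMod p) D]
    [Algebra.FiniteType (ZMod p) D] (n : ℕ) :
    Finite {I : Ideal D // Nat.card (D ⧸ I) = p ^ n} := by
  set q := p ^ n with hq
  have hq0 : 0 < q := pow_pos (Fact.out : p.Prime).pos n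
  let J : Ideal D := Ideal.span (Set.range fun x : D => x ^ (q + q.factorial) - x ^ q)
  have hJ : ∀ I : {I : Ideal D // Nat.card (D ⧸ I) = q}, J ≤ I.1 := by
    rintro ⟨I, hI⟩
    rw [Ideal.span_le]
    rintro _ ⟨x, rfl⟩
    have : Finite (D ⧸ I) := Nat.finite_of_card_ne_zero (by rw [hI]; exact hq0.ne')
    have h1 := pow_card_add_factorial (Ideal.Quotient.mk I x)
    rw [hI] at h1
    show x ^ (q + q.factorial) - x ^ q ∈ I
    rw [← Ideal.Quotient.eq_zero_iff_mem, map_sub, map_pow, map_pow, h1, sub_self]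
  have hint : Algebra.IsIntegral (ZMod p) (D ⧸ J) := by
    constructor
    intro y
    obtain ⟨x, rfl⟩ := Ideal.Quotient.mk_surjective y
    refine ⟨X ^ (q + q.factorial) - X ^ q, ?_, ?_⟩
    · apply monic_X_pow_sub
      rw [degree_X_pow]
      exact_mod_cast Nat.lt_add_of_pos_right (Nat.factorial_pos q)
    · rw [eval₂_sub, eval₂_X_pow, eval₂_X_pow, ← map_pow, ← map_pow, ← map_sub,
        Ideal.Quotient.eq_zero_iff_mem]
      exact Ideal.subset_span ⟨x, rfl⟩
  have hft : Algebra.FiniteType (ZMod p) (D ⧸ J) := inferInstance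
  have hfin : Module.Finite (ZMod p) (D ⧸ J) := Algebra.IsIntegral.finite
  have hfin' : Finite (D ⧸ J) := Module.finite_of_finite (ZMod p)
  have hI : Finite (Ideal (D ⧸ J)) :=
    Finite.of_injective (fun I : Ideal (D ⧸ J) => (I : Set (D ⧸ J))) SetLike.coe_injective
  apply Finite.of_injective (fun I : {I : Ideal D // Nat.card (D ⧸ I) = q} =>
    I.1.map (Ideal.Quotient.mk J))
  intro I I' h
  have h1 : ∀ I : {I : Ideal D // Nat.card (D ⧸ I) = q},
      (I.1.map (Ideal.Quotient.mk J)).comap (Ideal.Quotient.mk J) = I.1 := by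
    intro I
    rw [Ideal.comap_map_of_surjective _ Ideal.Quotient.mk_surjective, ← RingHom.ker_eq_comap_bot,
      Ideal.mk_ker]
    exact sup_eq_left.2 (hJ I)
  apply Subtype.ext
  rw [← h1 I, ← h1 I']
  exact congrArg _ h

/-! ### products -/

theorem zet_congr (p : ℕ) {R S : Type} [CommRing R] [CommRing S] (e : R ≃+* S) :
    zet p R = zet p S := by
  ext n
  unfold zet
  rw [PowerSeries.coeff_mk, PowerSeries.coeff_mk]
  congr 1
  apply Nat.card_congr
  have h1 : ∀ I : Ideal S, Nat.card (R ⧸ I.comap (e : R →+* S)) = Nat.card (S ⧸ I) := by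
    intro I
    exact Nat.card_congr (Ideal.quotientEquiv (I.comap (e : R →+* S)) I e
      (Ideal.map_comap_of_surjective _ e.surjective I).symm).toEquiv
  have h2 : ∀ I : Ideal R, Nat.card (S ⧸ I.comap (e.symm : S →+* R)) = Nat.card (R ⧸ I) := by
    intro I
    exact Nat.card_congr (Ideal.quotientEquiv (I.comap (e.symm : S →+* R)) I e.symm
      (Ideal.map_comap_of_surjective _ e.symm.surjective I).symm).toEquiv
  refine ⟨fun I => ⟨I.1.comap (e.symm : S →+* R), by rw [h2]; exact I.2⟩,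
    fun I => ⟨I.1.comap (e : R →+* S), by rw [h1]; exact I.2⟩, ?_, ?_⟩
  · intro I
    apply Subtype.ext
    ext x
    show e.symm (e x) ∈ I.1 ↔ _
    rw [e.symm_apply_apply]
  · intro I
    apply Subtype.ext
    ext x
    show e (e.symm x) ∈ I.1 ↔ _
    rw [e.apply_symm_apply]

/-- all sets of ideals of given `p`-power index are finite -/
def FinIdeals (p : ℕ) (R : Type) [CommRing R] : Prop :=
  ∀ n : ℕ, Finite {I : Ideal R // Nat.card (R ⧸ I) = p ^ n}

theorem card_quot_prod {R S : Type} [CommRing R] [CommRing S] (I : Ideal R) (J : Ideal S) :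
    Nat.card ((R × S) ⧸ Ideal.prod I J) = Nat.card (R ⧸ I) * Nat.card (S ⧸ J) := by
  let f : R × S →+* (R ⧸ I) × (S ⧸ J) :=
    RingHom.prodMap (Ideal.Quotient.mk I) (Ideal.Quotient.mk J)
  have hf : Function.Surjective f := by
    rintro ⟨a, b⟩
    obtain ⟨a, rfl⟩ := Ideal.Quotient.mk_surjective a
    obtain ⟨b, rfl⟩ := Ideal.Quotient.mk_surjective b
    exact ⟨(a, b), rfl⟩
  have hk : RingHom.ker f = Ideal.prod I J := by
    ext ⟨a, b⟩
    rw [RingHom.mem_ker, Ideal.mem_prod]
    show (Ideal.Quotient.mk I a, Ideal.Quotient.mk J b) = 0 ↔ _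
    rw [Prod.mk_eq_zero, Ideal.Quotient.eq_zero_iff_mem, Ideal.Quotient.eq_zero_iff_mem]
  rw [← Nat.card_prod, ← hk]
  exact Nat.card_congr (RingHom.quotientKerEquivOfSurjective hf).toEquiv

/-- ideals of index `p ^ n` of a product -/
noncomputable def prodEquiv (p : ℕ) [hp : Fact p.Prime] (R S : Type) [CommRing R] [CommRing S]
    (n : ℕ) :
    (Σ ab : {ab : ℕ × ℕ // ab ∈ Finset.HasAntidiagonal.antidiagonal n},
      {I : Ideal R // Nat.card (R ⧸ I) = p ^ ab.1.1} ×
      {J : Ideal S // Nat.card (S ⧸ J) = p ^ ab.1.2}) ≃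
    {K : Ideal (R × S) // Nat.card ((R × S) ⧸ K) = p ^ n} := by
  refine Equiv.ofBijective (fun q => ⟨Ideal.prod q.2.1.1 q.2.2.1, ?_⟩) ⟨?_, ?_⟩
  · rw [card_quot_prod, q.2.1.2, q.2.2.2, ← pow_add, Finset.HasAntidiagonal.mem_antidiagonal.1 q.1.2]
  · rintro ⟨⟨⟨a, b⟩, hab⟩, ⟨I, hI⟩, ⟨J, hJ⟩⟩ ⟨⟨⟨a', b'⟩, hab'⟩, ⟨I', hI'⟩, ⟨J', hJ'⟩⟩ h
    have h' : Ideal.prod I J = Ideal.prod I' J' := congrArg Subtype.val h
    rw [Ideal.prod_inj] at h'
    obtain ⟨rfl, rfl⟩ := h'
    dsimp only at hI hI' hJ hJ'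
    have ha : a = a' := Nat.pow_right_injective hp.out.two_le (hI.symm.trans hI')
    have hb : b = b' := Nat.pow_right_injective hp.out.two_le (hJ.symm.trans hJ')
    subst ha hb
    rfl
  · rintro ⟨K, hK⟩
    rw [Ideal.ideal_prod_eq K] at hK
    rw [card_quot_prod] at hK
    obtain ⟨a, _, ha⟩ := (Nat.dvd_prime_pow hp.out).1 (Dvd.intro _ hK)
    obtain ⟨b, _, hb⟩ := (Nat.dvd_prime_pow hp.out).1 (Dvd.intro_left _ hK)
    refine ⟨⟨⟨(a, b), ?_⟩, ⟨_, ha⟩, ⟨_, hb⟩⟩, ?_⟩
    · rw [Finset.HasAntidiagonal.mem_antidiagonal]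
      rw [ha, hb, ← pow_add] at hK
      exact Nat.pow_right_injective hp.out.two_le hK
    · exact Subtype.ext (Ideal.ideal_prod_eq K).symm

theorem finIdeals_prod (p : ℕ) [Fact p.Prime] {R S : Type} [CommRing R] [CommRing S]
    (hR : FinIdeals p R) (hS : FinIdeals p S) : FinIdeals p (R × S) := by
  intro n
  have := hR
  have := hS
  have h1 : ∀ ab : {ab : ℕ × ℕ // ab ∈ Finset.HasAntidiagonal.antidiagonal n},
      Finite ({I : Ideal R // Nat.card (R ⧸ I) = p ^ ab.1.1} ×
      {J : Ideal S // Nat.card (S ⧸ J) = p ^ ab.1.2}) := by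
    intro ab
    have := hR ab.1.1
    have := hS ab.1.2
    infer_instance
  exact Finite.of_equiv _ (prodEquiv p R S n)

theorem zet_mul (p : ℕ) [Fact p.Prime] {R S : Type} [CommRing R] [CommRing S]
    (hR : FinIdeals p R) (hS : FinIdeals p S) : zet p (R × S) = zet p R * zet p S := by
  ext n
  rw [PowerSeries.coeff_mul]
  unfold zet
  simp only [PowerSeries.coeff_mk]
  have h1 : ∀ ab : {ab : ℕ × ℕ // ab ∈ Finset.HasAntidiagonal.antidiagonal n},
      Finite ({I : Ideal R // Nat.card (R ⧸ I) = p ^ ab.1.1} ×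
      {J : Ideal S // Nat.card (S ⧸ J) = p ^ ab.1.2}) := by
    intro ab
    have := hR ab.1.1
    have := hS ab.1.2
    infer_instance
  rw [← Nat.card_congr (prodEquiv p R S n), Nat.card_sigma, Nat.cast_sum,
    ← Finset.sum_coe_sort (Finset.HasAntidiagonal.antidiagonal n)]
  apply Finset.sum_congr rfl
  intro ab _
  rw [Nat.card_prod, Nat.cast_mul]

/-- `∏ R i = R 0 × ∏ R (i+1)` -/
def piSucc {n : ℕ} (R : Fin (n + 1) → Type) [∀ i, CommRing (R i)] :
    (∀ i, R i) ≃+* R 0 × ∀ i : Fin n, R i.succ where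
  toFun f := (f 0, fun i => f i.succ)
  invFun q := Fin.cons q.1 q.2
  left_inv f := by
    funext i
    refine Fin.cases ?_ (fun i => ?_) i
    · rfl
    · rfl
  right_inv q := by
    apply Prod.ext
    · rfl
    · funext i
      rfl
  map_mul' f g := rfl
  map_add' f g := rfl

theorem finIdeals_congr (p : ℕ) {R S : Type} [CommRing R] [CommRing S] (e : R ≃+* S)
    (hR : FinIdeals p R) : FinIdeals p S := by
  intro n
  have := hR n
  have h1 : ∀ I : Ideal S, Nat.card (R ⧸ I.comap (e : R →+* S)) = Nat.card (S ⧸ I) := by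
    intro I
    exact Nat.card_congr (Ideal.quotientEquiv (I.comap (e : R →+* S)) I e
      (Ideal.map_comap_of_surjective _ e.surjective I).symm).toEquiv
  apply Finite.of_injective (fun I : {I : Ideal S // Nat.card (S ⧸ I) = p ^ n} =>
    (⟨I.1.comap (e : R →+* S), by rw [h1]; exact I.2⟩ :
      {I : Ideal R // Nat.card (R ⧸ I) = p ^ n}))
  intro I J h
  apply Subtype.ext
  have h' : I.1.comap (e : R →+* S) = J.1.comap (e : R →+* S) := congrArg Subtype.val h
  exact Ideal.comap_injective_of_surjective _ e.surjective h'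

theorem zet_pi (p : ℕ) [Fact p.Prime] {n : ℕ} (R : Fin n → Type) [∀ i, CommRing (R i)]
    (hR : ∀ i, FinIdeals p (R i)) :
    FinIdeals p (∀ i, R i) ∧ zet p (∀ i, R i) = ∏ i, zet p (R i) := by
  induction n with
  | zero =>
    have hsub : Subsingleton (∀ i, R i) := ⟨fun f g => funext fun i => i.elim0⟩
    have hId : ∀ I : Ideal (∀ i, R i), I = ⊤ := by
      intro I
      rw [Ideal.eq_top_iff_one, Subsingleton.elim (1 : ∀ i, R i) 0]
      exact I.zero_mem
    have hcard : ∀ I : Ideal (∀ i, R i), Nat.card ((∀ i, R i) ⧸ I) = 1 := by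
      intro I
      have : Subsingleton ((∀ i, R i) ⧸ I) := Ideal.Quotient.subsingleton_iff.2 (hId I)
      exact Nat.card_of_subsingleton (0 : (∀ i, R i) ⧸ I)
    have hS : Subsingleton (Ideal (∀ i, R i)) := ⟨fun I J => (hId I).trans (hId J).symm⟩
    refine ⟨fun k => inferInstance, ?_⟩
    rw [Finset.univ_eq_empty, Finset.prod_empty]
    ext k
    rw [zet, PowerSeries.coeff_mk, PowerSeries.coeff_one]
    split_ifs with hk
    · subst hk
      rw [Nat.card_of_subsingleton (⟨⊤, by rw [hcard, pow_zero]⟩ :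
        {I : Ideal (∀ i, R i) // Nat.card ((∀ i, R i) ⧸ I) = p ^ 0}), Nat.cast_one]
    · have : IsEmpty {I : Ideal (∀ i, R i) // Nat.card ((∀ i, R i) ⧸ I) = p ^ k} := by
        constructor
        rintro ⟨I, hI⟩
        rw [hcard] at hI
        have h2 := Nat.one_lt_pow hk (Fact.out : p.Prime).one_lt
        omega
      rw [Nat.card_of_isEmpty, Nat.cast_zero]
  | succ n ih =>
    obtain ⟨h1, h2⟩ := ih (fun i => R i.succ) fun i => hR i.succ
    have h3 := finIdeals_prod p (hR 0) h1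
    refine ⟨finIdeals_congr p (piSucc R).symm h3, ?_⟩
    rw [zet_congr p (piSucc R), zet_mul p (hR 0) h1, h2, Fin.prod_univ_succ]

theorem zet_prod (p : ℕ) [Fact p.Prime] (B : Type) [CommRing B] [Algebra (ZMod p) B]
    [Algebra.FiniteType (ZMod p) B] {n : ℕ} (P : Fin n → Ideal B) (hP : ⨅ i, P i = ⊥)
    (hc : Pairwise fun i j => IsCoprime (P i) (P j)) :
    zet p B = ∏ i, zet p (B ⧸ P i) := by
  have e1 : (B ⧸ ⨅ i, P i) ≃+* ∀ i, B ⧸ P i := Ideal.quotientInfRingEquivPiQuotient P hc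
  have e2 : B ≃+* B ⧸ ⨅ i, P i := by
    rw [hP]
    exact (RingEquiv.quotientBot B).symm
  rw [zet_congr p (e2.trans e1)]
  exact (zet_pi p (fun i => B ⧸ P i) fun i => finite_ideals p (B ⧸ P i)).2

/-! ### the polynomial ring -/

theorem card_quot_span {f : F[X]} (hf : f.Monic) :
    Nat.card (F[X] ⧸ Ideal.span {f}) = 13 ^ f.natDegree := by
  have pb := AdjoinRoot.powerBasis' hf
  have h1 : Module.finrank F (AdjoinRoot f) = f.natDegree := by
    rw [(AdjoinRoot.powerBasis' hf).finrank, AdjoinRoot.powerBasis'_dim]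
  have : Module.Finite F (AdjoinRoot f) := (AdjoinRoot.powerBasis' hf).finite
  have h2 := Module.natCard_eq_pow_finrank (K := F) (V := AdjoinRoot f)
  rw [h1, Nat.card_zmod] at h2
  exact h2

/-- monic polynomials of degree `n` -/
noncomputable def monicEquiv (n : ℕ) :
    {f : F[X] // f.Monic ∧ f.natDegree = n} ≃ degreeLT F n := by
  refine ⟨fun f => ⟨f.1 - X ^ n, ?_⟩, fun g => ⟨g.1 + X ^ n, ?_⟩, ?_, ?_⟩
  · rw [mem_degreeLT]
    have h1 : f.1.degree = (n : WithBot ℕ) := by
      rw [degree_eq_natDegree f.2.1.ne_zero, f.2.2]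
    rw [← h1]
    apply degree_sub_lt_left
    · rw [h1, degree_X_pow]
    · exact f.2.1.ne_zero
    · rw [f.2.1.leadingCoeff, (monic_X_pow n).leadingCoeff]
  · have hg : g.1.degree < (n : WithBot ℕ) := mem_degreeLT.1 g.2
    have h1 : (g.1 + X ^ n).Monic := by
      rw [add_comm]
      exact (monic_X_pow n).add_of_left (by rw [degree_X_pow]; exact hg)
    refine ⟨h1, ?_⟩
    rw [add_comm, natDegree_add_eq_left_of_degree_lt (by rw [degree_X_pow]; exact hg),
      natDegree_X_pow]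
  · intro f
    apply Subtype.ext
    simp
  · intro g
    apply Subtype.ext
    simp

theorem card_monic (n : ℕ) : Nat.card {f : F[X] // f.Monic ∧ f.natDegree = n} = 13 ^ n := by
  rw [Nat.card_congr (monicEquiv n), Nat.card_congr (degreeLTEquiv F n).toEquiv, Nat.card_fun,
    Nat.card_zmod, Nat.card_fin]

theorem zet_TR {B : Type} [CommRing B] [Algebra F B]
    {ev : ∀ J : {J : Ideal F[X] // J ≠ ⊥}, B →ₐ[F] F[X] ⧸ J.1} (hB : IsTR B ev) :
    zet 13 B = 1 := by
  have hcard : ∀ J, Nat.card (B ⧸ RingHom.ker (ev J)) = Nat.card (F[X] ⧸ J.1) := fun J =>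
    Nat.card_congr (RingHom.quotientKerEquivOfSurjective (f := (ev J : B →+* F[X] ⧸ J.1))
      (hB.surj J)).toEquiv
  have e : ∀ n : ℕ, {f : F[X] // f.Monic ∧ f.natDegree = n} ≃
      {I : Ideal B // Nat.card (B ⧸ I) = 13 ^ n} := by
    intro n
    have hne : ∀ f : {f : F[X] // f.Monic ∧ f.natDegree = n}, Ideal.span {f.1} ≠ ⊥ := by
      intro f
      rw [Ne, Ideal.span_singleton_eq_bot]
      exact f.2.1.ne_zero
    refine Equiv.ofBijective
      (fun f => ⟨RingHom.ker (ev ⟨Ideal.span {f.1}, hne f⟩), ?_⟩) ⟨?_, ?_⟩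
    · rw [hcard, card_quot_span f.2.1, f.2.2]
    · intro f g h
      have h' : RingHom.ker (ev ⟨Ideal.span {f.1}, hne f⟩) =
        RingHom.ker (ev ⟨Ideal.span {g.1}, hne g⟩) := congrArg Subtype.val h
      have h1 := congrArg Subtype.val (hB.inj _ _ h')
      have h2 : Associated f.1 g.1 := Ideal.span_singleton_eq_span_singleton.1 h1
      exact Subtype.ext (eq_of_monic_of_associated f.2.1 g.2.1 h2)
    · rintro ⟨I, hI⟩
      have hfin : Finite (B ⧸ I) := Nat.finite_of_card_ne_zero (by rw [hI]; positivity)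
      obtain ⟨⟨J, hJ0⟩, rfl⟩ := hB.fin I hfin
      obtain ⟨g, hg⟩ := (IsPrincipalIdealRing.principal J).principal
      have hg0 : g ≠ 0 := by
        rintro rfl
        apply hJ0
        rw [hg]
        simp
      have hJ : J = Ideal.span {normalize g} := by
        rw [hg]
        exact Ideal.span_singleton_eq_span_singleton.2 (associated_normalize g)
      have hmon : (normalize g).Monic := monic_normalize hg0
      have hdeg : (normalize g).natDegree = n := by
        have h1 := card_quot_span hmon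
        rw [← hJ, ← hcard ⟨J, hJ0⟩, hI] at h1
        exact (Nat.pow_right_injective (by norm_num : 2 ≤ 13) h1).symm
      refine ⟨⟨normalize g, hmon, hdeg⟩, ?_⟩
      apply Subtype.ext
      have h2 : (⟨Ideal.span {normalize g}, hne ⟨normalize g, hmon, hdeg⟩⟩ :
          {J : Ideal F[X] // J ≠ ⊥}) = ⟨J, hJ0⟩ := Subtype.ext hJ.symm
      show RingHom.ker (ev ⟨Ideal.span {normalize g}, _⟩) = RingHom.ker (ev ⟨J, hJ0⟩)
      rw [h2]
  ext n
  rw [zet, PowerSeries.coeff_mk, ← Nat.card_congr (e n), card_monic, PowerSeries.coeff_one]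
  split_ifs with hn
  · subst hn
    simp
  · rw [Nat.cast_pow]
    have : ((13 : ℕ) : ZMod 13) = 0 := by decide
    rw [this, zero_pow hn]

end Pool.Agent.PSL2Z
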