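import Pool.Agent.Lib.MP_305fdd_al.PSL.CurveGen
import Pool.Agent.Lib.MP_305fdd_al.PSL.Noether
import Pool.Agent.Lib.MP_305fdd_al.PSL.Infinity
import Pool.Agent.Lib.MP_305fdd_al.PSL.Zeta
import Pool.Agent.Lib.MP_305fdd_al.PSL.Riemann

/-!
# MP_305fdd_al, piece P11: the zeta function modulo `p` of a Dedekind domain of curve type
-/

set_option autoImplicit false

namespace Pool.Agent.PSL2Z

open Polynomial
open scoped WithZero nonZeroDivisors

theorem curve (p : ℕ) [Fact p.Prime] (D K : Type) [CommRing D] [IsDedekindDomain D]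
    [Algebra (ZMod p) D] [Algebra.FiniteType (ZMod p) D] (hD : ¬ IsField D)
    [Field K] [Algebra D K] [IsFractionRing D K] :
    ∃ P : (ZMod p)[X], zet p D = (P : PowerSeries (ZMod p)) ∧
      (P.natDegree = 0 → ∃ v : Valuation K ℤᵐ⁰, Function.Surjective v ∧
        {a : D | v (algebraMap D K a) ≤ 1}.Finite) := by
  obtain ⟨φ, ψ, h1, h2, h3, h4⟩ := exists_separable p D K hD
  obtain ⟨r, v, d, hP⟩ := exists_places p D K φ ψ h1 h2 h3 h4
  exact curve_of p D K (finite_ideals p D) r v d hP (pairs_periodic p D K hD v d hP 0)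

end Pool.Agent.PSL2Z
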