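import Mathlib

/-!
# MP_305fdd_al: `PSL(2,ℤ)` is profinitely rigid.  P14: a parent function gives a tree.
-/

set_option autoImplicit false

namespace Pool.Agent.PSL2Z

/-- A parent function `up` with a height function (`up` raises the height by one) such that all
edges are of the form `{v, up v}` and any two vertices have a common ancestor makes the graph a
tree. -/
theorem isTree_of_up {V : Type} (X : SimpleGraph V) (up : V → V) (ht : V → ℤ) [Nonempty V]
    (h1 : ∀ v, X.Adj v (up v)) (h2 : ∀ v z, X.Adj v z → z = up v ∨ v = up z)
    (h3 : ∀ v, ht (up v) = ht v + 1) (h4 : ∀ v z, ∃ m n : ℕ, up^[m] v = up^[n] z) :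
    X.IsTree := by
  classical
  have hreach : ∀ (m : ℕ) (v : V), X.Reachable v (up^[m] v) := by
    intro m
    induction m with
    | zero => intro v; exact SimpleGraph.Reachable.refl v
    | succ m ih =>
      intro v
      rw [Function.iterate_succ_apply]
      exact (h1 v).reachable.trans (ih (up v))
  have hconn : X.Connected := by
    refine SimpleGraph.Connected.mk (fun v z => ?_)
    obtain ⟨m, n, h⟩ := h4 v z
    exact (hreach m v).trans (h ▸ (hreach n z).symm)
  refine ⟨hconn, ?_⟩
  intro v c hc
  -- a vertex of minimal height on the cycle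
  obtain ⟨u, hu, hmin⟩ := Finset.exists_min_image c.support.toFinset ht
    ⟨v, List.mem_toFinset.2 c.start_mem_support⟩
  rw [List.mem_toFinset] at hu
  have hc' : (c.rotate u hu).IsCycle := hc.rotate hu
  set c' := c.rotate u hu with hc'def
  have hmin' : ∀ z ∈ c'.support, ht u ≤ ht z := by
    intro z hz
    apply hmin
    rw [List.mem_toFinset]
    rw [hc'def] at hz
    exact (SimpleGraph.Walk.mem_support_rotate_iff c u hu).1 hz
  have key : ∀ z, X.Adj u z → z ∈ c'.support → z = up u := by
    intro z hz hzs
    rcases h2 u z hz with h | h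
    · exact h
    · exfalso
      have h5 := h3 z
      rw [← h] at h5
      have h6 := hmin' z hzs
      omega
  apply hc'.snd_ne_penultimate
  rw [key _ (c'.adj_snd hc'.not_nil) (c'.getVert_mem_support 1),
    key _ (c'.adj_penultimate hc'.not_nil).symm (c'.getVert_mem_support _)]

end Pool.Agent.PSL2Z
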