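import Pool.Agent.Lib.MP_305fdd_al.PSL.Defs
import Pool.Agent.Lib.MP_305fdd_al.PSL.TreeAbs

/-!
# MP_305fdd_al: `PSL(2,ℤ)` is profinitely rigid.  P15: the Bruhat-Tits tree.

The vertices are the lattices of `L²` (as sets of vectors) of volume `0` or `1`, in the normal form
`{v | w (v 0 - y * v 1) ≤ exp a, w (v 1) ≤ exp b}`.
-/

set_option autoImplicit false

namespace Pool.Agent.PSL2Z

open scoped WithZero

namespace BT

variable {L : Type} [Field L] (w : Valuation L ℤᵐ⁰)

/-- the lattice spanned by `(x, 0)` and `(y z, z)`, where `w x = exp a` and `w z = exp b` -/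
def S (a b : ℤ) (y : L) : Set (Fin 2 → L) :=
  {v | w (v 0 - y * v 1) ≤ WithZero.exp a ∧ w (v 1) ≤ WithZero.exp b}

variable {w}

theorem mem_S {a b : ℤ} {y : L} {v : Fin 2 → L} :
    v ∈ S w a b y ↔ w (v 0 - y * v 1) ≤ WithZero.exp a ∧ w (v 1) ≤ WithZero.exp b := Iff.rfl

theorem S_subset_iff (hw : Function.Surjective w) {a b a' b' : ℤ} {y y' : L} :
    S w a b y ⊆ S w a' b' y' ↔
      a ≤ a' ∧ b ≤ b' ∧ w (y - y') ≤ WithZero.exp (a' - b) := by
  constructor
  · intro h
    obtain ⟨x, hx⟩ := hw (WithZero.exp a)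
    obtain ⟨z, hz⟩ := hw (WithZero.exp b)
    have h1 := (h (show ![x, 0] ∈ S w a b y by simp [mem_S, hx])).1
    have h2 := h (show ![y * z, z] ∈ S w a b y by simp [mem_S, hz])
    rw [mem_S] at h2
    simp only [Matrix.cons_val_zero, Matrix.cons_val_one, mul_zero, sub_zero, hx,
      WithZero.exp_le_exp] at h1
    simp only [Matrix.cons_val_zero, Matrix.cons_val_one, hz, WithZero.exp_le_exp] at h2
    refine ⟨h1, h2.2, ?_⟩
    have h3 := h2.1
    rw [← sub_mul, map_mul, hz] at h3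
    rw [WithZero.exp_sub, le_div_iff₀ WithZero.exp_pos]
    exact h3
  · rintro ⟨h1, h2, h3⟩ v ⟨h4, h5⟩
    refine ⟨?_, h5.trans (WithZero.exp_le_exp.2 h2)⟩
    have h6 : v 0 - y' * v 1 = (v 0 - y * v 1) + (y - y') * v 1 := by ring
    rw [h6]
    refine (Valuation.map_add w _ _).trans (max_le (h4.trans (WithZero.exp_le_exp.2 h1)) ?_)
    rw [map_mul]
    calc w (y - y') * w (v 1) ≤ WithZero.exp (a' - b) * WithZero.exp b :=
          mul_le_mul' h3 h5
      _ = WithZero.exp a' := by rw [← WithZero.exp_add]; congr 1; ring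

theorem S_eq_iff (hw : Function.Surjective w) {a b a' b' : ℤ} {y y' : L} :
    S w a b y = S w a' b' y' ↔
      a = a' ∧ b = b' ∧ w (y - y') ≤ WithZero.exp (a - b) := by
  rw [Set.Subset.antisymm_iff, S_subset_iff hw, S_subset_iff hw]
  constructor
  · rintro ⟨⟨h1, h2, h3⟩, ⟨h4, h5, h6⟩⟩
    have ha : a = a' := le_antisymm h1 h4
    have hb : b = b' := le_antisymm h2 h5
    subst ha; subst hb
    exact ⟨rfl, rfl, h3⟩
  · rintro ⟨rfl, rfl, h3⟩
    refine ⟨⟨le_rfl, le_rfl, h3⟩, ⟨le_rfl, le_rfl, ?_⟩⟩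
    rwa [Valuation.map_sub_swap]

/-- normal form of a lattice given by two linear forms, the first one dominating -/
theorem normal_form_aux (a b : ℤ) (α β γ δ : L)
    (hD : w (α * δ - β * γ) = 1) (hα : α ≠ 0) (h : w γ * WithZero.exp a ≤ w α * WithZero.exp b) :
    ∃ (a' b' : ℤ) (y : L), a' + b' = a + b ∧
      {v : Fin 2 → L | w (α * v 0 + β * v 1) ≤ WithZero.exp a ∧
        w (γ * v 0 + δ * v 1) ≤ WithZero.exp b} = S w a' b' y := by
  have hwα : w α ≠ 0 := (Valuation.ne_zero_iff w).2 hα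
  set n := WithZero.log (w α) with hn
  have hαn : w α = WithZero.exp n := (WithZero.exp_log hwα).symm
  refine ⟨a - n, b + n, -(β / α), by ring, ?_⟩
  ext v
  simp only [Set.mem_ofPred_eq, mem_S]
  have e1 : w (α * v 0 + β * v 1) ≤ WithZero.exp a ↔
      w (v 0 - -(β / α) * v 1) ≤ WithZero.exp (a - n) := by
    have : α * v 0 + β * v 1 = α * (v 0 - -(β / α) * v 1) := by field_simp; ring
    rw [this, map_mul, hαn, WithZero.exp_sub, le_div_iff₀ WithZero.exp_pos, mul_comm]
  rw [← e1]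
  refine and_congr_right fun h1 => ?_
  have h2 : w (γ / α * (α * v 0 + β * v 1)) ≤ WithZero.exp b := by
    rw [map_mul, map_div₀]
    have : w γ / w α ≤ WithZero.exp b / WithZero.exp a := by
      rw [div_le_div_iff₀ (by rw [hαn]; exact WithZero.exp_pos) WithZero.exp_pos]
      rwa [mul_comm (WithZero.exp b)]
    calc w γ / w α * w (α * v 0 + β * v 1) ≤
        WithZero.exp b / WithZero.exp a * WithZero.exp a := mul_le_mul' this h1
      _ = WithZero.exp b := div_mul_cancel₀ _ WithZero.exp_ne_zero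
  have h3 : γ * v 0 + δ * v 1 =
      γ / α * (α * v 0 + β * v 1) + (α * δ - β * γ) / α * v 1 := by
    field_simp; ring
  have h4 : w ((α * δ - β * γ) / α * v 1) ≤ WithZero.exp b ↔ w (v 1) ≤ WithZero.exp (b + n) := by
    rw [map_mul, map_div₀, hD, hαn, WithZero.exp_add, one_div, inv_mul_le_iff₀ WithZero.exp_pos,
      mul_comm]
  rw [← h4, h3]
  constructor
  · intro h5
    have := Valuation.map_sub_le w h5 h2
    simpa using this
  · intro h5
    exact Valuation.map_add_le _ h2 h5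

/-- normal form of a lattice given by two linear forms -/
theorem normal_form (a b : ℤ) (α β γ δ : L)
    (hD : w (α * δ - β * γ) = 1) :
    ∃ (a' b' : ℤ) (y : L), a' + b' = a + b ∧
      {v : Fin 2 → L | w (α * v 0 + β * v 1) ≤ WithZero.exp a ∧
        w (γ * v 0 + δ * v 1) ≤ WithZero.exp b} = S w a' b' y := by
  rcases le_total (w γ * WithZero.exp a) (w α * WithZero.exp b) with h | h
  · by_cases hα : α = 0
    · exfalso
      subst hα
      rw [map_zero, zero_mul, le_zero_iff, mul_eq_zero] at h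
      rcases h with h | h
      · rw [Valuation.zero_iff] at h
        subst h
        simp at hD
      · exact WithZero.exp_ne_zero h
    · exact normal_form_aux a b α β γ δ hD hα h
  · by_cases hγ : γ = 0
    · exfalso
      subst hγ
      rw [map_zero, zero_mul, le_zero_iff, mul_eq_zero] at h
      rcases h with h | h
      · rw [Valuation.zero_iff] at h
        subst h
        simp at hD
      · exact WithZero.exp_ne_zero h
    · obtain ⟨a', b', y, h1, h2⟩ := normal_form_aux b a γ δ α β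
        (by rw [← hD, ← Valuation.map_neg]; congr 1; ring) hγ h
      refine ⟨a', b', y, by rw [h1, add_comm], ?_⟩
      rw [← h2]
      ext v
      exact and_comm

/-- the lattice of height `h` at `y` -/
def Bl (w : Valuation L ℤᵐ⁰) (h : ℤ) (y : L) : Set (Fin 2 → L) := S w ((h + 1) / 2) (-(h / 2)) y

theorem S_eq_Bl (a b : ℤ) (y : L) (h : a + b = 0 ∨ a + b = 1) : S w a b y = Bl w (a - b) y := by
  unfold Bl
  congr 1 <;> omega

theorem Bl_eq_iff (hw : Function.Surjective w) {h h' : ℤ} {y y' : L} :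
    Bl w h y = Bl w h' y' ↔ h = h' ∧ w (y - y') ≤ WithZero.exp h := by
  unfold Bl
  rw [S_eq_iff hw]
  constructor
  · rintro ⟨h1, h2, h3⟩
    have e : (h + 1) / 2 - -(h / 2) = h := by omega
    rw [e] at h3
    exact ⟨by omega, h3⟩
  · rintro ⟨rfl, h3⟩
    have e : (h + 1) / 2 - -(h / 2) = h := by omega
    rw [e]
    exact ⟨rfl, rfl, h3⟩

/-- the vertices of the tree -/
def Vert (w : Valuation L ℤᵐ⁰) : Type := {M : Set (Fin 2 → L) // ∃ (h : ℤ) (y : L), M = Bl w h y}

/-- the height of a vertex -/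
noncomputable def ht (M : Vert w) : ℤ := M.2.choose

/-- the position of a vertex -/
noncomputable def pos (M : Vert w) : L := M.2.choose_spec.choose

theorem eq_Bl (M : Vert w) : M.1 = Bl w (ht M) (pos M) := M.2.choose_spec.choose_spec

/-- the vertex of height `h` at `y` -/
def mkV (w : Valuation L ℤᵐ⁰) (h : ℤ) (y : L) : Vert w := ⟨Bl w h y, h, y, rfl⟩

theorem eq_mkV (M : Vert w) : M = mkV w (ht M) (pos M) := Subtype.ext (eq_Bl M)

theorem mkV_eq_iff (hw : Function.Surjective w) {h h' : ℤ} {y y' : L} :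
    mkV w h y = mkV w h' y' ↔ h = h' ∧ w (y - y') ≤ WithZero.exp h := by
  rw [← Bl_eq_iff hw]
  exact Subtype.ext_iff

theorem ht_mkV (hw : Function.Surjective w) (h : ℤ) (y : L) : ht (mkV w h y) = h := by
  have := eq_mkV (mkV w h y)
  rw [mkV_eq_iff hw] at this
  exact this.1.symm

/-- the parent for the line of `(1, 0)` -/
noncomputable def up (M : Vert w) : Vert w := mkV w (ht M + 1) (pos M)

theorem up_mkV (hw : Function.Surjective w) (h : ℤ) (y : L) :
    up (mkV w h y) = mkV w (h + 1) y := by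
  unfold up
  rw [mkV_eq_iff hw, ht_mkV hw]
  refine ⟨rfl, ?_⟩
  have := eq_mkV (mkV w h y)
  rw [mkV_eq_iff hw, ht_mkV hw] at this
  rw [Valuation.map_sub_swap]
  exact this.2.trans (WithZero.exp_le_exp.2 (by omega))

theorem iterate_up_mkV (hw : Function.Surjective w) (n : ℕ) (h : ℤ) (y : L) :
    up^[n] (mkV w h y) = mkV w (h + n) y := by
  induction n generalizing h with
  | zero => simp
  | succ n ih =>
    rw [Function.iterate_succ_apply, up_mkV hw, ih]
    congr 1
    push_cast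
    ring

theorem ht_up (hw : Function.Surjective w) (M : Vert w) : ht (up M) = ht M + 1 := ht_mkV hw _ _

theorem common (hw : Function.Surjective w) (M N : Vert w) :
    ∃ m n : ℕ, up^[m] M = up^[n] N := by
  rw [eq_mkV M, eq_mkV N]
  -- a height `H` above everything
  obtain ⟨H, h1, h2, h3⟩ : ∃ H : ℤ, ht M ≤ H ∧ ht N ≤ H ∧ w (pos M - pos N) ≤ WithZero.exp H := by
    refine ⟨max (max (ht M) (ht N)) (WithZero.log (w (pos M - pos N))), ?_, ?_, ?_⟩
    · exact (le_max_left _ _).trans (le_max_left _ _)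
    · exact (le_max_right _ _).trans (le_max_left _ _)
    · exact WithZero.le_exp_of_log_le (le_max_right _ _)
  obtain ⟨m, hm⟩ := Int.eq_ofNat_of_zero_le (sub_nonneg.2 h1)
  obtain ⟨n, hn⟩ := Int.eq_ofNat_of_zero_le (sub_nonneg.2 h2)
  refine ⟨m, n, ?_⟩
  rw [iterate_up_mkV hw, iterate_up_mkV hw, mkV_eq_iff hw]
  have e1 : ht M + (m : ℤ) = H := by omega
  have e2 : ht N + (n : ℤ) = H := by omega
  rw [e1, e2]
  exact ⟨rfl, h3⟩

/-- the type of a vertex: parity of the height -/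
noncomputable def ty (M : Vert w) : Bool := decide (ht M % 2 = 1)

/-- the Bruhat-Tits tree -/
def tree (w : Valuation L ℤᵐ⁰) : SimpleGraph (Vert w) where
  Adj M N := (ht M % 2 = 0 ∧ ht N % 2 = 1 ∧ M.1 ⊆ N.1) ∨ (ht N % 2 = 0 ∧ ht M % 2 = 1 ∧ N.1 ⊆ M.1)
  symm := ⟨fun _ _ h => h.symm⟩
  loopless := ⟨fun M h => by rcases h with h | h <;> omega⟩

theorem adj_iff {M N : Vert w} : (tree w).Adj M N ↔
    (ht M % 2 = 0 ∧ ht N % 2 = 1 ∧ M.1 ⊆ N.1) ∨ (ht N % 2 = 0 ∧ ht M % 2 = 1 ∧ N.1 ⊆ M.1) := Iff.rfl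

theorem ty_adj {M N : Vert w} (h : (tree w).Adj M N) : ty M ≠ ty N := by
  rw [adj_iff] at h
  unfold ty
  rcases h with h | h <;> simp [h.1, h.2.1]

theorem mkV_subset_iff (hw : Function.Surjective w) {h h' : ℤ} {y y' : L} :
    (mkV w h y).1 ⊆ (mkV w h' y').1 ↔ (h + 1) / 2 ≤ (h' + 1) / 2 ∧ -(h / 2) ≤ -(h' / 2) ∧
      w (y - y') ≤ WithZero.exp ((h' + 1) / 2 - -(h / 2)) := S_subset_iff hw

theorem adj_up (hw : Function.Surjective w) (M : Vert w) : (tree w).Adj M (up M) := by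
  rw [adj_iff, ht_up hw]
  have e : ∀ N : Vert w, N.1 = (mkV w (ht N) (pos N)).1 := eq_Bl
  rcases Int.emod_two_eq_zero_or_one (ht M) with h | h
  · left
    refine ⟨h, by omega, ?_⟩
    rw [e M]
    unfold up
    rw [mkV_subset_iff hw]
    refine ⟨by omega, by omega, by simp⟩
  · right
    refine ⟨by omega, h, ?_⟩
    conv_rhs => rw [e M]
    unfold up
    rw [mkV_subset_iff hw]
    refine ⟨by omega, by omega, by simp⟩

theorem adj_cases (hw : Function.Surjective w) (M N : Vert w) (h : (tree w).Adj M N) :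
    N = up M ∨ M = up N := by
  -- symmetric: `M` of even height, `N` of odd height, `M ⊆ N`
  have key : ∀ M N : Vert w, ht M % 2 = 0 → ht N % 2 = 1 → M.1 ⊆ N.1 → N = up M ∨ M = up N := by
    intro M N h1 h2 h3
    rw [eq_mkV M, eq_mkV N] at h3
    rw [mkV_subset_iff hw] at h3
    obtain ⟨h4, h5, h6⟩ := h3
    rw [eq_mkV M, eq_mkV N, up_mkV hw, up_mkV hw, mkV_eq_iff hw, mkV_eq_iff hw]
    have h7 : ht N = ht M + 1 ∨ ht M = ht N + 1 := by omega
    rcases h7 with h7 | h7
    · left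
      refine ⟨h7, ?_⟩
      rw [Valuation.map_sub_swap]
      refine h6.trans (WithZero.exp_le_exp.2 (by omega))
    · right
      refine ⟨h7, ?_⟩
      refine h6.trans (WithZero.exp_le_exp.2 (by omega))
  rw [adj_iff] at h
  rcases h with ⟨h1, h2, h3⟩ | ⟨h1, h2, h3⟩
  · exact key M N h1 h2 h3
  · exact (key N M h1 h2 h3).symm

theorem isTree (hw : Function.Surjective w) : (tree w).IsTree := by
  have : Nonempty (Vert w) := ⟨mkV w 0 0⟩
  exact isTree_of_up (tree w) up ht (adj_up hw) (adj_cases hw) (ht_up hw) (common hw)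

/-- preimages of lattices under matrices of unit determinant -/
theorem preimage_Bl (g : Matrix (Fin 2) (Fin 2) L) (hg : w g.det = 1) (h : ℤ) (y : L) :
    ∃ (h' : ℤ) (y' : L), h' % 2 = h % 2 ∧ {v : Fin 2 → L | g.mulVec v ∈ Bl w h y} = Bl w h' y' := by
  obtain ⟨a', b', y', h1, h2⟩ := normal_form (w := w) ((h + 1) / 2) (-(h / 2))
    (g 0 0 - y * g 1 0) (g 0 1 - y * g 1 1) (g 1 0) (g 1 1)
    (by rw [← hg, Matrix.det_fin_two]; congr 1; ring)
  refine ⟨a' - b', y', by omega, ?_⟩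
  rw [← S_eq_Bl a' b' y' (by omega), ← h2]
  ext v
  simp only [Set.mem_ofPred_eq, Bl, mem_S, Matrix.mulVec, dotProduct, Fin.sum_univ_two]
  rw [show g 0 0 * v 0 + g 0 1 * v 1 - y * (g 1 0 * v 0 + g 1 1 * v 1) =
    (g 0 0 - y * g 1 0) * v 0 + (g 0 1 - y * g 1 1) * v 1 by ring]

theorem det_Gw (g : Gw w) : w g.val.val.det = 1 := g.2

noncomputable instance : MulAction (Gw w) (Vert w) where
  smul g M := ⟨{v : Fin 2 → L | (g⁻¹).val.val.mulVec v ∈ M.1}, by
    obtain ⟨h', y', _, h2⟩ := preimage_Bl (w := w) (g⁻¹).val.val (det_Gw _) (ht M) (pos M)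
    exact ⟨h', y', by rw [← h2, ← eq_Bl]⟩⟩
  one_smul M := Subtype.ext (by
    ext v
    change ((1 : Gw w)⁻¹).val.val.mulVec v ∈ M.1 ↔ v ∈ M.1
    simp)
  mul_smul g h M := Subtype.ext (by
    ext v
    change ((g * h)⁻¹).val.val.mulVec v ∈ M.1 ↔
      (h⁻¹).val.val.mulVec ((g⁻¹).val.val.mulVec v) ∈ M.1
    rw [Matrix.mulVec_mulVec, mul_inv_rev, Subgroup.coe_mul, Units.val_mul])

theorem mem_smul {g : Gw w} {M : Vert w} {v : Fin 2 → L} :
    v ∈ (g • M).1 ↔ (g⁻¹).val.val.mulVec v ∈ M.1 := Iff.rfl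

theorem inv_mulVec (g : Gw w) (v : Fin 2 → L) :
    (g⁻¹).val.val.mulVec (g.val.val.mulVec v) = v := by
  rw [Matrix.mulVec_mulVec, ← Units.val_mul, ← Subgroup.coe_mul, inv_mul_cancel]
  simp

theorem mulVec_mem {g : Gw w} {M : Vert w} {v : Fin 2 → L} :
    g.val.val.mulVec v ∈ (g • M).1 ↔ v ∈ M.1 := by
  rw [mem_smul, inv_mulVec]

theorem ht_smul (hw : Function.Surjective w) (g : Gw w) (M : Vert w) :
    ht (g • M) % 2 = ht M % 2 := by
  obtain ⟨h', y', h1, h2⟩ := preimage_Bl (w := w) (g⁻¹).val.val (det_Gw _) (ht M) (pos M)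
  have h3 : g • M = mkV w h' y' := by
    apply Subtype.ext
    change {v : Fin 2 → L | (g⁻¹).val.val.mulVec v ∈ M.1} = Bl w h' y'
    rw [← h2, ← eq_Bl]
  rw [h3, ht_mkV hw, h1]

theorem smul_subset {g : Gw w} {M N : Vert w} (h : M.1 ⊆ N.1) : (g • M).1 ⊆ (g • N).1 :=
  fun _ hv => h hv

theorem adj_smul (hw : Function.Surjective w) (g : Gw w) (M N : Vert w)
    (h : (tree w).Adj M N) : (tree w).Adj (g • M) (g • N) := by
  rw [adj_iff] at *
  rw [ht_smul hw, ht_smul hw]
  rcases h with ⟨h1, h2, h3⟩ | ⟨h1, h2, h3⟩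
  · exact Or.inl ⟨h1, h2, smul_subset h3⟩
  · exact Or.inr ⟨h1, h2, smul_subset h3⟩

theorem ty_smul (hw : Function.Surjective w) (g : Gw w) (M : Vert w) : ty (g • M) = ty M := by
  unfold ty
  rw [ht_smul hw]

theorem treeAct (hw : Function.Surjective w) : TreeAct (Gw w) (Vert w) (tree w) ty where
  tree := isTree hw
  adj := adj_smul hw
  ty_smul := ty_smul hw
  ty_adj := fun _ _ => ty_adj

/-- stabilisers of vertices are integral in an adapted basis -/
theorem stab_le (hw : Function.Surjective w) (g : Gw w) (M : Vert w) (h : g • M = M) :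
    w (g.val.val 0 0 - pos M * g.val.val 1 0) ≤ 1 ∧
    w (pos M * g.val.val 1 0 + g.val.val 1 1) ≤ 1 := by
  have hM := eq_Bl M
  set y := pos M
  set a := (ht M + 1) / 2 with ha
  set b := -(ht M / 2) with hb
  have hM' : M.1 = S w a b y := hM
  have key : ∀ v ∈ S w a b y, g.val.val.mulVec v ∈ S w a b y := by
    intro v hv
    rw [← hM'] at hv ⊢
    have h1 := (mulVec_mem (g := g)).2 hv
    rwa [h] at h1
  obtain ⟨x, hx⟩ := hw (WithZero.exp a)
  obtain ⟨z, hz⟩ := hw (WithZero.exp b)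
  have h1 := (key ![x, 0] (by simp [mem_S, hx])).1
  have h2 := (key ![y * z, z] (by simp [mem_S, hz])).2
  simp only [Matrix.mulVec, dotProduct, Fin.sum_univ_two, Matrix.cons_val_zero,
    Matrix.cons_val_one, mul_zero, add_zero] at h1 h2
  rw [show g.val.val 0 0 * x - y * (g.val.val 1 0 * x) = (g.val.val 0 0 - y * g.val.val 1 0) * x by
    ring, map_mul, hx] at h1
  rw [show g.val.val 1 0 * (y * z) + g.val.val 1 1 * z =
    (y * g.val.val 1 0 + g.val.val 1 1) * z by ring, map_mul, hz] at h2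
  constructor
  · by_contra hc
    rw [not_le] at hc
    exact absurd h1 (not_le.2 (lt_mul_of_one_lt_left WithZero.exp_pos hc))
  · by_contra hc
    rw [not_le] at hc
    exact absurd h2 (not_le.2 (lt_mul_of_one_lt_left WithZero.exp_pos hc))

/-- stabilisers of vertices have integral trace -/
theorem trace_le (hw : Function.Surjective w) (g : Gw w) (M : Vert w) (h : g • M = M) :
    w g.val.val.trace ≤ 1 := by
  obtain ⟨h1, h2⟩ := stab_le hw g M h
  rw [Matrix.trace_fin_two, show g.val.val 0 0 + g.val.val 1 1 =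
    (g.val.val 0 0 - pos M * g.val.val 1 0) + (pos M * g.val.val 1 0 + g.val.val 1 1) by ring]
  exact Valuation.map_add_le w h1 h2

/-- upper triangular elements in the stabiliser of a vertex fix the parent -/
theorem smul_up (hw : Function.Surjective w) (g : Gw w) (M : Vert w) (h : g • M = M)
    (h0 : g.val.val 1 0 = 0) : g • up M = up M := by
  have hdet := det_Gw g
  rw [Matrix.det_fin_two, h0, mul_zero, sub_zero, map_mul] at hdet
  obtain ⟨h1, h2⟩ := stab_le hw g M h
  rw [h0, mul_zero, sub_zero] at h1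
  rw [h0, mul_zero, zero_add] at h2
  obtain ⟨h3, h4⟩ : w (g.val.val 0 0) = 1 ∧ w (g.val.val 1 1) = 1 := by
    constructor
    · refine le_antisymm h1 ?_
      calc (1 : ℤᵐ⁰) = w (g.val.val 0 0) * w (g.val.val 1 1) := hdet.symm
        _ ≤ w (g.val.val 0 0) * 1 := mul_le_mul' le_rfl h2
        _ = _ := mul_one _
    · refine le_antisymm h2 ?_
      calc (1 : ℤᵐ⁰) = w (g.val.val 0 0) * w (g.val.val 1 1) := hdet.symm
        _ ≤ 1 * w (g.val.val 1 1) := mul_le_mul' h1 le_rfl
        _ = _ := one_mul _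
  have hs : g.val.val 1 1 ≠ 0 := by
    intro hc
    rw [hc, map_zero] at h4
    exact zero_ne_one h4
  -- the action on all vertices
  have key : ∀ (h' : ℤ) (y' : L), g • mkV w h' y' =
      mkV w h' ((g.val.val 0 0 * y' + g.val.val 0 1) / g.val.val 1 1) := by
    intro h' y'
    apply Subtype.ext
    ext v
    obtain ⟨u, rfl⟩ : ∃ u, v = g.val.val.mulVec u := by
      refine ⟨(g⁻¹).val.val.mulVec v, ?_⟩
      have := inv_mulVec g⁻¹ v
      rw [inv_inv] at this
      exact this.symm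
    rw [mulVec_mem]
    change u ∈ S w _ _ _ ↔ g.val.val.mulVec u ∈ S w _ _ _
    rw [mem_S, mem_S]
    simp only [Matrix.mulVec, dotProduct, Fin.sum_univ_two, h0, zero_mul, zero_add]
    rw [show g.val.val 0 0 * u 0 + g.val.val 0 1 * u 1 -
        (g.val.val 0 0 * y' + g.val.val 0 1) / g.val.val 1 1 * (g.val.val 1 1 * u 1) =
        g.val.val 0 0 * (u 0 - y' * u 1) by field_simp; ring, map_mul, map_mul, h3, h4, one_mul,
        one_mul]
  have h5 := h
  rw [eq_mkV M, key, mkV_eq_iff hw] at h5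
  unfold up
  rw [key, mkV_eq_iff hw]
  exact ⟨rfl, h5.2.trans (WithZero.exp_le_exp.2 (by omega))⟩

/-- an element of `SL₂` mapping `(1, 0)` to a given nonzero vector -/
theorem exists_mulVec (ξ : Fin 2 → L) (hξ : ξ ≠ 0) :
    ∃ g : Gw w, g.val.val.mulVec ![1, 0] = ξ := by
  have : ∃ m : Matrix (Fin 2) (Fin 2) L, m.det = 1 ∧ m.mulVec ![1, 0] = ξ := by
    by_cases h0 : ξ 0 = 0
    · have h1 : ξ 1 ≠ 0 := by
        intro h1
        apply hξ
        ext i
        fin_cases i
        · exact h0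
        · exact h1
      refine ⟨!![ξ 0, -(ξ 1)⁻¹; ξ 1, 0], ?_, ?_⟩
      · rw [Matrix.det_fin_two_of]
        field_simp
        ring
      · ext i
        fin_cases i <;> simp [Matrix.mulVec, dotProduct, Fin.sum_univ_two]
    · refine ⟨!![ξ 0, 0; ξ 1, (ξ 0)⁻¹], ?_, ?_⟩
      · rw [Matrix.det_fin_two_of]
        field_simp
        ring
      · ext i
        fin_cases i <;> simp [Matrix.mulVec, dotProduct, Fin.sum_univ_two]
  obtain ⟨m, h1, h2⟩ := this
  have hu : IsUnit m.det := by rw [h1]; exact isUnit_one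
  refine ⟨⟨Matrix.GeneralLinearGroup.mk'' m hu, ?_⟩, h2⟩
  change w m.det = 1
  rw [h1, map_one]

theorem smul_ext_inv (g : Gw w) (M : Vert w) : g • g⁻¹ • M = M := smul_inv_smul g M

/-- parents for every line -/
theorem exists_up (hw : Function.Surjective w) (ξ : Fin 2 → L) (hξ : ξ ≠ 0) :
    ∃ up : Vert w → Vert w, (∀ v, (tree w).Adj v (up v)) ∧
      (∀ v z, (tree w).Adj v z → z ≠ up v → up z = v) ∧
      (∀ (g : Gw w) (v : Vert w), g • v = v → (∃ c : L, g.val.val.mulVec ξ = c • ξ) →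
        g • up v = up v) := by
  obtain ⟨k, hk⟩ := exists_mulVec (w := w) ξ hξ
  refine ⟨fun M => k • up (k⁻¹ • M), ?_, ?_, ?_⟩
  · intro M
    have := adj_smul hw k _ _ (adj_up hw (k⁻¹ • M))
    rwa [smul_inv_smul] at this
  · intro M N h1 h2
    have h3 := adj_smul hw k⁻¹ _ _ h1
    rcases adj_cases hw _ _ h3 with h4 | h4
    · exfalso
      apply h2
      change N = k • up (k⁻¹ • M)
      rw [← h4, smul_inv_smul]
    · change k • up (k⁻¹ • N) = M
      rw [← h4, smul_inv_smul]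
  · rintro g M h1 ⟨c, hc⟩
    change g • k • up (k⁻¹ • M) = k • up (k⁻¹ • M)
    have h2 : (k⁻¹ * g * k) • up (k⁻¹ • M) = up (k⁻¹ • M) := by
      apply smul_up hw
      · rw [mul_smul, mul_smul, smul_inv_smul, h1]
      · have h3 : (k⁻¹ * g * k).val.val.mulVec ![1, 0] = c • ![1, 0] := by
          have h4 : (k⁻¹ * g * k).val.val = (k⁻¹).val.val * (g.val.val * k.val.val) := by
            rw [Subgroup.coe_mul, Subgroup.coe_mul, Units.val_mul, Units.val_mul, mul_assoc]
          rw [h4, ← Matrix.mulVec_mulVec, ← Matrix.mulVec_mulVec, hk, hc, Matrix.mulVec_smul, ← hk,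
            inv_mulVec]
        have h5 := congrFun h3 1
        simpa [Matrix.mulVec, dotProduct, Fin.sum_univ_two] using h5
    calc g • k • up (k⁻¹ • M) = k • (k⁻¹ * g * k) • up (k⁻¹ • M) := by
          rw [← mul_smul, ← mul_smul]
          congr 1
          group
      _ = _ := by rw [h2]

end BT

/-- the Bruhat-Tits tree -/
theorem exists_tree {L : Type} [Field L] (w : Valuation L ℤᵐ⁰) (hw : Function.Surjective w) :
    ∃ (V : Type) (_ : MulAction (Gw w) V) (X : SimpleGraph V) (ty : V → Bool),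
      Nonempty V ∧ TreeAct (Gw w) V X ty ∧
      (∀ (g : Gw w) (v : V), g • v = v → w g.val.val.trace ≤ 1) ∧
      ∀ ξ : Fin 2 → L, ξ ≠ 0 → ∃ up : V → V, (∀ v, X.Adj v (up v)) ∧
        (∀ v z, X.Adj v z → z ≠ up v → up z = v) ∧
        (∀ (g : Gw w) (v : V), g • v = v → (∃ c : L, g.val.val.mulVec ξ = c • ξ) →
          g • up v = up v) :=
  ⟨BT.Vert w, inferInstance, BT.tree w, BT.ty, ⟨BT.mkV w 0 0⟩, BT.treeAct hw, BT.trace_le hw,
    BT.exists_up hw⟩

end Pool.Agent.PSL2Z
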