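import Pool.Agent.Lib.MP_305fdd_al.PSL.Defs

/-!
# MP_305fdd_al, P1a: general facts on two-dimensional pseudo-characters with determinant `ε = ±1`
-/

set_option autoImplicit false

namespace Pool.Agent.PSL2Z

open Polynomial Pool.Agent.Lib.MP_305fdd_al

theorem PChar.map {G : Type} [Group G] {ε : G →* ℤˣ} {R S : Type} [CommRing R] [CommRing S]
    {T : G → R} (hT : PChar ε T) (f : R →+* S) : PChar ε (fun g => f (T g)) where
  one := by rw [hT.one, map_ofNat]
  comm g h := by rw [hT.comm]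
  rel g h := by
    have := congrArg f (hT.rel g h)
    rw [map_add, map_mul, map_intCast, map_mul] at this
    exact this

theorem PChar.comp {G H : Type} [Group G] [Group H] {ε : G →* ℤˣ} {R : Type} [CommRing R]
    {T : G → R} (hT : PChar ε T) (f : H →* G) : PChar (ε.comp f) (fun g => T (f g)) where
  one := by rw [map_one, hT.one]
  comm g h := by rw [map_mul, map_mul, hT.comm]
  rel g h := by
    have := hT.rel (f g) (f h)
    rw [map_mul, map_mul, map_inv, MonoidHom.comp_apply]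
    exact this

/-- Cayley-Hamilton for `2 × 2` matrices, polarised -/
theorem trace_adjugate {R : Type} [CommRing R] (A B : Matrix (Fin 2) (Fin 2) R) :
    (A * B).trace + (A * B.adjugate).trace = A.trace * B.trace := by
  rw [Matrix.adjugate_fin_two]
  simp only [Matrix.trace_fin_two, Matrix.mul_apply, Fin.sum_univ_two, Matrix.of_apply,
    Matrix.cons_val', Matrix.cons_val_zero, Matrix.cons_val_one, Matrix.cons_val_fin_one]
  ring

theorem PChar.of_rep {G : Type} [Group G] {R : Type} [CommRing R] (ρ : G →* GL (Fin 2) R)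
    (ε : G →* ℤˣ) (hdet : ∀ g, (ρ g).val.det = (((ε g : ℤˣ) : ℤ) : R)) :
    PChar ε (fun g => (ρ g).val.trace) where
  one := by
    rw [map_one, Units.val_one, Matrix.trace_one, Fintype.card_fin]; norm_num
  comm g h := by
    rw [map_mul, map_mul, Units.val_mul, Units.val_mul, Matrix.trace_mul_comm]
  rel g h := by
    have h1 : (ρ h).val.adjugate = (ρ h).val.det • (ρ h)⁻¹.val := by
      have h2 : (ρ h).val.adjugate * ((ρ h).val * (ρ h)⁻¹.val) =
          (ρ h).val.det • (ρ h)⁻¹.val := by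
        rw [← mul_assoc, Matrix.adjugate_mul, Matrix.smul_mul, one_mul]
      rw [← Units.val_mul, mul_inv_cancel, Units.val_one, mul_one] at h2
      exact h2
    have h3 := trace_adjugate (ρ g).val (ρ h).val
    rw [h1, Matrix.mul_smul, Matrix.trace_smul, smul_eq_mul, hdet] at h3
    rw [map_mul, map_mul, map_inv, Units.val_mul, Units.val_mul]
    exact h3

/-- `ε(g)² = 1` in `R` -/
theorem eps_sq {G : Type} [Group G] (ε : G →* ℤˣ) (R : Type) [CommRing R] (g : G) :
    (((ε g : ℤˣ) : ℤ) : R) * (((ε g : ℤˣ) : ℤ) : R) = 1 := by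
  rw [← Int.cast_mul, ← Units.val_mul, ← pow_two, Int.units_sq, Units.val_one, Int.cast_one]

theorem eps_inv {G : Type} [Group G] (ε : G →* ℤˣ) (g : G) : ε g⁻¹ = ε g := by
  rw [map_inv, Int.units_inv_eq_self]

/-- `T(ghk) + T(hgk) = T(g)T(hk) + T(h)T(gk) + (T(gh) - T(g)T(h))T(k)` -/
theorem PChar.triple {G : Type} [Group G] {ε : G →* ℤˣ} {R : Type} [CommRing R] {T : G → R}
    (hT : PChar ε T) (g h k : G) :
    T (g * h * k) + T (h * g * k) =
      T g * T (h * k) + T h * T (g * k) + (T (g * h) - T g * T h) * T k := by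
  have h1 := hT.rel (g * h) k
  have h2 := hT.rel g (h * k⁻¹)
  have h3 := hT.rel (g * k) h
  have h4 := hT.rel h k
  have e1 : g * (h * k⁻¹)⁻¹ = g * k * h⁻¹ := by group
  have e2 : g * (h * k⁻¹) = g * h * k⁻¹ := by group
  have e3 : T (g * k * h) = T (h * g * k) := by
    rw [hT.comm (g * k) h, mul_assoc]
  have e4 : (((ε (h * k⁻¹) : ℤˣ) : ℤ) : R) = (((ε h : ℤˣ) : ℤ) : R) * (((ε k : ℤˣ) : ℤ) : R) := by
    rw [map_mul, eps_inv, Units.val_mul, Int.cast_mul]
  rw [e1, e2, e4] at h2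
  rw [e3] at h3
  have hk := eps_sq ε R k
  linear_combination h1 - (((ε k : ℤˣ) : ℤ) : R) * h2 + h3 - T g * h4 +
    (((ε h : ℤˣ) : ℤ) : R) * T (g * k * h⁻¹) * hk

theorem PChar.inv {G : Type} [Group G] {ε : G →* ℤˣ} {R : Type} [CommRing R] {T : G → R}
    (hT : PChar ε T) (g : G) : T g⁻¹ = (((ε g : ℤˣ) : ℤ) : R) * T g := by
  have h1 := hT.rel 1 g
  rw [one_mul, one_mul, hT.one] at h1
  have h2 := eps_sq ε R g
  linear_combination (((ε g : ℤˣ) : ℤ) : R) * h1 - T g⁻¹ * h2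

/-- `T(ggk) = T(g)T(gk) - ε(g)T(k)` -/
theorem PChar.sqr {G : Type} [Group G] {ε : G →* ℤˣ} {R : Type} [CommRing R] {T : G → R}
    (hT : PChar ε T) (g k : G) :
    T (g * (g * k)) = T g * T (g * k) - (((ε g : ℤˣ) : ℤ) : R) * T k := by
  have h1 := hT.rel (g * k) g
  have e1 : T (g * k * g) = T (g * (g * k)) := hT.comm _ _
  have e2 : T (g * k * g⁻¹) = T k := by
    rw [hT.comm (g * k) g⁻¹, inv_mul_cancel_left]
  rw [e1, e2] at h1
  linear_combination h1

/-- `T(g⁻¹k) = ε(g)(T(g)T(k) - T(gk))` -/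
theorem PChar.inv_mul {G : Type} [Group G] {ε : G →* ℤˣ} {R : Type} [CommRing R] {T : G → R}
    (hT : PChar ε T) (g k : G) :
    T (g⁻¹ * k) = (((ε g : ℤˣ) : ℤ) : R) * (T g * T k - T (g * k)) := by
  have h1 := hT.rel k g
  rw [hT.comm k g, hT.comm k g⁻¹] at h1
  have h2 := eps_sq ε R g
  linear_combination (((ε g : ℤˣ) : ℤ) : R) * h1 - T (g⁻¹ * k) * h2

/-- `T(yxk)` in terms of `T(k), T(xk), T(yk), T(xyk)` -/
theorem PChar.swap {G : Type} [Group G] {ε : G →* ℤˣ} {R : Type} [CommRing R] {T : G → R}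
    (hT : PChar ε T) (x y k : G) :
    T (y * (x * k)) = - T (x * y * k) + T x * T (y * k) + T y * T (x * k) +
      (T (x * y) - T x * T y) * T k := by
  have := hT.triple x y k
  rw [mul_assoc y x k] at this
  linear_combination this

/-- `T(yxyk) = ε(y)T(xk) - ε(y)T(x)T(k) + T(xy)T(yk)` -/
theorem PChar.yxy {G : Type} [Group G] {ε : G →* ℤˣ} {R : Type} [CommRing R] {T : G → R}
    (hT : PChar ε T) (x y k : G) :
    T (y * (x * y * k)) = (((ε y : ℤˣ) : ℤ) : R) * T (x * k) -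
      (((ε y : ℤˣ) : ℤ) : R) * T x * T k + T (x * y) * T (y * k) := by
  have h1 := hT.swap x y (y * k)
  have h2 := hT.sqr y k
  have h3 := hT.sqr y (k * x)
  have e1 : T (y * (y * (k * x))) = T (x * y * (y * k)) := by
    rw [hT.comm (x * y) (y * k), hT.comm y (y * (k * x))]
    congr 1
    group
  have e2 : T (y * (k * x)) = T (x * (y * k)) := by
    rw [← mul_assoc, hT.comm (y * k) x]
  have e3 : T (k * x) = T (x * k) := hT.comm _ _
  rw [e1, e2, e3] at h3
  rw [mul_assoc x y k]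
  rw [h1, h3, h2]
  ring

/-- a pseudo-character of a group generated by `x, y` is determined by `T(x), T(y), T(xy)` -/
theorem PChar.unique {G : Type} [Group G] {x y : G}
    (hgen : Subgroup.closure ({x, y} : Set G) = ⊤) {ε : G →* ℤˣ} {R : Type} [CommRing R]
    {T₁ T₂ : G → R} (h₁ : PChar ε T₁) (h₂ : PChar ε T₂) (hx : T₁ x = T₂ x) (hy : T₁ y = T₂ y)
    (hxy : T₁ (x * y) = T₂ (x * y)) : T₁ = T₂ := by
  have key : ∀ g : G, g ∈ Subgroup.closure ({x, y} : Set G) → ∃ a b c d : R,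
      (∀ k, T₁ (g * k) = a * T₁ k + b * T₁ (x * k) + c * T₁ (y * k) + d * T₁ (x * y * k)) ∧
      (∀ k, T₂ (g * k) = a * T₂ k + b * T₂ (x * k) + c * T₂ (y * k) + d * T₂ (x * y * k)) := by
    -- multiplication by `x`
    have mulx : ∀ (T : G → R), PChar ε T → T x = T₁ x → ∀ (g : G) (a b c d : R),
        (∀ k, T (g * k) = a * T k + b * T (x * k) + c * T (y * k) + d * T (x * y * k)) →
        ∀ k, T (x * g * k) = (- b * (((ε x : ℤˣ) : ℤ) : R)) * T k + (a + b * T₁ x) * T (x * k) +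
          (- d * (((ε x : ℤˣ) : ℤ) : R)) * T (y * k) + (c + d * T₁ x) * T (x * y * k) := by
      intro T hT hTx g a b c d hk k
      have h0 : T (x * g * k) = T (g * (k * x)) := by
        rw [mul_assoc x g k, hT.comm x (g * k), mul_assoc]
      have h1 : T (k * x) = T (x * k) := hT.comm _ _
      have h2 : T (x * (k * x)) = T (x * (x * k)) := by
        rw [← mul_assoc, hT.comm (x * k) x]
      have h3 : T (y * (k * x)) = T (x * y * k) := by
        rw [← mul_assoc, hT.comm (y * k) x, mul_assoc]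
      have h4 : T (x * y * (k * x)) = T (x * (x * (y * k))) := by
        rw [← mul_assoc, hT.comm (x * y * k) x]
        congr 1
        simp only [mul_assoc]
      rw [h0, hk, h1, h2, h3, h4, hT.sqr, hT.sqr, hTx, ← mul_assoc x y k]
      ring
    -- multiplication by `y`
    have muly : ∀ (T : G → R), PChar ε T → T x = T₁ x → T y = T₁ y → T (x * y) = T₁ (x * y) →
        ∀ (g : G) (a b c d : R),
        (∀ k, T (g * k) = a * T k + b * T (x * k) + c * T (y * k) + d * T (x * y * k)) →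
        ∀ k, T (y * g * k) =
          (b * (T₁ (x * y) - T₁ x * T₁ y) - c * (((ε y : ℤˣ) : ℤ) : R) -
            d * ((((ε y : ℤˣ) : ℤ) : R) * T₁ x)) * T k +
          (b * T₁ y + d * (((ε y : ℤˣ) : ℤ) : R)) * T (x * k) +
          (a + b * T₁ x + c * T₁ y + d * T₁ (x * y)) * T (y * k) +
          (- b) * T (x * y * k) := by
      intro T hT hTx hTy hTxy g a b c d hk k
      have h0 : T (y * g * k) = T (g * (k * y)) := by
        rw [mul_assoc y g k, hT.comm y (g * k), mul_assoc]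
      have h1 : T (k * y) = T (y * k) := hT.comm _ _
      have h2 : T (x * (k * y)) = T (y * (x * k)) := by
        rw [← mul_assoc, hT.comm (x * k) y]
      have h3 : T (y * (k * y)) = T (y * (y * k)) := by
        rw [← mul_assoc, hT.comm (y * k) y]
      have h4 : T (x * y * (k * y)) = T (y * (x * y * k)) := by
        rw [← mul_assoc, hT.comm (x * y * k) y]
      rw [h0, hk, h1, h2, h3, h4, hT.sqr, hT.swap, hT.yxy, hTx, hTy, hTxy]
      ring
    intro g hg
    induction hg using Subgroup.closure_induction_left with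
    | one => exact ⟨1, 0, 0, 0, fun k => by simp, fun k => by simp⟩
    | mul_left s hs g _ ih =>
      obtain ⟨a, b, c, d, e₁, e₂⟩ := ih
      rcases hs with rfl | rfl
      · exact ⟨_, _, _, _, mulx T₁ h₁ rfl g a b c d e₁, mulx T₂ h₂ hx.symm g a b c d e₂⟩
      · exact ⟨_, _, _, _, muly T₁ h₁ rfl rfl rfl g a b c d e₁,
          muly T₂ h₂ hx.symm hy.symm hxy.symm g a b c d e₂⟩
    | inv_mul_cancel s hs g _ ih =>
      obtain ⟨a, b, c, d, e₁, e₂⟩ := ih
      rcases hs with rfl | rfl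
      · have f₁ := mulx T₁ h₁ rfl g a b c d e₁
        have f₂ := mulx T₂ h₂ hx.symm g a b c d e₂
        refine ⟨(((ε s : ℤˣ) : ℤ) : R) * (T₁ s * a - (- b * (((ε s : ℤˣ) : ℤ) : R))),
          (((ε s : ℤˣ) : ℤ) : R) * (T₁ s * b - (a + b * T₁ s)),
          (((ε s : ℤˣ) : ℤ) : R) * (T₁ s * c - (- d * (((ε s : ℤˣ) : ℤ) : R))),
          (((ε s : ℤˣ) : ℤ) : R) * (T₁ s * d - (c + d * T₁ s)), fun k => ?_, fun k => ?_⟩
        · rw [mul_assoc, h₁.inv_mul, ← mul_assoc, f₁ k, e₁ k]; ring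
        · rw [mul_assoc, h₂.inv_mul, ← mul_assoc, f₂ k, e₂ k, ← hx]; ring
      · have f₁ := muly T₁ h₁ rfl rfl rfl g a b c d e₁
        have f₂ := muly T₂ h₂ hx.symm hy.symm hxy.symm g a b c d e₂
        refine ⟨(((ε s : ℤˣ) : ℤ) : R) * (T₁ s * a - (b * (T₁ (x * s) - T₁ x * T₁ s) -
            c * (((ε s : ℤˣ) : ℤ) : R) - d * ((((ε s : ℤˣ) : ℤ) : R) * T₁ x))),
          (((ε s : ℤˣ) : ℤ) : R) * (T₁ s * b - (b * T₁ s + d * (((ε s : ℤˣ) : ℤ) : R))),
          (((ε s : ℤˣ) : ℤ) : R) * (T₁ s * c - (a + b * T₁ x + c * T₁ s + d * T₁ (x * s))),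
          (((ε s : ℤˣ) : ℤ) : R) * (T₁ s * d - (- b)), fun k => ?_, fun k => ?_⟩
        · rw [mul_assoc, h₁.inv_mul, ← mul_assoc, f₁ k, e₁ k]; ring
        · rw [mul_assoc, h₂.inv_mul, ← mul_assoc, f₂ k, e₂ k, ← hy]; ring
  funext g
  obtain ⟨a, b, c, d, e₁, e₂⟩ := key g (by rw [hgen]; exact Subgroup.mem_top g)
  have f₁ := e₁ 1
  have f₂ := e₂ 1
  simp only [mul_one] at f₁ f₂
  rw [f₁, f₂, h₁.one, h₂.one, hx, hy, hxy]

end Pool.Agent.PSL2Z
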