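import Pool.Agent.Lib.MP_305fdd_al.PSL.Defs

/-!
# MP_305fdd_al, piece P16: the cocycle inequality

A finitely generated group `Λ` acts on a tree, `M` is a finite `Λ`-module. Counting the pairs
`(z, g)` with `z ∈ Z¹(Λ, M)` and `g : V → M`, `g (l v) = l g(v) + z(l)`, gives
`|M| ∏_e |M^{Λ_e}| ≤ |Z¹(Λ, M)| ∏_v |M^{Λ_v}|`.
-/

set_option autoImplicit false

namespace Pool.Agent.PSL2Z

open Pool.Agent.Lib.MP_305fdd_al

theorem finite_Z1 (Λ M : Type) [Group Λ] [Group.FG Λ] [AddCommGroup M] [Finite M]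
    [DistribMulAction Λ M] : Finite (Z1 Λ M) := by
  obtain ⟨S, hS⟩ := Group.FG.out (G := Λ)
  let r : Z1 Λ M → (S → M) := fun z s => z.1 s.1
  have hr : Function.Injective r := by
    intro z z' hz
    have key : ∀ g ∈ Subgroup.closure (S : Set Λ), z.1 g = z'.1 g := by
      have h1 : ∀ w : Z1 Λ M, w.1 1 = 0 := by
        intro w
        have := w.2 1 1
        rw [one_smul, mul_one] at this
        simpa using this
      have hinv : ∀ (w : Z1 Λ M) (g : Λ), w.1 g⁻¹ = - (g⁻¹ • w.1 g) := by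
        intro w g
        have := w.2 g⁻¹ g
        rw [inv_mul_cancel, h1] at this
        exact eq_neg_of_add_eq_zero_left this.symm
      intro g hg
      induction hg using Subgroup.closure_induction with
      | mem x hx => exact congrFun hz ⟨x, hx⟩
      | one => rw [h1, h1]
      | mul x y _ _ hx hy => rw [z.2, z'.2, hx, hy]
      | inv x _ hx => rw [hinv, hinv, hx]
    apply Subtype.ext
    funext g
    exact key g (by rw [hS]; exact Subgroup.mem_top g)
  exact Finite.of_injective r hr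

/-- the sum of `d` along a walk -/
private def wsum {V M : Type} {X : SimpleGraph V} [AddCommGroup M] (d : V → V → M) :
    ∀ {a b : V}, X.Walk a b → M
  | _, _, .nil => 0
  | _, _, .cons (u := u) (v := v) _ p => d u v + wsum d p

/-- integration on a tree -/
theorem exists_potential {V M : Type} {X : SimpleGraph V} (hX : X.IsTree) [AddCommGroup M]
    (d : V → V → M) (hd : ∀ v z, d z v = -d v z) :
    ∃ g : V → M, ∀ v z, X.Adj v z → g v - g z = d v z := by
  classical
  obtain ⟨r⟩ := hX.connected.nonempty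
  have hu : ∀ {a b : V} (p q : X.Walk a b), p.IsPath → q.IsPath → p = q := by
    intro a b p q hp hq
    have h1 := (SimpleGraph.isAcyclic_iff_subsingleton_path.1 hX.isAcyclic) a b
    have h2 : (⟨p, hp⟩ : X.Path a b) = ⟨q, hq⟩ := Subsingleton.elim _ _
    exact congrArg Subtype.val h2
  have hp : ∀ v, ∃ p : X.Walk v r, p.IsPath := by
    intro v
    obtain ⟨p⟩ := hX.connected.preconnected v r
    exact ⟨p.toPath.1, p.toPath.2⟩
  choose P hP using hp
  refine ⟨fun v => wsum d (P v), ?_⟩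
  intro v z hvz
  by_cases hv : v ∈ (P z).support
  · have e1 : (P z).takeUntil v hv = SimpleGraph.Walk.cons hvz.symm .nil := by
      apply hu
      · exact (hP z).takeUntil hv
      · simp [SimpleGraph.Walk.cons_isPath_iff, hvz.ne']
    have e2 : (P z).dropUntil v hv = P v := hu _ _ ((hP z).dropUntil hv) (hP v)
    have e3 : P z = SimpleGraph.Walk.cons hvz.symm (P v) := by
      rw [← SimpleGraph.Walk.take_spec (P z) hv, e1, e2]
      rfl
    show wsum d (P v) - wsum d (P z) = d v z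
    rw [e3]
    show wsum d (P v) - (d z v + wsum d (P v)) = d v z
    rw [hd v z]
    abel
  · have e3 : P v = SimpleGraph.Walk.cons hvz (P z) := by
      apply hu _ _ (hP v)
      rw [SimpleGraph.Walk.cons_isPath_iff]
      exact ⟨hP z, hv⟩
    show wsum d (P v) - wsum d (P z) = d v z
    rw [e3]
    show (d v z + wsum d (P z)) - wsum d (P z) = d v z
    abel

section ineq

variable {Λ V M : Type} [Group Λ] [MulAction Λ V] [AddCommGroup M] [DistribMulAction Λ M]

/-- pairs of a cocycle and an equivariant primitive on the vertices -/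
private abbrev GG (Λ V M : Type) [Group Λ] [MulAction Λ V] [AddCommGroup M]
    [DistribMulAction Λ M] : Type :=
  {a : Z1 Λ M × (V → M) // ∀ (l : Λ) (v : V), a.2 (l • v) = l • a.2 v + a.1.1 l}

/-- upper bound -/
private theorem exists_inj_upper (Y : Finset V) (hY : ∀ v, ∃ y ∈ Y, ∃ g : Λ, g • y = v) :
    ∃ F : GG Λ V M → Z1 Λ M × (∀ y : Y, Fix (MulAction.stabilizer Λ y.1) M),
      Function.Injective F := by
  classical
  let P : Z1 Λ M → Prop := fun z => ∃ g : V → M, ∀ (l : Λ) (v : V), g (l • v) = l • g v + z.1 l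
  let b : Z1 Λ M → V → M := fun z => if h : P z then h.choose else 0
  have hb : ∀ a : GG Λ V M, ∀ (l : Λ) (v : V), b a.1.1 (l • v) = l • b a.1.1 v + a.1.1.1 l := by
    intro a
    have h : P a.1.1 := ⟨a.1.2, a.2⟩
    have : b a.1.1 = h.choose := dif_pos h
    rw [this]
    exact h.choose_spec
  refine ⟨fun a => (a.1.1, fun y => ⟨a.1.2 y.1 - b a.1.1 y.1, ?_⟩), ?_⟩
  · intro g hg
    have hg' : g • y.1 = y.1 := hg
    have h1 := a.2 g y.1
    have h2 := hb a g y.1
    rw [hg'] at h1 h2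
    rw [smul_sub]
    have h3 : g • a.1.2 y.1 = a.1.2 y.1 - a.1.1.1 g := by
      rw [eq_sub_iff_add_eq]; exact h1.symm
    have h4 : g • b a.1.1 y.1 = b a.1.1 y.1 - a.1.1.1 g := by
      rw [eq_sub_iff_add_eq]; exact h2.symm
    rw [h3, h4]
    abel
  · intro a a' haa
    obtain ⟨⟨z, g⟩, ha⟩ := a
    obtain ⟨⟨z', g'⟩, ha'⟩ := a'
    have hz : z = z' := congrArg Prod.fst haa
    subst hz
    have hg : g = g' := by
      funext v
      obtain ⟨y, hy, l, rfl⟩ := hY v
      have h1 : g y = g' y := by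
        have := congrFun (congrArg Prod.snd haa) ⟨y, hy⟩
        have := congrArg Subtype.val this
        exact sub_left_injective this
      have h2 := ha l y
      have h3 := ha' l y
      simp only at h2 h3
      rw [h2, h3, h1]
    subst hg
    rfl

/-- an equivariant function on the oriented edges with prescribed values -/
private theorem exists_dfun {X : SimpleGraph V}
    {ty : V → Bool} (hX : TreeAct Λ V X ty)
    (E : Finset (V × V)) (hE : ∀ e ∈ E, X.Adj e.1 e.2 ∧ ty e.1 = true)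
    (hE' : ∀ e ∈ E, ∀ e' ∈ E, ∀ g : Λ, g • e.1 = e'.1 → g • e.2 = e'.2 → e = e')
    (m : ∀ e : E, Fix (MulAction.stabilizer Λ e.1.1 ⊓ MulAction.stabilizer Λ e.1.2) M) :
    ∃ d : V → V → M, (∀ v z, d z v = - d v z) ∧ (∀ (l : Λ) v z, d (l • v) (l • z) = l • d v z) ∧
      ∀ e : E, d e.1.1 e.1.2 = (m e).1 := by
  classical
  let Q : V → V → M → Prop := fun v z a => ∃ (e : E) (l : Λ), l • e.1.1 = v ∧ l • e.1.2 = z ∧
    a = l • (m e).1
  have hQ : ∀ v z a a', Q v z a → Q v z a' → a = a' := by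
    rintro v z a a' ⟨e, l, h1, h2, h3⟩ ⟨e', l', h1', h2', h3'⟩
    have h4 : (l'⁻¹ * l) • e.1.1 = e'.1.1 := by
      rw [mul_smul, h1, ← h1', inv_smul_smul]
    have h5 : (l'⁻¹ * l) • e.1.2 = e'.1.2 := by
      rw [mul_smul, h2, ← h2', inv_smul_smul]
    have h6 : e = e' := Subtype.ext (hE' e.1 e.2 e'.1 e'.2 _ h4 h5)
    subst h6
    have h7 := (m e).2 (l'⁻¹ * l) ⟨h4, h5⟩
    rw [mul_smul] at h7
    have h8 := congrArg (fun a => l' • a) h7
    simp only [smul_inv_smul] at h8
    rw [h3, h3', h8]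
  have hQl : ∀ v z a (l : Λ), Q v z a → Q (l • v) (l • z) (l • a) := by
    rintro v z a l ⟨e, k, h1, h2, h3⟩
    exact ⟨e, l * k, by rw [mul_smul, h1], by rw [mul_smul, h2], by rw [mul_smul, h3]⟩
  have hQt : ∀ v z a a', Q v z a → ¬ Q z v a' := by
    rintro v z a a' ⟨e, l, h1, h2, h3⟩ ⟨e', l', h1', h2', h3'⟩
    have h4 : ty v = true := by rw [← h1, hX.ty_smul]; exact (hE e.1 e.2).2
    have h5 : ty z = true := by rw [← h1', hX.ty_smul]; exact (hE e'.1 e'.2).2
    have h6 : X.Adj v z := by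
      rw [← h1, ← h2]
      exact hX.adj _ _ _ (hE e.1 e.2).1
    exact hX.ty_adj v z h6 (h4.trans h5.symm)
  let q : V → V → M := fun v z => if h : ∃ a, Q v z a then h.choose else 0
  have hq : ∀ v z a, Q v z a → q v z = a := by
    intro v z a ha
    have h : ∃ a, Q v z a := ⟨a, ha⟩
    have : q v z = h.choose := dif_pos h
    rw [this]
    exact hQ v z _ _ h.choose_spec ha
  have hq0 : ∀ v z, (¬ ∃ a, Q v z a) → q v z = 0 := fun v z h => dif_neg h
  have hql : ∀ (l : Λ) v z, q (l • v) (l • z) = l • q v z := by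
    intro l v z
    by_cases h : ∃ a, Q v z a
    · obtain ⟨a, ha⟩ := h
      rw [hq v z a ha, hq _ _ _ (hQl v z a l ha)]
    · rw [hq0 v z h, hq0, smul_zero]
      rintro ⟨a, ha⟩
      apply h
      have := hQl _ _ _ l⁻¹ ha
      rw [inv_smul_smul, inv_smul_smul] at this
      exact ⟨_, this⟩
  refine ⟨fun v z => q v z - q z v, ?_, ?_, ?_⟩
  · intro v z
    simp
  · intro l v z
    simp only [hql, smul_sub]
  · intro e
    have h1 : Q e.1.1 e.1.2 (m e).1 := ⟨e, 1, one_smul _ _, one_smul _ _, (one_smul _ _).symm⟩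
    have h2 : q e.1.2 e.1.1 = 0 := by
      apply hq0
      rintro ⟨a, ha⟩
      exact hQt _ _ _ _ h1 ha
    show q e.1.1 e.1.2 - q e.1.2 e.1.1 = _
    rw [h2, hq _ _ _ h1, sub_zero]

/-- lower bound -/
private theorem exists_inj_lower {X : SimpleGraph V}
    {ty : V → Bool} (hX : TreeAct Λ V X ty)
    (E : Finset (V × V)) (hE : ∀ e ∈ E, X.Adj e.1 e.2 ∧ ty e.1 = true)
    (hE' : ∀ e ∈ E, ∀ e' ∈ E, ∀ g : Λ, g • e.1 = e'.1 → g • e.2 = e'.2 → e = e') :
    ∃ F : M × (∀ e : E, Fix (MulAction.stabilizer Λ e.1.1 ⊓ MulAction.stabilizer Λ e.1.2) M) →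
      GG Λ V M, Function.Injective F := by
  classical
  obtain ⟨v₀⟩ := hX.tree.connected.nonempty
  have key : ∀ a : M × (∀ e : E, Fix (MulAction.stabilizer Λ e.1.1 ⊓
      MulAction.stabilizer Λ e.1.2) M), ∃ b : GG Λ V M, b.1.2 v₀ = a.1 ∧
        ∀ e : E, b.1.2 e.1.1 - b.1.2 e.1.2 = (a.2 e).1 := by
    rintro ⟨m₀, m⟩
    obtain ⟨d, hd1, hd2, hd3⟩ := exists_dfun hX E hE hE' m
    obtain ⟨g₁, hg₁⟩ := exists_potential hX.tree d hd1
    let g : V → M := fun v => g₁ v - g₁ v₀ + m₀
    have hg : ∀ v z, X.Adj v z → g v - g z = d v z := by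
      intro v z hvz
      rw [← hg₁ v z hvz]
      show (g₁ v - g₁ v₀ + m₀) - (g₁ z - g₁ v₀ + m₀) = _
      abel
    have hconst : ∀ (l : Λ) (v z : V), g (l • v) - l • g v = g (l • z) - l • g z := by
      intro l v z
      obtain ⟨p⟩ := hX.tree.connected.preconnected v z
      induction p with
      | nil => rfl
      | @cons u v w h p ih =>
        rw [← ih]
        have h1 := hg _ _ (hX.adj l _ _ h)
        have h2 := hg _ _ h
        rw [hd2, ← h2, smul_sub] at h1
        have h3 : g (l • u) - l • g u - (g (l • v) - l • g v) = 0 := by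
          have : g (l • u) - l • g u - (g (l • v) - l • g v) =
            (g (l • u) - g (l • v)) - (l • g u - l • g v) := by abel
          rw [this, h1, sub_self]
        exact sub_eq_zero.1 h3
    let z : Λ → M := fun l => g (l • v₀) - l • g v₀
    have hz : ∀ l v, g (l • v) - l • g v = z l := fun l v => hconst l v v₀
    refine ⟨⟨(⟨z, ?_⟩, g), ?_⟩, ?_, ?_⟩
    · intro k l
      have h1 := hz k (l • v₀)
      show g ((k * l) • v₀) - (k * l) • g v₀ = z k + k • (g (l • v₀) - l • g v₀)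
      rw [← h1, smul_sub, mul_smul, mul_smul]
      abel
    · intro l v
      show g (l • v) = l • g v + z l
      rw [← hz l v]
      abel
    · show g₁ v₀ - g₁ v₀ + m₀ = m₀
      abel
    · intro e
      show g e.1.1 - g e.1.2 = (m e).1
      rw [hg _ _ (hE e.1 e.2).1, hd3]
  choose F hF1 hF2 using key
  refine ⟨F, ?_⟩
  intro a a' h
  apply Prod.ext
  · rw [← hF1 a, ← hF1 a', h]
  · funext e
    apply Subtype.ext
    rw [← hF2 a e, ← hF2 a' e, h]

end ineq

theorem cocycle_ineq {Λ V M : Type} [Group Λ] [Group.FG Λ] [MulAction Λ V] {X : SimpleGraph V}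
    {ty : V → Bool} (hX : TreeAct Λ V X ty) [AddCommGroup M] [Finite M] [DistribMulAction Λ M]
    (Y : Finset V) (hY : ∀ v, ∃ y ∈ Y, ∃ g : Λ, g • y = v)
    (E : Finset (V × V)) (hE : ∀ e ∈ E, X.Adj e.1 e.2 ∧ ty e.1 = true)
    (hE' : ∀ e ∈ E, ∀ e' ∈ E, ∀ g : Λ, g • e.1 = e'.1 → g • e.2 = e'.2 → e = e') :
    Nat.card M * ∏ e ∈ E, Nat.card
      (Fix (MulAction.stabilizer Λ e.1 ⊓ MulAction.stabilizer Λ e.2) M) ≤
    Nat.card (Z1 Λ M) * ∏ v ∈ Y, Nat.card (Fix (MulAction.stabilizer Λ v) M) := by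
  obtain ⟨F₁, hF₁⟩ := exists_inj_upper (M := M) Y hY
  obtain ⟨F₂, hF₂⟩ := exists_inj_lower (M := M) hX E hE hE'
  have := finite_Z1 Λ M
  have h1 := Nat.card_le_card_of_injective _ (hF₁.comp hF₂)
  rw [Nat.card_prod, Nat.card_prod, Nat.card_pi, Nat.card_pi] at h1
  rw [← Finset.prod_coe_sort E, ← Finset.prod_coe_sort Y]
  exact h1

end Pool.Agent.PSL2Z
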