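import Pool.Agent.Lib.MP_305fdd_al.PSL.Defs

/-!
# MP_305fdd_al: `PSL(2,ℤ) = C2 * C3` (piece P2)

Ping-pong on `PSL(2,ℤ)` itself: the product of the two entries of the first column of a matrix is
well defined up to sign of the matrix; it is positive on one set and negative on the other.
-/

set_option autoImplicit false

namespace Pool.Agent.PSL2Z

open Matrix MatrixGroups Monoid

namespace PslZ

/-- the homomorphism `Z/n → G`, `1 ↦ g` -/
noncomputable def zh {G : Type} [Group G] (n : ℕ) (g : G) (hg : g ^ n = 1) :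
    Multiplicative (ZMod n) →* G :=
  AddMonoidHom.toMultiplicativeLeft (ZMod.lift n ⟨zmultiplesHom (Additive G) (Additive.ofMul g), by
    show (n : ℤ) • Additive.ofMul g = 0
    rw [natCast_zsmul, ← ofMul_pow, hg]
    rfl⟩)

theorem zh_one {G : Type} [Group G] (n : ℕ) (g : G) (hg : g ^ n = 1) :
    zh n g hg (Multiplicative.ofAdd 1) = g := by
  have h1 : (1 : ZMod n) = ((1 : ℤ) : ZMod n) := by push_cast; rfl
  unfold zh
  rw [h1]
  show Additive.toMul (ZMod.lift n _ ((1 : ℤ) : ZMod n)) = g
  rw [ZMod.lift_coe]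
  show Additive.toMul ((1 : ℤ) • Additive.ofMul g) = g
  rw [one_zsmul]
  rfl

/-- the projection -/
def pr : SL(2, ℤ) →* Matrix.ProjectiveSpecialLinearGroup (Fin 2) ℤ :=
  QuotientGroup.mk' (Subgroup.center SL(2, ℤ))

theorem pr_surj : Function.Surjective pr := QuotientGroup.mk'_surjective _

theorem pr_eq_one {A : SL(2, ℤ)} (hA : A.1 = -1) : pr A = 1 := by
  unfold pr
  rw [QuotientGroup.mk'_apply, QuotientGroup.eq_one_iff]
  rw [Matrix.SpecialLinearGroup.mem_center_iff]
  refine ⟨-1, by norm_num, ?_⟩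
  rw [hA]
  ext i j
  fin_cases i <;> fin_cases j <;> simp

/-- product of the entries of the first column -/
def val : Matrix.ProjectiveSpecialLinearGroup (Fin 2) ℤ → ℤ :=
  Quotient.lift (fun A : SL(2, ℤ) => A.1 0 0 * A.1 1 0) (by
    intro A B hAB
    have h1 : A⁻¹ * B ∈ Subgroup.center SL(2, ℤ) := QuotientGroup.leftRel_apply.mp hAB
    rw [Matrix.SpecialLinearGroup.mem_center_iff] at h1
    obtain ⟨r, hr, h2⟩ := h1
    have h3 : B = A * (A⁻¹ * B) := by group
    have h4 : B.1 = A.1 * (A⁻¹ * B : SL(2, ℤ)).1 := by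
      conv_lhs => rw [h3]
      rfl
    have h5 : B.1 = A.1 * Matrix.scalar (Fin 2) r := by rw [h4]; rw [← h2]
    have h6 : ∀ i, B.1 i 0 = A.1 i 0 * r := by
      intro i
      rw [h5, Matrix.scalar_apply, Matrix.mul_diagonal]
    have h7 : r * r = 1 := by
      rw [← hr]; simp [pow_two]
    show A.1 0 0 * A.1 1 0 = B.1 0 0 * B.1 1 0
    rw [h6 0, h6 1]
    linear_combination (-(A.1 0 0 * A.1 1 0)) * h7)

theorem val_pr (A : SL(2, ℤ)) : val (pr A) = A.1 0 0 * A.1 1 0 := rfl

/-- the order 3 element -/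
def Y : SL(2, ℤ) := ModularGroup.T * ModularGroup.S

theorem Y_val : Y.1 = !![1, -1; 1, 0] := by
  unfold Y
  rw [Matrix.SpecialLinearGroup.coe_mul, ModularGroup.coe_T, ModularGroup.coe_S]
  ext i j
  fin_cases i <;> fin_cases j <;> simp [Matrix.mul_apply, Fin.sum_univ_two]

theorem S_val : (ModularGroup.S : SL(2, ℤ)).1 = !![0, -1; 1, 0] := ModularGroup.coe_S

theorem S_sq : pr ModularGroup.S ^ 2 = 1 := by
  rw [← map_pow]
  apply pr_eq_one
  rw [pow_two, Matrix.SpecialLinearGroup.coe_mul, ModularGroup.coe_S]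
  ext i j
  fin_cases i <;> fin_cases j <;> simp [Matrix.mul_apply, Fin.sum_univ_two]

theorem Y_cube : pr Y ^ 3 = 1 := by
  rw [← map_pow]
  apply pr_eq_one
  rw [pow_succ, pow_two, Matrix.SpecialLinearGroup.coe_mul, Matrix.SpecialLinearGroup.coe_mul, Y_val]
  ext i j
  fin_cases i <;> fin_cases j <;> simp [Matrix.mul_apply, Fin.sum_univ_two]

theorem val_S (p : Matrix.ProjectiveSpecialLinearGroup (Fin 2) ℤ) :
    val (pr ModularGroup.S * p) = - val p := by
  obtain ⟨A, rfl⟩ := pr_surj p
  rw [← map_mul, val_pr, val_pr, Matrix.SpecialLinearGroup.coe_mul, ModularGroup.coe_S]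
  simp [Matrix.mul_apply, Fin.sum_univ_two]
  ring

theorem val_Y {p : Matrix.ProjectiveSpecialLinearGroup (Fin 2) ℤ} (hp : val p < 0) :
    0 < val (pr Y * p) := by
  obtain ⟨A, rfl⟩ := pr_surj p
  rw [val_pr] at hp
  rw [← map_mul, val_pr, Matrix.SpecialLinearGroup.coe_mul, Y_val]
  simp only [Matrix.mul_apply, Fin.sum_univ_two, Matrix.of_apply, Matrix.cons_val', Matrix.cons_val_zero,
    Matrix.cons_val_one, Matrix.cons_val_fin_one]
  nlinarith [sq_nonneg (A.1 0 0), sq_nonneg (A.1 1 0)]

theorem val_YY {p : Matrix.ProjectiveSpecialLinearGroup (Fin 2) ℤ} (hp : val p < 0) :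
    0 < val (pr Y * pr Y * p) := by
  obtain ⟨A, rfl⟩ := pr_surj p
  rw [val_pr] at hp
  rw [← map_mul, ← map_mul, val_pr, Matrix.SpecialLinearGroup.coe_mul,
    Matrix.SpecialLinearGroup.coe_mul, Y_val]
  simp only [Matrix.mul_apply, Fin.sum_univ_two, Matrix.of_apply, Matrix.cons_val', Matrix.cons_val_zero,
    Matrix.cons_val_one, Matrix.cons_val_fin_one]
  nlinarith [sq_nonneg (A.1 0 0), sq_nonneg (A.1 1 0)]

/-- orders of the factors -/
def od : Bool → ℕ := fun i => cond i 3 2

/-- the factors -/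
abbrev H (i : Bool) : Type := Multiplicative (ZMod (od i))

/-- a pair of elements -/
def pick {G : Type} (a b : G) : Bool → G := fun i => cond i b a

theorem pick_pow {G : Type} [Group G] {a b : G} (ha : a ^ 2 = 1) (hb : b ^ 3 = 1) (i : Bool) :
    pick a b i ^ od i = 1 := by
  cases i
  · exact ha
  · exact hb

/-- the homomorphism from the free product -/
noncomputable def lf {G : Type} [Group G] {a b : G} (ha : a ^ 2 = 1) (hb : b ^ 3 = 1) :
    CoprodI H →* G :=
  CoprodI.lift fun i => zh (od i) (pick a b i) (pick_pow ha hb i)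

/-- the generators of the free product -/
def ge (i : Bool) : CoprodI H := CoprodI.of (i := i) (Multiplicative.ofAdd (1 : ZMod (od i)))

theorem lf_ge {G : Type} [Group G] {a b : G} (ha : a ^ 2 = 1) (hb : b ^ 3 = 1) (i : Bool) :
    lf ha hb (ge i) = pick a b i := by
  unfold lf ge
  rw [CoprodI.lift_of]
  exact zh_one _ _ _

theorem gen : Subgroup.closure ({pr ModularGroup.S, pr Y} :
    Set (Matrix.ProjectiveSpecialLinearGroup (Fin 2) ℤ)) = ⊤ := by
  rw [eq_top_iff]
  set C := Subgroup.closure ({pr ModularGroup.S, pr Y} :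
    Set (Matrix.ProjectiveSpecialLinearGroup (Fin 2) ℤ)) with hC
  have hS : pr ModularGroup.S ∈ C := Subgroup.subset_closure (by simp)
  have hY : pr Y ∈ C := Subgroup.subset_closure (by simp)
  have hT : pr ModularGroup.T ∈ C := by
    have : ModularGroup.T = Y * ModularGroup.S⁻¹ := by unfold Y; group
    rw [this, map_mul, map_inv]
    exact C.mul_mem hY (C.inv_mem hS)
  have h1 : (⊤ : Subgroup SL(2, ℤ)) ≤ C.comap pr := by
    rw [← SpecialLinearGroup.SL2Z_generators, Subgroup.closure_le]
    rintro z (rfl | rfl)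
    · exact hS
    · exact hT
  intro z _
  obtain ⟨A, rfl⟩ := pr_surj z
  exact h1 (Subgroup.mem_top A)

theorem lf_inj : Function.Injective (lf S_sq Y_cube) := by
  unfold lf
  let X : Bool → Set (Matrix.ProjectiveSpecialLinearGroup (Fin 2) ℤ) := fun i =>
    cond i {p | 0 < val p} {p | val p < 0}
  have hpos : ∃ p, 0 < val p := by
    refine ⟨pr Y, ?_⟩
    rw [val_pr, Y_val]
    simp
  refine CoprodI.lift_injective_of_ping_pong _ (Or.inr ⟨true, ?_⟩) X ?_ ?_ ?_
  · show (3 : Cardinal) ≤ Cardinal.mk (ZMod 3)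
    rw [Cardinal.mk_fintype, ZMod.card]
    norm_num
  · intro i
    obtain ⟨p, hp⟩ := hpos
    cases i
    · refine ⟨pr ModularGroup.S * p, ?_⟩
      show val _ < 0
      rw [val_S]
      omega
    · exact ⟨p, hp⟩
  · intro i j hij
    show Disjoint (X i) (X j)
    rw [Set.disjoint_left]
    intro p
    cases i <;> cases j
    · exact absurd rfl hij
    · intro (h1 : val p < 0) (h2 : 0 < val p)
      omega
    · intro (h1 : 0 < val p) (h2 : val p < 0)
      omega
    · exact absurd rfl hij
  · intro i j hij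
    cases i <;> cases j
    · exact absurd rfl hij
    · intro h hh
      have h1 : h = Multiplicative.ofAdd (1 : ZMod 2) := by
        have : ∀ z : ZMod 2, z ≠ 0 → z = 1 := by decide
        exact this (Multiplicative.toAdd h) hh
      have h2 : zh (od false) (pick (pr ModularGroup.S) (pr Y) false)
          (pick_pow S_sq Y_cube false) h = pr ModularGroup.S := by
        rw [h1]; exact zh_one _ _ _
      rw [h2]
      rintro _ ⟨p, hp, rfl⟩
      have hp' : 0 < val p := hp
      show val (pr ModularGroup.S * p) < 0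
      rw [val_S]
      omega
    · intro h hh
      have h0 : ∀ z : ZMod 3, z ≠ 0 → z = 1 ∨ z = 1 + 1 := by decide
      have hz := zh_one (od true) (pick (pr ModularGroup.S) (pr Y) true)
          (pick_pow S_sq Y_cube true)
      rcases h0 (Multiplicative.toAdd h) hh with h1 | h1
      · have h1' : h = Multiplicative.ofAdd (1 : ZMod 3) := h1
        have h2 : zh (od true) (pick (pr ModularGroup.S) (pr Y) true)
          (pick_pow S_sq Y_cube true) h = pr Y := by
          rw [h1']; exact hz
        rw [h2]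
        rintro _ ⟨p, hp, rfl⟩
        exact val_Y hp
      · have h1' : h = Multiplicative.ofAdd (1 : ZMod 3) * Multiplicative.ofAdd (1 : ZMod 3) := h1
        have h2 : zh (od true) (pick (pr ModularGroup.S) (pr Y) true)
          (pick_pow S_sq Y_cube true) h = pr Y * pr Y := by
          rw [h1']
          refine (map_mul _ _ _).trans ?_
          exact congrArg₂ (· * ·) hz hz
        rw [h2]
        rintro _ ⟨p, hp, rfl⟩
        exact val_YY hp
    · exact absurd rfl hij

theorem lf_surj : Function.Surjective (lf S_sq Y_cube) := by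
  rw [← MonoidHom.range_eq_top, eq_top_iff, ← gen, Subgroup.closure_le]
  rintro z (rfl | rfl)
  · exact ⟨ge false, lf_ge S_sq Y_cube false⟩
  · exact ⟨ge true, lf_ge S_sq Y_cube true⟩

end PslZ

open PslZ in
theorem isC2C3_psl : ∃ x y : Matrix.ProjectiveSpecialLinearGroup (Fin 2) ℤ,
    IsC2C3 (Matrix.ProjectiveSpecialLinearGroup (Fin 2) ℤ) x y := by
  refine ⟨pr ModularGroup.S, pr Y, S_sq, Y_cube, gen, ?_⟩
  intro G _ a b ha hb
  let e : CoprodI H ≃* Matrix.ProjectiveSpecialLinearGroup (Fin 2) ℤ :=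
    MulEquiv.ofBijective (lf S_sq Y_cube) ⟨lf_inj, lf_surj⟩
  refine ⟨(lf ha hb).comp e.symm.toMonoidHom, ?_, ?_⟩
  · have h1 : e.symm (pr ModularGroup.S) = ge false := by
      rw [MulEquiv.symm_apply_eq]
      exact (lf_ge S_sq Y_cube false).symm
    show lf ha hb (e.symm (pr ModularGroup.S)) = a
    rw [h1]
    exact lf_ge ha hb false
  · have h1 : e.symm (pr Y) = ge true := by
      rw [MulEquiv.symm_apply_eq]
      exact (lf_ge S_sq Y_cube true).symm
    show lf ha hb (e.symm (pr Y)) = b
    rw [h1]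
    exact lf_ge ha hb true

end Pool.Agent.PSL2Z
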