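import Pool.Agent.Lib.MP_305fdd_al.PSL.Defs

/-!
# MP_305fdd_al, piece P11 (first part): generating functions

`gen p N` is the generating function modulo `p` of the numbers of elements of norm `p ^ n`;
`gen_pi` multiplies the norm by `p ^ (∑ m_j d_j)`; `curve_of` deduces the statement `curve`
from the finiteness of the ideals, the places at infinity and the periodicity of the number of pairs.
-/

set_option autoImplicit false

namespace Pool.Agent.PSL2Z

open Polynomial
open scoped WithZero nonZeroDivisors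

/-! ### generating functions -/

/-- generating function of a norm function -/
noncomputable def gen (p : ℕ) {α : Type} (N : α → ℕ) : PowerSeries (ZMod p) :=
  PowerSeries.mk fun n => ((Nat.card {a : α // N a = p ^ n} : ℕ) : ZMod p)

theorem finite_step (p : ℕ) [Fact p.Prime] {α : Type} (N : α → ℕ)
    (hN : ∀ n, Finite {a : α // N a = p ^ n}) {d : ℕ} (hd : 0 < d) (n : ℕ) :
    Finite {x : α × ℕ // N x.1 * p ^ (x.2 * d) = p ^ n} := by
  have hp : p.Prime := Fact.out
  have key : ∀ x : {x : α × ℕ // N x.1 * p ^ (x.2 * d) = p ^ n},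
      x.1.2 < n + 1 ∧ N x.1.1 = p ^ (n - x.1.2 * d) ∧ x.1.2 * d ≤ n := by
    rintro ⟨⟨a, m⟩, hx⟩
    simp only at hx ⊢
    have h1 : p ^ (m * d) ∣ p ^ n := ⟨N a, by rw [← hx]; ring⟩
    have h2 : m * d ≤ n := (Nat.pow_dvd_pow_iff_le_right hp.one_lt).mp h1
    have h3 : m ≤ m * d := Nat.le_mul_of_pos_right m hd
    refine ⟨by omega, ?_, h2⟩
    have h4 : p ^ n = p ^ (n - m * d) * p ^ (m * d) := by
      rw [← pow_add]; congr 1; omega
    rw [h4] at hx
    exact Nat.eq_of_mul_eq_mul_right (pow_pos hp.pos _) hx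
  let f : {x : α × ℕ // N x.1 * p ^ (x.2 * d) = p ^ n} →
      Σ m : Fin (n + 1), {a : α // N a = p ^ (n - m.1 * d)} := fun x =>
    ⟨⟨x.1.2, (key x).1⟩, ⟨x.1.1, (key x).2.1⟩⟩
  have hf : Function.Injective f := by
    rintro ⟨⟨a, m⟩, hx⟩ ⟨⟨a', m'⟩, hx'⟩ hxx
    simp only [f, Sigma.mk.injEq, Fin.mk.injEq] at hxx
    obtain ⟨h1, h2⟩ := hxx
    subst h1
    have := eq_of_heq h2
    simp only [Subtype.mk.injEq] at this
    subst this
    rfl
  have : ∀ m : Fin (n + 1), Finite {a : α // N a = p ^ (n - m.1 * d)} := fun m => hN _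
  exact Finite.of_injective f hf

theorem gen_step (p : ℕ) [Fact p.Prime] {α : Type} (N : α → ℕ)
    (hN : ∀ n, Finite {a : α // N a = p ^ n}) {d : ℕ} (hd : 0 < d) :
    gen p (fun x : α × ℕ => N x.1 * p ^ (x.2 * d)) * (1 - PowerSeries.X ^ d) = gen p N := by
  have hp : p.Prime := Fact.out
  ext n
  rw [mul_sub, mul_one, map_sub, PowerSeries.coeff_mul_X_pow']
  unfold gen
  rw [PowerSeries.coeff_mk, PowerSeries.coeff_mk]
  have hfin := finite_step p N hN hd
  -- the split
  have hcard : Nat.card {x : α × ℕ // N x.1 * p ^ (x.2 * d) = p ^ n} =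
      Nat.card {a : α // N a = p ^ n} +
        Nat.card {x : α × ℕ // N x.1 * p ^ ((x.2 + 1) * d) = p ^ n} := by
    have hfin2 : Finite {x : α × ℕ // N x.1 * p ^ ((x.2 + 1) * d) = p ^ n} := by
      refine Finite.of_injective
        (β := {x : α × ℕ // N x.1 * p ^ (x.2 * d) = p ^ n})
        (fun x => ⟨(x.1.1, x.1.2 + 1), x.2⟩) ?_
      rintro ⟨⟨a, m⟩, hx⟩ ⟨⟨a', m'⟩, hx'⟩ hxx
      simp only [Subtype.mk.injEq, Prod.mk.injEq, add_left_inj] at hxx ⊢
      exact hxx
    have := hN n
    rw [← Nat.card_sum]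
    refine Nat.card_congr
      { toFun := fun x => match x with
          | ⟨(a, 0), hx⟩ => Sum.inl ⟨a, by simpa using hx⟩
          | ⟨(a, m + 1), hx⟩ => Sum.inr ⟨(a, m), hx⟩
        invFun := fun y => match y with
          | Sum.inl a => ⟨(a.1, 0), by simpa using a.2⟩
          | Sum.inr x => ⟨(x.1.1, x.1.2 + 1), x.2⟩
        left_inv := ?_
        right_inv := ?_ }
    · rintro ⟨⟨a, m⟩, hx⟩
      cases m <;> rfl
    · rintro (⟨a, ha⟩ | ⟨⟨a, m⟩, hx⟩) <;> rfl
  rw [hcard]
  split_ifs with h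
  · rw [PowerSeries.coeff_mk]
    have : Nat.card {x : α × ℕ // N x.1 * p ^ ((x.2 + 1) * d) = p ^ n} =
        Nat.card {x : α × ℕ // N x.1 * p ^ (x.2 * d) = p ^ (n - d)} := by
      refine Nat.card_congr (Equiv.subtypeEquivRight fun x => ?_)
      have h4 : p ^ n = p ^ (n - d) * p ^ d := by
        rw [← pow_add]; congr 1; omega
      have h5 : N x.1 * p ^ ((x.2 + 1) * d) = N x.1 * p ^ (x.2 * d) * p ^ d := by
        rw [mul_assoc, ← pow_add]; congr 2; ring
      rw [h4, h5]
      exact Nat.mul_left_inj (pow_ne_zero _ hp.ne_zero)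
    rw [this]
    push_cast
    ring
  · have : IsEmpty {x : α × ℕ // N x.1 * p ^ ((x.2 + 1) * d) = p ^ n} := by
      refine ⟨fun x => ?_⟩
      obtain ⟨⟨a, m⟩, hx⟩ := x
      simp only at hx
      have h1 : p ^ ((m + 1) * d) ∣ p ^ n := ⟨N a, by rw [← hx]; ring⟩
      have h2 : (m + 1) * d ≤ n := (Nat.pow_dvd_pow_iff_le_right hp.one_lt).mp h1
      have h3 : d ≤ (m + 1) * d := Nat.le_mul_of_pos_left d (Nat.succ_pos m)
      omega
    rw [@Nat.card_of_isEmpty _ this]
    simp

/-- finiteness and the product formula -/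
theorem gen_pi (p : ℕ) [Fact p.Prime] {α : Type} (N : α → ℕ)
    (hN : ∀ n, Finite {a : α // N a = p ^ n}) (r : ℕ) (d : Fin r → ℕ) (hd : ∀ j, 0 < d j) :
    (∀ n, Finite {x : α × (Fin r → ℕ) // N x.1 * p ^ (∑ j, x.2 j * d j) = p ^ n}) ∧
    gen p (fun x : α × (Fin r → ℕ) => N x.1 * p ^ (∑ j, x.2 j * d j)) *
      ∏ j, (1 - PowerSeries.X ^ d j) = gen p N := by
  have hp : p.Prime := Fact.out
  induction r with
  | zero =>
    have key : ∀ n, {x : α × (Fin 0 → ℕ) // N x.1 * p ^ (∑ j, x.2 j * d j) = p ^ n} ≃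
        {a : α // N a = p ^ n} := fun n =>
      { toFun := fun x => ⟨x.1.1, by simpa using x.2⟩
        invFun := fun a => ⟨(a.1, Fin.elim0), by simpa using a.2⟩
        left_inv := fun x => by
          obtain ⟨⟨a, m⟩, hx⟩ := x
          simp only [Subtype.mk.injEq, Prod.mk.injEq, true_and]
          exact Subsingleton.elim _ _
        right_inv := fun a => rfl }
    refine ⟨fun n => ?_, ?_⟩
    · have := hN n
      exact Finite.of_equiv _ (key n).symm
    · rw [Fin.prod_univ_zero, mul_one]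
      ext n
      unfold gen
      rw [PowerSeries.coeff_mk, PowerSeries.coeff_mk, Nat.card_congr (key n)]
  | succ r ih =>
    obtain ⟨h1, h2⟩ := ih (fun j => d j.succ) (fun j => hd _)
    have key : ∀ n, {x : α × (Fin (r + 1) → ℕ) // N x.1 * p ^ (∑ j, x.2 j * d j) = p ^ n} ≃
        {x : (α × (Fin r → ℕ)) × ℕ //
          (N x.1.1 * p ^ (∑ j, x.1.2 j * d j.succ)) * p ^ (x.2 * d 0) = p ^ n} := fun n =>
      { toFun := fun x => ⟨((x.1.1, fun j => x.1.2 j.succ), x.1.2 0), by
          have := x.2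
          rw [Fin.sum_univ_succ] at this
          refine Eq.trans ?_ this
          simp only
          rw [mul_assoc, ← pow_add]
          congr 2
          ring⟩
        invFun := fun x => ⟨(x.1.1.1, Fin.cons x.1.2 x.1.1.2), by
          have := x.2
          rw [Fin.sum_univ_succ]
          simp only [Fin.cons_zero, Fin.cons_succ]
          refine Eq.trans ?_ this
          rw [mul_assoc, ← pow_add]
          congr 2
          ring⟩
        left_inv := fun x => by
          obtain ⟨⟨a, m⟩, hx⟩ := x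
          simp only [Subtype.mk.injEq, Prod.mk.injEq, true_and]
          exact Fin.cons_self_tail m
        right_inv := fun x => by
          obtain ⟨⟨⟨a, m⟩, k⟩, hx⟩ := x
          simp }
    refine ⟨fun n => ?_, ?_⟩
    · have := finite_step p (fun x : α × (Fin r → ℕ) => N x.1 * p ^ (∑ j, x.2 j * d j.succ)) h1
        (hd 0) n
      exact Finite.of_equiv _ (key n).symm
    · have h3 := gen_step p (fun x : α × (Fin r → ℕ) => N x.1 * p ^ (∑ j, x.2 j * d j.succ)) h1
        (hd 0)
      have h4 : gen p (fun x : α × (Fin (r + 1) → ℕ) => N x.1 * p ^ (∑ j, x.2 j * d j)) =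
          gen p (fun x : (α × (Fin r → ℕ)) × ℕ =>
            (N x.1.1 * p ^ (∑ j, x.1.2 j * d j.succ)) * p ^ (x.2 * d 0)) := by
        ext n
        unfold gen
        rw [PowerSeries.coeff_mk, PowerSeries.coeff_mk, Nat.card_congr (key n)]
      rw [h4, Fin.prod_univ_succ, ← mul_assoc, h3, h2]

/-- the statement `curve` from its ingredients -/
theorem curve_of (p : ℕ) [Fact p.Prime] (D K : Type) [CommRing D] [Field K] [Algebra D K]
    (hfin : ∀ n, Finite {I : Ideal D // Nat.card (D ⧸ I) = p ^ n})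
    (r : ℕ) (v : Fin (r + 1) → Valuation K ℤᵐ⁰) (d : Fin (r + 1) → ℕ) (hP : Places p D K v d)
    (hper : ∃ N : ℕ, ∀ n ≥ N,
      ((Nat.card {a : Ideal D × (Fin (r + 1) → ℕ) //
        Nat.card (D ⧸ a.1) * p ^ (∑ j, a.2 j * d j) = p ^ (n + d 0)} : ℕ) : ZMod p) =
      ((Nat.card {a : Ideal D × (Fin (r + 1) → ℕ) //
        Nat.card (D ⧸ a.1) * p ^ (∑ j, a.2 j * d j) = p ^ n} : ℕ) : ZMod p)) :
    ∃ P : (ZMod p)[X], zet p D = (P : PowerSeries (ZMod p)) ∧
      (P.natDegree = 0 → ∃ v : Valuation K ℤᵐ⁰, Function.Surjective v ∧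
        {a : D | v (algebraMap D K a) ≤ 1}.Finite) := by
  have hp : p.Prime := Fact.out
  obtain ⟨N, hN⟩ := hper
  obtain ⟨-, hprod⟩ := gen_pi p (fun I : Ideal D => Nat.card (D ⧸ I)) hfin (r + 1) d hP.pos
  set CC : PowerSeries (ZMod p) := gen p (fun x : Ideal D × (Fin (r + 1) → ℕ) =>
    Nat.card (D ⧸ x.1) * p ^ (∑ j, x.2 j * d j)) with hCC
  have hz : gen p (fun I : Ideal D => Nat.card (D ⧸ I)) = zet p D := rfl
  rw [hz, Fin.prod_univ_succ, ← mul_assoc] at hprod
  -- the polynomial `Q`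
  set Q : (ZMod p)[X] := PowerSeries.trunc (N + d 0) (CC * (1 - PowerSeries.X ^ d 0)) with hQ
  have hQC : (Q : PowerSeries (ZMod p)) = CC * (1 - PowerSeries.X ^ d 0) := by
    ext n
    rw [Polynomial.coeff_coe, hQ, PowerSeries.coeff_trunc]
    split_ifs with h
    · rfl
    · have hn : d 0 ≤ n := by omega
      rw [mul_sub, mul_one, map_sub, PowerSeries.coeff_mul_X_pow', if_pos hn]
      have := hN (n - d 0) (by omega)
      rw [Nat.sub_add_cancel hn] at this
      rw [hCC]
      unfold gen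
      rw [PowerSeries.coeff_mk, PowerSeries.coeff_mk, this, sub_self]
  rw [← hQC] at hprod
  have hcoe : ((∏ j : Fin r, (1 - X ^ d j.succ) : (ZMod p)[X]) : PowerSeries (ZMod p)) =
      ∏ j : Fin r, (1 - PowerSeries.X ^ d j.succ) := by
    have := map_prod (Polynomial.coeToPowerSeries.ringHom (R := ZMod p))
      (fun j : Fin r => (1 - X ^ d j.succ : (ZMod p)[X])) Finset.univ
    simp only [Polynomial.coeToPowerSeries.ringHom_apply, Polynomial.coe_sub, Polynomial.coe_one,
      Polynomial.coe_pow, Polynomial.coe_X] at this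
    exact this
  refine ⟨Q * ∏ j : Fin r, (1 - X ^ d j.succ), ?_, ?_⟩
  · rw [← hprod, Polynomial.coe_mul, hcoe]
  · intro hdeg
    have hz0 : PowerSeries.coeff 0 (zet p D) = 1 := by
      unfold zet
      rw [PowerSeries.coeff_mk]
      have : Nat.card {I : Ideal D // Nat.card (D ⧸ I) = p ^ 0} = 1 := by
        rw [pow_zero, Nat.card_eq_one_iff_unique]
        constructor
        · constructor
          rintro ⟨I, hI⟩ ⟨J, hJ⟩
          have : ∀ I : Ideal D, Nat.card (D ⧸ I) = 1 → I = ⊤ := by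
            intro I hI
            have := (Nat.card_eq_one_iff_unique.mp hI).1
            exact Ideal.Quotient.subsingleton_iff.mp this
          ext1
          simp only
          rw [this I hI, this J hJ]
        · refine ⟨⟨⊤, ?_⟩⟩
          rw [Nat.card_eq_one_iff_unique]
          exact ⟨Ideal.Quotient.subsingleton_iff.mpr rfl, ⟨0⟩⟩
      rw [this]
      simp
    have hne : Q * ∏ j : Fin r, (1 - X ^ d j.succ) ≠ 0 := by
      intro h0
      have : zet p D = 0 := by
        rw [← hprod, ← hcoe, ← Polynomial.coe_mul, h0, Polynomial.coe_zero]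
      rw [this] at hz0
      simp at hz0
    have hr : r = 0 := by
      by_contra hr
      have hQ0 : Q ≠ 0 := left_ne_zero_of_mul hne
      have hP0 : ∏ j : Fin r, (1 - X ^ d j.succ : (ZMod p)[X]) ≠ 0 := right_ne_zero_of_mul hne
      rw [Polynomial.natDegree_mul hQ0 hP0, Polynomial.natDegree_prod _ _ (by
        intro j hj hj0
        exact hP0 (Finset.prod_eq_zero hj hj0))] at hdeg
      have h5 : ∀ j : Fin r, (1 - X ^ d j.succ : (ZMod p)[X]).natDegree = d j.succ := by
        intro j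
        rw [← neg_sub, natDegree_neg]
        have : (X ^ d j.succ - 1 : (ZMod p)[X]) = X ^ d j.succ - C 1 := by simp
        rw [this]
        exact natDegree_X_pow_sub_C
      rw [Finset.sum_congr rfl (fun j _ => h5 j)] at hdeg
      have h6 : ∑ j : Fin r, d j.succ = 0 := by omega
      rw [Finset.sum_eq_zero_iff] at h6
      have h7 := h6 ⟨0, Nat.pos_of_ne_zero hr⟩ (Finset.mem_univ _)
      have h8 := hP.pos (Fin.succ ⟨0, Nat.pos_of_ne_zero hr⟩)
      omega
    subst hr
    refine ⟨v 0, hP.surj 0, ?_⟩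
    have h9 := hP.finite 0
    refine h9.subset ?_
    intro a ha
    show ∀ j, v j (algebraMap D K a) ≤ WithZero.exp ((0 : Fin 1 → ℤ) j)
    intro j
    have : j = 0 := Fin.ext (by have := j.2; simp only [Fin.val_zero]; omega)
    subst this
    simpa using ha

end Pool.Agent.PSL2Z
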