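import Mathlib
import Pool.Agent.Lib.MP_305fdd_al.NatBij

/-!
# MP_305fdd_al: `PSL(2,ℤ)` is profinitely rigid. Definitions.
-/

set_option autoImplicit false

namespace Pool.Agent.PSL2Z

open Polynomial Pool.Agent.Lib.MP_305fdd_al
open scoped WithZero

instance fact13 : Fact (Nat.Prime 13) := ⟨by norm_num⟩

/-- the base field -/
abbrev F : Type := ZMod 13

/-- `Γ` is the free product of `⟨x⟩` of order 2 and `⟨y⟩` of order 3 (in universal form). -/
structure IsC2C3 (Γ : Type) [Group Γ] (x y : Γ) : Prop where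
  sq : x ^ 2 = 1
  cube : y ^ 3 = 1
  gen : Subgroup.closure ({x, y} : Set Γ) = ⊤
  lift : ∀ (G : Type) [Group G] (a b : G), a ^ 2 = 1 → b ^ 3 = 1 →
    ∃ f : Γ →* G, f x = a ∧ f y = b

/-- Two-dimensional pseudo-characters with determinant `ε : G → {±1}`. -/
structure PChar {G : Type} [Group G] (ε : G →* ℤˣ) {R : Type} [CommRing R] (T : G → R) : Prop where
  one : T 1 = 2
  comm : ∀ g h, T (g * h) = T (h * g)
  rel : ∀ g h, T (g * h) + (((ε h : ℤˣ) : ℤ) : R) * T (g * h⁻¹) = T g * T h

/-- the image of `x` in the representation with parameter `t` -/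
def mx {R : Type} [CommRing R] (t : R) : Matrix (Fin 2) (Fin 2) R := !![1, t - 1; 0, -1]

/-- the image of `y` -/
def my (R : Type) [CommRing R] : Matrix (Fin 2) (Fin 2) R := !![0, -1; 1, -1]

theorem mx_mul_mx {R : Type} [CommRing R] (t : R) : mx t * mx t = 1 := by
  unfold mx
  ext i j
  fin_cases i <;> fin_cases j <;> simp [Matrix.mul_apply, Fin.sum_univ_two]

theorem my_cube {R : Type} [CommRing R] : my R * (my R * my R) = 1 := by
  unfold my
  ext i j
  fin_cases i <;> fin_cases j <;> simp [Matrix.mul_apply, Fin.sum_univ_two]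

/-- `x` as an element of `GL₂` -/
def gx {R : Type} [CommRing R] (t : R) : GL (Fin 2) R := ⟨mx t, mx t, mx_mul_mx t, mx_mul_mx t⟩

/-- `y` as an element of `GL₂` -/
def gy (R : Type) [CommRing R] : GL (Fin 2) R :=
  ⟨my R, my R * my R, my_cube, by rw [mul_assoc]; exact my_cube⟩

theorem gx_sq {R : Type} [CommRing R] (t : R) : gx t ^ 2 = 1 := by
  rw [pow_two]; ext1; exact mx_mul_mx t

theorem gy_cube (R : Type) [CommRing R] : gy R ^ 3 = 1 := by
  rw [pow_succ, pow_two, mul_assoc]; ext1; exact my_cube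

section rep

variable {Γ : Type} [Group Γ] {x y : Γ} (h : IsC2C3 Γ x y)

/-- the representation of `Γ` with parameter `t`: `tr x = 0`, `tr y = -1`, `tr xy = t` -/
noncomputable def rep {R : Type} [CommRing R] (t : R) : Γ →* GL (Fin 2) R :=
  (h.lift (GL (Fin 2) R) (gx t) (gy R) (gx_sq t) (gy_cube R)).choose

theorem rep_x {R : Type} [CommRing R] (t : R) : rep h t x = gx t :=
  (h.lift (GL (Fin 2) R) (gx t) (gy R) (gx_sq t) (gy_cube R)).choose_spec.1

theorem rep_y {R : Type} [CommRing R] (t : R) : rep h t y = gy R :=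
  (h.lift (GL (Fin 2) R) (gx t) (gy R) (gx_sq t) (gy_cube R)).choose_spec.2

/-- the sign `ε` of `Γ` -/
noncomputable def eps : Γ →* ℤˣ := (h.lift ℤˣ (-1) 1 (by norm_num) (by norm_num)).choose

theorem eps_x : eps h x = -1 := (h.lift ℤˣ (-1) 1 (by norm_num) (by norm_num)).choose_spec.1
theorem eps_y : eps h y = 1 := (h.lift ℤˣ (-1) 1 (by norm_num) (by norm_num)).choose_spec.2

/-- the element of order 3 of `Fˣ` -/
def om : Fˣ := ⟨3, 9, by decide, by decide⟩

/-- the cubic character `χ` of `Γ` -/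
noncomputable def chi : Γ →* Fˣ := (h.lift Fˣ 1 om (by norm_num) (by decide)).choose

theorem chi_x : chi h x = 1 := (h.lift Fˣ 1 om (by norm_num) (by decide)).choose_spec.1
theorem chi_y : chi h y = om := (h.lift Fˣ 1 om (by norm_num) (by decide)).choose_spec.2

/-- two homomorphisms from `Γ` which agree on `x` and `y` are equal -/
theorem hom_ext (h : IsC2C3 Γ x y) {G : Type} [Group G] {f g : Γ →* G} (hx : f x = g x)
    (hy : f y = g y) : f = g := by
  have h1 : (⊤ : Subgroup Γ) ≤ f.eqLocus g := by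
    rw [← h.gen, Subgroup.closure_le]
    rintro z (rfl | rfl)
    · exact hx
    · exact hy
  ext z
  exact h1 (Subgroup.mem_top z)

theorem map_gx {R S : Type} [CommRing R] [CommRing S] (f : R →+* S) (t : R) :
    Matrix.GeneralLinearGroup.map f (gx t) = gx (f t) := by
  ext i j
  show f (mx t i j) = mx (f t) i j
  unfold mx
  fin_cases i <;> fin_cases j <;> simp

theorem map_gy {R S : Type} [CommRing R] [CommRing S] (f : R →+* S) :
    Matrix.GeneralLinearGroup.map f (gy R) = gy S := by
  ext i j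
  show f (my R i j) = my S i j
  unfold my
  fin_cases i <;> fin_cases j <;> simp

/-- functoriality of `rep` -/
theorem map_rep {R S : Type} [CommRing R] [CommRing S] (f : R →+* S) (t : R) :
    (Matrix.GeneralLinearGroup.map f).comp (rep h t) = rep h (f t) := by
  apply hom_ext h
  · rw [MonoidHom.comp_apply, rep_x, rep_x, map_gx]
  · rw [MonoidHom.comp_apply, rep_y, rep_y, map_gy]

end rep

instance finite_quot_poly (p : ℕ) [Fact p.Prime] (J : {J : Ideal (ZMod p)[X] // J ≠ ⊥}) :
    Finite ((ZMod p)[X] ⧸ J.1) := by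
  obtain ⟨J, hJ⟩ := J
  obtain ⟨f, hf⟩ := (IsPrincipalIdealRing.principal J).principal
  have hf0 : f ≠ 0 := by
    rintro rfl
    apply hJ
    rw [hf]
    simp
  have : J = Ideal.span {f} := hf
  subst this
  have : Module.Finite (ZMod p) (AdjoinRoot f) := (AdjoinRoot.powerBasis hf0).finite
  exact Module.finite_of_finite (ZMod p) (M := AdjoinRoot f)

/-- the representation of `Λ` transported from `rep` modulo a nonzero ideal -/
noncomputable def rep' {Γ Λ : Type} [Group Γ] [Group Λ] {x y : Γ} (h : IsC2C3 Γ x y)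
    (Φ : NatBij Γ Λ) (J : {J : Ideal F[X] // J ≠ ⊥}) : Λ →* GL (Fin 2) (F[X] ⧸ J.1) :=
  haveI : Finite (GL (Fin 2) (F[X] ⧸ J.1)) := inferInstance
  Φ.toFun _ (rep h (Ideal.Quotient.mk J.1 X))

/-- The ring `B` (the trace ring of `Λ`), abstractly: a finitely generated `F`-algebra whose ideals
of finite index are exactly the kernels of given surjections onto the rings `F[X]/J`, `J ≠ 0`. -/
structure IsTR (B : Type) [CommRing B] [Algebra F B]
    (ev : ∀ J : {J : Ideal F[X] // J ≠ ⊥}, B →ₐ[F] F[X] ⧸ J.1) : Prop where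
  fg : Algebra.FiniteType F B
  surj : ∀ J, Function.Surjective (ev J)
  compat : ∀ (J J' : {J : Ideal F[X] // J ≠ ⊥}) (hJ : J.1 ≤ J'.1) (b : B),
    Ideal.Quotient.factor hJ (ev J b) = ev J' b
  inj : ∀ J J', RingHom.ker (ev J) = RingHom.ker (ev J') → J = J'
  fin : ∀ I : Ideal B, Finite (B ⧸ I) → ∃ J, I = RingHom.ker (ev J)
  sep : ∀ b, (∀ J, ev J b = 0) → b = 0

/-- the mod `p` zeta function: generating function of the numbers of ideals of index `p ^ n` -/
noncomputable def zet (p : ℕ) (D : Type) [CommRing D] : PowerSeries (ZMod p) :=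
  PowerSeries.mk fun n => ((Nat.card {I : Ideal D // Nat.card (D ⧸ I) = p ^ n} : ℕ) : ZMod p)

/-- `Λ` acts on the tree `X`, preserving the type `ty` of vertices. -/
structure TreeAct (Λ V : Type) [Group Λ] [MulAction Λ V] (X : SimpleGraph V) (ty : V → Bool) :
    Prop where
  tree : X.IsTree
  adj : ∀ (g : Λ) (v z : V), X.Adj v z → X.Adj (g • v) (g • z)
  ty_smul : ∀ (g : Λ) (v : V), ty (g • v) = ty v
  ty_adj : ∀ v z, X.Adj v z → ty v ≠ ty z

/-- cocycles -/
abbrev Z1 (Λ M : Type) [Group Λ] [AddCommGroup M] [DistribMulAction Λ M] : Type :=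
  {z : Λ → M // ∀ g h, z (g * h) = z g + g • z h}

/-- fixed points of a subgroup -/
abbrev Fix {Λ : Type} [Group Λ] (H : Subgroup Λ) (M : Type) [AddCommGroup M]
    [DistribMulAction Λ M] : Type := {m : M // ∀ g ∈ H, g • m = m}

/-- the (oriented) edges of `X` between vertices of the finite set `Y` -/
noncomputable def edges {V : Type} (X : SimpleGraph V) (ty : V → Bool) (Y : Finset V) :
    Finset (V × V) :=
  open Classical in (Y ×ˢ Y).filter fun e => X.Adj e.1 e.2 ∧ ty e.1 = true

/-- the additive group `{x | v_j(x) ≤ exp (n_j) for all j}` -/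
def Bsp {K ι : Type} [Field K] (v : ι → Valuation K ℤᵐ⁰) (n : ι → ℤ) : AddSubgroup K where
  carrier := {x | ∀ j, v j x ≤ WithZero.exp (n j)}
  zero_mem' := fun j => by simp
  add_mem' := fun ha hb j => (Valuation.map_add (v j) _ _).trans (max_le (ha j) (hb j))
  neg_mem' := fun ha j => by
    rw [Valuation.map_neg]
    exact ha j

/-- the places at infinity of the Dedekind domain `D` with quotient field `K`: finitely many discrete
valuations `v j` with residue degrees `d j`, weak approximation (`index`), the ring `D` and the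
spaces `Bsp v n` span `K` for one `n`, and intersect in a finite set for all `n`. -/
structure Places (p : ℕ) (D K : Type) [CommRing D] [Field K] [Algebra D K] {ι : Type} [Fintype ι]
    [DecidableEq ι] (v : ι → Valuation K ℤᵐ⁰) (d : ι → ℕ) : Prop where
  pos : ∀ j, 0 < d j
  surj : ∀ j, Function.Surjective (v j)
  index : ∀ (n : ι → ℤ) (j : ι), (Bsp v n).relIndex (Bsp v (n + Pi.single j 1)) = p ^ d j
  cover : ∃ n : ι → ℤ, ∀ z : K, ∃ a : D, ∃ b ∈ Bsp v n, z = algebraMap D K a + b
  finite : ∀ n : ι → ℤ, {a : D | algebraMap D K a ∈ Bsp v n}.Finite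

/-- the prime of `B` of the component through `t = 0` -/
noncomputable def prime0 {B : Type} [CommRing B] [Algebra F B]
    (ev : ∀ J : {J : Ideal F[X] // J ≠ ⊥}, B →ₐ[F] F[X] ⧸ J.1) : Ideal B :=
  ⨅ k : ℕ, RingHom.ker (ev ⟨Ideal.span {(X : F[X]) ^ k}, by simp⟩)

/-- matrices whose determinant is a unit for `w` -/
def Gw {L : Type} [Field L] (w : Valuation L ℤᵐ⁰) : Subgroup (GL (Fin 2) L) where
  carrier := {g | w g.val.det = 1}
  one_mem' := by simp
  mul_mem' := fun {a b} ha hb => by
    simp only [Set.mem_ofPred_eq] at *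
    rw [Units.val_mul, Matrix.det_mul, map_mul, ha, hb, mul_one]
  inv_mem' := fun {a} ha => by
    simp only [Set.mem_ofPred_eq] at *
    have h1 : w (a.val.det * (a⁻¹).val.det) = 1 := by
      rw [← Matrix.det_mul, ← Units.val_mul, mul_inv_cancel]; simp
    rwa [map_mul, ha, one_mul] at h1

/-- the vertices of `Y` different from `a` and `b` -/
noncomputable def inner {V : Type} (Y : Finset V) (a b : V) : Finset V :=
  open Classical in Y.filter fun u => u ≠ a ∧ u ≠ b

end Pool.Agent.PSL2Z
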