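import Pool.Agent.Lib.MP_305fdd_al.PSL.Defs

/-!
# MP_305fdd_al, P1c: the generic representation of `C2 * C3` over `F₁₃[X]` is faithful
-/

set_option autoImplicit false

namespace Pool.Agent.PSL2Z

open Polynomial Pool.Agent.Lib.MP_305fdd_al Pool.Agent.MP_305fdd_al

section faithful

variable {Γ : Type} [Group Γ] {x y : Γ} (h : IsC2C3 Γ x y)

/-- products of `x y` and `x y²` -/
private def FW (x y : Γ) : List Bool → Γ
  | [] => 1
  | true :: l => x * y * FW x y l
  | false :: l => x * (y * y) * FW x y l

include h in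
private theorem Faithful_nf (g : Γ) : ∃ (i j : ℕ) (l : List Bool), i < 3 ∧ j < 2 ∧
    g = y ^ i * FW x y l * x ^ j := by
  have hx2 : x * x = 1 := by rw [← pow_two]; exact h.sq
  have hy3 : y * (y * y) = 1 := by rw [← h.cube]; simp only [pow_succ, pow_zero, one_mul, mul_assoc]
  have hxi : x⁻¹ = x := inv_eq_of_mul_eq_one_left hx2
  have hyi : y⁻¹ = y * y := inv_eq_of_mul_eq_one_right hy3
  -- left multiplication by `x`
  have mx' : ∀ g : Γ, (∃ (i j : ℕ) (l : List Bool), i < 3 ∧ j < 2 ∧ g = y ^ i * FW x y l * x ^ j) →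
      ∃ (i j : ℕ) (l : List Bool), i < 3 ∧ j < 2 ∧ x * g = y ^ i * FW x y l * x ^ j := by
    rintro g ⟨i, j, l, hi, hj, rfl⟩
    rcases i with _ | _ | _ | i
    · rcases l with _ | ⟨b, l⟩
      · rcases j with _ | _ | j
        · exact ⟨0, 1, [], by norm_num, by norm_num, by simp [FW]⟩
        · exact ⟨0, 0, [], by norm_num, by norm_num, by simp [FW, hx2]⟩
        · omega
      · rcases b with _ | _
        · refine ⟨2, j, l, by norm_num, hj, ?_⟩
          simp only [FW, pow_zero, one_mul, pow_two]
          calc x * (x * (y * y) * FW x y l * x ^ j) = (x * x) * ((y * y) * FW x y l * x ^ j) := by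
                group
            _ = _ := by rw [hx2, one_mul]
        · refine ⟨1, j, l, by norm_num, hj, ?_⟩
          simp only [FW, pow_zero, one_mul, pow_one]
          calc x * (x * y * FW x y l * x ^ j) = (x * x) * (y * FW x y l * x ^ j) := by group
            _ = _ := by rw [hx2, one_mul]
    · refine ⟨0, j, true :: l, by norm_num, hj, ?_⟩
      simp only [FW, pow_zero, one_mul, zero_add, pow_one, mul_assoc]
    · refine ⟨0, j, false :: l, by norm_num, hj, ?_⟩
      simp only [FW, pow_zero, one_mul, zero_add, pow_succ, mul_assoc]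
    · omega
  have my' : ∀ g : Γ, (∃ (i j : ℕ) (l : List Bool), i < 3 ∧ j < 2 ∧ g = y ^ i * FW x y l * x ^ j) →
      ∃ (i j : ℕ) (l : List Bool), i < 3 ∧ j < 2 ∧ y * g = y ^ i * FW x y l * x ^ j := by
    rintro g ⟨i, j, l, hi, hj, rfl⟩
    rcases i with _ | _ | _ | i
    · exact ⟨1, j, l, by norm_num, hj, by simp only [pow_zero, one_mul, pow_one, mul_assoc]⟩
    · exact ⟨2, j, l, by norm_num, hj, by
        simp only [zero_add, pow_one, pow_two, mul_assoc]⟩
    · refine ⟨0, j, l, by norm_num, hj, ?_⟩
      calc y * (y ^ (0 + 1 + 1) * FW x y l * x ^ j) = (y * (y * y)) * FW x y l * x ^ j := by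
            simp only [zero_add, pow_succ, pow_zero, one_mul, mul_assoc]
        _ = _ := by rw [hy3, pow_zero]
    · omega
  have hmem : g ∈ Subgroup.closure ({x, y} : Set Γ) := by rw [h.gen]; exact Subgroup.mem_top g
  induction hmem using Subgroup.closure_induction_left with
  | one => exact ⟨0, 0, [], by norm_num, by norm_num, by simp [FW]⟩
  | mul_left z hz w _ ih =>
    rcases hz with rfl | hz
    · exact mx' _ ih
    · rw [Set.mem_singleton_iff] at hz
      subst hz
      exact my' _ ih
  | inv_mul_cancel z hz w _ ih =>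
    rcases hz with rfl | hz
    · rw [hxi]; exact mx' _ ih
    · rw [Set.mem_singleton_iff] at hz
      subst hz
      rw [hyi, mul_assoc]; exact my' _ (my' _ ih)

private theorem Faithful_cols {R : Type} [CommRing R] (t : R) (M : Matrix (Fin 2) (Fin 2) R) :
    ((mx t * my R * M) 0 0 = (t - 1) * M 0 0 - t * M 1 0 ∧
      (mx t * my R * M) 1 0 = - M 0 0 + M 1 0) ∧
    ((mx t * (my R * my R) * M) 0 0 = - t * M 0 0 + M 1 0 ∧
      (mx t * (my R * my R) * M) 1 0 = M 0 0) := by
  refine ⟨⟨?_, ?_⟩, ?_, ?_⟩ <;> simp [mx, my, Matrix.mul_apply, Fin.sum_univ_two] <;> ring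

/-- degrees in the first column -/
private theorem Faithful_deg (l : List Bool) :
    ((rep h (X : F[X]) (FW x y l)).val 0 0).degree = (l.length : WithBot ℕ) ∧
    ((rep h (X : F[X]) (FW x y l)).val 1 0).degree < (l.length : WithBot ℕ) := by
  induction l with
  | nil =>
    simp only [FW, map_one, List.length_nil]
    constructor
    · simp
    · simp
  | cons b l ih =>
    obtain ⟨h1, h2⟩ := ih
    have hX1 : ((X : F[X]) - 1).degree = 1 := by
      have := degree_X_sub_C (1 : F)
      rwa [map_one] at this
    rcases b with _ | _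
    · have e : (rep h (X : F[X]) (FW x y (false :: l))).val =
          mx X * (my F[X] * my F[X]) * (rep h (X : F[X]) (FW x y l)).val := by
        simp only [FW, map_mul, rep_x, rep_y, Units.val_mul]; rfl
      rw [e]
      obtain ⟨-, c1, c2⟩ := Faithful_cols (X : F[X]) (rep h (X : F[X]) (FW x y l)).val
      rw [c1, c2, List.length_cons]
      have h3 : (-(X : F[X]) * (rep h (X : F[X]) (FW x y l)).val 0 0).degree =
          ((l.length + 1 : ℕ) : WithBot ℕ) := by
        rw [neg_mul, degree_neg, degree_mul, degree_X, h1]; push_cast; rw [add_comm]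
      constructor
      · rw [degree_add_eq_left_of_degree_lt, h3]
        rw [h3]
        refine h2.trans ?_
        exact_mod_cast Nat.lt_succ_self _
      · rw [h1]; exact_mod_cast Nat.lt_succ_self _
    · have e : (rep h (X : F[X]) (FW x y (true :: l))).val =
          mx X * my F[X] * (rep h (X : F[X]) (FW x y l)).val := by
        simp only [FW, map_mul, rep_x, rep_y, Units.val_mul]; rfl
      rw [e]
      obtain ⟨⟨c1, c2⟩, -⟩ := Faithful_cols (X : F[X]) (rep h (X : F[X]) (FW x y l)).val
      rw [c1, c2, List.length_cons]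
      have h3 : (((X : F[X]) - 1) * (rep h (X : F[X]) (FW x y l)).val 0 0).degree =
          ((l.length + 1 : ℕ) : WithBot ℕ) := by
        rw [degree_mul, hX1, h1]; push_cast; rw [add_comm]
      have h4 : ((X : F[X]) * (rep h (X : F[X]) (FW x y l)).val 1 0).degree <
          ((l.length + 1 : ℕ) : WithBot ℕ) := by
        rw [degree_mul, degree_X, add_comm]
        push_cast
        exact WithBot.add_lt_add_right (by exact WithBot.one_ne_bot) h2
      constructor
      · rw [degree_sub_eq_left_of_degree_lt, h3]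
        rw [h3]; exact h4
      · refine lt_of_le_of_lt (degree_add_le _ _) ?_
        rw [degree_neg, h1, max_lt_iff]
        have h5 : ((l.length : ℕ) : WithBot ℕ) < ((l.length + 1 : ℕ) : WithBot ℕ) := by
          exact_mod_cast Nat.lt_succ_self _
        exact ⟨h5, h2.trans h5⟩

private theorem Faithful_two : (2 : F[X]) ≠ 0 := by
  have h1 : (2 : F[X]) = C (2 : F) := (map_ofNat C 2).symm
  rw [h1, Ne, C_eq_zero]
  decide

/-- the generic representation is faithful, in terms of traces -/
theorem faithful (g : Γ)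
    (hg : ∀ k : Γ, (rep h (X : F[X]) (g * k)).val.trace = (rep h (X : F[X]) k).val.trace) :
    g = 1 := by
  -- the matrix of `g` is the identity
  set M := (rep h (X : F[X]) g).val with hM
  have e : ∀ k, (M * (rep h (X : F[X]) k).val).trace = (rep h (X : F[X]) k).val.trace := by
    intro k
    have := hg k
    rwa [map_mul, Units.val_mul] at this
  have e1 := e 1
  have ex := e x
  have ey := e y
  have exy := e (x * y)
  simp only [map_mul, map_one, rep_x, rep_y, Units.val_mul, Units.val_one] at e1 ex ey exy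
  change (M * mx X).trace = (mx X).trace at ex
  change (M * my F[X]).trace = (my F[X]).trace at ey
  change (M * (mx X * my F[X])).trace = (mx X * my F[X]).trace at exy
  simp only [Matrix.trace_fin_two, Matrix.mul_apply, Fin.sum_univ_two, mx, my, Matrix.of_apply,
    Matrix.cons_val', Matrix.cons_val_zero, Matrix.cons_val_one, Matrix.cons_val_fin_one,
    Matrix.one_apply_eq, Fin.isValue] at e1 ex ey exy
  have f1 : M 0 0 + M 1 1 = 2 := by simpa [one_add_one_eq_two] using e1
  have fx : M 0 0 + M 1 0 * (X - 1) - M 1 1 = 0 := by linear_combination ex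
  have fy : M 0 1 - M 1 0 - M 1 1 = -1 := by linear_combination ey
  have fxy : M 0 0 * (X - 1) - M 0 1 - M 1 0 * X + M 1 1 = X := by linear_combination exy
  have q1 : M 1 0 * (X ^ 2 + 3) = 0 := by
    linear_combination (X - 1) * (fx + f1) - 2 * (fxy + fy)
  have h3 : (X ^ 2 + 3 : F[X]) ≠ 0 := by
    have : (X ^ 2 + 3 : F[X]) = X ^ 2 + C 3 := by rw [map_ofNat C 3]
    rw [this]
    exact X_pow_add_C_ne_zero (by norm_num) _
  have hc : M 1 0 = 0 := (mul_eq_zero.1 q1).resolve_right h3
  have ha : M 0 0 = 1 := by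
    have : (2 : F[X]) * (M 0 0 - 1) = 0 := by
      rw [hc] at fx
      linear_combination fx + f1
    exact sub_eq_zero.1 ((mul_eq_zero.1 this).resolve_left Faithful_two)
  have hd : M 1 1 = 1 := by rw [ha] at f1; linear_combination f1
  have hb : M 0 1 = 0 := by rw [hc, hd] at fy; linear_combination fy
  have hM1 : rep h (X : F[X]) g = 1 := by
    refine Units.ext (Matrix.ext fun i j => ?_)
    change M i j = (1 : Matrix (Fin 2) (Fin 2) F[X]) i j
    fin_cases i <;> fin_cases j
    · simpa using ha
    · simpa using hb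
    · simpa using hc
    · simpa using hd
  -- normal form
  obtain ⟨i, j, l, hi, hj, hg'⟩ := Faithful_nf h g
  have hW : rep h (X : F[X]) (FW x y l) = (gy F[X] ^ i)⁻¹ * (gx (X : F[X]) ^ j)⁻¹ := by
    have h4 := hM1
    rw [hg', map_mul, map_mul, map_pow, map_pow, rep_x, rep_y] at h4
    calc rep h (X : F[X]) (FW x y l) = (gy F[X] ^ i)⁻¹ *
          (gy F[X] ^ i * rep h (X : F[X]) (FW x y l) * gx (X : F[X]) ^ j) *
          (gx (X : F[X]) ^ j)⁻¹ := by group
      _ = _ := by rw [h4, mul_one]
  have hgy2 : (gy F[X] ^ 2)⁻¹ = gy F[X] := by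
    rw [inv_eq_iff_mul_eq_one, ← pow_succ, gy_cube]
  have vgx : ((gx (X : F[X]))⁻¹).val = mx X := rfl
  have vgy : ((gy F[X])⁻¹).val = my F[X] * my F[X] := rfl
  have vgy' : (gy F[X]).val = my F[X] := rfl
  obtain ⟨d1, -⟩ := Faithful_deg h l
  -- `l` is empty
  have hl : l = [] := by
    have hdeg : ((rep h (X : F[X]) (FW x y l)).val 0 0).degree ≤ 0 := by
      rw [hW, Units.val_mul]
      have hcases : i = 0 ∨ i = 1 ∨ i = 2 := by omega
      have hcases' : j = 0 ∨ j = 1 := by omega
      rcases hcases with rfl | rfl | rfl <;> rcases hcases' with rfl | rfl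
      · simp
      · rw [pow_zero, pow_one, inv_one, vgx]
        simp [mx]
      · rw [pow_zero, pow_one, inv_one, vgy]
        simp [my, Matrix.mul_apply, Fin.sum_univ_two]
      · rw [pow_one, pow_one, vgy, vgx]
        simp [my, mx, Matrix.mul_apply, Fin.sum_univ_two]
      · rw [pow_zero, inv_one, hgy2, vgy']
        simp [my, Matrix.mul_apply, Fin.sum_univ_two]
      · rw [pow_one, hgy2, vgy', vgx]
        simp [my, mx, Matrix.mul_apply, Fin.sum_univ_two]
    rw [d1] at hdeg
    have : l.length ≤ 0 := by exact_mod_cast hdeg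
    exact List.length_eq_zero_iff.1 (Nat.le_zero.1 this)
  subst hl
  have hW' := hW
  simp only [FW, map_one] at hW'
  have w10 := congrArg (fun A : GL (Fin 2) F[X] => A.val 1 0) hW'
  have w11 := congrArg (fun A : GL (Fin 2) F[X] => A.val 1 1) hW'
  simp only [Units.val_one, Units.val_mul] at w10 w11
  have hcases : i = 0 ∨ i = 1 ∨ i = 2 := by omega
  have hcases' : j = 0 ∨ j = 1 := by omega
  have hne : (1 : F[X]) ≠ -1 := by
    intro hc
    apply Faithful_two
    linear_combination hc
  rcases hcases with rfl | rfl | rfl <;> rcases hcases' with rfl | rfl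
  · rw [hg']; simp [FW]
  · exfalso
    rw [pow_zero, pow_one, inv_one, vgx] at w11
    simp [mx] at w11
    exact hne w11
  · exfalso
    rw [pow_zero, pow_one, inv_one, vgy] at w10
    simp [my, Matrix.mul_apply, Fin.sum_univ_two] at w10
  · exfalso
    rw [pow_one, pow_one, vgy, vgx] at w10
    simp [my, mx, Matrix.mul_apply, Fin.sum_univ_two] at w10
  · exfalso
    rw [pow_zero, inv_one, hgy2, vgy'] at w10
    simp [my, Matrix.mul_apply, Fin.sum_univ_two] at w10
  · exfalso
    rw [pow_one, hgy2, vgy', vgx] at w10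
    simp [my, mx, Matrix.mul_apply, Fin.sum_univ_two] at w10

end faithful

end Pool.Agent.PSL2Z
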