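import Pool.Agent.Lib.MP_305fdd_al.PSL.Defs

/-!
# P13: a representation over a field with a discrete valuation

A two-dimensional representation over a big field `Ω` whose traces lie in a subfield `K` with a
discrete valuation `v` is conjugate to a representation over a field `L` of degree at most two
over `K`, and `v` is extended to a discrete valuation of `L`.
-/

set_option autoImplicit false

namespace Pool.Agent.PSL2Z

open Polynomial Pool.Agent.Lib.MP_305fdd_al
open scoped WithZero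
open Valuation MonoidWithZeroHom IsDedekindDomain

namespace FieldRep

/-- extension of a discrete valuation to a finite separable extension -/
theorem exists_valuation_extension {K L : Type} [Field K] [Field L] [Algebra K L]
    [FiniteDimensional K L] [Algebra.IsSeparable K L]
    (v : Valuation K ℤᵐ⁰) (hv : Function.Surjective v) :
    ∃ w : Valuation L ℤᵐ⁰, Function.Surjective w ∧
      ∀ z : K, w (algebraMap K L z) ≤ 1 → v z ≤ 1 := by
  have : IsCyclic (valueGroup (MonoidWithZeroHom.ofClass v)) := inferInstance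
  obtain ⟨π, hπ⟩ := hv (WithZero.exp (-1))
  have : Nontrivial (valueGroup (MonoidWithZeroHom.ofClass v)) := by
    rw [Subgroup.nontrivial_iff_exists_ne_one]
    refine ⟨Units.mk0 (WithZero.exp (-1 : ℤ)) WithZero.exp_ne_zero, ?_, ?_⟩
    · rw [mem_valueGroup_iff_of_comm]
      refine ⟨1, by simp, π, ?_⟩
      rw [map_one, one_mul, Units.val_mk0]
      exact hπ.symm
    · intro h
      have h1 := congrArg Units.val h
      rw [Units.val_mk0, Units.val_one, ← WithZero.exp_zero, WithZero.exp_inj] at h1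
      omega
  have : IsDiscreteValuationRing v.valuationSubring := inferInstance
  have : IsFractionRing v.valuationSubring K := inferInstance
  have : IsDedekindDomain v.valuationSubring := inferInstance
  let S := v.valuationSubring
  let _ : Algebra S L := ((algebraMap K L).comp (algebraMap S K)).toAlgebra
  have : IsScalarTower S K L := IsScalarTower.of_algebraMap_eq fun _ => rfl
  let C := integralClosure S L
  have hC : IsDedekindDomain C := integralClosure.isDedekindDomain S K L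
  have : IsFractionRing C L := integralClosure.isFractionRing_of_finite_extension K L
  obtain ⟨P, hP⟩ := Ideal.exists_maximal C
  have hcomap : (P.comap (algebraMap S C)).IsMaximal :=
    Ideal.isMaximal_comap_of_isIntegral_of_isMaximal P
  have hm : P.comap (algebraMap S C) = IsLocalRing.maximalIdeal S :=
    IsLocalRing.eq_maximalIdeal hcomap
  have hsmall : ∀ z : K, v z < 1 → ∃ s : C, s ∈ P ∧ algebraMap C L s = algebraMap K L z := by
    intro z hz
    have hzS : z ∈ S := (Valuation.mem_valuationSubring_iff v z).mpr hz.le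
    refine ⟨algebraMap S C ⟨z, hzS⟩, ?_, ?_⟩
    · rw [← Ideal.mem_comap, hm]
      rw [IsLocalRing.mem_maximalIdeal, mem_nonunits_iff]
      intro hu
      obtain ⟨u, hu⟩ := hu
      have h1 : v (((u⁻¹ : Sˣ) : S) : K) ≤ 1 := (((u⁻¹ : Sˣ) : S)).2
      have h2 : ((u : S) : K) * (((u⁻¹ : Sˣ) : S) : K) = 1 := by
        have := congrArg (algebraMap S K) u.mul_inv
        rw [map_mul, map_one] at this
        exact this
      rw [hu] at h2
      have h3 := congrArg v h2
      rw [map_mul, map_one] at h3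
      have h4 : v z * v (((u⁻¹ : Sˣ) : S) : K) < 1 := mul_lt_one_of_lt_of_le hz h1
      exact absurd h3 h4.ne
    · rw [← IsScalarTower.algebraMap_apply S C L]
      rfl
  have hPbot : P ≠ ⊥ := by
    rintro rfl
    obtain ⟨s, hs, hs'⟩ := hsmall π (by rw [hπ, ← WithZero.exp_zero, WithZero.exp_lt_exp]; omega)
    rw [Ideal.mem_bot] at hs
    rw [hs, map_zero] at hs'
    have h1 : π = 0 := by
      have := (map_eq_zero_iff (algebraMap K L) (algebraMap K L).injective).mp hs'.symm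
      exact this
    rw [h1, map_zero] at hπ
    exact WithZero.exp_ne_zero hπ.symm
  let Q : HeightOneSpectrum C := ⟨P, hP.isPrime, hPbot⟩
  refine ⟨Q.valuation L, Q.valuation_surjective L, ?_⟩
  intro z hz
  by_contra hlt
  push Not at hlt
  have hz0 : z ≠ 0 := by
    rintro rfl
    rw [map_zero] at hlt
    exact absurd hlt (by simp)
  obtain ⟨s, hs, hs'⟩ := hsmall z⁻¹ (by rw [map_inv₀]; exact inv_lt_one_of_one_lt₀ hlt)
  have h1 : Q.valuation L (algebraMap C L s) < 1 := by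
    rw [HeightOneSpectrum.valuation_lt_one_iff_mem]
    exact hs
  rw [hs', map_inv₀, map_inv₀] at h1
  have h2 : (Q.valuation L (algebraMap K L z))⁻¹ * Q.valuation L (algebraMap K L z) = 1 := by
    apply inv_mul_cancel₀
    simp [hz0]
  have h3 : (Q.valuation L (algebraMap K L z))⁻¹ * Q.valuation L (algebraMap K L z) < 1 :=
    mul_lt_one_of_lt_of_le h1 hz
  exact absurd h2 h3.ne

/-- an eigenvector -/
theorem exists_eigen {Ω : Type} [Field Ω] (M : Matrix (Fin 2) (Fin 2) Ω) (θ : Ω)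
    (h : θ ^ 2 - M.trace * θ + M.det = 0) : ∃ u : Fin 2 → Ω, u ≠ 0 ∧ M.mulVec u = θ • u := by
  have hdet : (M - θ • (1 : Matrix (Fin 2) (Fin 2) Ω)).det = 0 := by
    rw [Matrix.det_fin_two] at h ⊢
    rw [Matrix.trace_fin_two] at h
    simp only [Matrix.sub_apply, Matrix.smul_apply, Matrix.one_apply, smul_eq_mul]
    simp
    linear_combination h
  obtain ⟨u, hu, hu'⟩ := Matrix.exists_mulVec_eq_zero_iff.mpr hdet
  refine ⟨u, hu, ?_⟩
  rw [Matrix.sub_mulVec, Matrix.smul_mulVec, Matrix.one_mulVec, sub_eq_zero] at hu'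
  exact hu'

/-- simultaneous diagonalisation basis: two different eigenvalues -/
theorem exists_diag {Ω : Type} [Field Ω] (M : Matrix (Fin 2) (Fin 2) Ω) (θ θ' : Ω) (hne : θ ≠ θ')
    (h : θ ^ 2 - M.trace * θ + M.det = 0) (h' : θ' ^ 2 - M.trace * θ' + M.det = 0) :
    ∃ P : GL (Fin 2) Ω, M * P.val = P.val * !![θ, 0; 0, θ'] := by
  obtain ⟨u, hu, hu1⟩ := exists_eigen M θ h
  obtain ⟨w, hw, hw1⟩ := exists_eigen M θ' h'
  have e0 : M 0 0 * u 0 + M 0 1 * u 1 = θ * u 0 := by
    have := congrFun hu1 0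
    simpa [Matrix.mulVec, dotProduct, Fin.sum_univ_two] using this
  have e1 : M 1 0 * u 0 + M 1 1 * u 1 = θ * u 1 := by
    have := congrFun hu1 1
    simpa [Matrix.mulVec, dotProduct, Fin.sum_univ_two] using this
  have f0 : M 0 0 * w 0 + M 0 1 * w 1 = θ' * w 0 := by
    have := congrFun hw1 0
    simpa [Matrix.mulVec, dotProduct, Fin.sum_univ_two] using this
  have f1 : M 1 0 * w 0 + M 1 1 * w 1 = θ' * w 1 := by
    have := congrFun hw1 1
    simpa [Matrix.mulVec, dotProduct, Fin.sum_univ_two] using this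
  have hdet : (!![u 0, w 0; u 1, w 1] : Matrix (Fin 2) (Fin 2) Ω).det ≠ 0 := by
    intro hd
    obtain ⟨c, hc, hc'⟩ := Matrix.exists_mulVec_eq_zero_iff.mpr hd
    have g0 : u 0 * c 0 + w 0 * c 1 = 0 := by
      have := congrFun hc' 0
      simpa [Matrix.mulVec, dotProduct, Fin.sum_univ_two] using this
    have g1 : u 1 * c 0 + w 1 * c 1 = 0 := by
      have := congrFun hc' 1
      simpa [Matrix.mulVec, dotProduct, Fin.sum_univ_two] using this
    have hs : θ - θ' ≠ 0 := sub_ne_zero.mpr hne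
    have k0 : c 0 * ((θ - θ') * u 0) = 0 := by
      linear_combination (-c 0) * e0 - c 1 * f0 + M 0 0 * g0 + M 0 1 * g1 - θ' * g0
    have k1 : c 0 * ((θ - θ') * u 1) = 0 := by
      linear_combination (-c 0) * e1 - c 1 * f1 + M 1 0 * g0 + M 1 1 * g1 - θ' * g1
    have l0 : c 1 * ((θ' - θ) * w 0) = 0 := by
      linear_combination (-c 0) * e0 - c 1 * f0 + M 0 0 * g0 + M 0 1 * g1 - θ * g0
    have l1 : c 1 * ((θ' - θ) * w 1) = 0 := by
      linear_combination (-c 0) * e1 - c 1 * f1 + M 1 0 * g0 + M 1 1 * g1 - θ * g1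
    have hs' : θ' - θ ≠ 0 := sub_ne_zero.mpr hne.symm
    have hc0 : c 0 = 0 := by
      by_contra hcc
      apply hu
      funext i
      fin_cases i
      · simpa [hcc, hs] using k0
      · simpa [hcc, hs] using k1
    have hc1 : c 1 = 0 := by
      by_contra hcc
      apply hw
      funext i
      fin_cases i
      · simpa [hcc, hs'] using l0
      · simpa [hcc, hs'] using l1
    apply hc
    funext i
    fin_cases i
    · exact hc0
    · exact hc1
  refine ⟨Matrix.GeneralLinearGroup.mkOfDetNeZero _ hdet, ?_⟩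
  show M * !![u 0, w 0; u 1, w 1] = !![u 0, w 0; u 1, w 1] * !![θ, 0; 0, θ']
  ext i j
  fin_cases i <;> fin_cases j
  · simp [Matrix.mul_apply, Fin.sum_univ_two]; linear_combination e0
  · simp [Matrix.mul_apply, Fin.sum_univ_two]; linear_combination f0
  · simp [Matrix.mul_apply, Fin.sum_univ_two]; linear_combination e1
  · simp [Matrix.mul_apply, Fin.sum_univ_two]; linear_combination f1

/-- entries of a product -/
theorem mul_entries {G Ω : Type} [Group G] [Field Ω] (R : G →* GL (Fin 2) Ω) (g h : G) :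
    (R (g * h)).val 0 0 = (R g).val 0 0 * (R h).val 0 0 + (R g).val 0 1 * (R h).val 1 0 ∧
    (R (g * h)).val 0 1 = (R g).val 0 0 * (R h).val 0 1 + (R g).val 0 1 * (R h).val 1 1 ∧
    (R (g * h)).val 1 0 = (R g).val 1 0 * (R h).val 0 0 + (R g).val 1 1 * (R h).val 1 0 ∧
    (R (g * h)).val 1 1 = (R g).val 1 0 * (R h).val 0 1 + (R g).val 1 1 * (R h).val 1 1 := by
  rw [map_mul, Units.val_mul]
  simp [Matrix.mul_apply, Fin.sum_univ_two]

/-- if the off-diagonal products vanish then commutators have trace 2 -/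
theorem comm_trace {G Ω : Type} [Group G] [Field Ω] (R : G →* GL (Fin 2) Ω)
    (h0 : ∀ g h, (R g).val 0 1 * (R h).val 1 0 = 0) (g h : G) :
    (R (g * h * g⁻¹ * h⁻¹)).val.trace = 2 := by
  have ha : ∀ x y, (R (x * y)).val 0 0 = (R x).val 0 0 * (R y).val 0 0 := by
    intro x y
    rw [(mul_entries R x y).1, h0, add_zero]
  have hd : ∀ x y, (R (x * y)).val 1 1 = (R x).val 1 1 * (R y).val 1 1 := by
    intro x y
    rw [(mul_entries R x y).2.2.2, mul_comm ((R x).val 1 0), h0, zero_add]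
  have ha1 : ∀ x, (R x).val 0 0 * (R x⁻¹).val 0 0 = 1 := by
    intro x
    rw [← ha, mul_inv_cancel, map_one]
    simp
  have hd1 : ∀ x, (R x).val 1 1 * (R x⁻¹).val 1 1 = 1 := by
    intro x
    rw [← hd, mul_inv_cancel, map_one]
    simp
  rw [Matrix.trace_fin_two, ha, ha, ha, hd, hd, hd]
  have e1 := ha1 g
  have e2 := ha1 h
  have e3 := hd1 g
  have e4 := hd1 h
  linear_combination ((R h).val 0 0 * (R h⁻¹).val 0 0) * e1 + e2 +
    ((R h).val 1 1 * (R h⁻¹).val 1 1) * e3 + e4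

/-- conjugation -/
theorem conj_eq {G Ω : Type} [Group G] [Field Ω] (R : G →* GL (Fin 2) Ω) (P : GL (Fin 2) Ω) :
    ∃ R' : G →* GL (Fin 2) Ω, (∀ g, P.val * (R' g).val = (R g).val * P.val) ∧
      (∀ g, (R' g).val.trace = (R g).val.trace) ∧ (∀ g, (R' g).val.det = (R g).val.det) ∧
      (∀ g, R' g = 1 ↔ R g = 1) := by
  refine ⟨(MulAut.conj P⁻¹).toMonoidHom.comp R, ?_, ?_, ?_, ?_⟩
  · intro g
    show P.val * (P⁻¹ * R g * P⁻¹⁻¹ : GL (Fin 2) Ω).val = _
    rw [← Units.val_mul, ← Units.val_mul]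
    congr 1
    group
  · intro g
    show (P⁻¹ * R g * P⁻¹⁻¹ : GL (Fin 2) Ω).val.trace = _
    rw [inv_inv, Units.val_mul, Units.val_mul]
    exact Matrix.trace_units_conj' P _
  · intro g
    show (P⁻¹ * R g * P⁻¹⁻¹ : GL (Fin 2) Ω).val.det = _
    rw [inv_inv, Units.val_mul, Units.val_mul]
    exact Matrix.det_units_conj' P _
  · intro g
    show P⁻¹ * R g * P⁻¹⁻¹ = 1 ↔ _
    constructor
    · intro h
      have h1 : R g = P * (P⁻¹ * R g * P⁻¹⁻¹) * P⁻¹ := by group
      rw [h1, h]; group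
    · intro h
      rw [h]; group

/-- a representation with entries in a subfield -/
theorem descend {G K Ω : Type} [Group G] [Field K] [Field Ω] [Algebra K Ω]
    (L : IntermediateField K Ω) (R : G →* GL (Fin 2) Ω)
    (hR : ∀ g i j, (R g).val i j ∈ L) :
    ∃ ρ : G →* GL (Fin 2) L, ∀ g,
      Matrix.GeneralLinearGroup.map (algebraMap L Ω) (ρ g) = R g := by
  have hinj : Function.Injective (Matrix.GeneralLinearGroup.map (n := Fin 2) (algebraMap L Ω)) := by
    intro A B hAB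
    ext i j
    have h1 := congrArg (fun M : GL (Fin 2) Ω => M.val i j) hAB
    exact h1
  have hran : ∀ g, ∃ y : GL (Fin 2) L,
      Matrix.GeneralLinearGroup.map (algebraMap L Ω) y = R g := by
    intro g
    set N : Matrix (Fin 2) (Fin 2) L := Matrix.of fun i j => ⟨(R g).val i j, hR g i j⟩ with hN
    have hmap : N.map (algebraMap L Ω) = (R g).val := by
      ext i j
      rfl
    have hdet : N.det ≠ 0 := by
      intro h0
      have h1 : (N.map (algebraMap L Ω)).det = 0 := by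
        have := RingHom.map_det (algebraMap L Ω) N
        rw [h0, map_zero] at this
        exact this.symm
      rw [hmap] at h1
      have h2 : IsUnit (R g).val.det := (Matrix.isUnit_iff_isUnit_det _).mp (R g).isUnit
      rw [h1] at h2
      exact not_isUnit_zero h2
    refine ⟨Matrix.GeneralLinearGroup.mkOfDetNeZero N hdet, ?_⟩
    ext i j
    rfl
  choose f hf using hran
  refine ⟨MonoidHom.mk' f ?_, ?_⟩
  · intro a b
    apply hinj
    rw [map_mul, hf, hf, hf, map_mul]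
  · intro g
    exact hf g

/-- a quadratic extension -/
theorem quad_ext {K Ω : Type} [Field K] [Field Ω] [Algebra K Ω] (h2 : (2 : K) ≠ 0) (δ : K)
    (hδ0 : δ ≠ 0) (s : Ω) (hs : s ^ 2 = algebraMap K Ω δ) :
    FiniteDimensional K (IntermediateField.adjoin K {s}) ∧
      Algebra.IsSeparable K (IntermediateField.adjoin K {s}) := by
  have hroot : aeval s (X ^ 2 - C δ : K[X]) = 0 := by
    simp [hs]
  have hint : IsIntegral K s := ⟨X ^ 2 - C δ, monic_X_pow_sub_C δ (by norm_num), by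
    rw [← aeval_def]; exact hroot⟩
  refine ⟨IntermediateField.adjoin.finiteDimensional hint, ?_⟩
  have h2' : ((2 : ℕ) : K) ≠ 0 := by rw [Nat.cast_ofNat]; exact h2
  have hsep : (X ^ 2 - C δ : K[X]).Separable := separable_X_pow_sub_C δ h2' hδ0
  have h1 : IsSeparable K s := hsep.of_dvd (minpoly.dvd K s hroot)
  exact (IntermediateField.isSeparable_adjoin_simple_iff_isSeparable K Ω).mpr h1

/-- the conjugated representation has entries in `K(s)` -/
theorem conj_entries {Λ K Ω : Type} [Group Λ] [Field K] [Field Ω] [Algebra K Ω]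
    (h2 : (2 : K) ≠ 0) (R₁ : Λ →* GL (Fin 2) Ω) (e : K) (l₀ : Λ)
    (T : Λ → K) (hT : ∀ g, (R₁ g).val.trace = algebraMap K Ω (T g))
    (hdet : (R₁ l₀).val.det = algebraMap K Ω e)
    (s : Ω) (hs : s ^ 2 = algebraMap K Ω (T l₀ ^ 2 - 4 * e)) (hs0 : s ≠ 0)
    (g₀ h₀ : Λ) (hgh : T (g₀ * h₀ * g₀⁻¹ * h₀⁻¹) ≠ 2) (L : IntermediateField K Ω)
    (hsL : s ∈ L) :
    ∃ R : Λ →* GL (Fin 2) Ω, (∀ g i j, (R g).val i j ∈ L) ∧
      (∀ g, (R g).val.trace = (R₁ g).val.trace) ∧ (∀ g, (R g).val.det = (R₁ g).val.det) ∧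
      (∀ g, R g = 1 ↔ R₁ g = 1) := by
  have h2' : (2 : Ω) ≠ 0 := by
    have : (2 : Ω) = algebraMap K Ω 2 := (map_ofNat _ 2).symm
    rw [this, Ne, map_eq_zero_iff _ (algebraMap K Ω).injective]
    exact h2
  set t : Ω := algebraMap K Ω (T l₀) with ht
  rw [_root_.map_sub, map_mul, map_pow, map_ofNat, ← ht] at hs
  set θ : Ω := (t + s) / 2 with hθ
  set θ' : Ω := (t - s) / 2 with hθ'
  have hne : θ ≠ θ' := by
    intro h
    apply hs0
    rw [hθ, hθ'] at h
    field_simp at h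
    have h3 : 2 * s = 0 := by linear_combination h
    exact (mul_eq_zero.mp h3).resolve_left h2'
  have h4' : (4 : Ω) ≠ 0 := by
    have : (4 : Ω) = 2 * 2 := by norm_num
    rw [this]
    exact mul_ne_zero h2' h2'
  obtain ⟨P, hP⟩ := exists_diag (R₁ l₀).val θ θ' hne (by
      rw [hT, hdet, ← ht, hθ]
      field_simp
      linear_combination hs) (by
      rw [hT, hdet, ← ht, hθ']
      field_simp
      linear_combination hs)
  obtain ⟨R₂, hR₂, htr₂, hdet₂, hone₂⟩ := conj_eq R₁ P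
  have hdiag : (R₂ l₀).val = !![θ, 0; 0, θ'] := by
    have h1 := hR₂ l₀
    rw [hP] at h1
    have h3 : (P⁻¹).val * (P.val * (R₂ l₀).val) = (P⁻¹).val * (P.val * !![θ, 0; 0, θ']) := by
      rw [h1]
    rw [← Matrix.mul_assoc, ← Matrix.mul_assoc, ← Units.val_mul, inv_mul_cancel, Units.val_one,
      Matrix.one_mul, Matrix.one_mul] at h3
    exact h3
  have hKL : ∀ z : K, algebraMap K Ω z ∈ L := fun z => L.algebraMap_mem z
  have h2L : (2 : Ω) ∈ L := by
    have : (2 : Ω) = algebraMap K Ω 2 := (map_ofNat _ 2).symm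
    rw [this]; exact hKL 2
  have hθL' : θ' ∈ L := L.div_mem (L.sub_mem (hKL _) hsL) h2L
  have htr : ∀ g, (R₂ g).val 0 0 + (R₂ g).val 1 1 = algebraMap K Ω (T g) := by
    intro g
    rw [← hT, ← htr₂, Matrix.trace_fin_two]
  have htrl : ∀ g, θ * (R₂ g).val 0 0 + θ' * (R₂ g).val 1 1 = algebraMap K Ω (T (l₀ * g)) := by
    intro g
    rw [← htr, (mul_entries R₂ l₀ g).1, (mul_entries R₂ l₀ g).2.2.2, hdiag]
    simp
  have haL : ∀ g, (R₂ g).val 0 0 ∈ L := by
    intro g
    have h1 : (R₂ g).val 0 0 = (algebraMap K Ω (T (l₀ * g)) - θ' * algebraMap K Ω (T g)) / s := by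
      rw [eq_div_iff hs0, ← htrl, ← htr]
      have : s = θ - θ' := by rw [hθ, hθ']; field_simp; ring
      rw [this]; ring
    rw [h1]
    exact L.div_mem (L.sub_mem (hKL _) (L.mul_mem hθL' (hKL _))) hsL
  have hdL : ∀ g, (R₂ g).val 1 1 ∈ L := by
    intro g
    have h1 : (R₂ g).val 1 1 = algebraMap K Ω (T g) - (R₂ g).val 0 0 := by
      rw [← htr]; ring
    rw [h1]
    exact L.sub_mem (hKL _) (haL g)
  have hbcL : ∀ g h, (R₂ g).val 0 1 * (R₂ h).val 1 0 ∈ L := by
    intro g h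
    have h1 : (R₂ g).val 0 1 * (R₂ h).val 1 0 =
        (R₂ (g * h)).val 0 0 - (R₂ g).val 0 0 * (R₂ h).val 0 0 := by
      rw [(mul_entries R₂ g h).1]; ring
    rw [h1]
    exact L.sub_mem (haL _) (L.mul_mem (haL _) (haL _))
  have hex : ∃ g₁ m₀, (R₂ g₁).val 0 1 * (R₂ m₀).val 1 0 ≠ 0 := by
    by_contra hno
    push Not at hno
    have h1 := comm_trace R₂ hno g₀ h₀
    rw [htr₂, hT] at h1
    apply hgh
    apply (algebraMap K Ω).injective
    rw [h1, map_ofNat]
  obtain ⟨g₁, m₀, hgm⟩ := hex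
  have hb : (R₂ g₁).val 0 1 ≠ 0 := left_ne_zero_of_mul hgm
  have hc : (R₂ m₀).val 1 0 ≠ 0 := right_ne_zero_of_mul hgm
  set c₀ := (R₂ m₀).val 1 0 with hc₀
  have hD : (!![1, 0; 0, c₀] : Matrix (Fin 2) (Fin 2) Ω).det ≠ 0 := by
    rw [Matrix.det_fin_two]; simpa using hc
  obtain ⟨R₃, hR₃, htr₃, hdet₃, hone₃⟩ :=
    conj_eq R₂ (Matrix.GeneralLinearGroup.mkOfDetNeZero _ hD)
  have hR₃' : ∀ g, (!![1, 0; 0, c₀] : Matrix (Fin 2) (Fin 2) Ω) * (R₃ g).val =
      (R₂ g).val * !![1, 0; 0, c₀] := hR₃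
  have hent : ∀ g, (R₃ g).val 0 0 = (R₂ g).val 0 0 ∧ (R₃ g).val 0 1 = (R₂ g).val 0 1 * c₀ ∧
      c₀ * (R₃ g).val 1 0 = (R₂ g).val 1 0 ∧ (R₃ g).val 1 1 = (R₂ g).val 1 1 := by
    intro g
    have h00 := congrFun (congrFun (hR₃' g) 0) 0
    have h01 := congrFun (congrFun (hR₃' g) 0) 1
    have h10 := congrFun (congrFun (hR₃' g) 1) 0
    have h11 := congrFun (congrFun (hR₃' g) 1) 1
    simp [Matrix.mul_apply, Fin.sum_univ_two] at h00 h01 h10 h11
    refine ⟨h00, h01, h10, ?_⟩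
    rw [mul_comm] at h11
    exact mul_right_cancel₀ hc h11
  refine ⟨R₃, ?_, fun g => by rw [htr₃, htr₂], fun g => by rw [hdet₃, hdet₂],
    fun g => by rw [hone₃, hone₂]⟩
  intro g i j
  obtain ⟨e00, e01, e10, e11⟩ := hent g
  fin_cases i <;> fin_cases j
  · show (R₃ g).val 0 0 ∈ L
    rw [e00]; exact haL g
  · show (R₃ g).val 0 1 ∈ L
    rw [e01]; exact hbcL g m₀
  · show (R₃ g).val 1 0 ∈ L
    have h1 : (R₃ g).val 1 0 = ((R₂ g₁).val 0 1 * (R₂ g).val 1 0) / ((R₂ g₁).val 0 1 * c₀) := by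
      rw [← e10]
      field_simp
    rw [h1]
    exact L.div_mem (hbcL g₁ g) (hbcL g₁ m₀)
  · show (R₃ g).val 1 1 ∈ L
    rw [e11]; exact hdL g

/-- the main step over an algebraically closed field -/
theorem main_step {Λ K Ω : Type} [Group Λ] [Field K] [Field Ω] [IsAlgClosed Ω] [Algebra K Ω]
    (h2 : (2 : K) ≠ 0) (v : Valuation K ℤᵐ⁰) (hv : Function.Surjective v)
    (R₁ : Λ →* GL (Fin 2) Ω) (ε : Λ →* ℤˣ) (hdet : ∀ g, (R₁ g).val.det = (((ε g : ℤˣ) : ℤ) : Ω))
    (T : Λ → K) (hT : ∀ g, (R₁ g).val.trace = algebraMap K Ω (T g))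
    (l₀ : Λ) (hl₀ : 1 < v (T l₀)) (g₀ h₀ : Λ) (hgh : T (g₀ * h₀ * g₀⁻¹ * h₀⁻¹) ≠ 2) :
    ∃ (L : Type) (_ : Field L) (_ : Algebra K L) (w : Valuation L ℤᵐ⁰) (ρ : Λ →* GL (Fin 2) L),
      Function.Surjective w ∧ (∀ z : K, w (algebraMap K L z) ≤ 1 → v z ≤ 1) ∧
      (∀ g, (ρ g).val.trace = algebraMap K L (T g)) ∧
      (∀ g, (ρ g).val.det = (((ε g : ℤˣ) : ℤ) : L)) ∧
      (∀ g, ρ g = 1 ↔ R₁ g = 1) := by
  set δ : K := T l₀ ^ 2 - 4 * (((ε l₀ : ℤˣ) : ℤ) : K) with hδ
  have hδ0 : δ ≠ 0 := by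
    intro h0
    have h1 : T l₀ ^ 2 = (1 + 1) * (1 + 1) * (((ε l₀ : ℤˣ) : ℤ) : K) := by
      linear_combination h0
    have h3 : v (1 + 1 : K) ≤ 1 := by
      refine (v.map_add 1 1).trans ?_
      simp
    have h4 : v (((ε l₀ : ℤˣ) : ℤ) : K) = 1 := by
      rcases Int.units_eq_one_or (ε l₀) with h | h
      · rw [h]; simp
      · rw [h]; simp
    have h5 : v (T l₀) ^ 2 ≤ 1 := by
      rw [← map_pow, h1, map_mul, map_mul, h4, mul_one]
      exact mul_le_one' h3 h3
    have h6 : 1 < v (T l₀) ^ 2 := one_lt_pow₀ hl₀ (by norm_num)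
    exact absurd h5 (not_le.mpr h6)
  obtain ⟨s, hs⟩ := IsAlgClosed.exists_pow_nat_eq (algebraMap K Ω δ) (n := 2) (by norm_num)
  have hs0 : s ≠ 0 := by
    rintro rfl
    rw [zero_pow (by norm_num)] at hs
    exact hδ0 ((map_eq_zero_iff _ (algebraMap K Ω).injective).mp hs.symm)
  obtain ⟨hfin, hsep⟩ := quad_ext h2 δ hδ0 s hs
  obtain ⟨w, hw, hw'⟩ := exists_valuation_extension (L := IntermediateField.adjoin K {s}) v hv
  obtain ⟨R, hRL, htr, hdt, hone⟩ := conj_entries h2 R₁ (((ε l₀ : ℤˣ) : ℤ) : K) l₀ T hT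
    (by rw [hdet]; simp) s hs hs0 g₀ h₀ hgh (IntermediateField.adjoin K {s})
    (IntermediateField.mem_adjoin_simple_self K s)
  obtain ⟨ρ, hρ⟩ := descend (IntermediateField.adjoin K {s}) R hRL
  have hent : ∀ g i j, algebraMap (IntermediateField.adjoin K {s}) Ω ((ρ g).val i j) =
      (R g).val i j := by
    intro g i j
    rw [← hρ]
    rfl
  have hinj : Function.Injective (algebraMap (IntermediateField.adjoin K {s}) Ω) :=
    (algebraMap (IntermediateField.adjoin K {s}) Ω).injective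
  refine ⟨IntermediateField.adjoin K {s}, inferInstance, inferInstance, w, ρ, hw, hw', ?_, ?_, ?_⟩
  · intro g
    apply hinj
    rw [Matrix.trace_fin_two, map_add, hent, hent, ← Matrix.trace_fin_two, htr, hT]
    rfl
  · intro g
    apply hinj
    rw [Matrix.det_fin_two, _root_.map_sub, map_mul, map_mul, hent, hent, hent, hent,
      ← Matrix.det_fin_two, hdt, hdet]
    simp
  · intro g
    rw [← hone]
    constructor
    · intro h
      rw [← hρ, h, map_one]
    · intro h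
      ext i j : 2
      apply hinj
      have h1 := hent g i j
      rw [h] at h1
      refine h1.trans ?_
      rw [Units.val_one, Units.val_one, Matrix.one_apply, Matrix.one_apply]
      split <;> simp

end FieldRep

open FieldRep in
theorem exists_fieldRep {Λ K Ω : Type} [Group Λ] [Field K] [Field Ω] [Algebra K Ω]
    (h2 : (2 : K) ≠ 0) (v : Valuation K ℤᵐ⁰) (hv : Function.Surjective v)
    (ρ₀ : Λ →* GL (Fin 2) Ω) (ε : Λ →* ℤˣ) (hdet : ∀ g, (ρ₀ g).val.det = (((ε g : ℤˣ) : ℤ) : Ω))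
    (T : Λ → K) (hT : ∀ g, (ρ₀ g).val.trace = algebraMap K Ω (T g))
    (l₀ : Λ) (hl₀ : 1 < v (T l₀)) (g₀ h₀ : Λ) (hgh : T (g₀ * h₀ * g₀⁻¹ * h₀⁻¹) ≠ 2) :
    ∃ (L : Type) (_ : Field L) (_ : Algebra K L) (w : Valuation L ℤᵐ⁰) (ρ : Λ →* GL (Fin 2) L),
      Function.Surjective w ∧ (∀ z : K, w (algebraMap K L z) ≤ 1 → v z ≤ 1) ∧
      (∀ g, (ρ g).val.trace = algebraMap K L (T g)) ∧
      (∀ g, (ρ g).val.det = (((ε g : ℤˣ) : ℤ) : L)) ∧
      (∀ g, ρ g = 1 ↔ ρ₀ g = 1) := by
  obtain ⟨L, i1, i2, w, ρ, h3, h4, h5, h6, h7⟩ := main_step (Ω := AlgebraicClosure Ω) h2 v hv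
    ((Matrix.GeneralLinearGroup.map (algebraMap Ω (AlgebraicClosure Ω))).comp ρ₀) ε
    (by
      intro g
      have h1 : (((Matrix.GeneralLinearGroup.map (algebraMap Ω (AlgebraicClosure Ω))).comp ρ₀)
        g).val.det = algebraMap Ω (AlgebraicClosure Ω) (ρ₀ g).val.det := by
        rw [Matrix.det_fin_two, Matrix.det_fin_two, _root_.map_sub, map_mul, map_mul]
        rfl
      rw [h1, hdet]
      simp)
    T
    (by
      intro g
      have h1 : (((Matrix.GeneralLinearGroup.map (algebraMap Ω (AlgebraicClosure Ω))).comp ρ₀)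
        g).val.trace = algebraMap Ω (AlgebraicClosure Ω) (ρ₀ g).val.trace := by
        rw [Matrix.trace_fin_two, Matrix.trace_fin_two, map_add]
        rfl
      rw [h1, hT]
      exact (IsScalarTower.algebraMap_apply K Ω (AlgebraicClosure Ω) (T g)).symm)
    l₀ hl₀ g₀ h₀ hgh
  refine ⟨L, i1, i2, w, ρ, h3, h4, h5, h6, ?_⟩
  intro g
  rw [h7]
  constructor
  · intro h
    ext i j
    have h1 := congrArg (fun M : GL (Fin 2) (AlgebraicClosure Ω) => M.val i j) h
    have h3 : algebraMap Ω (AlgebraicClosure Ω) ((ρ₀ g).val i j) =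
        (1 : Matrix (Fin 2) (Fin 2) (AlgebraicClosure Ω)) i j := h1
    have h4 : (1 : Matrix (Fin 2) (Fin 2) (AlgebraicClosure Ω)) i j =
        algebraMap Ω (AlgebraicClosure Ω) ((1 : Matrix (Fin 2) (Fin 2) Ω) i j) := by
      rw [Matrix.one_apply, Matrix.one_apply]
      split <;> simp
    rw [h4] at h3
    exact (algebraMap Ω (AlgebraicClosure Ω)).injective h3
  · intro h
    rw [MonoidHom.comp_apply, h, map_one]

end Pool.Agent.PSL2Z
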