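import Pool.Agent.Lib.MP_305fdd_al.PSL.Defs

/-!
# MP_305fdd_al, P19: bookkeeping in finite subtrees of a tree
-/

set_option autoImplicit false
set_option linter.unusedVariables false

namespace Pool.Agent.PSL2Z

/-- a simple path inside a connected subset of a tree -/
theorem exists_path {V : Type} {X : SimpleGraph V} (hX : X.IsTree) (Y : Finset V)
    (hY : (X.induce (Y : Set V)).Connected) (a b : V) (ha : a ∈ Y) (hb : b ∈ Y) :
    ∃ (n : ℕ) (z : ℕ → V), z 0 = a ∧ z n = b ∧ (∀ i < n, X.Adj (z i) (z (i + 1))) ∧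
      (∀ i ≤ n, ∀ j ≤ n, z i = z j → i = j) ∧ (∀ i ≤ n, z i ∈ Y) := by
  classical
  obtain ⟨p, hp⟩ := (hY.preconnected ⟨a, ha⟩ ⟨b, hb⟩).exists_isPath
  refine ⟨p.length, fun i => (p.getVert i).1, ?_, ?_, ?_, ?_, ?_⟩
  · simp
  · simp
  · intro i hi
    exact p.adj_getVert_succ hi
  · intro i hi j hj hij
    exact hp.getVert_injOn hi hj (Subtype.ext hij)
  · intro i _
    exact (p.getVert i).2

namespace Partner

variable {V : Type} (X : SimpleGraph V) (ty : V → Bool) (Y : Finset V)

/-- the pair `a, b` in the order prescribed by `ty` -/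
def orient (a b : V) : V × V := if ty a = true then (a, b) else (b, a)

theorem orient_eq {a b c d : V} (h : orient ty a b = orient ty c d) :
    (a = c ∧ b = d) ∨ (a = d ∧ b = c) := by
  unfold orient at h
  split_ifs at h <;> simp only [Prod.mk.injEq] at h <;> tauto

theorem orient_mem (hty : ∀ v z, X.Adj v z → ty v ≠ ty z) {a b : V} (ha : a ∈ Y) (hb : b ∈ Y)
    (h : X.Adj a b) : orient ty a b ∈ edges X ty Y := by
  classical
  unfold orient edges
  split_ifs with h1
  · simp [ha, hb, h, h1]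
  · have h2 := hty _ _ h
    have h3 : ty b = true := by
      cases h4 : ty b
      · cases h5 : ty a
        · rw [h4, h5] at h2; exact absurd rfl h2
        · exact absurd h5 h1
      · rfl
    simp [ha, hb, h.symm, h3]

theorem sum_orient (f : V → V → ℚ) (hf : ∀ a b, f a b = f b a) (a b : V) :
    f (orient ty a b).1 (orient ty a b).2 = f a b := by
  unfold orient
  split_ifs
  · rfl
  · exact hf b a

theorem card_edges_le (hX : X.IsTree) (hty : ∀ v z, X.Adj v z → ty v ≠ ty z)
    (hY : (X.induce (Y : Set V)).Connected)  :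
    (edges X ty Y).card + 1 ≤ Y.card := by
  classical
  have hT : (X.induce (Y : Set V)).IsTree := ⟨hY, hX.isAcyclic.induce _⟩
  have h1 := hT.card_edgeFinset
  have h2 : Fintype.card (Y : Set V) = Y.card := by simp
  rw [h2] at h1
  have h3 : (edges X ty Y).card ≤ (X.induce (Y : Set V)).edgeFinset.card := by
    refine Finset.card_le_card_of_injOn
      (fun e => if h : e.1 ∈ Y ∧ e.2 ∈ Y then
        s((⟨e.1, h.1⟩ : (Y : Set V)), (⟨e.2, h.2⟩ : (Y : Set V))) else
        s((⟨_, (hY.nonempty.some).2⟩ : (Y : Set V)), ⟨_, (hY.nonempty.some).2⟩)) ?_ ?_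
    · intro e he
      simp only [edges, Finset.coe_filter, Finset.mem_product, Set.mem_ofPred_eq] at he
      obtain ⟨⟨h4, h5⟩, h6, _⟩ := he
      simp only [h4, h5, and_self, dite_true, SimpleGraph.coe_edgeFinset,
        SimpleGraph.mem_edgeSet]
      exact h6
    · intro e he e' he' hee
      simp only [edges, Finset.coe_filter, Finset.mem_product, Set.mem_ofPred_eq] at he he'
      obtain ⟨⟨h4, h5⟩, h6, h7⟩ := he
      obtain ⟨⟨h4', h5'⟩, h6', h7'⟩ := he'
      simp only [h4, h5, h4', h5', and_self, dite_true, Sym2.eq, Sym2.rel_iff', Prod.mk.injEq,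
        Prod.swap_prod_mk, Subtype.mk.injEq] at hee
      rcases hee with ⟨h8, h9⟩ | ⟨h8, h9⟩
      · exact Prod.ext h8 h9
      · exfalso
        refine hty _ _ h6 ?_
        rw [h7, h9, h7']
  omega

/-- the graph on `Y` without the edge `c d` -/
def cut (c d : V) : SimpleGraph V where
  Adj a b := X.Adj a b ∧ a ∈ Y ∧ b ∈ Y ∧ ¬ ((a = c ∧ b = d) ∨ (a = d ∧ b = c))
  symm := ⟨fun a b h => ⟨h.1.symm, h.2.2.1, h.2.1, fun h' => h.2.2.2 (by tauto)⟩⟩
  loopless := ⟨fun a h => X.loopless.irrefl a h.1⟩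

/-- there is a walk of length `k` from `u` to `a` or `b` in the cut graph -/
def Lev (c d a b u : V) (k : ℕ) : Prop :=
  (∃ p : (cut X Y c d).Walk u a, p.length = k) ∨ (∃ p : (cut X Y c d).Walk u b, p.length = k)

theorem lev_step {c d a b u : V} {k : ℕ} (hk : 0 < k) (h : Lev X Y c d a b u k) :
    ∃ v, (cut X Y c d).Adj u v ∧ Lev X Y c d a b v (k - 1) := by
  rcases h with ⟨p, hp⟩ | ⟨p, hp⟩
  · cases p with
    | nil => simp at hp; omega
    | cons h q =>
      refine ⟨_, h, Or.inl ⟨q, ?_⟩⟩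
      rw [SimpleGraph.Walk.length_cons] at hp
      omega
  · cases p with
    | nil => simp at hp; omega
    | cons h q =>
      refine ⟨_, h, Or.inr ⟨q, ?_⟩⟩
      rw [SimpleGraph.Walk.length_cons] at hp
      omega

theorem lev_zero {c d a b u : V} (h : Lev X Y c d a b u 0) : u = a ∨ u = b := by
  rcases h with ⟨p, hp⟩ | ⟨p, hp⟩
  · exact Or.inl (SimpleGraph.Walk.eq_of_length_eq_zero hp)
  · exact Or.inr (SimpleGraph.Walk.eq_of_length_eq_zero hp)

theorem exists_lev (hY : (X.induce (Y : Set V)).Connected) (n : ℕ) (z : ℕ → V)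
    (hz : ∀ i < n, X.Adj (z i) (z (i + 1))) (hinj : ∀ i ≤ n, ∀ j ≤ n, z i = z j → i = j)
    (hzY : ∀ i ≤ n, z i ∈ Y) (m : ℕ) (hm : m < n) (u : V) (hu : u ∈ Y) :
    ∃ k, Lev X Y (z m) (z (m + 1)) (z 0) (z n) u k := by
  have hadj : ∀ i < n, i ≠ m → (cut X Y (z m) (z (m + 1))).Adj (z i) (z (i + 1)) := by
    intro i hi him
    refine ⟨hz i hi, hzY i (by omega), hzY (i + 1) (by omega), ?_⟩
    rintro (⟨h1, h2⟩ | ⟨h1, h2⟩)
    · exact him (hinj i (by omega) m (by omega) h1)
    · have h3 := hinj i (by omega) (m + 1) (by omega) h1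
      have h4 := hinj (i + 1) (by omega) m (by omega) h2
      omega
  have hlow : ∀ i ≤ m, (cut X Y (z m) (z (m + 1))).Reachable (z i) (z 0) := by
    intro i
    induction i with
    | zero => intro _; exact SimpleGraph.Reachable.refl _
    | succ i ih =>
      intro hi
      exact ((hadj i (by omega) (by omega)).symm.reachable).trans (ih (by omega))
  have hhigh : ∀ j, m + 1 + j ≤ n →
      (cut X Y (z m) (z (m + 1))).Reachable (z (m + 1)) (z (m + 1 + j)) := by
    intro j
    induction j with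
    | zero => intro _; exact SimpleGraph.Reachable.refl _
    | succ j ih =>
      intro hj
      exact (ih (by omega)).trans ((hadj (m + 1 + j) (by omega) (by omega)).reachable)
  have hhigh' : (cut X Y (z m) (z (m + 1))).Reachable (z (m + 1)) (z n) := by
    have h := hhigh (n - (m + 1)) (by omega)
    rwa [show m + 1 + (n - (m + 1)) = n by omega] at h
  have key : ∀ (a b : (Y : Set V)) (p : (X.induce (Y : Set V)).Walk a b), b.1 = z 0 →
      (cut X Y (z m) (z (m + 1))).Reachable a.1 (z 0) ∨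
      (cut X Y (z m) (z (m + 1))).Reachable a.1 (z n) := by
    intro a b p
    induction p with
    | nil => intro h; left; rw [h]
    | @cons a c b h q ih =>
      intro hb
      have h1 := ih hb
      by_cases h2 : (a.1 = z m ∧ c.1 = z (m + 1)) ∨ (a.1 = z (m + 1) ∧ c.1 = z m)
      · rcases h2 with ⟨h3, _⟩ | ⟨h3, _⟩
        · left; rw [h3]; exact hlow m le_rfl
        · right; rw [h3]; exact hhigh'
      · have h3 : (cut X Y (z m) (z (m + 1))).Adj a.1 c.1 := ⟨h, a.2, c.2, h2⟩
        rcases h1 with h1 | h1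
        · left; exact h3.reachable.trans h1
        · right; exact h3.reachable.trans h1
  obtain ⟨p⟩ := hY.preconnected ⟨u, hu⟩ ⟨z 0, hzY 0 (by omega)⟩
  rcases key _ _ p rfl with ⟨⟨q⟩⟩ | ⟨⟨q⟩⟩
  · exact ⟨q.length, Or.inl ⟨q, rfl⟩⟩
  · exact ⟨q.length, Or.inr ⟨q, rfl⟩⟩

end Partner

open Partner in
theorem exists_partner {V : Type} {X : SimpleGraph V} (hX : X.IsTree) (ty : V → Bool)
    (hty : ∀ v z, X.Adj v z → ty v ≠ ty z) (Y : Finset V)
    (hY : (X.induce (Y : Set V)).Connected) (n : ℕ) (z : ℕ → V)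
    (hz : ∀ i < n, X.Adj (z i) (z (i + 1))) (hinj : ∀ i ≤ n, ∀ j ≤ n, z i = z j → i = j)
    (hzY : ∀ i ≤ n, z i ∈ Y) (m : ℕ) (hm : m < n) :
    ∃ (q : V → V) (rk : V → ℕ), (∀ u ∈ Y, u ≠ z 0 → u ≠ z n → q u ∈ Y ∧ X.Adj u (q u) ∧
        rk (q u) < rk u) ∧
      ∀ f : V → V → ℚ, (∀ a b, f a b = f b a) →
        ∑ e ∈ edges X ty Y, f e.1 e.2 = f (z m) (z (m + 1)) +
          ∑ u ∈ inner Y (z 0) (z n), f u (q u) := by
  classical
  have hlev := exists_lev X Y hY n z hz hinj hzY m hm
  let rk : V → ℕ := fun u => if h : ∃ k, Lev X Y (z m) (z (m + 1)) (z 0) (z n) u k then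
    Nat.find h else 0
  have hrk : ∀ u ∈ Y, Lev X Y (z m) (z (m + 1)) (z 0) (z n) u (rk u) := by
    intro u hu
    simp only [rk, hlev u hu, dite_true]
    exact Nat.find_spec (hlev u hu)
  have hrk' : ∀ u ∈ Y, ∀ k, Lev X Y (z m) (z (m + 1)) (z 0) (z n) u k → rk u ≤ k := by
    intro u hu k hk
    simp only [rk, hlev u hu, dite_true]
    exact Nat.find_min' (hlev u hu) hk
  have hq : ∀ u, ∃ v, u ∈ Y → u ≠ z 0 → u ≠ z n →
      (cut X Y (z m) (z (m + 1))).Adj u v ∧ rk v < rk u := by
    intro u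
    by_cases h : u ∈ Y ∧ u ≠ z 0 ∧ u ≠ z n
    · obtain ⟨hu, h0, hn⟩ := h
      have h1 := hrk u hu
      have h2 : 0 < rk u := by
        rcases Nat.eq_zero_or_pos (rk u) with h3 | h3
        · rw [h3] at h1
          rcases lev_zero X Y h1 with h4 | h4
          · exact absurd h4 h0
          · exact absurd h4 hn
        · exact h3
      obtain ⟨v, h3, h4⟩ := lev_step X Y h2 h1
      have h5 := hrk' v h3.2.2.1 _ h4
      exact ⟨v, fun _ _ _ => ⟨h3, by omega⟩⟩
    · exact ⟨u, fun h1 h2 h3 => absurd ⟨h1, h2, h3⟩ h⟩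
  choose q hq using hq
  refine ⟨q, rk, fun u hu h0 hn => ?_, ?_⟩
  · obtain ⟨h1, h2⟩ := hq u hu h0 hn
    exact ⟨h1.2.2.1, h1.1, h2⟩
  intro f hf
  have hin : ∀ u ∈ inner Y (z 0) (z n), u ∈ Y ∧ u ≠ z 0 ∧ u ≠ z n := by
    intro u hu
    simpa [inner] using hu
  have hinjq : Set.InjOn (fun u => orient ty u (q u)) (inner Y (z 0) (z n)) := by
    intro u hu v hv huv
    obtain ⟨hu1, hu2, hu3⟩ := hin u hu
    obtain ⟨hv1, hv2, hv3⟩ := hin v hv
    rcases orient_eq ty huv with ⟨h1, _⟩ | ⟨h1, h2⟩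
    · exact h1
    · exfalso
      have h3 := (hq u hu1 hu2 hu3).2
      have h4 := (hq v hv1 hv2 hv3).2
      rw [← h1] at h4
      rw [h2] at h3
      omega
  have hnot : orient ty (z m) (z (m + 1)) ∉
      (inner Y (z 0) (z n)).image (fun u => orient ty u (q u)) := by
    intro h
    obtain ⟨u, hu, huv⟩ := Finset.mem_image.1 h
    obtain ⟨hu1, hu2, hu3⟩ := hin u hu
    exact (hq u hu1 hu2 hu3).1.2.2.2 (orient_eq ty huv)
  have hcard : (inner Y (z 0) (z n)).card + 2 = Y.card := by
    have h0n : z 0 ≠ z n := fun h => by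
      have := hinj 0 (by omega) n le_rfl h
      omega
    have h1 : inner Y (z 0) (z n) = (Y.erase (z 0)).erase (z n) := by
      ext u
      simp only [inner, Finset.mem_filter, Finset.mem_erase]
      tauto
    have hY2 : z n ∈ Y.erase (z 0) := Finset.mem_erase.2 ⟨h0n.symm, hzY n le_rfl⟩
    have h2 := Finset.card_erase_add_one hY2
    have h3 := Finset.card_erase_add_one (hzY 0 (by omega))
    rw [h1]
    omega
  have hS : insert (orient ty (z m) (z (m + 1)))
      ((inner Y (z 0) (z n)).image (fun u => orient ty u (q u))) = edges X ty Y := by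
    apply Finset.eq_of_subset_of_card_le
    · intro e he
      rcases Finset.mem_insert.1 he with rfl | he
      · exact orient_mem X ty Y hty (hzY m (by omega)) (hzY (m + 1) (by omega)) (hz m hm)
      · obtain ⟨u, hu, rfl⟩ := Finset.mem_image.1 he
        obtain ⟨hu1, hu2, hu3⟩ := hin u hu
        have h1 := (hq u hu1 hu2 hu3).1
        exact orient_mem X ty Y hty hu1 h1.2.2.1 h1.1
    · rw [Finset.card_insert_of_notMem hnot, Finset.card_image_of_injOn hinjq]
      have := card_edges_le X ty Y hX hty hY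
      omega
  rw [← hS, Finset.sum_insert hnot, Finset.sum_image hinjq, sum_orient ty f hf]
  congr 1
  exact Finset.sum_congr rfl fun u _ => sum_orient ty f hf u (q u)

end Pool.Agent.PSL2Z
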