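import Pool.Agent.Lib.MP_305fdd_al.PSL.PChar

/-!
# MP_305fdd_al, PSL(2,Z): the representations and pseudo-characters of `C2 * C3`
-/

set_option autoImplicit false

namespace Pool.Agent.PSL2Z

open Polynomial Pool.Agent.Lib.MP_305fdd_al
open scoped WithZero nonZeroDivisors

section P1

variable {Γ : Type} [Group Γ] {x y : Γ} (h : IsC2C3 Γ x y)

/-- the sign as a unit of `R` -/
def signUnit (R : Type) [CommRing R] : ℤˣ →* Rˣ := Units.map (Int.castRingHom R : ℤ →* R)

theorem det_rep {R : Type} [CommRing R] (t : R) (g : Γ) :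
    (rep h t g).val.det = (((eps h g : ℤˣ) : ℤ) : R) := by
  have h1 : (Matrix.GeneralLinearGroup.det).comp (rep h t) = (signUnit R).comp (eps h) := by
    apply hom_ext h
    · rw [MonoidHom.comp_apply, MonoidHom.comp_apply, rep_x, eps_x]
      ext
      show (mx t).det = _
      simp [mx, Matrix.det_fin_two, signUnit]
    · rw [MonoidHom.comp_apply, MonoidHom.comp_apply, rep_y, eps_y]
      ext
      show (my R).det = _
      simp [my, Matrix.det_fin_two, signUnit]
  have h2 := congrArg (fun f : Γ →* Rˣ => ((f g : Rˣ) : R)) h1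
  exact h2

theorem pchar_rep {R : Type} [CommRing R] (t : R) :
    PChar (eps h) (fun g => (rep h t g).val.trace) :=
  PChar.of_rep _ _ (det_rep h t)

theorem trace_x {R : Type} [CommRing R] (t : R) : (rep h t x).val.trace = 0 := by
  rw [rep_x]
  show (mx t).trace = 0
  simp [mx, Matrix.trace_fin_two]

theorem trace_y {R : Type} [CommRing R] (t : R) : (rep h t y).val.trace = -1 := by
  rw [rep_y]
  show (my R).trace = -1
  simp [my, Matrix.trace_fin_two]

theorem trace_xy {R : Type} [CommRing R] (t : R) : (rep h t (x * y)).val.trace = t := by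
  rw [map_mul, rep_x, rep_y]
  show (mx t * my R).trace = t
  simp [mx, my, Matrix.trace_fin_two]

/-- the image of the representation at `t = 0`, with signs -/
def imgZero (M : Matrix (Fin 2) (Fin 2) F) (e : ℤˣ) : Prop :=
  (M = 1 ∧ e = 1) ∨ (M = my F ∧ e = 1) ∨ (M = my F * my F ∧ e = 1) ∨ (M = mx 0 ∧ e = -1) ∨
    (M = mx 0 * my F ∧ e = -1) ∨ (M = mx 0 * (my F * my F) ∧ e = -1)

theorem my_mul_mx : my F * mx 0 = mx 0 * (my F * my F) := by decide

theorem imgZero_x {M : Matrix (Fin 2) (Fin 2) F} {e : ℤˣ} (hM : imgZero M e) :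
    imgZero (mx (0 : F) * M) (-e) := by
  have hA := mx_mul_mx (0 : F)
  unfold imgZero at *
  rcases hM with ⟨rfl, rfl⟩ | ⟨rfl, rfl⟩ | ⟨rfl, rfl⟩ | ⟨rfl, rfl⟩ | ⟨rfl, rfl⟩ | ⟨rfl, rfl⟩
  · right; right; right; left; exact ⟨mul_one _, rfl⟩
  · right; right; right; right; left; exact ⟨rfl, rfl⟩
  · right; right; right; right; right; exact ⟨rfl, rfl⟩
  · left; exact ⟨hA, neg_neg _⟩
  · right; left; exact ⟨by rw [← mul_assoc, hA, one_mul], neg_neg _⟩
  · right; right; left; exact ⟨by rw [← mul_assoc, hA, one_mul], neg_neg _⟩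

theorem imgZero_y {M : Matrix (Fin 2) (Fin 2) F} {e : ℤˣ} (hM : imgZero M e) :
    imgZero (my F * M) e := by
  have hB := my_cube (R := F)
  have hBA := my_mul_mx
  unfold imgZero at *
  rcases hM with ⟨rfl, rfl⟩ | ⟨rfl, rfl⟩ | ⟨rfl, rfl⟩ | ⟨rfl, rfl⟩ | ⟨rfl, rfl⟩ | ⟨rfl, rfl⟩
  · right; left; exact ⟨mul_one _, rfl⟩
  · right; right; left; exact ⟨rfl, rfl⟩
  · left; exact ⟨hB, rfl⟩
  · right; right; right; right; right; exact ⟨hBA, rfl⟩
  · right; right; right; left
    exact ⟨by rw [← mul_assoc, hBA, mul_assoc, mul_assoc, hB, mul_one], rfl⟩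
  · right; right; right; right; left
    exact ⟨by rw [← mul_assoc, hBA, mul_assoc, mul_assoc, hB, mul_one], rfl⟩

theorem imgZero_trace {M : Matrix (Fin 2) (Fin 2) F} {e : ℤˣ} (hM : imgZero M e) :
    (M.trace = 2 ∧ e = 1) ∨ (M.trace = -1 ∧ e = 1) ∨ (M.trace = 0 ∧ e = -1) := by
  unfold imgZero at *
  rcases hM with ⟨rfl, rfl⟩ | ⟨rfl, rfl⟩ | ⟨rfl, rfl⟩ | ⟨rfl, rfl⟩ | ⟨rfl, rfl⟩ | ⟨rfl, rfl⟩
  · left; exact ⟨by decide, rfl⟩
  · right; left; exact ⟨by decide, rfl⟩
  · right; left; exact ⟨by decide, rfl⟩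
  · right; right; exact ⟨by decide, rfl⟩
  · right; right; exact ⟨by decide, rfl⟩
  · right; right; exact ⟨by decide, rfl⟩

theorem mem_imgZero (g : Γ) : imgZero (rep h (0 : F) g).val (eps h g) := by
  have hg : g ∈ Subgroup.closure ({x, y} : Set Γ) := by rw [h.gen]; exact Subgroup.mem_top g
  induction hg using Subgroup.closure_induction_left with
  | one =>
    rw [map_one, map_one]
    exact Or.inl ⟨rfl, rfl⟩
  | mul_left a ha b hb ih =>
    rcases ha with rfl | rfl
    · rw [map_mul, map_mul, rep_x, eps_x, neg_one_mul]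
      exact imgZero_x ih
    · rw [map_mul, map_mul, rep_y, eps_y, one_mul]
      exact imgZero_y ih
  | inv_mul_cancel a ha b hb ih =>
    rcases ha with rfl | rfl
    · rw [map_mul, map_mul, map_inv, map_inv, rep_x, eps_x, inv_neg, inv_one, neg_one_mul]
      exact imgZero_x ih
    · rw [map_mul, map_mul, map_inv, map_inv, rep_y, eps_y, inv_one, one_mul]
      have h1 := imgZero_y (imgZero_y ih)
      rw [← mul_assoc] at h1
      exact h1

/-- at `t = 0` the image is `S₃` -/
theorem trace_zero (g : Γ) :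
    ((rep h (0 : F) g).val.trace = 2 ∧ eps h g = 1) ∨
    ((rep h (0 : F) g).val.trace = -1 ∧ eps h g = 1) ∨
    ((rep h (0 : F) g).val.trace = 0 ∧ eps h g = -1) :=
  imgZero_trace (mem_imgZero h g)

/-- the sum of a character and its `ε`-dual is a pseudo-character -/
theorem pchar_chi {G : Type} [Group G] {R : Type} [CommRing R] (ε : G →* ℤˣ) (χ : G →* Rˣ) :
    PChar ε (fun g => ((χ g : Rˣ) : R) + (((ε g : ℤˣ) : ℤ) : R) * (((χ g)⁻¹ : Rˣ) : R)) where
  one := by simp; norm_num
  comm g k := by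
    show _ + _ = _ + _
    rw [map_mul, map_mul, map_mul, map_mul, mul_comm (χ g), mul_comm (ε g)]
  rel g k := by
    show _ + _ + _ * (_ + _) = (_ + _) * (_ + _)
    have h1 : (((ε k : ℤˣ) : ℤ) : R) * (((ε k : ℤˣ) : ℤ) : R) = 1 := by
      rcases Int.units_eq_one_or (ε k) with h2 | h2 <;> rw [h2] <;> simp
    have h3 : ε (k⁻¹) = ε k := by
      rcases Int.units_eq_one_or (ε k) with h2 | h2 <;> rw [map_inv, h2] <;> simp
    simp only [map_mul, h3, map_inv, mul_inv_rev, inv_inv, Units.val_mul, Int.cast_mul]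
    linear_combination ((((ε g : ℤˣ) : ℤ) : R) * (((χ g)⁻¹ : Rˣ) : R) * ((χ k : Rˣ) : R)) * h1

/-- at `t = 7` the representation is reducible -/
theorem trace_seven (g : Γ) : (rep h (7 : F) g).val.trace =
    (chi h g : F) + (((eps h g : ℤˣ) : ℤ) : F) * ((chi h g)⁻¹ : Fˣ) := by
  have h1 := PChar.unique h.gen (pchar_rep h (7 : F)) (pchar_chi (eps h) (chi h)) ?_ ?_ ?_
  · exact congrFun h1 g
  · show (rep h (7 : F) x).val.trace = _ + _
    rw [trace_x, chi_x, eps_x]
    decide
  · show (rep h (7 : F) y).val.trace = _ + _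
    rw [trace_y, chi_y, eps_y]
    decide
  · show (rep h (7 : F) (x * y)).val.trace = _ + _
    rw [trace_xy, map_mul, map_mul, chi_y, eps_y, chi_x, eps_x]
    decide

/-- commutator of `x` and `y` has trace different from 2 at `t = 0` -/
theorem trace_comm : (rep h (0 : F) (x * y * x⁻¹ * y⁻¹)).val.trace ≠ 2 := by
  rw [map_mul, map_mul, map_mul, map_inv, map_inv, rep_x, rep_y]
  show (mx (0 : F) * my F * mx 0 * (my F * my F)).trace ≠ 2
  decide

theorem two_cancel {R : Type} [CommRing R] [Algebra F R] {a : R} (ha : 2 * a = 0) : a = 0 := by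
  have h1 : algebraMap F R 7 * 2 = 1 := by
    have h2 : (7 : F) * 2 = 1 := by decide
    have h3 := congrArg (algebraMap F R) h2
    rwa [map_mul, map_one, map_ofNat (algebraMap F R) 2] at h3
  calc a = algebraMap F R 7 * 2 * a := by rw [h1, one_mul]
    _ = 0 := by rw [mul_assoc, ha, mul_zero]

theorem three_cancel {R : Type} [CommRing R] [Algebra F R] {a : R} (ha : 3 * a = 0) : a = 0 := by
  have h1 : algebraMap F R 9 * 3 = 1 := by
    have h2 : (9 : F) * 3 = 1 := by decide
    have h3 := congrArg (algebraMap F R) h2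
    rwa [map_mul, map_one, map_ofNat (algebraMap F R) 3] at h3
  calc a = algebraMap F R 9 * 3 * a := by rw [h1, one_mul]
    _ = 0 := by rw [mul_assoc, ha, mul_zero]

/-- pseudo-characters of `Γ` over `R` (3 invertible, 2 not a zero divisor) -/
theorem PChar.x_zero {R : Type} [CommRing R] [Algebra F R] {T : Γ → R} (hT : PChar (eps h) T) :
    T x = 0 := by
  have hx : x⁻¹ = x := by
    rw [inv_eq_iff_mul_eq_one, ← pow_two, h.sq]
  have h1 := hT.inv x
  rw [hx, eps_x] at h1
  apply two_cancel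
  push_cast at h1
  linear_combination h1

theorem PChar.y_quad {R : Type} [CommRing R] [Algebra F R] {T : Γ → R} (hT : PChar (eps h) T) :
    (T y + 1) * (T y - 2) = 0 := by
  have hy : y⁻¹ = y * y := by
    rw [inv_eq_iff_mul_eq_one, ← mul_assoc, ← pow_three', h.cube]
  have h1 := hT.inv y
  have h2 := hT.rel y y
  rw [hy, eps_y] at h1
  rw [mul_inv_cancel, hT.one, eps_y] at h2
  push_cast at h1 h2
  linear_combination h1 - h2

theorem PChar.eq_rep {R : Type} [CommRing R] [Algebra F R] {T : Γ → R} (hT : PChar (eps h) T)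
    (hy : T y = -1) : T = fun g => (rep h (T (x * y)) g).val.trace := by
  refine PChar.unique h.gen hT (pchar_rep h _) ?_ ?_ ?_
  · rw [PChar.x_zero h hT, trace_x]
  · rw [hy, trace_y]
  · rw [trace_xy]

theorem PChar.eq_triv {R : Type} [CommRing R] [Algebra F R] {T : Γ → R} (hT : PChar (eps h) T)
    (hy : T y = 2) : T = fun g => 1 + (((eps h g : ℤˣ) : ℤ) : R) := by
  have hy1 : y⁻¹ = y * y := by
    rw [inv_eq_iff_mul_eq_one, ← mul_assoc, ← pow_three', h.cube]
  have h0 := PChar.x_zero h hT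
  have h1 := hT.rel x y
  have h2 := hT.rel (x * y) y
  rw [hy1, ← mul_assoc, eps_y, h0] at h1
  rw [mul_inv_cancel_right, eps_y, h0, hy] at h2
  have h3 : T (x * y) = 0 := by
    apply three_cancel
    push_cast at h1 h2
    linear_combination h1 - h2
  have h4 := pchar_chi (R := R) (eps h) 1
  have h5 := PChar.unique h.gen hT h4 ?_ ?_ ?_
  · rw [h5]
    funext g
    simp
  · rw [h0, eps_x]; simp
  · rw [hy, eps_y]; simp; norm_num
  · rw [h3, map_mul (eps h), eps_x, eps_y]; simp

end P1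

end Pool.Agent.PSL2Z
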