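import Pool.Agent.Lib.MP_305fdd_al.PSL.Defs

/-!
# MP_305fdd_al: power series as a limit of the rings `F[X]/(X^k)`
-/

set_option autoImplicit false

namespace Pool.Agent.PSL2Z

open Polynomial Pool.Agent.Lib.MP_305fdd_al Pool.Agent.MP_305fdd_al

/-- the ideal `(X^k)` as a nonzero ideal -/
noncomputable def Jk (k : ℕ) : {J : Ideal F[X] // J ≠ ⊥} := ⟨Ideal.span {(X : F[X]) ^ k}, by simp⟩

theorem Jk_le {k l : ℕ} (h : k ≤ l) : (Jk l).1 ≤ (Jk k).1 := by
  show Ideal.span {(X : F[X]) ^ l} ≤ Ideal.span {(X : F[X]) ^ k}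
  rw [Ideal.span_singleton_le_span_singleton]
  exact pow_dvd_pow _ h

/-- the kernel of `F[X] → F⟦X⟧ → F⟦X⟧/(X^k)` -/
theorem trunc_coeff_sub {f : PowerSeries F} (k : ℕ) :
    (PowerSeries.X : PowerSeries F) ^ k ∣ f - ((PowerSeries.trunc k f : F[X]) : PowerSeries F) := by
  rw [PowerSeries.X_pow_dvd_iff]
  intro m hm
  rw [map_sub, Polynomial.coeff_coe, PowerSeries.coeff_trunc, if_pos hm, sub_self]

theorem X_pow_dvd_coe {P : F[X]} {k : ℕ} :
    (PowerSeries.X : PowerSeries F) ^ k ∣ (P : PowerSeries F) ↔ (X : F[X]) ^ k ∣ P := by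
  rw [PowerSeries.X_pow_dvd_iff, Polynomial.X_pow_dvd_iff]
  simp only [Polynomial.coeff_coe]

/-- the reduction `F⟦X⟧ → F[X]/(X^k)` -/
noncomputable def th (k : ℕ) : PowerSeries F →+* F[X] ⧸ (Jk k).1 where
  toFun f := Ideal.Quotient.mk _ (PowerSeries.trunc k f)
  map_one' := by
    rw [← map_one (Ideal.Quotient.mk (Jk k).1), Ideal.Quotient.eq]
    show _ ∈ Ideal.span {(X : F[X]) ^ k}
    rw [Ideal.mem_span_singleton, ← X_pow_dvd_coe, Polynomial.coe_sub, Polynomial.coe_one,
      ← neg_sub, dvd_neg]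
    exact trunc_coeff_sub k
  map_mul' f g := by
    rw [← map_mul, Ideal.Quotient.eq]
    show _ ∈ Ideal.span {(X : F[X]) ^ k}
    rw [Ideal.mem_span_singleton, ← X_pow_dvd_coe, Polynomial.coe_sub, Polynomial.coe_mul]
    have h1 := trunc_coeff_sub (f := f * g) k
    have h2 := trunc_coeff_sub (f := f) k
    have h3 := trunc_coeff_sub (f := g) k
    have h4 := (dvd_mul_of_dvd_left h2 g).add
      (dvd_mul_of_dvd_right h3 ((PowerSeries.trunc k f : F[X]) : PowerSeries F))
    have h5 := dvd_sub h4 h1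
    have h6 : (f - ((PowerSeries.trunc k f : F[X]) : PowerSeries F)) * g +
        ((PowerSeries.trunc k f : F[X]) : PowerSeries F) *
          (g - ((PowerSeries.trunc k g : F[X]) : PowerSeries F)) -
        (f * g - ((PowerSeries.trunc k (f * g) : F[X]) : PowerSeries F)) =
        ((PowerSeries.trunc k (f * g) : F[X]) : PowerSeries F) -
          ((PowerSeries.trunc k f : F[X]) : PowerSeries F) *
            ((PowerSeries.trunc k g : F[X]) : PowerSeries F) := by ring
    rw [h6] at h5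
    exact h5
  map_zero' := by
    rw [map_zero, map_zero]
  map_add' f g := by
    rw [map_add, map_add]

theorem th_apply (k : ℕ) (f : PowerSeries F) :
    th k f = Ideal.Quotient.mk _ (PowerSeries.trunc k f) := rfl

theorem th_coe (k : ℕ) (P : F[X]) : th k (P : PowerSeries F) = Ideal.Quotient.mk _ P := by
  rw [th_apply, Ideal.Quotient.eq]
  show _ ∈ Ideal.span {(X : F[X]) ^ k}
  rw [Ideal.mem_span_singleton, ← X_pow_dvd_coe, Polynomial.coe_sub, ← neg_sub, dvd_neg]
  exact trunc_coeff_sub k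

theorem th_eq_zero {k : ℕ} {f : PowerSeries F} :
    th k f = 0 ↔ (PowerSeries.X : PowerSeries F) ^ k ∣ f := by
  rw [th_apply, Ideal.Quotient.eq_zero_iff_mem]
  show _ ∈ Ideal.span {(X : F[X]) ^ k} ↔ _
  rw [Ideal.mem_span_singleton, ← X_pow_dvd_coe]
  have h1 := trunc_coeff_sub (f := f) k
  constructor
  · intro h
    have := h1.add h
    rwa [sub_add_cancel] at this
  · intro h
    have := dvd_sub h h1
    rwa [sub_sub_cancel] at this

theorem th_ext {f g : PowerSeries F} (h : ∀ k, th k f = th k g) : f = g := by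
  rw [← sub_eq_zero]
  ext n
  have h1 : th (n + 1) (f - g) = 0 := by rw [map_sub, h, sub_self]
  rw [th_eq_zero, PowerSeries.X_pow_dvd_iff] at h1
  rw [h1 n (Nat.lt_succ_self n), map_zero]

/-- compatible sequences are power series -/
theorem exists_lim (a : ∀ k, F[X] ⧸ (Jk k).1)
    (h : ∀ k l (hkl : k ≤ l), Ideal.Quotient.factor (Jk_le hkl) (a l) = a k) :
    ∃ f : PowerSeries F, ∀ k, th k f = a k := by
  choose P hP using fun k => Ideal.Quotient.mk_surjective (a k)
  refine ⟨PowerSeries.mk fun n => (P (n + 1)).coeff n, fun k => ?_⟩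
  rw [← hP k, th_apply, Ideal.Quotient.eq]
  show _ ∈ Ideal.span {(X : F[X]) ^ k}
  rw [Ideal.mem_span_singleton, Polynomial.X_pow_dvd_iff]
  intro n hn
  rw [Polynomial.coeff_sub, PowerSeries.coeff_trunc, if_pos hn, PowerSeries.coeff_mk, sub_eq_zero]
  have h1 := h (n + 1) k hn
  rw [← hP k, ← hP (n + 1), Ideal.Quotient.factor_mk, Ideal.Quotient.eq] at h1
  have h2 : P k - P (n + 1) ∈ Ideal.span {(X : F[X]) ^ (n + 1)} := h1
  rw [Ideal.mem_span_singleton, Polynomial.X_pow_dvd_iff] at h2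
  have h3 := h2 n (Nat.lt_succ_self n)
  rw [Polynomial.coeff_sub, sub_eq_zero] at h3
  exact h3.symm

/-- compatible families of ring homomorphisms -/
theorem exists_lim_hom {B : Type} [CommRing B] (e : ∀ k, B →+* F[X] ⧸ (Jk k).1)
    (h : ∀ k l (hkl : k ≤ l) b, Ideal.Quotient.factor (Jk_le hkl) (e l b) = e k b) :
    ∃ β : B →+* PowerSeries F, ∀ k b, th k (β b) = e k b := by
  choose β hβ using fun b => exists_lim (fun k => e k b) fun k l hkl => h k l hkl b
  refine ⟨⟨⟨⟨β, ?_⟩, ?_⟩, ?_, ?_⟩, fun k b => hβ b k⟩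
  · exact th_ext fun k => by rw [hβ, map_one, map_one]
  · exact fun a b => th_ext fun k => by rw [hβ, map_mul, map_mul, hβ, hβ]
  · exact th_ext fun k => by
      show th k (β 0) = _
      rw [hβ, map_zero, map_zero]
  · exact fun a b => th_ext fun k => by
      show th k (β (a + b)) = th k (β a + β b)
      rw [hβ, map_add, map_add, hβ, hβ]

/-- compatible families of matrix representations -/
theorem exists_lim_rep {Λ : Type} [Group Λ] (ρ : ∀ k, Λ →* GL (Fin 2) (F[X] ⧸ (Jk k).1))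
    (h : ∀ k l (hkl : k ≤ l) g, Matrix.GeneralLinearGroup.map
      (Ideal.Quotient.factor (Jk_le hkl)) (ρ l g) = ρ k g) :
    ∃ ρ₀ : Λ →* GL (Fin 2) (PowerSeries F), ∀ k g,
      Matrix.GeneralLinearGroup.map (th k) (ρ₀ g) = ρ k g := by
  have hM : ∀ g : Λ, ∃ M : Matrix (Fin 2) (Fin 2) (PowerSeries F),
      ∀ k i j, th k (M i j) = (ρ k g).val i j := by
    intro g
    have h1 : ∀ i j, ∃ f : PowerSeries F, ∀ k, th k f = (ρ k g).val i j := fun i j =>
      exists_lim (fun k => (ρ k g).val i j) fun k l hkl => by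
        rw [← h k l hkl g]
        rfl
    choose M hM using h1
    exact ⟨M, fun k i j => hM i j k⟩
  choose M hM using hM
  have hmul : ∀ g g' : Λ, M (g * g') = M g * M g' := by
    intro g g'
    ext1 i j
    refine th_ext fun k => ?_
    rw [hM, map_mul, Units.val_mul, Matrix.mul_apply, Matrix.mul_apply, map_sum]
    refine Finset.sum_congr rfl fun l _ => ?_
    rw [map_mul, hM, hM]
  have hone : M 1 = 1 := by
    ext1 i j
    refine th_ext fun k => ?_
    rw [hM, map_one, Units.val_one, Matrix.one_apply, Matrix.one_apply]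
    split_ifs
    · rw [map_one]
    · rw [map_zero]
  let m : Λ →* Matrix (Fin 2) (Fin 2) (PowerSeries F) := ⟨⟨M, hone⟩, hmul⟩
  refine ⟨m.toHomUnits, fun k g => ?_⟩
  ext i j
  exact hM g k i j

end Pool.Agent.PSL2Z
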