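import Pool.Agent.Lib.MP_305fdd_al.PSL.Curve
import Pool.Agent.Lib.MP_305fdd_al.PSL.Decomp
import Pool.Agent.Lib.MP_305fdd_al.PSL.Limit
import Pool.Agent.Lib.MP_305fdd_al.PSL.PChar
import Pool.Agent.Lib.MP_305fdd_al.PSL.Zeta

/-!
# MP_305fdd_al: the place at infinity of the component of `B` through `t = 0`
-/

set_option autoImplicit false

namespace Pool.Agent.PSL2Z

open Polynomial Pool.Agent.Lib.MP_305fdd_al Pool.Agent.MP_305fdd_al
open scoped WithZero nonZeroDivisors

/-- the ideal `(X - c)` -/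
noncomputable def Jc (c : F) : {J : Ideal F[X] // J ≠ ⊥} :=
  ⟨Ideal.span {(X : F[X]) - C c}, by rw [Ne, Ideal.span_singleton_eq_bot]; exact X_sub_C_ne_zero c⟩

theorem Jc_isMaximal (c : F) : (Jc c).1.IsMaximal :=
  PrincipalIdealRing.isMaximal_of_irreducible (irreducible_X_sub_C c)

theorem mk_Jc (c : F) (P : F[X]) :
    Ideal.Quotient.mk (Jc c).1 P = algebraMap F _ (P.eval c) := by
  have h1 : algebraMap F (F[X] ⧸ (Jc c).1) (P.eval c) =
      Ideal.Quotient.mk (Jc c).1 (C (P.eval c)) := rfl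
  rw [h1, Ideal.Quotient.eq]
  show _ ∈ Ideal.span {(X : F[X]) - C c}
  rw [Ideal.mem_span_singleton]
  exact X_sub_C_dvd_sub_C_eval

theorem Jc_surj (c : F) : Function.Bijective (algebraMap F (F[X] ⧸ (Jc c).1)) := by
  constructor
  · have := (Jc_isMaximal c).ne_top
    have : Nontrivial (F[X] ⧸ (Jc c).1) := Ideal.Quotient.nontrivial_iff.2 this
    exact (algebraMap F (F[X] ⧸ (Jc c).1)).injective
  · intro z
    obtain ⟨P, rfl⟩ := Ideal.Quotient.mk_surjective z
    exact ⟨_, (mk_Jc c P).symm⟩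

theorem Jc_card (c : F) : Nat.card (F[X] ⧸ (Jc c).1) = 13 := by
  rw [← Nat.card_congr (Equiv.ofBijective _ (Jc_surj c)), Nat.card_zmod]

theorem eq_Jc_of_card (J : {J : Ideal F[X] // J ≠ ⊥}) (hJ : Nat.card (F[X] ⧸ J.1) = 13) :
    ∃ c, J = Jc c := by
  have : Finite (F[X] ⧸ J.1) := Nat.finite_of_card_ne_zero (by rw [hJ]; norm_num)
  have : Nontrivial (F[X] ⧸ J.1) := Finite.one_lt_card_iff_nontrivial.1 (by rw [hJ]; norm_num)
  have hb : Function.Bijective (algebraMap F (F[X] ⧸ J.1)) := by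
    rw [Nat.bijective_iff_injective_and_card]
    exact ⟨(algebraMap F (F[X] ⧸ J.1)).injective, by rw [hJ, Nat.card_zmod]⟩
  obtain ⟨c, hc⟩ := hb.2 (Ideal.Quotient.mk J.1 X)
  refine ⟨c, Subtype.ext ?_⟩
  have h1 : (X : F[X]) - C c ∈ J.1 := by
    rw [← Ideal.Quotient.eq]
    exact hc.symm
  have h2 : (Jc c).1 ≤ J.1 := by
    show Ideal.span {(X : F[X]) - C c} ≤ _
    rw [Ideal.span_le, Set.singleton_subset_iff]
    exact h1
  exact ((Jc_isMaximal c).eq_of_le (Ideal.Quotient.nontrivial_iff.1 inferInstance) h2).symm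

theorem val_F_le_one {K : Type} [Field K] (i : F →+* K) (v : Valuation K ℤᵐ⁰) (c : F) :
    v (i c) ≤ 1 := by
  by_cases hc : c = 0
  · rw [hc, map_zero, map_zero]; exact zero_le_one
  · have h1 : c ^ 12 = 1 := ZMod.pow_card_sub_one_eq_one hc
    have h2 : (v (i c)) ^ 12 = 1 := by rw [← map_pow, ← map_pow, h1, map_one, map_one]
    exact le_of_eq ((pow_eq_one_iff.1 h2).resolve_right (by norm_num))

section

variable {B : Type} [CommRing B] [Algebra F B]
    {ev : ∀ J : {J : Ideal F[X] // J ≠ ⊥}, B →ₐ[F] F[X] ⧸ J.1}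

theorem exists_beta (hB : IsTR B ev) : ∃ β : B →+* PowerSeries F,
    (∀ k b, th k (β b) = ev (Jk k) b) ∧ RingHom.ker β = prime0 ev := by
  obtain ⟨β, hβ⟩ := exists_lim_hom (fun k => (ev (Jk k)).toRingHom) fun k l hkl b =>
    hB.compat (Jk l) (Jk k) (Jk_le hkl) b
  refine ⟨β, fun k b => hβ k b, ?_⟩
  ext b
  unfold prime0
  rw [RingHom.mem_ker, Ideal.mem_iInf]
  constructor
  · intro h k
    have h1 := hβ k b
    rw [h, map_zero] at h1
    exact h1.symm
  · intro h
    refine th_ext fun k => ?_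
    rw [hβ, map_zero]
    exact h k

theorem prime0_isPrime (hB : IsTR B ev) : (prime0 ev).IsPrime := by
  obtain ⟨β, _, h⟩ := exists_beta hB
  rw [← h]
  exact RingHom.ker_isPrime β

theorem prime0_le (k : ℕ) : prime0 ev ≤ RingHom.ker (ev (Jk k)) := iInf_le _ k

theorem ker_Jk_one (hB : IsTR B ev) : RingHom.ker (ev (Jk 1)) = RingHom.ker (ev (Jc 0)) := by
  have : Jk 1 = Jc 0 := by
    apply Subtype.ext
    show Ideal.span _ = Ideal.span _
    rw [pow_one, map_zero, sub_zero]
  rw [this]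

/-- `B/ker ev_J = A/J` -/
theorem card_quot_ker (hB : IsTR B ev) (J : {J : Ideal F[X] // J ≠ ⊥}) :
    Nat.card (B ⧸ RingHom.ker (ev J)) = Nat.card (F[X] ⧸ J.1) :=
  Nat.card_congr (RingHom.quotientKerEquivOfSurjective (hB.surj J)).toEquiv

theorem prime0_not_max (hB : IsTR B ev) : ¬ (prime0 ev).IsMaximal := by
  intro hm
  have h1 : prime0 ev = RingHom.ker (ev (Jk 1)) := by
    refine hm.eq_of_le ?_ (prime0_le 1)
    rw [ker_Jk_one hB, Ne, Ideal.eq_top_iff_one]
    intro h
    rw [RingHom.mem_ker, map_one] at h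
    have : Nontrivial (F[X] ⧸ (Jc 0).1) :=
      Ideal.Quotient.nontrivial_iff.2 (Jc_isMaximal 0).ne_top
    exact one_ne_zero h
  have h2 : prime0 ev = RingHom.ker (ev (Jk 2)) := by
    refine hm.eq_of_le ?_ (prime0_le 2)
    rw [Ne, Ideal.eq_top_iff_one]
    intro h
    rw [RingHom.mem_ker] at h
    have h3 := hB.compat (Jk 2) (Jk 1) (Jk_le (by norm_num)) 1
    rw [h, map_zero] at h3
    have h4 : (1 : B) ∈ prime0 ev := by
      rw [h1, RingHom.mem_ker]; exact h3.symm
    exact hm.ne_top ((Ideal.eq_top_iff_one _).2 h4)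
  have h3 := hB.inj _ _ (h1.symm.trans h2)
  have h4 : (Jk 1).1 = (Jk 2).1 := congrArg Subtype.val h3
  have h5 : (X : F[X]) ∈ (Jk 2).1 := by
    rw [← h4]
    show _ ∈ Ideal.span _
    rw [Ideal.mem_span_singleton, pow_one]
  have h6 : (X : F[X]) ∈ Ideal.span {(X : F[X]) ^ 2} := h5
  rw [Ideal.mem_span_singleton, Polynomial.X_pow_dvd_iff] at h6
  have := h6 1 (by norm_num)
  rw [Polynomial.coeff_X_one] at this
  exact one_ne_zero this

/-- number of ideals of index 13 -/
theorem card_ideals_le (hB : IsTR B ev) :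
    Finite {I : Ideal B // Nat.card (B ⧸ I) = 13} ∧
    Nat.card {I : Ideal B // Nat.card (B ⧸ I) = 13} ≤ 13 := by
  let f : F → {I : Ideal B // Nat.card (B ⧸ I) = 13} := fun c =>
    ⟨RingHom.ker (ev (Jc c)), by rw [card_quot_ker hB, Jc_card]⟩
  have hf : Function.Surjective f := by
    rintro ⟨I, hI⟩
    have : Finite (B ⧸ I) := Nat.finite_of_card_ne_zero (by rw [hI]; norm_num)
    obtain ⟨J, hJ⟩ := hB.fin I this
    subst hJ
    rw [card_quot_ker hB] at hI
    obtain ⟨c, rfl⟩ := eq_Jc_of_card J hI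
    exact ⟨c, rfl⟩
  refine ⟨Finite.of_surjective f hf, ?_⟩
  have := Nat.card_le_card_of_surjective f hf
  rwa [Nat.card_zmod] at this

theorem exists_minimalPrime (hB : IsTR B ev) : prime0 ev ∈ minimalPrimes B := by
  have := prime0_isPrime hB
  obtain ⟨P, hP, hle⟩ := Ideal.exists_minimalPrimes_le (I := (⊥ : Ideal B)) (J := prime0 ev) bot_le
  obtain ⟨_, _, _, h4⟩ := decomp hB
  obtain ⟨hD, hF⟩ := h4 P hP
  have : P.IsPrime := hP.1.1
  by_cases h : P = prime0 ev
  · rw [← h]; exact hP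
  · exfalso
    apply prime0_not_max hB
    have h1 : (Ideal.map (Ideal.Quotient.mk P) (prime0 ev)) ≠ ⊥ := by
      rw [Ne, Ideal.map_eq_bot_iff_le_ker, Ideal.mk_ker]
      exact fun h' => h (le_antisymm hle h')
    have h2 : (Ideal.map (Ideal.Quotient.mk P) (prime0 ev)).IsPrime :=
      Ideal.map_isPrime_of_surjective Ideal.Quotient.mk_surjective (by rw [Ideal.mk_ker]; exact hle)
    have h3 : (Ideal.map (Ideal.Quotient.mk P) (prime0 ev)).IsMaximal := h2.isMaximal h1
    have h4 := Ideal.comap_isMaximal_of_surjective (Ideal.Quotient.mk P)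
      Ideal.Quotient.mk_surjective (K := Ideal.map (Ideal.Quotient.mk P) (prime0 ev))
    rwa [Ideal.comap_map_of_surjective _ Ideal.Quotient.mk_surjective, ← RingHom.ker_eq_comap_bot,
      Ideal.mk_ker, sup_eq_left.2 hle] at h4

/-- all the mod 13 zeta functions of the components are 1 -/
theorem zet_component (hB : IsTR B ev) (P : Ideal B) (hP : P ∈ minimalPrimes B) :
    ∀ Q : F[X], zet 13 (B ⧸ P) = (Q : PowerSeries F) → Q.natDegree = 0 := by
  obtain ⟨h1, h2, h3, h4⟩ := decomp hB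
  have := hB.fg
  have : Finite (minimalPrimes B) := h1
  obtain ⟨n, ⟨e⟩⟩ := Finite.exists_equiv_fin (minimalPrimes B)
  let p : Fin n → Ideal B := fun i => (e.symm i).1
  have hp : ∀ i, p i ∈ minimalPrimes B := fun i => (e.symm i).2
  have hinf : ⨅ i, p i = ⊥ := by
    rw [← h2]
    apply le_antisymm
    · refine le_iInf₂ fun P hP => ?_
      have : p (e ⟨P, hP⟩) = P := by
        show (e.symm (e ⟨P, hP⟩)).1 = P
        rw [Equiv.symm_apply_apply]
      exact (iInf_le p (e ⟨P, hP⟩)).trans (le_of_eq this)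
    · exact le_iInf fun i => iInf₂_le _ (hp i)
  have hc : Pairwise fun i j => IsCoprime (p i) (p j) := by
    intro i j hij
    refine h3 _ (hp i) _ (hp j) fun h => hij ?_
    exact e.symm.injective (Subtype.ext h)
  have hz := zet_prod 13 B p hinf hc
  rw [zet_TR hB] at hz
  have hQ : ∀ i, ∃ Q : F[X], zet 13 (B ⧸ p i) = (Q : PowerSeries F) := by
    intro i
    have : (p i).IsPrime := (hp i).1.1
    have := (h4 _ (hp i)).1
    have : Algebra.FiniteType F (B ⧸ p i) := inferInstance
    obtain ⟨Q, hQ, _⟩ := curve 13 (B ⧸ p i) (FractionRing (B ⧸ p i)) (h4 _ (hp i)).2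
    exact ⟨Q, hQ⟩
  choose Q hQ using hQ
  have hprod : ∏ i, Q i = 1 := by
    apply Polynomial.coe_injective F
    have : ((∏ i, Q i : F[X]) : PowerSeries F) = ∏ i, ((Q i : F[X]) : PowerSeries F) :=
      map_prod (Polynomial.coeToPowerSeries.ringHom (R := F)) Q Finset.univ
    rw [this, Polynomial.coe_one, hz]
    exact Finset.prod_congr rfl fun i _ => (hQ i).symm
  intro Q' hQ'
  have h5 : p (e ⟨P, hP⟩) = P := by
    show (e.symm (e ⟨P, hP⟩)).1 = P
    rw [Equiv.symm_apply_apply]
  have h6 : Q' = Q (e ⟨P, hP⟩) := by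
    apply Polynomial.coe_injective F
    rw [← hQ', ← hQ, h5]
  rw [h6]
  apply Polynomial.natDegree_eq_zero_of_isUnit
  exact isUnit_of_dvd_one (hprod ▸ Finset.dvd_prod_of_mem Q (Finset.mem_univ _))

theorem place (hB : IsTR B ev) :
    (prime0 ev).IsPrime ∧
    prime0 ev ≤ RingHom.ker (ev (Jc 7)) ∧
    ∀ (K : Type) [Field K] [Algebra (B ⧸ prime0 ev) K] [IsFractionRing (B ⧸ prime0 ev) K],
      ∃ v : Valuation K ℤᵐ⁰, Function.Surjective v ∧
        ∀ b : B, v (algebraMap (B ⧸ prime0 ev) K (Ideal.Quotient.mk _ b)) ≤ 1 →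
          ∃ c : F, b - algebraMap F B c ∈ prime0 ev := by
  have hpr := prime0_isPrime hB
  have hmin := exists_minimalPrime hB
  obtain ⟨_, _, _, h4⟩ := decomp hB
  have := (h4 _ hmin).1
  have := hB.fg
  have : Algebra.FiniteType F (B ⧸ prime0 ev) := inferInstance
  refine ⟨hpr, ?_, ?_⟩
  · by_contra hnot
    obtain ⟨Q, hQ, _⟩ := curve 13 (B ⧸ prime0 ev) (FractionRing (B ⧸ prime0 ev)) (h4 _ hmin).2
    have hdeg := zet_component hB _ hmin Q hQ
    have h1 : (Nat.card {I : Ideal (B ⧸ prime0 ev) // Nat.card ((B ⧸ prime0 ev) ⧸ I) = 13 ^ 1} :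
        ZMod 13) = 0 := by
      have h2 := congrArg (PowerSeries.coeff 1) hQ
      rw [Polynomial.coeff_coe, Polynomial.coeff_eq_zero_of_natDegree_lt (by omega)] at h2
      unfold zet at h2
      rwa [PowerSeries.coeff_mk] at h2
    rw [ZMod.natCast_eq_zero_iff, pow_one] at h1
    -- comparison with the ideals of `B`
    obtain ⟨hfin, hle⟩ := card_ideals_le hB
    let g : Option {I : Ideal (B ⧸ prime0 ev) // Nat.card ((B ⧸ prime0 ev) ⧸ I) = 13} →
        {I : Ideal B // Nat.card (B ⧸ I) = 13} := fun o =>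
      match o with
      | none => ⟨RingHom.ker (ev (Jc 7)), by rw [card_quot_ker hB, Jc_card]⟩
      | some I => ⟨Ideal.comap (Ideal.Quotient.mk (prime0 ev)) I.1, by
          refine Eq.trans ?_ I.2
          refine Nat.card_congr (RingEquiv.toEquiv ?_)
          have e1 := RingHom.quotientKerEquivOfSurjective
            (f := (Ideal.Quotient.mk I.1).comp (Ideal.Quotient.mk (prime0 ev)))
            (Ideal.Quotient.mk_surjective.comp Ideal.Quotient.mk_surjective)
          refine (Ideal.quotEquivOfEq ?_).trans e1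
          ext b
          rw [Ideal.mem_comap, RingHom.mem_ker, RingHom.comp_apply, Ideal.Quotient.eq_zero_iff_mem]⟩
    have hg : Function.Injective g := by
      rintro (_ | I) (_ | I') h
      · rfl
      · exfalso
        apply hnot
        have h2 : RingHom.ker (ev (Jc 7)) = Ideal.comap (Ideal.Quotient.mk (prime0 ev)) I'.1 :=
          congrArg Subtype.val h
        rw [h2]
        intro b hb
        rw [Ideal.mem_comap, Ideal.Quotient.eq_zero_iff_mem.2 hb]
        exact zero_mem _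
      · exfalso
        apply hnot
        have h2 : Ideal.comap (Ideal.Quotient.mk (prime0 ev)) I.1 = RingHom.ker (ev (Jc 7)) :=
          congrArg Subtype.val h
        rw [← h2]
        intro b hb
        rw [Ideal.mem_comap, Ideal.Quotient.eq_zero_iff_mem.2 hb]
        exact zero_mem _
      · have h2 : Ideal.comap (Ideal.Quotient.mk (prime0 ev)) I.1 =
            Ideal.comap (Ideal.Quotient.mk (prime0 ev)) I'.1 := congrArg Subtype.val h
        have h3 := Ideal.comap_injective_of_surjective _ Ideal.Quotient.mk_surjective h2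
        exact congrArg some (Subtype.ext h3)
    have hfin2 : Finite (Option {I : Ideal (B ⧸ prime0 ev) //
        Nat.card ((B ⧸ prime0 ev) ⧸ I) = 13}) := Finite.of_injective g hg
    have hfin3 : Finite {I : Ideal (B ⧸ prime0 ev) // Nat.card ((B ⧸ prime0 ev) ⧸ I) = 13} :=
      Finite.of_injective some (Option.some_injective _)
    have h2 := Nat.card_le_card_of_injective g hg
    rw [Finite.card_option] at h2
    -- the set of ideals of index 13 of the component is nonempty
    have h3 : 0 < Nat.card {I : Ideal (B ⧸ prime0 ev) // Nat.card ((B ⧸ prime0 ev) ⧸ I) = 13} := by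
      have hle0 : prime0 ev ≤ RingHom.ker (ev (Jc 0)) := by
        rw [← ker_Jk_one hB]; exact prime0_le 1
      have : Nonempty {I : Ideal (B ⧸ prime0 ev) // Nat.card ((B ⧸ prime0 ev) ⧸ I) = 13} := by
        refine ⟨⟨RingHom.ker (Ideal.Quotient.lift (prime0 ev) (ev (Jc 0)).toRingHom
          fun a ha => RingHom.mem_ker.1 (hle0 ha)), ?_⟩⟩
        have hs : Function.Surjective (Ideal.Quotient.lift (prime0 ev) (ev (Jc 0)).toRingHom
            fun a ha => RingHom.mem_ker.1 (hle0 ha)) :=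
          Ideal.Quotient.lift_surjective_of_surjective _ _ (hB.surj (Jc 0))
        refine Eq.trans ?_ (Jc_card 0)
        exact Nat.card_congr (RingHom.quotientKerEquivOfSurjective hs).toEquiv
      exact Nat.card_pos
    have h4 := Nat.le_of_dvd h3 h1
    omega
  · intro K _ _ _
    obtain ⟨Q, hQ, hv⟩ := curve 13 (B ⧸ prime0 ev) K (h4 _ hmin).2
    obtain ⟨v, hsurj, hfin⟩ := hv (zet_component hB _ hmin Q hQ)
    refine ⟨v, hsurj, fun b hb => ?_⟩
    obtain ⟨c, hc⟩ := (Jc_surj 0).2 (ev (Jc 0) b)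
    refine ⟨c, ?_⟩
    by_contra hne
    have h0 : ev (Jc 0) (b - algebraMap F B c) = 0 := by
      rw [map_sub, AlgHom.commutes, hc, sub_self]
    set a : B := b - algebraMap F B c with ha
    have hva : v (algebraMap (B ⧸ prime0 ev) K (Ideal.Quotient.mk _ a)) ≤ 1 := by
      rw [ha, map_sub, map_sub]
      refine (Valuation.map_sub v _ _).trans (max_le hb ?_)
      exact val_F_le_one ((algebraMap (B ⧸ prime0 ev) K).comp
        ((Ideal.Quotient.mk (prime0 ev)).comp (algebraMap F B))) v c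
    -- powers of `a`
    have hpow : ∀ n : ℕ, (Ideal.Quotient.mk (prime0 ev) a) ^ n ∈
        {z : B ⧸ prime0 ev | v (algebraMap (B ⧸ prime0 ev) K z) ≤ 1} := by
      intro n
      show v (algebraMap (B ⧸ prime0 ev) K _) ≤ 1
      rw [map_pow, map_pow]
      exact pow_le_one' hva n
    obtain ⟨i, j, hij, heq⟩ : ∃ i j : ℕ, i < j ∧ (Ideal.Quotient.mk (prime0 ev) a) ^ i =
        (Ideal.Quotient.mk (prime0 ev) a) ^ j := by
      have hninj : ¬ Function.Injective fun n : ℕ =>
          (⟨_, hpow n⟩ : {z : B ⧸ prime0 ev | v (algebraMap (B ⧸ prime0 ev) K z) ≤ 1}) := by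
        intro hinj
        have := hfin.to_subtype
        exact not_injective_infinite_finite _ hinj
      rw [Function.Injective] at hninj
      push Not at hninj
      obtain ⟨i, j, h1, h2⟩ := hninj
      have h1' := congrArg Subtype.val h1
      rcases lt_or_gt_of_ne h2 with h | h
      · exact ⟨i, j, h, h1'⟩
      · exact ⟨j, i, h, h1'.symm⟩
    have hane : Ideal.Quotient.mk (prime0 ev) a ≠ 0 := by
      rw [Ne, Ideal.Quotient.eq_zero_iff_mem]; exact hne
    have h1 : (Ideal.Quotient.mk (prime0 ev) a) ^ (j - i) = 1 := by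
      have h2 : (Ideal.Quotient.mk (prime0 ev) a) ^ i * (Ideal.Quotient.mk (prime0 ev) a) ^ (j - i)
          = (Ideal.Quotient.mk (prime0 ev) a) ^ i * 1 := by
        rw [← pow_add, Nat.add_sub_cancel' hij.le, mul_one, heq]
      exact mul_left_cancel₀ (pow_ne_zero _ hane) h2
    rw [← map_pow, ← map_one (Ideal.Quotient.mk (prime0 ev)), Ideal.Quotient.eq] at h1
    have h2 : ev (Jc 0) (a ^ (j - i) - 1) = 0 := by
      have hle0 : prime0 ev ≤ RingHom.ker (ev (Jc 0)) := by
        rw [← ker_Jk_one hB]; exact prime0_le 1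
      exact hle0 h1
    rw [map_sub, map_pow, h0, zero_pow (by omega), map_one, zero_sub, neg_eq_zero] at h2
    have : Nontrivial (F[X] ⧸ (Jc 0).1) :=
      Ideal.Quotient.nontrivial_iff.2 (Jc_isMaximal 0).ne_top
    exact one_ne_zero h2

end

end Pool.Agent.PSL2Z
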