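import Pool.Agent.Lib.MP_305fdd_al.PSL.FieldRep
import Pool.Agent.Lib.MP_305fdd_al.PSL.GammaRep
import Pool.Agent.Lib.MP_305fdd_al.PSL.Ideals
import Pool.Agent.Lib.MP_305fdd_al.PSL.Place

/-!
# MP_305fdd_al: the representation of `Λ` over a field with a discrete valuation
-/

set_option autoImplicit false

namespace Pool.Agent.PSL2Z

open Polynomial Pool.Agent.Lib.MP_305fdd_al Pool.Agent.MP_305fdd_al
open scoped WithZero nonZeroDivisors

section transfer

variable {Γ Λ : Type} [Group Γ] [Group Λ] (Φ : NatBij Γ Λ)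

/-- a property of all values of a homomorphism to a finite group is transferred -/
theorem transferM {Q : Type} [Group Q] [Finite Q] (θ : Γ →* Q) (P : Q → Prop)
    (hP : ∀ g, P (θ g)) (l : Λ) : P (Φ.toFun Q θ l) := by
  have h1 : Φ.toFun Q θ l ∈ (Φ.toFun Q θ).range := ⟨l, rfl⟩
  rw [Φ.range_eq] at h1
  obtain ⟨g, hg⟩ := h1
  rw [← hg]
  exact hP g

theorem toFun_prodM {Q R : Type} [Group Q] [Finite Q] [Group R] [Finite R] (θ : Γ →* Q)
    (θ' : Γ →* R) : Φ.toFun (Q × R) (θ.prod θ') = (Φ.toFun Q θ).prod (Φ.toFun R θ') := by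
  ext l
  · have := Φ.nat (MonoidHom.fst Q R) (θ.prod θ')
    rw [MonoidHom.fst_comp_prod] at this
    rw [this]
    rfl
  · have := Φ.nat (MonoidHom.snd Q R) (θ.prod θ')
    rw [MonoidHom.snd_comp_prod] at this
    rw [this]
    rfl

theorem transfer₂ {Q R : Type} [Group Q] [Finite Q] [Group R] [Finite R] (θ : Γ →* Q)
    (θ' : Γ →* R) (P : Q → R → Prop) (hP : ∀ g, P (θ g) (θ' g)) (l : Λ) :
    P (Φ.toFun Q θ l) (Φ.toFun R θ' l) := by
  have h1 := transferM Φ (θ.prod θ') (fun q => P q.1 q.2) hP l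
  rw [toFun_prodM] at h1
  exact h1

theorem exists_of_range {Q : Type} [Group Q] [Finite Q] (θ : Γ →* Q) (g : Γ) :
    ∃ l : Λ, Φ.toFun Q θ l = θ g := by
  have h1 : θ g ∈ θ.range := ⟨g, rfl⟩
  rw [← Φ.range_eq] at h1
  exact h1

end transfer

section

variable {Γ Λ : Type} [Group Γ] [Group Λ] {x y : Γ} (h : IsC2C3 Γ x y) (Φ : NatBij Γ Λ)

/-- the sign of `Λ` -/
noncomputable abbrev eps' : Λ →* ℤˣ := Φ.toFun ℤˣ (eps h)

/-- the cubic character of `Λ` -/
noncomputable abbrev chi' : Λ →* Fˣ := Φ.toFun Fˣ (chi h)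

theorem rep'_Jc (c : F) (g : Λ) : rep' h Φ (Jc c) g =
    Matrix.GeneralLinearGroup.map (algebraMap F (F[X] ⧸ (Jc c).1))
      (Φ.toFun (GL (Fin 2) F) (rep h c) g) := by
  have h1 : Φ.toFun (GL (Fin 2) (F[X] ⧸ (Jc c).1)) (rep h (Ideal.Quotient.mk (Jc c).1 X)) =
      (Matrix.GeneralLinearGroup.map (algebraMap F (F[X] ⧸ (Jc c).1))).comp
        (Φ.toFun (GL (Fin 2) F) (rep h c)) := by
    rw [← Φ.nat, map_rep, mk_Jc, eval_X]
  exact DFunLike.congr_fun h1 g

theorem trace_rep'_Jc (c : F) (g : Λ) : (rep' h Φ (Jc c) g).val.trace =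
    algebraMap F (F[X] ⧸ (Jc c).1) (Φ.toFun (GL (Fin 2) F) (rep h c) g).val.trace := by
  rw [rep'_Jc, Matrix.trace_fin_two, Matrix.trace_fin_two, map_add]
  rfl

theorem det_repM (J : {J : Ideal F[X] // J ≠ ⊥}) (g : Λ) : (rep' h Φ J g).val.det =
    (((eps' h Φ g : ℤˣ) : ℤ) : F[X] ⧸ J.1) :=
  transfer₂ Φ (rep h (Ideal.Quotient.mk J.1 X)) (eps h)
    (fun q e => q.val.det = (((e : ℤˣ) : ℤ) : F[X] ⧸ J.1)) (fun g => det_rep h _ g) g

/-- values of the trace at `t = 0` -/
theorem trace'_zero (g : Λ) :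
    ((Φ.toFun (GL (Fin 2) F) (rep h 0) g).val.trace = 2 ∧ eps' h Φ g = 1) ∨
    ((Φ.toFun (GL (Fin 2) F) (rep h 0) g).val.trace = -1 ∧ eps' h Φ g = 1) ∨
    ((Φ.toFun (GL (Fin 2) F) (rep h 0) g).val.trace = 0 ∧ eps' h Φ g = -1) :=
  transfer₂ Φ (rep h (0 : F)) (eps h) (fun q e => (q.val.trace = 2 ∧ e = 1) ∨
    (q.val.trace = -1 ∧ e = 1) ∨ (q.val.trace = 0 ∧ e = -1)) (fun g => trace_zero h g) g

/-- values of the trace at `t = 7` -/
theorem trace'_seven (g : Λ) : (Φ.toFun (GL (Fin 2) F) (rep h 7) g).val.trace =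
    (chi' h Φ g : F) + (((eps' h Φ g : ℤˣ) : ℤ) : F) * ((chi' h Φ g)⁻¹ : Fˣ) := by
  have h1 := transfer₂ Φ (rep h (7 : F)) ((eps h).prod (chi h))
    (fun q e => q.val.trace = (e.2 : F) + (((e.1 : ℤˣ) : ℤ) : F) * ((e.2)⁻¹ : Fˣ))
    (fun g => trace_seven h g) g
  rw [toFun_prodM] at h1
  exact h1

theorem chi'_cube (g : Λ) : (chi' h Φ g) ^ 3 = 1 := by
  refine transferM Φ (chi h) (fun q => q ^ 3 = 1) (fun g => ?_) g
  have h1 : (powMonoidHom 3 : Fˣ →* Fˣ).comp (chi h) = 1 := by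
    apply hom_ext h
    · rw [MonoidHom.comp_apply, chi_x, map_one, MonoidHom.one_apply]
    · rw [MonoidHom.comp_apply, chi_y, MonoidHom.one_apply]
      decide
  exact DFunLike.congr_fun h1 g

theorem chi_val_cases (u : Fˣ) (hu : u ^ 3 = 1) : u = 1 ∨ u = om ∨ u = om⁻¹ := by
  revert u
  decide

/-- three kinds of elements with constant trace -/
theorem kinds (g : Λ) (c : F)
    (h0 : (Φ.toFun (GL (Fin 2) F) (rep h 0) g).val.trace = c)
    (h7 : (Φ.toFun (GL (Fin 2) F) (rep h 7) g).val.trace = c) :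
    (c = 2 ∧ eps' h Φ g = 1 ∧ chi' h Φ g = 1) ∨
    (c = -1 ∧ eps' h Φ g = 1 ∧ chi' h Φ g ≠ 1) ∨
    (c = 0 ∧ eps' h Φ g = -1 ∧ chi' h Φ g = 1) := by
  have h3 := chi'_cube h Φ g
  have h1 := trace'_zero h Φ g
  have h2 := trace'_seven h Φ g
  rw [h0] at h1
  rw [h7] at h2
  generalize chi' h Φ g = u at *
  generalize eps' h Φ g = e at *
  clear h0 h7
  rcases chi_val_cases u h3 with rfl | rfl | rfl <;>
  rcases h1 with ⟨hc, rfl⟩ | ⟨hc, rfl⟩ | ⟨hc, rfl⟩ <;> subst hc
  · exact Or.inl ⟨rfl, rfl, rfl⟩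
  · exact absurd h2 (by decide)
  · exact Or.inr (Or.inr ⟨rfl, rfl, rfl⟩)
  · exact absurd h2 (by decide)
  · exact Or.inr (Or.inl ⟨rfl, rfl, by decide⟩)
  · exact absurd h2 (by decide)
  · exact absurd h2 (by decide)
  · exact Or.inr (Or.inl ⟨rfl, rfl, by decide⟩)
  · exact absurd h2 (by decide)

theorem rep'_compat {J J' : {J : Ideal F[X] // J ≠ ⊥}} (hJ : J.1 ≤ J'.1) (g : Λ) :
    Matrix.GeneralLinearGroup.map (Ideal.Quotient.factor hJ) (rep' h Φ J g) = rep' h Φ J' g := by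
  have h1 : Φ.toFun (GL (Fin 2) (F[X] ⧸ J'.1)) (rep h (Ideal.Quotient.mk J'.1 X)) =
      (Matrix.GeneralLinearGroup.map (Ideal.Quotient.factor hJ)).comp
        (Φ.toFun (GL (Fin 2) (F[X] ⧸ J.1)) (rep h (Ideal.Quotient.mk J.1 X))) := by
    rw [← Φ.nat, map_rep, Ideal.Quotient.factor_mk]
  exact (DFunLike.congr_fun h1 g).symm

end

/-- the model: a representation of `Λ` over a field with a discrete valuation such that all
elements with integral trace are of three kinds -/
structure IsModel {Γ Λ : Type} [Group Γ] [Group Λ] {x y : Γ} (h : IsC2C3 Γ x y) (Φ : NatBij Γ Λ)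
    {L : Type} [Field L] [Algebra F L] (w : Valuation L ℤᵐ⁰) (ρ : Λ →* GL (Fin 2) L) : Prop where
  surj : Function.Surjective w
  det : ∀ g, (ρ g).val.det = (((eps' h Φ g : ℤˣ) : ℤ) : L)
  kinds : ∀ g, w (ρ g).val.trace ≤ 1 →
    ((ρ g).val.trace = 2 ∧ eps' h Φ g = 1 ∧ chi' h Φ g = 1) ∨
    ((ρ g).val.trace = -1 ∧ eps' h Φ g = 1 ∧ chi' h Φ g ≠ 1) ∨
    ((ρ g).val.trace = 0 ∧ eps' h Φ g = -1 ∧ chi' h Φ g = 1)
  resid : ∀ W : Finset Λ, (∀ g ∈ W, ρ g ≠ 1) → ∃ (Q : Type) (_ : Group Q) (_ : Finite Q)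
    (π : Λ →* Q), Function.Surjective π ∧ ρ.ker ≤ π.ker ∧ (∀ g ∈ W, π g ≠ 1) ∧
      π.ker ≤ (eps' h Φ).ker ∧ π.ker ≤ (chi' h Φ).ker
  infinite : ¬ ((Algebra.adjoin F (Set.range fun g => (ρ g).val.trace) : Subalgebra F L) :
    Set L).Finite

theorem exists_model {Γ Λ : Type} [Group Γ] [Group Λ] [Group.FG Λ] {x y : Γ} (h : IsC2C3 Γ x y)
    (Φ : NatBij Γ Λ) : ∃ (L : Type) (_ : Field L) (_ : Algebra F L) (w : Valuation L ℤᵐ⁰)
      (ρ : Λ →* GL (Fin 2) L), IsModel h Φ w ρ := by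
  obtain ⟨B, _, _, ev, T, hB, hT, hgen, hchar⟩ := exists_TR h Φ
  obtain ⟨hpr, hle7, hplace⟩ := place hB
  obtain ⟨β, hβ, hker⟩ := exists_beta hB
  have hle0 : prime0 ev ≤ RingHom.ker (ev (Jc 0)) := by
    rw [← ker_Jk_one hB]; exact prime0_le 1
  let K : Type := FractionRing (B ⧸ prime0 ev)
  obtain ⟨v, hv, hconst⟩ := hplace K
  let Ω : Type := FractionRing (PowerSeries F)
  -- the embedding of `B/𝔭` into the power series
  let βb : (B ⧸ prime0 ev) →+* PowerSeries F := Ideal.Quotient.lift _ β fun a ha => by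
    rw [← hker] at ha; exact ha
  have hβb : Function.Injective βb := by
    rw [injective_iff_map_eq_zero]
    intro a ha
    obtain ⟨b, rfl⟩ := Ideal.Quotient.mk_surjective a
    have h1 : β b = 0 := ha
    rw [Ideal.Quotient.eq_zero_iff_mem, ← hker]
    exact h1
  let i : (B ⧸ prime0 ev) →+* Ω := (algebraMap (PowerSeries F) Ω).comp βb
  have hi : Function.Injective i := (IsFractionRing.injective (PowerSeries F) Ω).comp hβb
  let j : K →+* Ω := IsFractionRing.lift hi
  letI : Algebra K Ω := j.toAlgebra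
  have hj : ∀ b, algebraMap K Ω (algebraMap (B ⧸ prime0 ev) K (Ideal.Quotient.mk _ b)) =
      algebraMap (PowerSeries F) Ω (β b) := fun b => IsFractionRing.lift_algebraMap hi _
  let Tb : Λ → K := fun g => algebraMap (B ⧸ prime0 ev) K (Ideal.Quotient.mk _ (T g))
  -- the representation over power series
  obtain ⟨ρ₀, hρ₀⟩ := exists_lim_rep (fun k => rep' h Φ (Jk k)) fun k l hkl g =>
    rep'_compat h Φ (Jk_le hkl) g
  have htr : ∀ g, (ρ₀ g).val.trace = β (T g) := by
    intro g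
    refine th_ext fun k => ?_
    rw [hβ, hT, ← hρ₀, Matrix.trace_fin_two, Matrix.trace_fin_two, map_add]
    rfl
  have hdet : ∀ g, (ρ₀ g).val.det = (((eps' h Φ g : ℤˣ) : ℤ) : PowerSeries F) := by
    intro g
    refine th_ext fun k => ?_
    rw [map_intCast, ← det_repM, ← hρ₀]
    rw [Matrix.det_fin_two, Matrix.det_fin_two, map_sub, map_mul, map_mul]
    rfl
  let ρΩ : Λ →* GL (Fin 2) Ω :=
    (Matrix.GeneralLinearGroup.map (algebraMap (PowerSeries F) Ω)).comp ρ₀
  have hρΩ : ∀ g, ρΩ g = 1 ↔ ρ₀ g = 1 := by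
    intro g
    constructor
    · intro h1
      refine Units.ext (Matrix.ext fun a b => ?_)
      have h2 := congrArg (fun M : GL (Fin 2) Ω => M.val a b) h1
      apply IsFractionRing.injective (PowerSeries F) Ω
      refine Eq.trans h2 ?_
      rw [Units.val_one, Units.val_one, Matrix.one_apply, Matrix.one_apply]
      split_ifs
      · rw [map_one]
      · rw [map_zero]
    · intro h1
      show Matrix.GeneralLinearGroup.map (algebraMap (PowerSeries F) Ω) (ρ₀ g) = 1
      rw [h1, map_one]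
  -- an element whose trace is not integral
  have hT7 : ∀ (g : Λ) (c : F), T g - algebraMap F B c ∈ prime0 ev →
      (Φ.toFun (GL (Fin 2) F) (rep h 0) g).val.trace = c ∧
      (Φ.toFun (GL (Fin 2) F) (rep h 7) g).val.trace = c := by
    intro g c hc
    have h1 : ev (Jc 0) (T g - algebraMap F B c) = 0 := hle0 hc
    have h2 : ev (Jc 7) (T g - algebraMap F B c) = 0 := hle7 hc
    rw [map_sub, AlgHom.commutes, hT, trace_rep'_Jc, sub_eq_zero] at h1 h2
    exact ⟨(Jc_surj 0).1 h1, (Jc_surj 7).1 h2⟩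
  have hnc : ∀ z : B ⧸ prime0 ev, ∀ c : F, algebraMap F K c = algebraMap _ K z →
      z = Ideal.Quotient.mk _ (algebraMap F B c) := by
    intro z c hz
    apply IsFractionRing.injective (B ⧸ prime0 ev) K
    rw [← hz]
    rfl
  obtain ⟨l₀, hl₀⟩ : ∃ l₀, 1 < v (Tb l₀) := by
    by_contra hno
    push Not at hno
    have hall : ∀ b : B, v (algebraMap (B ⧸ prime0 ev) K (Ideal.Quotient.mk _ b)) ≤ 1 := by
      intro b
      have hb : b ∈ Algebra.adjoin F (Set.range T) := by rw [hgen]; exact Algebra.mem_top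
      induction hb using Algebra.adjoin_induction with
      | mem b hb =>
        obtain ⟨g, rfl⟩ := hb
        exact hno g
      | algebraMap c =>
        exact val_F_le_one ((algebraMap (B ⧸ prime0 ev) K).comp
          ((Ideal.Quotient.mk (prime0 ev)).comp (algebraMap F B))) v c
      | add a b _ _ ha hb =>
        rw [map_add, map_add]
        exact (Valuation.map_add v _ _).trans (max_le ha hb)
      | mul a b _ _ ha hb =>
        rw [map_mul, map_mul, map_mul]
        exact mul_le_one' ha hb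
    obtain ⟨b, hb⟩ := hB.surj (Jk 2) (Ideal.Quotient.mk _ X)
    obtain ⟨c, hc⟩ := hconst b (hall b)
    have h1 : ev (Jk 2) (b - algebraMap F B c) = 0 := prime0_le 2 hc
    rw [map_sub, AlgHom.commutes, hb, sub_eq_zero] at h1
    have h2 : Ideal.Quotient.mk (Jk 2).1 X = Ideal.Quotient.mk (Jk 2).1 (C c) := h1
    rw [Ideal.Quotient.eq] at h2
    have h3 : X - C c ∈ Ideal.span {(X : F[X]) ^ 2} := h2
    rw [Ideal.mem_span_singleton, Polynomial.X_pow_dvd_iff] at h3
    have h4 := h3 1 (by norm_num)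
    rw [coeff_sub, coeff_X_one, coeff_C, if_neg one_ne_zero, sub_zero] at h4
    exact one_ne_zero h4
  -- a commutator with trace different from 2
  obtain ⟨g₀, hg₀⟩ := exists_of_range Φ (rep h (0 : F)) x
  obtain ⟨h₀, hh₀⟩ := exists_of_range Φ (rep h (0 : F)) y
  have hcomm : Tb (g₀ * h₀ * g₀⁻¹ * h₀⁻¹) ≠ 2 := by
    intro h1
    have h2 : T (g₀ * h₀ * g₀⁻¹ * h₀⁻¹) - algebraMap F B 2 ∈ prime0 ev := by
      rw [← Ideal.Quotient.eq]
      apply hnc
      rw [map_ofNat]
      exact h1.symm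
    have h3 := (hT7 _ _ h2).1
    rw [map_mul, map_mul, map_mul, map_inv, map_inv, hg₀, hh₀, ← map_inv, ← map_inv, ← map_mul,
      ← map_mul, ← map_mul] at h3
    exact trace_comm h h3
  have h2K : (2 : K) ≠ 0 := by
    intro h1
    have h2 : Ideal.Quotient.mk (prime0 ev) 0 = Ideal.Quotient.mk (prime0 ev) (algebraMap F B 2) := by
      apply hnc
      rw [map_ofNat, h1, map_zero, map_zero]
    rw [Ideal.Quotient.eq] at h2
    have h3 : ev (Jc 0) (0 - algebraMap F B 2) = 0 := hle0 h2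
    rw [map_sub, AlgHom.commutes, map_zero, zero_sub, neg_eq_zero] at h3
    have h4 : algebraMap F (F[X] ⧸ (Jc 0).1) 2 = algebraMap F (F[X] ⧸ (Jc 0).1) 0 := by
      rw [h3, map_zero]
    exact absurd ((Jc_surj 0).1 h4) (by decide)
  obtain ⟨L, _, _, w, ρ, hw, hwv, htrL, hdetL, hker1⟩ := exists_fieldRep (K := K) (Ω := Ω) h2K v hv
    ρΩ (eps' h Φ) (fun g => by
      have h1 : (ρΩ g).val = (algebraMap (PowerSeries F) Ω).mapMatrix (ρ₀ g).val := rfl
      rw [h1, ← RingHom.map_det, hdet, map_intCast]) Tb (fun g => by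
      rw [hj, ← htr]
      show ((ρ₀ g).val.map (algebraMap (PowerSeries F) Ω)).trace = _
      rw [Matrix.trace_fin_two, Matrix.trace_fin_two, map_add]
      rfl) l₀ hl₀ g₀ h₀ hcomm
  letI : Algebra F L := ((algebraMap K L).comp (algebraMap F K)).toAlgebra
  have hFL : ∀ c : F, algebraMap F L c = algebraMap K L (algebraMap F K c) := fun c => rfl
  have hFK : ∀ c : F, algebraMap F K c = algebraMap (B ⧸ prime0 ev) K
      (Ideal.Quotient.mk _ (algebraMap F B c)) := fun c => rfl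
  have hkinds : ∀ g, w (ρ g).val.trace ≤ 1 →
    ((ρ g).val.trace = 2 ∧ eps' h Φ g = 1 ∧ chi' h Φ g = 1) ∨
    ((ρ g).val.trace = -1 ∧ eps' h Φ g = 1 ∧ chi' h Φ g ≠ 1) ∨
    ((ρ g).val.trace = 0 ∧ eps' h Φ g = -1 ∧ chi' h Φ g = 1) := by
    intro g hg
    rw [htrL] at hg ⊢
    obtain ⟨c, hc⟩ := hconst (T g) (hwv _ hg)
    obtain ⟨h0, h7⟩ := hT7 g c hc
    have h1 : Tb g = algebraMap F K c := by
      rw [hFK]
      show algebraMap (B ⧸ prime0 ev) K _ = _
      rw [Ideal.Quotient.eq.2 hc]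
    rw [h1, ← hFL]
    rcases kinds h Φ g c h0 h7 with ⟨rfl, h2, h3⟩ | ⟨rfl, h2, h3⟩ | ⟨rfl, h2, h3⟩
    · exact Or.inl ⟨map_ofNat _ 2, h2, h3⟩
    · exact Or.inr (Or.inl ⟨by rw [map_neg, map_one], h2, h3⟩)
    · exact Or.inr (Or.inr ⟨map_zero _, h2, h3⟩)
  refine ⟨L, inferInstance, inferInstance, w, ρ, hw, hdetL, hkinds, ?_, ?_⟩
  · intro W hW
    -- choose `k` large
    have h1 : ∀ g ∈ W, ∃ k, rep' h Φ (Jk k) g ≠ 1 := by
      intro g hg
      by_contra hno
      push Not at hno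
      apply hW g hg
      rw [hker1, hρΩ]
      refine Units.ext (Matrix.ext fun a b => ?_)
      refine th_ext fun k => ?_
      have h2 := hρ₀ k g
      rw [hno k] at h2
      have h3 := congrArg (fun M : GL (Fin 2) (F[X] ⧸ (Jk k).1) => M.val a b) h2
      refine Eq.trans h3 ?_
      rw [Units.val_one, Units.val_one, Matrix.one_apply, Matrix.one_apply]
      split_ifs
      · rw [map_one]
      · rw [map_zero]
    choose! k hk using h1
    let n := W.sup k
    let θ : Λ →* GL (Fin 2) (F[X] ⧸ (Jk n).1) × (ℤˣ × Fˣ) :=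
      (rep' h Φ (Jk n)).prod ((eps' h Φ).prod (chi' h Φ))
    refine ⟨θ.range, inferInstance, inferInstance, θ.rangeRestrict,
      θ.rangeRestrict_surjective, ?_, ?_, ?_, ?_⟩
    · intro g hg
      rw [MonoidHom.mem_ker] at hg ⊢
      have h2 := (hρΩ g).1 ((hker1 g).1 hg)
      have h3 : rep' h Φ (Jk n) g = 1 := by rw [← hρ₀, h2, map_one]
      have h4 := hkinds g (by
        rw [hg, Units.val_one, Matrix.trace_one, Fintype.card_fin]
        have := val_F_le_one (algebraMap F L) w 2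
        rwa [map_ofNat] at this)
      have h5 : (ρ g).val.trace = algebraMap F L 2 := by
        rw [hg, Units.val_one, Matrix.trace_one, Fintype.card_fin, map_ofNat]
        norm_num
      have hinj : Function.Injective (algebraMap F L) := (algebraMap F L).injective
      rw [h5] at h4
      have h6 : eps' h Φ g = 1 ∧ chi' h Φ g = 1 := by
        rcases h4 with ⟨_, h6⟩ | ⟨h6, _⟩ | ⟨h6, _⟩
        · exact h6
        · exfalso
          rw [← map_one (algebraMap F L), ← map_neg] at h6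
          exact absurd (hinj h6) (by decide)
        · exfalso
          rw [← map_zero (algebraMap F L)] at h6
          exact absurd (hinj h6) (by decide)
      apply Subtype.ext
      show ((rep' h Φ (Jk n) g), ((eps' h Φ g), (chi' h Φ g))) = 1
      rw [h3, h6.1, h6.2]
      rfl
    · intro g hg hone
      apply hk g hg
      have h2 : θ g = 1 := congrArg Subtype.val hone
      have h3 : rep' h Φ (Jk n) g = 1 := congrArg Prod.fst h2
      rw [← rep'_compat h Φ (Jk_le (Finset.le_sup hg)) g, h3, map_one]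
    · intro g hg
      have h2 : θ g = 1 := congrArg Subtype.val (MonoidHom.mem_ker.1 hg)
      exact congrArg (fun q => q.2.1) h2
    · intro g hg
      have h2 : θ g = 1 := congrArg Subtype.val (MonoidHom.mem_ker.1 hg)
      exact congrArg (fun q => q.2.2) h2
  · intro hfin
    apply prime0_not_max hB
    let f : (B ⧸ prime0 ev) →+* L := (algebraMap K L).comp (algebraMap (B ⧸ prime0 ev) K)
    have hf : Function.Injective f :=
      (algebraMap K L).injective.comp (IsFractionRing.injective (B ⧸ prime0 ev) K)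
    have hmem : ∀ z, f z ∈ (Algebra.adjoin F (Set.range fun g => (ρ g).val.trace) :
        Subalgebra F L) := by
      intro z
      obtain ⟨b, rfl⟩ := Ideal.Quotient.mk_surjective z
      have hb : b ∈ Algebra.adjoin F (Set.range T) := by rw [hgen]; exact Algebra.mem_top
      induction hb using Algebra.adjoin_induction with
      | mem b hb =>
        obtain ⟨g, rfl⟩ := hb
        exact Algebra.subset_adjoin ⟨g, htrL g⟩
      | algebraMap c => exact Subalgebra.algebraMap_mem _ c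
      | add a b _ _ ha hb =>
        rw [map_add, map_add]
        exact add_mem ha hb
      | mul a b _ _ ha hb =>
        rw [map_mul, map_mul]
        exact mul_mem ha hb
    have hfin2 : Finite (B ⧸ prime0 ev) := by
      have := hfin.to_subtype
      exact Finite.of_injective (fun z => (⟨f z, hmem z⟩ : ((Algebra.adjoin F
        (Set.range fun g => (ρ g).val.trace) : Subalgebra F L) : Set L)))
        fun a b hab => hf (congrArg Subtype.val hab)
    rw [Ideal.Quotient.maximal_ideal_iff_isField_quotient]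
    exact Finite.isField_of_domain _

end Pool.Agent.PSL2Z
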