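import Mathlib

/-!
# MP_305fdd_al: nilpotent 2 x 2 matrices
-/

set_option autoImplicit false

namespace Pool.Agent.PSL2Z

section nilp

variable {L : Type} [Field L]

theorem nil_mul {N N' : Matrix (Fin 2) (Fin 2) L} (h1 : N.trace = 0) (h2 : N.det = 0)
    (h3 : N'.trace = 0) (h4 : N'.det = 0) (h5 : (N * N').trace = 0) : N * N' = 0 := by
  rw [Matrix.trace_fin_two] at h1 h3 h5
  rw [Matrix.det_fin_two] at h2 h4
  simp only [Matrix.mul_apply, Fin.sum_univ_two] at h5
  set a := N 0 0
  set b := N 0 1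
  set c := N 1 0
  set a' := N' 0 0
  set b' := N' 0 1
  set c' := N' 1 0
  have hd : N 1 1 = -a := by linear_combination h1
  have hd' : N' 1 1 = -a' := by linear_combination h3
  rw [hd] at h2 h5
  rw [hd'] at h4 h5
  have hp : a * a' + b * c' = 0 := by
    have h6 : (a * a' + b * c') ^ 2 = 0 := by
      linear_combination (b * c') * h5 + b' * c' * h2 - a ^ 2 * h4
    exact pow_eq_zero_iff (two_ne_zero) |>.1 h6
  have hq : a * a' + c * b' = 0 := by linear_combination h5 - hp
  have hr : a * b' - b * a' = 0 := by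
    have h6 : (a * b' - b * a') ^ 2 = 0 := by
      linear_combination (-b' ^ 2) * h2 - b ^ 2 * h4 - b * b' * h5
    exact pow_eq_zero_iff (two_ne_zero) |>.1 h6
  have hs : c * a' - a * c' = 0 := by
    have h6 : (c * a' - a * c') ^ 2 = 0 := by
      linear_combination (-c' ^ 2) * h2 - c ^ 2 * h4 - c * c' * h5
    exact pow_eq_zero_iff (two_ne_zero) |>.1 h6
  ext i j
  fin_cases i <;> fin_cases j
  · show (N * N') 0 0 = 0
    rw [Matrix.mul_apply, Fin.sum_univ_two]
    exact hp
  · show (N * N') 0 1 = 0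
    rw [Matrix.mul_apply, Fin.sum_univ_two, hd']
    linear_combination hr
  · show (N * N') 1 0 = 0
    rw [Matrix.mul_apply, Fin.sum_univ_two, hd]
    linear_combination hs
  · show (N * N') 1 1 = 0
    rw [Matrix.mul_apply, Fin.sum_univ_two, hd, hd']
    linear_combination hq

theorem ker_eq_im {N : Matrix (Fin 2) (Fin 2) L} (h1 : N.trace = 0) (h2 : N.det = 0)
    (hN : N ≠ 0) {ξ : Fin 2 → L} (hξ : N.mulVec ξ = 0) : ∃ η, N.mulVec η = ξ := by
  rw [Matrix.trace_fin_two] at h1
  rw [Matrix.det_fin_two] at h2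
  have hd : N 1 1 = -(N 0 0) := by linear_combination h1
  have e0 := congrFun hξ 0
  have e1 := congrFun hξ 1
  simp only [Matrix.mulVec, dotProduct, Fin.sum_univ_two, Pi.zero_apply] at e0 e1
  rw [hd] at h2 e1
  by_cases hb : N 0 1 = 0
  · by_cases hc : N 1 0 = 0
    · exfalso
      apply hN
      rw [hb, zero_mul, sub_zero] at h2
      have ha : N 0 0 = 0 := by
        have : (N 0 0) ^ 2 = 0 := by linear_combination -h2
        exact pow_eq_zero_iff (two_ne_zero) |>.1 this
      ext i j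
      fin_cases i <;> fin_cases j
      · exact ha
      · exact hb
      · exact hc
      · show N 1 1 = 0
        rw [hd, ha, neg_zero]
    · refine ⟨![ξ 1 / N 1 0, 0], ?_⟩
      ext i
      fin_cases i
      · show N.mulVec _ 0 = ξ 0
        simp only [Matrix.mulVec, dotProduct, Fin.sum_univ_two]
        show N 0 0 * (ξ 1 / N 1 0) + N 0 1 * 0 = ξ 0
        field_simp
        linear_combination -e1
      · show N.mulVec _ 1 = ξ 1
        simp only [Matrix.mulVec, dotProduct, Fin.sum_univ_two]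
        show N 1 0 * (ξ 1 / N 1 0) + N 1 1 * 0 = ξ 1
        field_simp
        ring
  · refine ⟨![0, ξ 0 / N 0 1], ?_⟩
    ext i
    fin_cases i
    · show N.mulVec _ 0 = ξ 0
      simp only [Matrix.mulVec, dotProduct, Fin.sum_univ_two]
      show N 0 0 * 0 + N 0 1 * (ξ 0 / N 0 1) = ξ 0
      field_simp
      ring
    · show N.mulVec _ 1 = ξ 1
      simp only [Matrix.mulVec, dotProduct, Fin.sum_univ_two]
      show N 1 0 * 0 + N 1 1 * (ξ 0 / N 0 1) = ξ 1
      rw [hd]
      field_simp
      linear_combination -e0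

theorem ker_line {N : Matrix (Fin 2) (Fin 2) L} (hN : N ≠ 0) {ξ η : Fin 2 → L}
    (hξ0 : ξ ≠ 0) (hξ : N.mulVec ξ = 0) (hη : N.mulVec η = 0) : ∃ c : L, η = c • ξ := by
  have key : ξ 0 * η 1 - ξ 1 * η 0 = 0 := by
    by_contra hne
    apply hN
    ext i j
    have e := congrFun hξ i
    have e' := congrFun hη i
    simp only [Matrix.mulVec, dotProduct, Fin.sum_univ_two, Pi.zero_apply] at e e'
    fin_cases j
    · show N i 0 = 0
      have : N i 0 * (ξ 0 * η 1 - ξ 1 * η 0) = 0 := by linear_combination η 1 * e - ξ 1 * e'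
      exact (mul_eq_zero.1 this).resolve_right hne
    · show N i 1 = 0
      have : N i 1 * (ξ 0 * η 1 - ξ 1 * η 0) = 0 := by linear_combination ξ 0 * e' - η 0 * e
      exact (mul_eq_zero.1 this).resolve_right hne
  by_cases h0 : ξ 0 = 0
  · have h1 : ξ 1 ≠ 0 := by
      intro h1
      apply hξ0
      ext i
      fin_cases i
      · exact h0
      · exact h1
    refine ⟨η 1 / ξ 1, ?_⟩
    ext i
    fin_cases i
    · show η 0 = (η 1 / ξ 1) * ξ 0
      rw [h0, zero_mul, zero_sub, neg_eq_zero] at key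
      rw [h0, mul_zero]
      exact (mul_eq_zero.1 key).resolve_left h1
    · show η 1 = (η 1 / ξ 1) * ξ 1
      field_simp
  · refine ⟨η 0 / ξ 0, ?_⟩
    ext i
    fin_cases i
    · show η 0 = (η 0 / ξ 0) * ξ 0
      field_simp
    · show η 1 = (η 0 / ξ 0) * ξ 1
      field_simp
      linear_combination key

theorem exists_ker {N : Matrix (Fin 2) (Fin 2) L} (h2 : N.det = 0) :
    ∃ ξ : Fin 2 → L, ξ ≠ 0 ∧ N.mulVec ξ = 0 := by
  obtain ⟨ξ, h, h'⟩ := (Matrix.exists_mulVec_eq_zero_iff (M := N)).2 h2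
  exact ⟨ξ, h, h'⟩

end nilp

end Pool.Agent.PSL2Z
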