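import Pool.Agent.Lib.MP_305fdd_al.PSL.Lattice
import Pool.Agent.Lib.MP_305fdd_al.PSL.Model
import Pool.Agent.Lib.MP_305fdd_al.PSL.Nilp

/-!
# MP_305fdd_al: the path argument in the tree
-/

set_option autoImplicit false

namespace Pool.Agent.PSL2Z

open Polynomial Pool.Agent.Lib.MP_305fdd_al Pool.Agent.MP_305fdd_al
open scoped WithZero nonZeroDivisors

variable {Γ Λ : Type} [Group Γ] [Group Λ] {x y : Γ} {h : IsC2C3 Γ x y} {Φ : NatBij Γ Λ}
  {L : Type} [Field L] [Algebra F L] {w : Valuation L ℤᵐ⁰} {ρ : Λ →* GL (Fin 2) L}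

theorem sign_cases (e : ℤˣ) : e = 1 ∨ e = -1 := Int.units_eq_one_or e

theorem val_sign (w : Valuation L ℤᵐ⁰) (e : ℤˣ) : w (((e : ℤˣ) : ℤ) : L) = 1 := by
  rcases sign_cases e with rfl | rfl
  · simp
  · simp

/-- the homomorphism to the matrices with unit determinant -/
noncomputable def IsModel.toGw (hM : IsModel h Φ w ρ) : Λ →* Gw w where
  toFun g := ⟨ρ g, by
    show w (ρ g).val.det = 1
    rw [hM.det, val_sign]⟩
  map_one' := Subtype.ext (map_one ρ)
  map_mul' a b := Subtype.ext (map_mul ρ a b)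

/-- data of the action on the tree -/
structure TreeData {Γ Λ : Type} [Group Γ] [Group Λ] {x y : Γ} (h : IsC2C3 Γ x y) (Φ : NatBij Γ Λ)
    {L : Type} [Field L] [Algebra F L] (w : Valuation L ℤᵐ⁰) (ρ : Λ →* GL (Fin 2) L)
    {V : Type} [MulAction Λ V] (X : SimpleGraph V) (ty : V → Bool) : Prop where
  model : IsModel h Φ w ρ
  act : TreeAct Λ V X ty
  stab : ∀ (v : V), ∀ g ∈ MulAction.stabilizer Λ v, w (ρ g).val.trace ≤ 1
  up : ∀ ξ : Fin 2 → L, ξ ≠ 0 → ∃ up : V → V, (∀ v, X.Adj v (up v)) ∧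
        (∀ v z, X.Adj v z → z ≠ up v → up z = v) ∧
        (∀ (v : V), ∀ g ∈ MulAction.stabilizer Λ v, (∃ c : L, (ρ g).val.mulVec ξ = c • ξ) →
          g • up v = up v)

theorem IsModel.exists_tree (hM : IsModel h Φ w ρ) : ∃ (V : Type) (_ : MulAction Λ V)
    (X : SimpleGraph V) (ty : V → Bool), Nonempty V ∧ TreeData h Φ w ρ X ty := by
  obtain ⟨V, _, X, ty, hne, hX, hst, hup⟩ := PSL2Z.exists_tree w hM.surj
  letI act : MulAction Λ V := MulAction.compHom V hM.toGw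
  have hsmul : ∀ (g : Λ) (v : V), g • v = hM.toGw g • v := fun g v => rfl
  refine ⟨V, act, X, ty, hne, hM, ⟨hX.tree, fun g v z hvz => hX.adj _ _ _ hvz,
    fun g v => hX.ty_smul _ _, hX.ty_adj⟩, fun v g hg => hst (hM.toGw g) v hg, fun ξ hξ => ?_⟩
  obtain ⟨up, h1, h2, h3⟩ := hup ξ hξ
  exact ⟨up, h1, h2, fun v g hg hc => h3 (hM.toGw g) v hg hc⟩

namespace TreeData

variable {V : Type} [MulAction Λ V] {X : SimpleGraph V} {ty : V → Bool}
  (hT : TreeData h Φ w ρ X ty)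

/-- the stabiliser of `v` contains an element of sign -1 -/
def HasE (h : IsC2C3 Γ x y) (Φ : NatBij Γ Λ) {V : Type} [MulAction Λ V] (v : V) : Prop :=
  ∃ g ∈ MulAction.stabilizer Λ v, eps' h Φ g = -1

/-- the stabiliser of `v` contains an element with nontrivial cubic character -/
def HasC (h : IsC2C3 Γ x y) (Φ : NatBij Γ Λ) {V : Type} [MulAction Λ V] (v : V) : Prop :=
  ∃ g ∈ MulAction.stabilizer Λ v, chi' h Φ g ≠ 1

include hT

theorem kinds (v : V) (g : Λ) (hg : g ∈ MulAction.stabilizer Λ v) :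
    ((ρ g).val.trace = 2 ∧ eps' h Φ g = 1 ∧ chi' h Φ g = 1) ∨
    ((ρ g).val.trace = -1 ∧ eps' h Φ g = 1 ∧ chi' h Φ g ≠ 1) ∨
    ((ρ g).val.trace = 0 ∧ eps' h Φ g = -1 ∧ chi' h Φ g = 1) :=
  hT.model.kinds g (hT.stab v g hg)

theorem notboth (v : V) (h1 : HasE h Φ v) (h2 : HasC h Φ v) : False := by
  obtain ⟨g, hg, hg'⟩ := h1
  obtain ⟨k, hk, hk'⟩ := h2
  have h3 := hT.kinds v g hg
  have h4 := hT.kinds v k hk
  have h5 := hT.kinds v (g * k) (mul_mem hg hk)
  have e1 : chi' h Φ g = 1 := by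
    rcases h3 with ⟨_, h3, _⟩ | ⟨_, h3, _⟩ | ⟨_, _, h3⟩
    · rw [hg'] at h3; exact absurd h3 (by decide)
    · rw [hg'] at h3; exact absurd h3 (by decide)
    · exact h3
  have e2 : eps' h Φ k = 1 := by
    rcases h4 with ⟨_, h4, _⟩ | ⟨_, h4, _⟩ | ⟨_, _, h4⟩
    · exact h4
    · exact h4
    · exact absurd h4 hk'
  rw [map_mul (eps' h Φ), map_mul (chi' h Φ), e1, e2, hg', mul_one, one_mul] at h5
  rcases h5 with ⟨_, h5, _⟩ | ⟨_, h5, _⟩ | ⟨_, _, h5⟩
  · exact absurd h5 (by decide)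
  · exact absurd h5 (by decide)
  · exact hk' h5

/-- unipotent elements -/
theorem trace_eq_two (v : V) (g : Λ) (hg : g ∈ MulAction.stabilizer Λ v)
    (he : eps' h Φ g = 1) (hc : chi' h Φ g = 1) : (ρ g).val.trace = 2 := by
  rcases hT.kinds v g hg with ⟨h1, _⟩ | ⟨_, _, h1⟩ | ⟨_, h1, _⟩
  · exact h1
  · exact absurd hc h1
  · rw [he] at h1; exact absurd h1 (by decide)

/-- the nilpotent part of a unipotent element -/
theorem nilp (v : V) (g : Λ) (hg : g ∈ MulAction.stabilizer Λ v)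
    (he : eps' h Φ g = 1) (hc : chi' h Φ g = 1) :
    ((ρ g).val - 1).trace = 0 ∧ ((ρ g).val - 1).det = 0 := by
  have h1 := hT.trace_eq_two v g hg he hc
  have h2 := hT.model.det g
  rw [he, Units.val_one, Int.cast_one] at h2
  rw [Matrix.trace_fin_two] at h1
  rw [Matrix.det_fin_two] at h2
  constructor
  · rw [Matrix.trace_fin_two]
    simp only [Matrix.sub_apply, Matrix.one_apply_eq]
    linear_combination h1
  · rw [Matrix.det_fin_two]
    simp only [Matrix.sub_apply, Matrix.one_apply_eq]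
    rw [Matrix.one_apply_ne (by decide), Matrix.one_apply_ne (by decide)]
    linear_combination h2 - h1

/-- products of nilpotent parts in one stabiliser vanish -/
theorem nilp_mul (v : V) (g k : Λ) (hg : g ∈ MulAction.stabilizer Λ v)
    (he : eps' h Φ g = 1) (hc : chi' h Φ g = 1) (hk : k ∈ MulAction.stabilizer Λ v)
    (he' : eps' h Φ k = 1) (hc' : chi' h Φ k = 1) :
    ((ρ g).val - 1) * ((ρ k).val - 1) = 0 := by
  obtain ⟨a1, a2⟩ := hT.nilp v g hg he hc
  obtain ⟨b1, b2⟩ := hT.nilp v k hk he' hc'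
  refine nil_mul a1 a2 b1 b2 ?_
  have h1 := hT.trace_eq_two v (g * k) (mul_mem hg hk) (by rw [map_mul, he, he', one_mul])
    (by rw [map_mul, hc, hc', one_mul])
  have h2 := hT.trace_eq_two v g hg he hc
  have h3 := hT.trace_eq_two v k hk he' hc'
  have e : ((ρ g).val - 1) * ((ρ k).val - 1) = (ρ (g * k)).val - (ρ g).val - (ρ k).val + 1 := by
    rw [map_mul, Units.val_mul]
    noncomm_ring
  rw [e, Matrix.trace_add, Matrix.trace_sub, Matrix.trace_sub, h1, h2, h3, Matrix.trace_one,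
    Fintype.card_fin]
  norm_num

/-- the fixed line of the unipotents of a stabiliser is fixed by the stabiliser -/
theorem fix_line (v : V) (g : Λ) (hg : g ∈ MulAction.stabilizer Λ v)
    (he : eps' h Φ g = 1) (hc : chi' h Φ g = 1) (hne : ρ g ≠ 1) (ξ : Fin 2 → L) (hξ0 : ξ ≠ 0)
    (hξ : ((ρ g).val - 1).mulVec ξ = 0) (k : Λ) (hk : k ∈ MulAction.stabilizer Λ v) :
    ∃ c : L, (ρ k).val.mulVec ξ = c • ξ := by
  obtain ⟨a1, a2⟩ := hT.nilp v g hg he hc
  have hN : (ρ g).val - 1 ≠ 0 := by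
    intro h0
    exact hne (Units.ext (sub_eq_zero.1 h0))
  -- the conjugate `k⁻¹ g k`
  have hmem : k⁻¹ * g * k ∈ MulAction.stabilizer Λ v := mul_mem (mul_mem (inv_mem hk) hg) hk
  have he' : eps' h Φ (k⁻¹ * g * k) = 1 := by
    rw [map_mul, map_mul, he, mul_one, ← map_mul, inv_mul_cancel, map_one]
  have hc' : chi' h Φ (k⁻¹ * g * k) = 1 := by
    rw [map_mul, map_mul, hc, mul_one, ← map_mul, inv_mul_cancel, map_one]
  have h1 := hT.nilp_mul v _ g hmem he' hc' hg he hc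
  obtain ⟨η, hη⟩ := ker_eq_im a1 a2 hN hξ
  have h2 : ((ρ (k⁻¹ * g * k)).val - 1).mulVec ξ = 0 := by
    rw [← hη, Matrix.mulVec_mulVec, h1, Matrix.zero_mulVec]
  have h3 : (ρ k).val * ((ρ (k⁻¹ * g * k)).val - 1) = ((ρ g).val - 1) * (ρ k).val := by
    have e1 : (ρ k).val * (ρ (k⁻¹ * g * k)).val = (ρ g).val * (ρ k).val := by
      have e2 : k * (k⁻¹ * g * k) = g * k := by group
      rw [← Units.val_mul, ← Units.val_mul, ← map_mul, ← map_mul, e2]
    rw [mul_sub, sub_mul, e1, mul_one, one_mul]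
  have h4 : ((ρ g).val - 1).mulVec ((ρ k).val.mulVec ξ) = 0 := by
    rw [Matrix.mulVec_mulVec, ← h3, ← Matrix.mulVec_mulVec, h2, Matrix.mulVec_zero]
  exact ker_line hN hξ0 hξ h4

/-- **the path argument**: on a minimal path between a vertex with an element of sign -1 and a
vertex with an element of nontrivial cubic character some edge group is trivial -/
theorem exists_trivial_edge (Y : Finset V) (n : ℕ) (z : ℕ → V)
    (hE : HasE h Φ (z 0)) (hC : HasC h Φ (z n))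
    (hadj : ∀ i < n, X.Adj (z i) (z (i + 1)))
    (hinj : ∀ i ≤ n, ∀ j ≤ n, z i = z j → i = j)
    (hminE : ∀ i, 0 < i → i < n → ¬ HasE h Φ (z i))
    (hminC : ∀ i, 0 < i → i < n → ¬ HasC h Φ (z i)) :
    ∃ m < n, ∀ g ∈ MulAction.stabilizer Λ (z m) ⊓ MulAction.stabilizer Λ (z (m + 1)), ρ g = 1 := by
  have hn : 0 < n := by
    rcases Nat.eq_zero_or_pos n with h0 | h0
    · subst h0
      exact (hT.notboth _ hE hC).elim
    · exact h0
  have hE' : ∀ i, 0 < i → i ≤ n → ¬ HasE h Φ (z i) := by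
    intro i h1 h2 h3
    rcases Nat.lt_or_ge i n with h4 | h4
    · exact hminE i h1 h4 h3
    · have : i = n := le_antisymm h2 h4
      subst this
      exact hT.notboth _ h3 hC
  have hC' : ∀ i, i < n → ¬ HasC h Φ (z i) := by
    intro i h1 h3
    rcases Nat.eq_zero_or_pos i with h4 | h4
    · subst h4
      exact hT.notboth _ hE h3
    · exact hminC i h4 h1 h3
  -- edge groups are unipotent
  have hU : ∀ i < n, ∀ g ∈ MulAction.stabilizer Λ (z i) ⊓ MulAction.stabilizer Λ (z (i + 1)),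
      eps' h Φ g = 1 ∧ chi' h Φ g = 1 := by
    intro i hi g hg
    constructor
    · rcases sign_cases (eps' h Φ g) with h1 | h1
      · exact h1
      · exact absurd ⟨g, hg.2, h1⟩ (hE' (i + 1) (Nat.succ_pos i) hi)
    · by_contra h1
      exact hC' i hi ⟨g, hg.1, h1⟩
  by_contra hno
  push Not at hno
  choose! g hg hne using hno
  -- the common line
  obtain ⟨e0, c0⟩ := hU 0 hn (g 0) (hg 0 hn)
  obtain ⟨ξ, hξ0, hξ⟩ := exists_ker (hT.nilp (z 0) (g 0) (hg 0 hn).1 e0 c0).2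
  have hline : ∀ i < n, ((ρ (g i)).val - 1).mulVec ξ = 0 := by
    intro i
    induction i with
    | zero => exact fun _ => hξ
    | succ i ih =>
      intro hi
      have hi' : i < n := by omega
      obtain ⟨e1, c1⟩ := hU i hi' (g i) (hg i hi')
      obtain ⟨e2, c2⟩ := hU (i + 1) hi (g (i + 1)) (hg (i + 1) hi)
      obtain ⟨a1, a2⟩ := hT.nilp (z i) (g i) (hg i hi').1 e1 c1
      have hN : (ρ (g i)).val - 1 ≠ 0 := by
        intro h0
        exact hne i hi' (Units.ext (sub_eq_zero.1 h0))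
      obtain ⟨η, hη⟩ := ker_eq_im a1 a2 hN (ih hi')
      have h1 := hT.nilp_mul (z (i + 1)) (g (i + 1)) (g i) (hg (i + 1) hi).1 e2 c2
        (hg i hi').2 e1 c1
      rw [← hη, Matrix.mulVec_mulVec, h1, Matrix.zero_mulVec]
  have hfix : ∀ i ≤ n, ∀ k ∈ MulAction.stabilizer Λ (z i), ∃ c : L,
      (ρ k).val.mulVec ξ = c • ξ := by
    intro i hi k hk
    rcases Nat.lt_or_ge i n with h1 | h1
    · obtain ⟨e1, c1⟩ := hU i h1 (g i) (hg i h1)
      exact hT.fix_line (z i) (g i) (hg i h1).1 e1 c1 (hne i h1) ξ hξ0 (hline i h1) k hk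
    · obtain ⟨j, rfl⟩ : ∃ j, i = j + 1 := ⟨i - 1, by omega⟩
      have hj : j < n := by omega
      obtain ⟨e1, c1⟩ := hU j hj (g j) (hg j hj)
      exact hT.fix_line (z (j + 1)) (g j) (hg j hj).2 e1 c1 (hne j hj) ξ hξ0 (hline j hj) k hk
  obtain ⟨up, hup1, hup2, hup3⟩ := hT.up ξ hξ0
  -- going up does not lose stabilisers
  have hmono : ∀ i ≤ n, ∀ j ≤ n, up (z i) = z j →
      MulAction.stabilizer Λ (z i) ≤ MulAction.stabilizer Λ (z j) := by
    intro i hi j _ hij k hk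
    have := hup3 (z i) k hk (hfix i hi k hk)
    rw [hij] at this
    exact this
  have hup0 : up (z 0) ≠ z 1 := by
    intro h1
    obtain ⟨k, hk, hk'⟩ := hE
    exact hE' 1 one_pos hn ⟨k, hmono 0 (Nat.zero_le n) 1 hn h1 hk, hk'⟩
  have hdown : ∀ i < n, up (z (i + 1)) = z i := by
    intro i
    induction i with
    | zero => exact fun h0 => hup2 _ _ (hadj 0 h0) (Ne.symm hup0)
    | succ i ih =>
      intro hi
      refine hup2 _ _ (hadj (i + 1) hi) ?_
      rw [ih (by omega)]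
      intro h1
      have := hinj (i + 1 + 1) hi i (by omega) h1
      omega
  obtain ⟨j, rfl⟩ : ∃ j, n = j + 1 := ⟨n - 1, by omega⟩
  obtain ⟨k, hk, hk'⟩ := hC
  exact hC' j (Nat.lt_succ_self j)
    ⟨k, hmono (j + 1) le_rfl j (Nat.le_succ j) (hdown j (Nat.lt_succ_self j)) hk, hk'⟩

end TreeData

end Pool.Agent.PSL2Z
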