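import Pool.Agent.Lib.MP_305fdd_al.PSL.Cocycle

/-!
# MP_305fdd_al, P18: the Euler characteristic inequality
-/

set_option autoImplicit false

namespace Pool.Agent.PSL2Z

open Polynomial Pool.Agent.Lib.MP_305fdd_al
open scoped WithZero nonZeroDivisors

namespace PStar

/-- functions which are constant on the right cosets of a subgroup -/
abbrev CF (Q : Type) [Group Q] (H : Subgroup Q) : Type :=
  {f : Q → ZMod 5 // ∀ h ∈ H, ∀ q, f (h⁻¹ * q) = f q}

/-- such functions are functions on the quotient -/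
noncomputable def cfEquiv (Q : Type) [Group Q] (H : Subgroup Q) :
    CF Q H ≃ (Quotient (QuotientGroup.rightRel H) → ZMod 5) where
  toFun f := Quotient.lift f.1 (by
    intro a b hab
    have h1 : b * a⁻¹ ∈ H := QuotientGroup.rightRel_apply.mp hab
    have h2 := f.2 _ h1 b
    rw [← h2, mul_inv_rev, inv_inv, mul_assoc, inv_mul_cancel, mul_one])
  invFun g := ⟨fun q => g (Quotient.mk _ q), by
    intro h hh q
    refine congrArg g (Quotient.sound ?_)
    show (QuotientGroup.rightRel H) _ _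
    rw [QuotientGroup.rightRel_apply]
    have : q * (h⁻¹ * q)⁻¹ = h := by group
    rw [this]; exact hh⟩
  left_inv f := by
    apply Subtype.ext; funext q; rfl
  right_inv g := by
    funext q
    induction q using Quotient.inductionOn with
    | h a => rfl

theorem card_CF (Q : Type) [Group Q] [Finite Q] (H : Subgroup Q) :
    Nat.card (CF Q H) = 5 ^ H.index := by
  rw [Nat.card_congr (cfEquiv Q H), Nat.card_fun, Nat.card_zmod,
    Nat.card_congr (QuotientGroup.quotientRightRelEquivQuotientLeftRel H)]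
  rfl

theorem card_fun (Q : Type) [Finite Q] : Nat.card (Q → ZMod 5) = 5 ^ Nat.card Q := by
  rw [Nat.card_fun, Nat.card_zmod]

/-- functions invariant under one element -/
def inv1 {Q : Type} [Group Q] (a : Q) : AddSubgroup (Q → ZMod 5) where
  carrier := {f | ∀ q, f (a⁻¹ * q) = f q}
  zero_mem' := fun _ => rfl
  add_mem' := fun {f g} hf hg q => by
    show f _ + g _ = f _ + g _
    rw [hf q, hg q]
  neg_mem' := fun {f} hf q => by
    show - f _ = - f _
    rw [hf q]

theorem card_inv1 {Q : Type} [Group Q] [Finite Q] (a : Q) :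
    Nat.card (inv1 a) = 5 ^ (Subgroup.zpowers a).index := by
  rw [← card_CF]
  refine Nat.card_congr (Equiv.subtypeEquivRight fun f => ?_)
  constructor
  · intro hf h hh
    -- the invariance holds for all powers
    have key : Subgroup.zpowers a ≤
        ({ carrier := {h : Q | ∀ q, f (h⁻¹ * q) = f q}
           one_mem' := fun q => by simp
           mul_mem' := fun {b c} hb hc q => by
            rw [mul_inv_rev, mul_assoc, hc, hb]
           inv_mem' := fun {b} hb q => by
            rw [inv_inv, ← hb (b * q)]; congr 1; group } : Subgroup Q) := by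
      rw [Subgroup.zpowers_le]
      exact hf
    exact key hh
  · intro hf q
    exact hf a (Subgroup.mem_zpowers a) q

theorem card_pow_le {Q : Type} [Group Q] [Finite Q] {n : ℕ} (hn : 0 < n) {a : Q}
    (ha : a ^ n = 1) (S : AddSubgroup (Q → ZMod 5))
    (hS : ∀ f ∈ S, (∀ q, f (a⁻¹ * q) = f q) → f = 0) :
    (Nat.card S) ^ n ≤ 5 ^ ((n - 1) * Nat.card Q) := by
  have h1 : Nat.card S * Nat.card (inv1 a) ≤ 5 ^ Nat.card Q := by
    rw [← Nat.card_prod, ← card_fun]
    refine Nat.card_le_card_of_injective (fun p : S × inv1 a => p.1.1 + p.2.1) ?_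
    rintro ⟨s, c⟩ ⟨s', c'⟩ hsc
    simp only at hsc
    have h2 : s.1 - s'.1 = c'.1 - c.1 := by
      rw [sub_eq_sub_iff_add_eq_add, hsc]; abel
    have h3 : s.1 - s'.1 = 0 := by
      apply hS _ (S.sub_mem s.2 s'.2)
      rw [h2]
      exact (inv1 a).sub_mem c'.2 c.2
    have h4 : c'.1 - c.1 = 0 := by rw [← h2, h3]
    exact Prod.ext (Subtype.ext (sub_eq_zero.mp h3)) (Subtype.ext (sub_eq_zero.mp h4).symm)
  rw [card_inv1] at h1
  have h2 : Nat.card Q ≤ n * (Subgroup.zpowers a).index := by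
    rw [← Subgroup.card_mul_index (Subgroup.zpowers a), Nat.card_zpowers]
    exact Nat.mul_le_mul_right _ (Nat.le_of_dvd hn (orderOf_dvd_of_pow_eq_one ha))
  have h3 : (Nat.card S) ^ n * 5 ^ Nat.card Q ≤ 5 ^ ((n - 1) * Nat.card Q) * 5 ^ Nat.card Q := by
    calc (Nat.card S) ^ n * 5 ^ Nat.card Q
        ≤ (Nat.card S) ^ n * 5 ^ (n * (Subgroup.zpowers a).index) := by gcongr; norm_num
      _ = (Nat.card S * 5 ^ (Subgroup.zpowers a).index) ^ n := by
          rw [mul_pow, ← pow_mul, mul_comm n]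
      _ ≤ (5 ^ Nat.card Q) ^ n := by gcongr
      _ = _ := by
          rw [← pow_mul, ← pow_add]
          congr 1
          obtain ⟨m, rfl⟩ := Nat.exists_eq_succ_of_ne_zero hn.ne'
          simp only [Nat.succ_eq_add_one, Nat.add_sub_cancel]
          ring
  exact Nat.le_of_mul_le_mul_right h3 (by positivity)

/-- the kernel of `1 + x` -/
def kx {Q : Type} [Group Q] (a : Q) : AddSubgroup (Q → ZMod 5) where
  carrier := {f | ∀ q, f q + f (a⁻¹ * q) = 0}
  zero_mem' := fun _ => by simp
  add_mem' := fun {f g} hf hg q => by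
    show (f _ + g _) + (f _ + g _) = 0
    linear_combination hf q + hg q
  neg_mem' := fun {f} hf q => by
    show - f _ + - f _ = 0
    linear_combination - hf q

/-- the kernel of `1 + y + y ^ 2` -/
def ky {Q : Type} [Group Q] (a : Q) : AddSubgroup (Q → ZMod 5) where
  carrier := {f | ∀ q, f q + f (a⁻¹ * q) + f (a⁻¹ * (a⁻¹ * q)) = 0}
  zero_mem' := fun _ => by simp
  add_mem' := fun {f g} hf hg q => by
    show (f _ + g _) + (f _ + g _) + (f _ + g _) = 0
    linear_combination hf q + hg q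
  neg_mem' := fun {f} hf q => by
    show - f _ + - f _ + - f _ = 0
    linear_combination - hf q

theorem card_kx {Q : Type} [Group Q] [Finite Q] {a : Q} (ha : a ^ 2 = 1) :
    (Nat.card (kx a)) ^ 2 ≤ 5 ^ Nat.card Q := by
  have := card_pow_le (n := 2) (by norm_num) ha (kx a) (by
    intro f hf hi
    funext q
    have h1 := hf q
    rw [hi q] at h1
    have h2 : (2 : ZMod 5) * f q = 0 := by rw [two_mul]; exact h1
    have h3 : (3 : ZMod 5) * (2 * f q) = 0 := by rw [h2, mul_zero]
    rw [← mul_assoc] at h3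
    have h4 : (3 : ZMod 5) * 2 = 1 := by decide
    rwa [h4, one_mul] at h3)
  simpa using this

theorem card_ky {Q : Type} [Group Q] [Finite Q] {a : Q} (ha : a ^ 3 = 1) :
    (Nat.card (ky a)) ^ 3 ≤ 5 ^ (2 * Nat.card Q) := by
  refine card_pow_le (n := 3) (by norm_num) ha (ky a) (by
    intro f hf hi
    funext q
    have h1 := hf q
    rw [hi (a⁻¹ * q), hi q] at h1
    have h2 : (3 : ZMod 5) * f q = 0 := by linear_combination h1
    have h3 : (2 : ZMod 5) * (3 * f q) = 0 := by rw [h2, mul_zero]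
    rw [← mul_assoc] at h3
    have h4 : (2 : ZMod 5) * 3 = 1 := by decide
    rwa [h4, one_mul] at h3)

end PStar

open PStar

section cocycles

variable {Λ M : Type} [Group Λ] [AddCommGroup M] [DistribMulAction Λ M]

theorem Z1.map_one (z : Z1 Λ M) : z.1 1 = 0 := by
  have := z.2 1 1
  rw [mul_one, one_smul] at this
  simpa using this.symm

theorem Z1.map_inv (z : Z1 Λ M) (g : Λ) : z.1 g⁻¹ = - (g⁻¹ • z.1 g) := by
  have := z.2 g⁻¹ g
  rw [inv_mul_cancel, z.map_one] at this
  exact eq_neg_of_add_eq_zero_left this.symm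

/-- cocycles which agree on generators are equal -/
theorem Z1.ext_gen {S : Set Λ} (hS : Subgroup.closure S = ⊤) {z z' : Z1 Λ M}
    (h : ∀ g ∈ S, z.1 g = z'.1 g) : z = z' := by
  apply Subtype.ext
  funext g
  have key : (⊤ : Subgroup Λ) ≤
      ({ carrier := {g : Λ | z.1 g = z'.1 g}
         one_mem' := by
          show z.1 1 = z'.1 1
          rw [Z1.map_one, Z1.map_one]
         mul_mem' := fun {a b} ha hb => by
          show z.1 (a * b) = z'.1 (a * b)
          rw [z.2, z'.2]
          rw [show z.1 a = z'.1 a from ha, show z.1 b = z'.1 b from hb]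
         inv_mem' := fun {a} ha => by
          show z.1 a⁻¹ = z'.1 a⁻¹
          rw [Z1.map_inv, Z1.map_inv, show z.1 a = z'.1 a from ha] } : Subgroup Λ) := by
    rw [← hS, Subgroup.closure_le]
    exact h
  exact key (Subgroup.mem_top g)

end cocycles

/-- counting cocycles of `Γ` in `F₅[Q]` -/
theorem card_Z1_le {Γ Q : Type} [Group Γ] {x y : Γ} (h : IsC2C3 Γ x y) [Group Q] [Finite Q]
    (θ : Γ →* Q) [DistribMulAction Γ (Q → ZMod 5)]
    (hact : ∀ (g : Γ) (f : Q → ZMod 5) (q : Q), (g • f) q = f ((θ g)⁻¹ * q)) :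
    (Nat.card (Z1 Γ (Q → ZMod 5))) ^ 6 ≤ 5 ^ (7 * Nat.card Q) := by
  have hx : (θ x) ^ 2 = 1 := by rw [← map_pow, h.sq, map_one]
  have hy : (θ y) ^ 3 = 1 := by rw [← map_pow, h.cube, map_one]
  have h1 : Nat.card (Z1 Γ (Q → ZMod 5)) ≤ Nat.card (kx (θ x)) * Nat.card (ky (θ y)) := by
    rw [← Nat.card_prod]
    refine Nat.card_le_card_of_injective (fun z : Z1 Γ (Q → ZMod 5) =>
      ((⟨z.1 x, ?_⟩ : kx (θ x)), (⟨z.1 y, ?_⟩ : ky (θ y)))) ?_
    · intro q
      have h2 := z.2 x x
      rw [← pow_two, h.sq, z.map_one] at h2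
      have h3 := congrFun h2 q
      rw [Pi.add_apply, hact] at h3
      exact h3.symm
    · intro q
      have h2 := z.2 y (y * y)
      have h2' := z.2 y y
      have e : y * (y * y) = 1 := by rw [← h.cube, pow_succ, pow_two, mul_assoc]
      rw [e, z.map_one, h2', smul_add] at h2
      have h3 := congrFun h2 q
      rw [Pi.add_apply, Pi.add_apply, hact, hact, hact, ← add_assoc] at h3
      exact h3.symm
    · intro z z' hz
      simp only [Prod.mk.injEq] at hz
      apply Z1.ext_gen h.gen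
      rintro g (rfl | rfl)
      · exact congrArg Subtype.val hz.1
      · exact congrArg Subtype.val hz.2
  calc (Nat.card (Z1 Γ (Q → ZMod 5))) ^ 6 ≤ (Nat.card (kx (θ x)) * Nat.card (ky (θ y))) ^ 6 := by
        gcongr
    _ = ((Nat.card (kx (θ x))) ^ 2) ^ 3 * ((Nat.card (ky (θ y))) ^ 3) ^ 2 := by
        rw [mul_pow, ← pow_mul, ← pow_mul]
    _ ≤ (5 ^ Nat.card Q) ^ 3 * (5 ^ (2 * Nat.card Q)) ^ 2 := by
        exact Nat.mul_le_mul (Nat.pow_le_pow_left (card_kx hx) 3)
          (Nat.pow_le_pow_left (card_ky hy) 2)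
    _ = 5 ^ (7 * Nat.card Q) := by
        rw [← pow_mul, ← pow_mul, ← pow_add]; congr 1; ring

namespace PStar

/-- the action on functions through a homomorphism -/
@[instance_reducible] def actM {Λ Q : Type} [Group Λ] [Group Q] (π : Λ →* Q) : DistribMulAction Λ (Q → ZMod 5) where
  smul g f := fun q => f ((π g)⁻¹ * q)
  one_smul f := by
    funext q
    show f ((π 1)⁻¹ * q) = f q
    rw [map_one, inv_one, one_mul]
  mul_smul g g' f := by
    funext q
    show f ((π (g * g'))⁻¹ * q) = f ((π g')⁻¹ * ((π g)⁻¹ * q))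
    rw [map_mul, mul_inv_rev, mul_assoc]
  smul_zero g := rfl
  smul_add g f f' := rfl

/-- lifts to the wreath product are cocycles -/
def liftEquiv {Λ Q : Type} [Group Λ] [Group Q] (π : Λ →* Q)
    [DistribMulAction Λ (Q → ZMod 5)]
    (hact : ∀ (g : Λ) (f : Q → ZMod 5) (q : Q), (g • f) q = f ((π g)⁻¹ * q)) :
    {ψ : Λ →* RegularWreathProduct (Multiplicative (ZMod 5)) Q //
      RegularWreathProduct.rightHom.comp ψ = π} ≃ Z1 Λ (Q → ZMod 5) where
  toFun ψ := ⟨fun g q => ((ψ.1 g).left q).toAdd, by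
    intro g g'
    funext q
    have h1 : (ψ.1 g).right = π g := DFunLike.congr_fun ψ.2 g
    rw [Pi.add_apply, hact]
    show Multiplicative.toAdd ((ψ.1 (g * g')).left q) = _
    rw [map_mul, RegularWreathProduct.mul_left, h1]
    rfl⟩
  invFun z := ⟨{
    toFun := fun g => ⟨fun q => Multiplicative.ofAdd (z.1 g q), π g⟩
    map_one' := by
      apply RegularWreathProduct.ext
      · funext q
        show Multiplicative.ofAdd (z.1 1 q) = 1
        rw [z.map_one]; rfl
      · exact map_one π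
    map_mul' := by
      intro g g'
      apply RegularWreathProduct.ext
      · funext q
        show Multiplicative.ofAdd (z.1 (g * g') q) = _
        rw [z.2, Pi.add_apply, hact]
        rfl
      · exact map_mul π g g' }, rfl⟩
  left_inv ψ := by
    apply Subtype.ext
    apply MonoidHom.ext
    intro g
    apply RegularWreathProduct.ext
    · rfl
    · exact (DFunLike.congr_fun ψ.2 g).symm
  right_inv z := rfl

end PStar

theorem star {Γ Λ V : Type} [Group Γ] [Group Λ] [Group.FG Λ] {x y : Γ} (h : IsC2C3 Γ x y)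
    (Φ : NatBij Γ Λ) [MulAction Λ V] {X : SimpleGraph V}
    {ty : V → Bool} (hX : TreeAct Λ V X ty) (Y : Finset V) (V₁ : Set V)
    (hY₁ : ∀ u ∈ Y, ∀ v ∈ Y, ∀ g : Λ, g • u = v → u = v)
    (hV₁ : ∀ (g : Λ), ∀ v ∈ V₁, g • v ∈ V₁) (hV₂ : (X.induce V₁).Connected)
    (hV₃ : (Y : Set V) ⊆ V₁) (hV₄ : ∀ v ∈ V₁, ∃ y ∈ Y, ∃ g : Λ, g • y = v)
    {Q : Type} [Group Q] [Finite Q] (π : Λ →* Q) (hπ : Function.Surjective π) :
    ∑ e ∈ edges X ty Y, (1 : ℚ) / Nat.card
        ((MulAction.stabilizer Λ e.1 ⊓ MulAction.stabilizer Λ e.2).map π) -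
      ∑ v ∈ Y, (1 : ℚ) / Nat.card ((MulAction.stabilizer Λ v).map π) ≤ 1 / 6 := by
  classical
  let i1 : DistribMulAction Λ (Q → ZMod 5) := actM π
  let i2 : DistribMulAction Γ (Q → ZMod 5) := actM (Φ.invFun Q π)
  have hact : ∀ (g : Λ) (f : Q → ZMod 5) (q : Q), (g • f) q = f ((π g)⁻¹ * q) :=
    fun _ _ _ => rfl
  have hactG : ∀ (g : Γ) (f : Q → ZMod 5) (q : Q),
      (g • f) q = f ((Φ.invFun Q π g)⁻¹ * q) := fun _ _ _ => rfl
  -- cocycles of the two groups
  have hZ : Nat.card (Z1 Λ (Q → ZMod 5)) = Nat.card (Z1 Γ (Q → ZMod 5)) := by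
    rw [← Nat.card_congr (liftEquiv π hact), ← Nat.card_congr (liftEquiv (Φ.invFun Q π) hactG),
      Φ.card_lifts, Φ.right_inv]
  have hZ6 := card_Z1_le h (Φ.invFun Q π) hactG
  rw [← hZ] at hZ6
  -- the action on the invariant subtree
  let i3 : MulAction Λ V₁ := {
    smul := fun g v => ⟨g • v.1, hV₁ g v.1 v.2⟩
    one_smul := fun v => Subtype.ext (one_smul Λ v.1)
    mul_smul := fun g g' v => Subtype.ext (mul_smul g g' v.1) }
  have hX' : TreeAct Λ V₁ (X.induce V₁) (fun v => ty v.1) := by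
    refine ⟨⟨hV₂, hX.tree.isAcyclic.induce V₁⟩, ?_, ?_, ?_⟩
    · intro g v z hvz
      exact hX.adj g v.1 z.1 hvz
    · intro g v
      exact hX.ty_smul g v.1
    · intro v z hvz
      exact hX.ty_adj v.1 z.1 hvz
  have hstab : ∀ v : V₁, MulAction.stabilizer Λ v = MulAction.stabilizer Λ v.1 := by
    intro v
    ext g
    rw [MulAction.mem_stabilizer_iff, MulAction.mem_stabilizer_iff]
    exact Subtype.ext_iff
  have hFix : ∀ H : Subgroup Λ, Nat.card (Fix H (Q → ZMod 5)) = 5 ^ (H.map π).index := by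
    intro H
    rw [← card_CF]
    refine Nat.card_congr (Equiv.subtypeEquivRight fun f => ?_)
    constructor
    · rintro hf _ ⟨g, hg, rfl⟩ q
      exact congrFun (hf g hg) q
    · intro hf g hg
      funext q
      exact hf (π g) ⟨g, hg, rfl⟩ q
  have hmain := cocycle_ineq hX' (M := Q → ZMod 5) (Y.subtype (fun v => v ∈ V₁)) (by
      intro v
      obtain ⟨y, hy, g, hg⟩ := hV₄ v.1 v.2
      exact ⟨⟨y, hV₃ hy⟩, Finset.mem_subtype.mpr hy, g, Subtype.ext hg⟩)
    (edges (X.induce V₁) (fun v => ty v.1) (Y.subtype (fun v => v ∈ V₁))) (by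
      intro e he
      unfold edges at he
      exact (Finset.mem_filter.mp he).2) (by
      intro e he e' he' g h1 h2
      unfold edges at he he'
      have m1 := (Finset.mem_product.mp (Finset.mem_filter.mp he).1)
      have m2 := (Finset.mem_product.mp (Finset.mem_filter.mp he').1)
      rw [Finset.mem_subtype, Finset.mem_subtype] at m1 m2
      apply Prod.ext
      · exact Subtype.ext (hY₁ _ m1.1 _ m2.1 g (congrArg Subtype.val h1))
      · exact Subtype.ext (hY₁ _ m1.2 _ m2.2 g (congrArg Subtype.val h2)))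
  have hE : ∏ e ∈ edges (X.induce V₁) (fun v => ty v.1) (Y.subtype (fun v => v ∈ V₁)),
      Nat.card (Fix (MulAction.stabilizer Λ e.1 ⊓ MulAction.stabilizer Λ e.2) (Q → ZMod 5)) =
      ∏ e ∈ edges X ty Y, 5 ^ ((MulAction.stabilizer Λ e.1 ⊓
        MulAction.stabilizer Λ e.2).map π).index := by
    refine Finset.prod_bij (fun e _ => (e.1.1, e.2.1)) ?_ ?_ ?_ ?_
    · intro e he
      unfold edges at he ⊢
      rw [Finset.mem_filter, Finset.mem_product, Finset.mem_subtype, Finset.mem_subtype] at he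
      rw [Finset.mem_filter, Finset.mem_product]
      exact he
    · intro e _ e' _ hee
      simp only [Prod.mk.injEq] at hee
      exact Prod.ext (Subtype.ext hee.1) (Subtype.ext hee.2)
    · intro e he
      unfold edges at he
      rw [Finset.mem_filter, Finset.mem_product] at he
      refine ⟨(⟨e.1, hV₃ he.1.1⟩, ⟨e.2, hV₃ he.1.2⟩), ?_, rfl⟩
      unfold edges
      rw [Finset.mem_filter, Finset.mem_product, Finset.mem_subtype, Finset.mem_subtype]
      exact he
    · intro e _
      rw [hstab, hstab, hFix]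
  have hV : ∏ v ∈ Y.subtype (fun v => v ∈ V₁),
      Nat.card (Fix (MulAction.stabilizer Λ v) (Q → ZMod 5)) =
      ∏ v ∈ Y, 5 ^ ((MulAction.stabilizer Λ v).map π).index := by
    refine Finset.prod_bij (fun v _ => v.1) ?_ ?_ ?_ ?_
    · intro v hv; exact Finset.mem_subtype.mp hv
    · intro v _ v' _ hvv; exact Subtype.ext hvv
    · intro v hv; exact ⟨⟨v, hV₃ hv⟩, Finset.mem_subtype.mpr hv, rfl⟩
    · intro v _
      rw [hstab, hFix]
  rw [hE, hV, card_fun, Finset.prod_pow_eq_pow_sum, Finset.prod_pow_eq_pow_sum, ← pow_add] at hmain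
  have h6 := Nat.pow_le_pow_left hmain 6
  rw [mul_pow, ← pow_mul, ← pow_mul] at h6
  have h7 : 5 ^ ((Nat.card Q + ∑ e ∈ edges X ty Y, ((MulAction.stabilizer Λ e.1 ⊓
        MulAction.stabilizer Λ e.2).map π).index) * 6) ≤
      5 ^ (7 * Nat.card Q + (∑ v ∈ Y, ((MulAction.stabilizer Λ v).map π).index) * 6) := by
    refine h6.trans ?_
    rw [pow_add]
    exact Nat.mul_le_mul_right _ hZ6
  have h8 := (Nat.pow_le_pow_iff_right (by norm_num)).mp h7
  have hQ : (0 : ℚ) < Nat.card Q := by exact_mod_cast Nat.card_pos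
  have hidx : ∀ H : Subgroup Λ, (1 : ℚ) / Nat.card (H.map π) = (H.map π).index / Nat.card Q := by
    intro H
    have h1 : ((Nat.card (H.map π) : ℕ) : ℚ) * (H.map π).index = Nat.card Q := by
      exact_mod_cast Subgroup.card_mul_index (H.map π)
    have h2 : ((Nat.card (H.map π) : ℕ) : ℚ) ≠ 0 := by
      have : 0 < Nat.card (H.map π) := Nat.card_pos
      positivity
    rw [div_eq_div_iff h2 hQ.ne', ← h1]; ring
  simp only [hidx]
  rw [← Finset.sum_div, ← Finset.sum_div, ← sub_div, div_le_iff₀ hQ]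
  have h9 : ((Nat.card Q : ℚ) + ∑ e ∈ edges X ty Y, (((MulAction.stabilizer Λ e.1 ⊓
        MulAction.stabilizer Λ e.2).map π).index : ℚ)) * 6 ≤
      7 * Nat.card Q + (∑ v ∈ Y, (((MulAction.stabilizer Λ v).map π).index : ℚ)) * 6 := by
    exact_mod_cast h8
  linarith

end Pool.Agent.PSL2Z
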