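import Pool.Agent.Lib.MP_305fdd_al.PSL.Faithful
import Pool.Agent.Lib.MP_305fdd_al.PSL.Modular
import Pool.Agent.Lib.MP_305fdd_al.PSL.Partner
import Pool.Agent.Lib.MP_305fdd_al.PSL.Path
import Pool.Agent.Lib.MP_305fdd_al.PSL.Star
import Pool.Agent.Lib.MP_305fdd_al.PSL.Transversal

/-!
# MP_305fdd_al: the free product `C2 * C3` is profinitely rigid
-/

set_option autoImplicit false

namespace Pool.Agent.PSL2Z

open Polynomial Pool.Agent.Lib.MP_305fdd_al Pool.Agent.MP_305fdd_al
open scoped WithZero nonZeroDivisors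

/-- finite quotients of `Λ/ker ρ` through which the sign and the cubic character factor -/
structure Good {Γ Λ : Type} [Group Γ] [Group Λ] {x y : Γ} (h : IsC2C3 Γ x y) (Φ : NatBij Γ Λ)
    {L : Type} [Field L] (ρ : Λ →* GL (Fin 2) L) {Q : Type} [Group Q] (π : Λ →* Q) : Prop where
  surj : Function.Surjective π
  ker : ρ.ker ≤ π.ker
  kerE : π.ker ≤ (eps' h Φ).ker
  kerC : π.ker ≤ (chi' h Φ).ker

theorem card_two_le {G : Type} [Group G] [Finite G] {a : G} (ha : a ≠ 1) (S : Subgroup G)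
    (hS : a ∈ S) : 2 ≤ Nat.card S := by
  have : Nontrivial S := ⟨⟨⟨a, hS⟩, 1, fun h => ha (congrArg Subtype.val h)⟩⟩
  have := Finite.one_lt_card (α := S)
  omega

theorem card_three_le {G : Type} [Group G] [Finite G] {a : G} (ha : a ≠ 1) (ha' : a ^ 2 ≠ 1)
    (S : Subgroup G) (hS : a ∈ S) : 3 ≤ Nat.card S := by
  have h1 : (Subgroup.zpowers a) ≤ S := by rwa [Subgroup.zpowers_le]
  have h2 : Nat.card (Subgroup.zpowers a) ≤ Nat.card S := Subgroup.card_le_of_le h1
  rw [Nat.card_zpowers] at h2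
  have h3 : orderOf a ≠ 0 := (orderOf_pos a).ne'
  have h4 : orderOf a ≠ 1 := fun h => ha (orderOf_eq_one_iff.1 h)
  have h5 : orderOf a ≠ 2 := fun h => ha' (by rw [← h]; exact pow_orderOf_eq_one a)
  omega

theorem mem_of_card_two {G : Type} [Group G] {a : G} (ha : a ≠ 1) (S : Subgroup G)
    (hS : a ∈ S) (hc : Nat.card S = 2) (b : G) (hb : b ∈ S) : b = 1 ∨ b = a := by
  have : Finite S := Nat.finite_of_card_ne_zero (by rw [hc]; norm_num)
  have h1 : (Subgroup.zpowers a) ≤ S := by rwa [Subgroup.zpowers_le]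
  have h2 : Nat.card (Subgroup.zpowers a) ∣ Nat.card S := Subgroup.card_dvd_of_le h1
  rw [Nat.card_zpowers, hc] at h2
  have h3 : orderOf a = 2 := by
    rcases (Nat.dvd_prime Nat.prime_two).1 h2 with h | h
    · exact absurd (orderOf_eq_one_iff.1 h) ha
    · exact h
  have h4 : Subgroup.zpowers a = S := by
    apply Subgroup.eq_of_le_of_card_ge h1
    rw [Nat.card_zpowers, h3, hc]
  rw [← h4, Subgroup.mem_zpowers_iff] at hb
  obtain ⟨k, rfl⟩ := hb
  have h5 : a ^ (2 : ℤ) = 1 := by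
    have := pow_orderOf_eq_one a
    rw [h3] at this
    exact_mod_cast this
  rcases Int.emod_two_eq_zero_or_one k with h | h
  · left
    rw [← Int.emod_add_mul_ediv k 2, h, zero_add, zpow_mul, h5, one_zpow]
  · right
    rw [← Int.emod_add_mul_ediv k 2, h, zpow_add, zpow_mul, h5, one_zpow, mul_one, zpow_one]

theorem mem_of_card_three {G : Type} [Group G] {a : G} (ha : a ≠ 1) (S : Subgroup G)
    (hS : a ∈ S) (hc : Nat.card S = 3) (b : G) (hb : b ∈ S) : b = 1 ∨ b = a ∨ b = a ^ 2 := by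
  have : Finite S := Nat.finite_of_card_ne_zero (by rw [hc]; norm_num)
  have h1 : (Subgroup.zpowers a) ≤ S := by rwa [Subgroup.zpowers_le]
  have h2 : Nat.card (Subgroup.zpowers a) ∣ Nat.card S := Subgroup.card_dvd_of_le h1
  rw [Nat.card_zpowers, hc] at h2
  have h3 : orderOf a = 3 := by
    rcases (Nat.dvd_prime Nat.prime_three).1 h2 with h | h
    · exact absurd (orderOf_eq_one_iff.1 h) ha
    · exact h
  have h4 : Subgroup.zpowers a = S := by
    apply Subgroup.eq_of_le_of_card_ge h1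
    rw [Nat.card_zpowers, h3, hc]
  rw [← h4, Subgroup.mem_zpowers_iff] at hb
  obtain ⟨k, rfl⟩ := hb
  have h5 : a ^ (3 : ℤ) = 1 := by
    have := pow_orderOf_eq_one a
    rw [h3] at this
    exact_mod_cast this
  have h6 : k % 3 = 0 ∨ k % 3 = 1 ∨ k % 3 = 2 := by omega
  rcases h6 with h | h | h
  · left
    rw [← Int.emod_add_mul_ediv k 3, h, zero_add, zpow_mul, h5, one_zpow]
  · right; left
    rw [← Int.emod_add_mul_ediv k 3, h, zpow_add, zpow_mul, h5, one_zpow, mul_one, zpow_one]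
  · right; right
    rw [← Int.emod_add_mul_ediv k 3, h, zpow_add, zpow_mul, h5, one_zpow, mul_one]
    exact_mod_cast rfl

section

variable {Γ Λ : Type} [Group Γ] [Group Λ] {x y : Γ} {h : IsC2C3 Γ x y} {Φ : NatBij Γ Λ}
  {L : Type} [Field L] [Algebra F L] {w : Valuation L ℤᵐ⁰} {ρ : Λ →* GL (Fin 2) L}

/-- an abstract equality case -/
theorem equality_case {ι : Type} (I : Finset ι) (a b : ι → ℚ) (hab : ∀ i ∈ I, b i ≤ a i)
    (c d : ℕ) (hc : 2 ≤ c) (hd : 3 ≤ d)
    (hle : (1 + ∑ i ∈ I, a i) - (1 / (c : ℚ) + 1 / (d : ℚ) + ∑ i ∈ I, b i) ≤ 1 / 6) :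
    c = 2 ∧ d = 3 ∧ ∀ i ∈ I, a i = b i := by
  have h1 : ∑ i ∈ I, b i ≤ ∑ i ∈ I, a i := Finset.sum_le_sum hab
  have hc' : (2 : ℚ) ≤ c := by exact_mod_cast hc
  have hd' : (3 : ℚ) ≤ d := by exact_mod_cast hd
  have h2 : 1 / (c : ℚ) ≤ 1 / 2 := one_div_le_one_div_of_le (by norm_num) hc'
  have h3 : 1 / (d : ℚ) ≤ 1 / 3 := one_div_le_one_div_of_le (by norm_num) hd'
  have h4 : 1 / (c : ℚ) = 1 / 2 := by linarith
  have h5 : 1 / (d : ℚ) = 1 / 3 := by linarith
  have h6 : ∑ i ∈ I, b i = ∑ i ∈ I, a i := by linarith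
  refine ⟨?_, ?_, ?_⟩
  · have : (c : ℚ) = 2 := by
      have := congrArg (fun q : ℚ => 1 / q) h4
      simpa using this
    exact_mod_cast this
  · have : (d : ℚ) = 3 := by
      have := congrArg (fun q : ℚ => 1 / q) h5
      simpa using this
    exact_mod_cast this
  · intro i hi
    exact ((Finset.sum_eq_sum_iff_of_le hab).1 h6 i hi).symm

theorem sum_split {V : Type} (Y : Finset V) (a b : V) (ha : a ∈ Y) (hb : b ∈ Y) (hab : a ≠ b)
    (f : V → ℚ) : ∑ v ∈ Y, f v = f a + f b + ∑ v ∈ inner Y a b, f v := by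
  classical
  have h1 : Y = insert a (insert b (inner Y a b)) := by
    ext v
    simp only [Finset.mem_insert, inner, Finset.mem_filter]
    constructor
    · intro hv
      by_cases h1 : v = a
      · exact Or.inl h1
      · by_cases h2 : v = b
        · exact Or.inr (Or.inl h2)
        · exact Or.inr (Or.inr ⟨hv, h1, h2⟩)
    · rintro (rfl | rfl | ⟨h1, _⟩)
      · exact ha
      · exact hb
      · exact h1
  have h2 : b ∉ inner Y a b := by
    intro hb
    simp only [inner, Finset.mem_filter] at hb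
    exact hb.2.2 rfl
  have h3 : a ∉ insert b (inner Y a b) := by
    intro ha
    rw [Finset.mem_insert] at ha
    rcases ha with h4 | h4
    · exact hab h4
    · simp only [inner, Finset.mem_filter] at h4
      exact h4.2.1 rfl
  conv_lhs => rw [h1]
  rw [Finset.sum_insert h3, Finset.sum_insert h2, add_assoc]

/-- the Euler characteristic argument -/
theorem TreeData.exists_gens {V : Type} [MulAction Λ V] {X : SimpleGraph V} {ty : V → Bool}
    (hT : TreeData h Φ w ρ X ty) [Group.FG Λ] [Nonempty V] :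
    ∃ (α β : Λ) (Y : Finset V), eps' h Φ α = -1 ∧ eps' h Φ β = 1 ∧
      (ρ α).val.trace = 0 ∧ (ρ β).val.trace = -1 ∧
      (⨆ v ∈ Y, MulAction.stabilizer Λ v) = ⊤ ∧
      ∀ (Q : Type) [Group Q] [Finite Q] (π : Λ →* Q), Good h Φ ρ π →
        (π α) ^ 2 = 1 ∧ (π β) ^ 3 = 1 ∧ ∀ u ∈ Y, ∀ g ∈ MulAction.stabilizer Λ u,
          (π g = 1 ∨ π g = π α) ∨ (π g = 1 ∨ π g = π β ∨ π g = (π β) ^ 2) := by
  -- no homomorphism to `Z/5`
  have h5 : ∀ f : Λ →* Multiplicative (ZMod 5), f = 1 := by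
    intro f
    obtain ⟨θ, rfl⟩ := Φ.surjective (Multiplicative (ZMod 5)) f
    have : θ = 1 := by
      apply hom_ext h
      · have h1 : (θ x) ^ 2 = 1 := by rw [← map_pow, h.sq, map_one]
        have h2 : (θ x) ^ 5 = 1 := by
          have := pow_card_eq_one' (x := θ x)
          rwa [Nat.card_eq_fintype_card, Fintype.card_multiplicative, ZMod.card] at this
        have h3 : θ x = (θ x) ^ 5 * ((θ x) ^ 2)⁻¹ * ((θ x) ^ 2)⁻¹ := by group
        rw [MonoidHom.one_apply, h3, h1, h2]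
        group
      · have h1 : (θ y) ^ 3 = 1 := by rw [← map_pow, h.cube, map_one]
        have h2 : (θ y) ^ 5 = 1 := by
          have := pow_card_eq_one' (x := θ y)
          rwa [Nat.card_eq_fintype_card, Fintype.card_multiplicative, ZMod.card] at this
        have h3 : θ y = ((θ y) ^ 3) * ((θ y) ^ 3) * ((θ y) ^ 5)⁻¹ := by group
        rw [MonoidHom.one_apply, h3, h1, h2]
        group
    rw [this, Φ.one]
  obtain ⟨Y, V₁, hYne, hYc, hY₁, hgen, hV₁, hV₂, hV₃, hV₄⟩ := exists_transversal hT.act h5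
  -- vertices of the two kinds
  have hexE : ∃ v ∈ Y, TreeData.HasE h Φ v := by
    by_contra hno
    push Not at hno
    have h1 : (⊤ : Subgroup Λ) ≤ (eps' h Φ).ker := by
      rw [← hgen, iSup₂_le_iff]
      intro v hv g hg
      rcases sign_cases (eps' h Φ g) with h1 | h1
      · exact h1
      · exact absurd ⟨g, hg, h1⟩ (hno v hv)
    obtain ⟨l, hl⟩ := exists_of_range Φ (eps h) x
    have h2 : eps' h Φ l = 1 := h1 (Subgroup.mem_top l)
    rw [eps_x] at hl
    rw [show eps' h Φ l = -1 from hl] at h2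
    exact absurd h2 (by decide)
  have hexC : ∃ v ∈ Y, TreeData.HasC h Φ v := by
    by_contra hno
    push Not at hno
    have h1 : (⊤ : Subgroup Λ) ≤ (chi' h Φ).ker := by
      rw [← hgen, iSup₂_le_iff]
      intro v hv g hg
      by_contra h1
      exact hno v hv ⟨g, hg, h1⟩
    obtain ⟨l, hl⟩ := exists_of_range Φ (chi h) y
    have h2 : chi' h Φ l = 1 := h1 (Subgroup.mem_top l)
    rw [chi_y] at hl
    rw [show chi' h Φ l = om from hl] at h2
    exact absurd h2 (by decide)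
  -- a minimal path
  have hex : ∃ n : ℕ, ∃ z : ℕ → V, TreeData.HasE h Φ (z 0) ∧ TreeData.HasC h Φ (z n) ∧
      (∀ i < n, X.Adj (z i) (z (i + 1))) ∧ (∀ i ≤ n, ∀ j ≤ n, z i = z j → i = j) ∧
      (∀ i ≤ n, z i ∈ Y) := by
    obtain ⟨a, ha, ha'⟩ := hexE
    obtain ⟨b, hb, hb'⟩ := hexC
    obtain ⟨n, z, h1, h2, h3, h4, h5⟩ := exists_path hT.act.tree Y hYc a b ha hb
    exact ⟨n, z, by rw [h1]; exact ha', by rw [h2]; exact hb', h3, h4, h5⟩
  classical
  let n := Nat.find hex
  obtain ⟨z, hE, hC, hadj, hinj, hzY⟩ := Nat.find_spec hex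
  change TreeData.HasC h Φ (z n) at hC
  change ∀ i < n, X.Adj (z i) (z (i + 1)) at hadj
  change ∀ i ≤ n, ∀ j ≤ n, z i = z j → i = j at hinj
  change ∀ i ≤ n, z i ∈ Y at hzY
  have hminE : ∀ i, 0 < i → i < n → ¬ TreeData.HasE h Φ (z i) := by
    intro i h1 h2 h3
    refine Nat.find_min hex (m := n - i) (by show n - i < n; omega) ⟨fun j => z (i + j), h3, ?_,
      fun j hj => hadj (i + j) (by omega), fun j hj k hk hjk => ?_, fun j hj => hzY _ (by omega)⟩
    · show TreeData.HasC h Φ (z (i + (n - i)))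
      rw [Nat.add_sub_cancel' h2.le]
      exact hC
    · have := hinj (i + j) (by omega) (i + k) (by omega) hjk
      omega
  have hminC : ∀ i, 0 < i → i < n → ¬ TreeData.HasC h Φ (z i) := by
    intro i h1 h2 h3
    refine Nat.find_min hex (m := i) h2 ⟨z, hE, h3,
      fun j hj => hadj j (by omega), fun j hj k hk hjk => ?_, fun j hj => hzY _ (by omega)⟩
    exact hinj j (by omega) k (by omega) hjk
  obtain ⟨m, hm, htriv⟩ := hT.exists_trivial_edge Y n z hE hC hadj hinj hminE hminC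
  obtain ⟨q, rk, hq, hsum⟩ := exists_partner hT.act.tree ty hT.act.ty_adj Y hYc n z hadj hinj hzY
    m hm
  have hz0 : z 0 ≠ z n := by
    intro h1
    have := hinj 0 (Nat.zero_le n) n le_rfl h1
    omega
  obtain ⟨α, hα, hα'⟩ := hE
  obtain ⟨β, hβ, hβ'⟩ := hC
  refine ⟨α, β, Y, hα', ?_, ?_, ?_, hgen, ?_⟩
  · rcases hT.kinds _ β hβ with ⟨_, _, h1⟩ | ⟨_, h1, _⟩ | ⟨_, _, h1⟩
    · exact absurd h1 hβ'
    · exact h1
    · exact absurd h1 hβ'
  · rcases hT.kinds _ α hα with ⟨_, h1, _⟩ | ⟨_, h1, _⟩ | ⟨h1, _⟩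
    · rw [hα'] at h1; exact absurd h1 (by decide)
    · rw [hα'] at h1; exact absurd h1 (by decide)
    · exact h1
  · rcases hT.kinds _ β hβ with ⟨_, _, h1⟩ | ⟨h1, _⟩ | ⟨_, _, h1⟩
    · exact absurd h1 hβ'
    · exact h1
    · exact absurd h1 hβ'
  intro Q _ _ π hπ
  have hstar := star h Φ hT.act Y V₁ hY₁ hV₁ hV₂ hV₃ hV₄ π hπ.surj
  let f : V → V → ℚ := fun a b => (1 : ℚ) / Nat.card
    ((MulAction.stabilizer Λ a ⊓ MulAction.stabilizer Λ b).map π)
  let F₁ : V → ℚ := fun a => (1 : ℚ) / Nat.card ((MulAction.stabilizer Λ a).map π)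
  have hs1 := hsum f fun a b => by
    show (1 : ℚ) / _ = 1 / _
    rw [inf_comm]
  have hs2 := sum_split Y (z 0) (z n) (hzY 0 (Nat.zero_le n)) (hzY n le_rfl) hz0 F₁
  have hπα : π α ≠ 1 := by
    intro h1
    have := hπ.kerE h1
    rw [MonoidHom.mem_ker, hα'] at this
    exact absurd this (by decide)
  have hπβ : π β ≠ 1 := by
    intro h1
    exact hβ' (hπ.kerC h1)
  have hπβ2 : (π β) ^ 2 ≠ 1 := by
    intro h1
    rw [← map_pow] at h1
    have h2 := hπ.kerC h1
    rw [MonoidHom.mem_ker, map_pow] at h2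
    have h3 := chi'_cube h Φ β
    apply hβ'
    rw [pow_succ, h2, one_mul] at h3
    exact h3
  have hcα := card_two_le hπα ((MulAction.stabilizer Λ (z 0)).map π) ⟨α, hα, rfl⟩
  have hcβ := card_three_le hπβ hπβ2 ((MulAction.stabilizer Λ (z n)).map π) ⟨β, hβ, rfl⟩
  have hone : f (z m) (z (m + 1)) = 1 := by
    show (1 : ℚ) / _ = 1
    have h1 : (MulAction.stabilizer Λ (z m) ⊓ MulAction.stabilizer Λ (z (m + 1))).map π = ⊥ := by
      rw [eq_bot_iff]
      rintro _ ⟨g, hg, rfl⟩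
      rw [Subgroup.mem_bot]
      exact hπ.ker (htriv g hg)
    rw [h1, Subgroup.card_bot]
    norm_num
  have hle : ∀ u ∈ inner Y (z 0) (z n), F₁ u ≤ f u (q u) := by
    intro u _
    have h1 : (MulAction.stabilizer Λ u ⊓ MulAction.stabilizer Λ (q u)).map π ≤
        (MulAction.stabilizer Λ u).map π := Subgroup.map_mono inf_le_left
    have h2 := Subgroup.card_le_of_le h1
    have h3 : 0 < Nat.card ((MulAction.stabilizer Λ u ⊓ MulAction.stabilizer Λ (q u)).map π) :=
      Nat.card_pos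
    exact one_div_le_one_div_of_le (by exact_mod_cast h3) (by exact_mod_cast h2)
  have hfin : (1 + ∑ u ∈ inner Y (z 0) (z n), f u (q u)) -
      (1 / (Nat.card ((MulAction.stabilizer Λ (z 0)).map π) : ℚ) +
        1 / (Nat.card ((MulAction.stabilizer Λ (z n)).map π) : ℚ) +
          ∑ u ∈ inner Y (z 0) (z n), F₁ u) ≤ 1 / 6 := by
    have h1 : ∑ e ∈ edges X ty Y, f e.1 e.2 - ∑ v ∈ Y, F₁ v ≤ 1 / 6 := hstar
    rw [hs1, hs2, hone] at h1
    exact h1
  obtain ⟨hc2, hc3, heq⟩ := equality_case _ _ _ hle _ _ hcα hcβ hfin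
  -- the images of all stabilisers are contained in those of the two special ones
  have hcontain : ∀ k : ℕ, ∀ u ∈ Y, rk u ≤ k →
      (MulAction.stabilizer Λ u).map π ≤ (MulAction.stabilizer Λ (z 0)).map π ∨
      (MulAction.stabilizer Λ u).map π ≤ (MulAction.stabilizer Λ (z n)).map π := by
    intro k
    induction k using Nat.strong_induction_on with
    | _ k ih =>
      intro u hu hk
      by_cases h1 : u = z 0
      · left; rw [h1]
      by_cases h2 : u = z n
      · right; rw [h2]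
      obtain ⟨hqY, _, hrk⟩ := hq u hu h1 h2
      have h3 : u ∈ inner Y (z 0) (z n) := by
        unfold inner
        rw [Finset.mem_filter]
        exact ⟨hu, h1, h2⟩
      have h4 := heq u h3
      have h5 : (MulAction.stabilizer Λ u ⊓ MulAction.stabilizer Λ (q u)).map π ≤
        (MulAction.stabilizer Λ u).map π := Subgroup.map_mono inf_le_left
      have h6 : Nat.card ((MulAction.stabilizer Λ u).map π) ≤
          Nat.card ((MulAction.stabilizer Λ u ⊓ MulAction.stabilizer Λ (q u)).map π) := by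
        have h7 : (1 : ℚ) / Nat.card
          ((MulAction.stabilizer Λ u ⊓ MulAction.stabilizer Λ (q u)).map π) =
          1 / Nat.card ((MulAction.stabilizer Λ u).map π) := h4
        have h8 := congrArg (fun q : ℚ => 1 / q) h7
        simp only [one_div_one_div] at h8
        have h9 : Nat.card ((MulAction.stabilizer Λ u ⊓ MulAction.stabilizer Λ (q u)).map π) =
          Nat.card ((MulAction.stabilizer Λ u).map π) := by exact_mod_cast h8
        exact h9.ge
      have h7 := Subgroup.eq_of_le_of_card_ge h5 h6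
      have h8 : (MulAction.stabilizer Λ u).map π ≤ (MulAction.stabilizer Λ (q u)).map π := by
        rw [← h7]
        exact Subgroup.map_mono inf_le_right
      rcases ih (rk (q u)) (by omega) (q u) hqY le_rfl with h9 | h9
      · exact Or.inl (h8.trans h9)
      · exact Or.inr (h8.trans h9)
  have key0 := mem_of_card_two hπα ((MulAction.stabilizer Λ (z 0)).map π) ⟨α, hα, rfl⟩ hc2
  have keyn := mem_of_card_three hπβ ((MulAction.stabilizer Λ (z n)).map π) ⟨β, hβ, rfl⟩ hc3
  refine ⟨?_, ?_, ?_⟩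
  · have h1 := pow_card_eq_one' (x := (⟨π α, ⟨α, hα, rfl⟩⟩ :
      (MulAction.stabilizer Λ (z 0)).map π))
    rw [hc2] at h1
    exact congrArg Subtype.val h1
  · have h1 := pow_card_eq_one' (x := (⟨π β, ⟨β, hβ, rfl⟩⟩ :
      (MulAction.stabilizer Λ (z n)).map π))
    rw [hc3] at h1
    exact congrArg Subtype.val h1
  · intro u hu g hg
    rcases hcontain _ u hu le_rfl with h1 | h1
    · exact Or.inl (key0 _ (h1 ⟨g, hg, rfl⟩))
    · exact Or.inr (keyn _ (h1 ⟨g, hg, rfl⟩))

/-- **Main theorem**: the free product `C2 * C3` is profinitely rigid. -/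
theorem rigid {Γ Λ : Type} [Group Γ] [Group Λ] [Group.FG Λ] [Group.ResiduallyFinite Λ] {x y : Γ}
    (h : IsC2C3 Γ x y) (hs : SameFiniteQuotients Λ Γ) : Nonempty (Λ ≃* Γ) := by
  classical
  have hFG : Group.FG Γ := by
    rw [Group.fg_def]
    exact ⟨{x, y}, by rw [Finset.coe_insert, Finset.coe_singleton]; exact h.gen⟩
  obtain ⟨Φ⟩ := exists_natBij hs.symm
  obtain ⟨L, _, _, w, ρ, hM⟩ := exists_model h Φ
  obtain ⟨V, _, Gr, ty, hV, hT⟩ := hM.exists_tree
  obtain ⟨α, β, Y, hα, hβ, htα, htβ, hgen, hgood⟩ := hT.exists_gens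
  have hfam : ∀ W : Finset Λ, (∀ g ∈ W, ρ g ≠ 1) → ∃ (Q : Type) (_ : Group Q) (_ : Finite Q)
      (π : Λ →* Q), Good h Φ ρ π ∧ ∀ g ∈ W, π g ≠ 1 := by
    intro W hW
    obtain ⟨Q, _, _, π, h1, h2, h3, h4, h5⟩ := hM.resid W hW
    exact ⟨Q, inferInstance, inferInstance, π, ⟨h1, h2, h4, h5⟩, h3⟩
  have ha2 : (ρ α) ^ 2 = 1 := by
    by_contra hne
    obtain ⟨Q, _, _, π, hπ, hW⟩ := hfam {α ^ 2} (by
      intro g hg
      rw [Finset.mem_singleton] at hg
      rw [hg, map_pow]; exact hne)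
    apply hW (α ^ 2) (Finset.mem_singleton_self _)
    rw [map_pow]
    exact (hgood Q π hπ).1
  have hb3 : (ρ β) ^ 3 = 1 := by
    by_contra hne
    obtain ⟨Q, _, _, π, hπ, hW⟩ := hfam {β ^ 3} (by
      intro g hg
      rw [Finset.mem_singleton] at hg
      rw [hg, map_pow]; exact hne)
    apply hW (β ^ 3) (Finset.mem_singleton_self _)
    rw [map_pow]
    exact (hgood Q π hπ).2.1
  have hstab : ∀ u ∈ Y, ∀ g ∈ MulAction.stabilizer Λ u,
      ρ g = 1 ∨ ρ g = ρ α ∨ ρ g = ρ β ∨ ρ g = (ρ β) ^ 2 := by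
    intro u hu g hg
    by_contra hno
    push Not at hno
    obtain ⟨n1, n2, n3, n4⟩ := hno
    obtain ⟨Q, _, _, π, hπ, hW⟩ := hfam {g, g * α⁻¹, g * β⁻¹, g * (β ^ 2)⁻¹} (by
      intro k hk
      simp only [Finset.mem_insert, Finset.mem_singleton] at hk
      rcases hk with rfl | rfl | rfl | rfl
      · exact n1
      · rw [map_mul, map_inv, Ne, mul_inv_eq_one]; exact n2
      · rw [map_mul, map_inv, Ne, mul_inv_eq_one]; exact n3
      · rw [map_mul, map_inv, map_pow, Ne, mul_inv_eq_one]; exact n4)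
    have w1 := hW g (by simp)
    have w2 := hW (g * α⁻¹) (by simp)
    have w3 := hW (g * β⁻¹) (by simp)
    have w4 := hW (g * (β ^ 2)⁻¹) (by simp)
    rw [map_mul, map_inv, Ne, mul_inv_eq_one] at w2 w3 w4
    rw [map_pow] at w4
    rcases (hgood Q π hπ).2.2 u hu g hg with (h1 | h1) | (h1 | h1 | h1)
    · exact w1 h1
    · exact w2 h1
    · exact w1 h1
    · exact w3 h1
    · exact w4 h1
  obtain ⟨σ, hσx, hσy⟩ := h.lift (GL (Fin 2) L) (ρ α) (ρ β) ha2 hb3
  have hrange : ∀ l : Λ, ρ l ∈ σ.range := by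
    have h1 : (⊤ : Subgroup Λ) ≤ σ.range.comap ρ := by
      rw [← hgen, iSup₂_le_iff]
      intro u hu g hg
      rw [Subgroup.mem_comap]
      rcases hstab u hu g hg with h1 | h1 | h1 | h1
      · rw [h1]; exact one_mem _
      · rw [h1, ← hσx]; exact ⟨x, rfl⟩
      · rw [h1, ← hσy]; exact ⟨y, rfl⟩
      · rw [h1, ← hσy, ← map_pow]; exact ⟨y ^ 2, rfl⟩
    exact fun l => h1 (Subgroup.mem_top l)
  -- the trace of `σ`
  have hdetσ : ∀ g, (σ g).val.det = (((eps h g : ℤˣ) : ℤ) : L) := by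
    have h1 : (Matrix.GeneralLinearGroup.det : GL (Fin 2) L →* Lˣ).comp σ =
        (Units.map (Int.castRingHom L).toMonoidHom).comp (eps h) := by
      apply hom_ext h
      · apply Units.ext
        show (σ x).val.det = (((eps h x : ℤˣ) : ℤ) : L)
        rw [hσx, hM.det, hα, eps_x]
      · apply Units.ext
        show (σ y).val.det = (((eps h y : ℤˣ) : ℤ) : L)
        rw [hσy, hM.det, hβ, eps_y]
    intro g
    exact congrArg Units.val (DFunLike.congr_fun h1 g)
  have hchar := PChar.of_rep σ (eps h) hdetσ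
  have heq := PChar.eq_rep h hchar (by rw [hσy]; exact htβ)
  set s : L := (σ (x * y)).val.trace with hs_def
  let φ : F[X] →+* L := (Polynomial.aeval s : F[X] →ₐ[F] L).toRingHom
  have hφX : φ X = s := Polynomial.aeval_X s
  have hφ : ∀ g, φ (rep h (X : F[X]) g).val.trace = (σ g).val.trace := by
    intro g
    have h1 := congrFun heq g
    have h2 : Matrix.GeneralLinearGroup.map φ (rep h (X : F[X]) g) = rep h s g := by
      have h3 := DFunLike.congr_fun (map_rep h φ (X : F[X])) g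
      rw [hφX] at h3
      exact h3
    refine Eq.trans ?_ h1.symm
    rw [← h2, Matrix.trace_fin_two, Matrix.trace_fin_two, map_add]
    rfl
  have hφinj : Function.Injective φ := by
    rw [injective_iff_map_eq_zero]
    by_contra hno
    push Not at hno
    obtain ⟨P, hP, hP0⟩ := hno
    have hker : RingHom.ker φ ≠ ⊥ := by
      intro h1
      have : P ∈ RingHom.ker φ := hP
      rw [h1, Ideal.mem_bot] at this
      exact hP0 this
    have hfq : Finite (F[X] ⧸ RingHom.ker φ) := finite_quot_poly 13 ⟨RingHom.ker φ, hker⟩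
    have hfr : Finite φ.range := Finite.of_equiv _ (RingHom.quotientKerEquivRange φ).toEquiv
    apply hM.infinite
    refine Set.Finite.subset (Set.toFinite (φ.range : Set L)) ?_
    have h1 : Algebra.adjoin F (Set.range fun g => (ρ g).val.trace) ≤
        (Polynomial.aeval s : F[X] →ₐ[F] L).range := by
      rw [Algebra.adjoin_le_iff]
      rintro _ ⟨l, rfl⟩
      obtain ⟨g, hg⟩ := hrange l
      exact ⟨_, (hφ g).trans (by rw [hg])⟩
    exact fun z hz => h1 hz
  have hσinj : Function.Injective σ := by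
    rw [injective_iff_map_eq_one]
    intro g hg
    apply faithful h g
    intro k
    apply hφinj
    rw [hφ, hφ, map_mul, hg, one_mul]
  -- the surjection
  let ρ' : Λ →* σ.range := ρ.codRestrict σ.range hrange
  let e : Γ ≃* σ.range := MonoidHom.ofInjective hσinj
  let ψ : Λ →* Γ := e.symm.toMonoidHom.comp ρ'
  have hψ : ∀ l g, ρ l = σ g → ψ l = g := by
    intro l g hlg
    show e.symm (ρ' l) = g
    rw [MulEquiv.symm_apply_eq]
    exact Subtype.ext hlg
  have hψs : Function.Surjective ψ := by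
    rw [← MonoidHom.range_eq_top, eq_top_iff, ← h.gen, Subgroup.closure_le]
    rintro z (rfl | rfl)
    · exact ⟨α, hψ _ _ hσx.symm⟩
    · exact ⟨β, hψ _ _ hσy.symm⟩
  exact ⟨MulEquiv.ofBijective ψ ⟨injective_of_surj hs ψ hψs, hψs⟩⟩

/-- `PSL(2,ℤ)` is profinitely rigid in the absolute sense. -/
theorem rigid_psl : ProfinitelyRigid (Matrix.ProjectiveSpecialLinearGroup (Fin 2) ℤ) := by
  obtain ⟨x, y, h⟩ := isC2C3_psl
  intro Λ _ hΛ
  obtain ⟨h1, h2, h3⟩ := hΛ
  exact rigid h h3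

end

end Pool.Agent.PSL2Z
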